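import Pool.Agent.helper41.DG.NormLoc2

/-! # The local data of the quadratic forms `u² + D v²` -/

set_option autoImplicit false
open scoped Classical

open Finset Pool.Agent.DG

namespace Pool.Agent.DL

/-- the indicator function of `p ∣ (q₁ v₁ + r₁)² + D (q₂ v₂ + r₂)²` -/
noncomputable def nbD (D : ℕ) (q r : ℤ × ℤ) (p : ℕ) (v : ℤ × ℤ) : ℝ :=
  if (p : ℤ) ∣ (q.1 * v.1 + r.1) ^ 2 + D * (q.2 * v.2 + r.2) ^ 2 then 1 else 0

theorem NormLocD_two {p D : ℕ} (hp2 : ¬ p ∣ 2 * D) : (2 : ZMod p) ≠ 0 := by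
  intro h
  have h3 : ((2 : ℕ) : ZMod p) = 0 := by exact_mod_cast h
  rw [ZMod.natCast_eq_zero_iff] at h3
  exact hp2 (dvd_mul_of_dvd_left h3 D)

theorem NormLocD_D {p D : ℕ} (hp2 : ¬ p ∣ 2 * D) : (D : ZMod p) ≠ 0 := by
  intro h
  rw [ZMod.natCast_eq_zero_iff] at h
  exact hp2 (dvd_mul_of_dvd_right h 2)

/-- the indicator of the zero set of the form -/
theorem NormLocD_nb {p D : ℕ} (hp : p.Prime) (hp2 : ¬ p ∣ 2 * D) {c c' : ℕ} {q q' : ℤ × ℤ}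
    (hc : (p : ℤ) ∣ (c : ℤ) ^ 2 + D * (q.2 * q'.1) ^ 2) (hc' : (p : ℤ) ∣ (c : ℤ) + c')
    (hq1 : (p : ℤ) ∣ q.1 * q'.1 - 1) (hq2 : (p : ℤ) ∣ q.2 * q'.2 - 1) (r v : ℤ × ℤ) :
    ((nbD D q r p v : ℝ) : ℂ) =
      (if (p : ℤ) ∣ (v.1 + q'.1 * r.1) + c * (v.2 + q'.2 * r.2) then 1 else 0) +
      (if (p : ℤ) ∣ (v.1 + q'.1 * r.1) + c' * (v.2 + q'.2 * r.2) then 1 else 0) -
      (if (p : ℤ) ∣ v.1 + q'.1 * r.1 then 1 else 0) *
        (if (p : ℤ) ∣ v.2 + q'.2 * r.2 then 1 else 0) := by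
  have : Fact p.Prime := ⟨hp⟩
  simp only [← ZMod.intCast_zmod_eq_zero_iff_dvd] at hc hc' hq1 hq2 ⊢
  unfold nbD
  simp only [← ZMod.intCast_zmod_eq_zero_iff_dvd]
  push_cast at hc hc' hq1 hq2 ⊢
  set E : ZMod p := (D : ZMod p) with hE
  set C : ZMod p := (c : ZMod p) with hC
  set C' : ZMod p := (c' : ZMod p) with hC''
  set Q1 : ZMod p := (q.1 : ZMod p) with hQ1
  set Q1' : ZMod p := (q'.1 : ZMod p) with hQ1'
  set Q2 : ZMod p := (q.2 : ZMod p) with hQ2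
  set Q2' : ZMod p := (q'.2 : ZMod p) with hQ2'
  set x : ZMod p := (v.1 : ZMod p) + Q1' * (r.1 : ZMod p) with hx
  set y : ZMod p := (v.2 : ZMod p) + Q2' * (r.2 : ZMod p) with hy
  have h2 : (2 : ZMod p) ≠ 0 := NormLocD_two hp2
  have hE0 : E ≠ 0 := NormLocD_D hp2
  have hQ10 : Q1 ≠ 0 := by
    intro h
    rw [h, zero_mul, zero_sub] at hq1
    exact one_ne_zero (neg_eq_zero.1 hq1)
  have hQ1'0 : Q1' ≠ 0 := by
    intro h
    rw [h, mul_zero, zero_sub] at hq1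
    exact one_ne_zero (neg_eq_zero.1 hq1)
  have hQ20 : Q2 ≠ 0 := by
    intro h
    rw [h, zero_mul, zero_sub] at hq2
    exact one_ne_zero (neg_eq_zero.1 hq2)
  have hC0 : C ≠ 0 := by
    intro h
    rw [h] at hc
    have h4 : E * (Q2 * Q1') ^ 2 = 0 := by linear_combination hc
    exact mul_ne_zero hQ20 hQ1'0 (pow_eq_zero_iff (two_ne_zero) |>.1
      ((mul_eq_zero.1 h4).resolve_left hE0))
  have hCC : C' = -C := by linear_combination hc'
  have e1 : (Q1 * (v.1 : ZMod p) + (r.1 : ZMod p)) ^ 2 +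
      E * (Q2 * (v.2 : ZMod p) + (r.2 : ZMod p)) ^ 2 =
      Q1 ^ 2 * ((x + C * y) * (x + C' * y)) := by
    have f1 : Q1 * (v.1 : ZMod p) + (r.1 : ZMod p) = Q1 * x := by
      rw [hx]
      linear_combination (-(r.1 : ZMod p)) * hq1
    have f2 : Q2 * (v.2 : ZMod p) + (r.2 : ZMod p) = Q2 * y := by
      rw [hy]
      linear_combination (-(r.2 : ZMod p)) * hq2
    rw [f1, f2, hCC]
    linear_combination (Q1 ^ 2 * y ^ 2) * hc - (E * Q2 ^ 2 * y ^ 2 * (Q1 * Q1' + 1)) * hq1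
  rw [e1]
  have e2 : Q1 ^ 2 * ((x + C * y) * (x + C' * y)) = 0 ↔ x + C * y = 0 ∨ x + C' * y = 0 := by
    rw [mul_eq_zero, or_iff_right (pow_ne_zero 2 hQ10), mul_eq_zero]
  have e3 : (x + C * y = 0 ∧ x + C' * y = 0) ↔ (x = 0 ∧ y = 0) := by
    constructor
    · rintro ⟨g1, g2⟩
      have g3 : 2 * (C * y) = 0 := by
        rw [hCC] at g2
        linear_combination g1 - g2
      have g4 : y = 0 := by
        rcases mul_eq_zero.1 g3 with h | h
        · exact absurd h h2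
        · exact (mul_eq_zero.1 h).resolve_left hC0
      refine ⟨?_, g4⟩
      rw [g4, mul_zero, add_zero] at g1
      exact g1
    · rintro ⟨g1, g2⟩
      rw [g1, g2]
      simp
  by_cases hA : x + C * y = 0
  · by_cases hB : x + C' * y = 0
    · obtain ⟨hx0, hy0⟩ := e3.1 ⟨hA, hB⟩
      rw [if_pos (e2.2 (Or.inl hA)), if_pos hA, if_pos hB, if_pos hx0, if_pos hy0]
      push_cast
      ring
    · have hxy : ¬ (x = 0 ∧ y = 0) := fun h => hB (e3.2 h).2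
      rw [if_pos (e2.2 (Or.inl hA)), if_pos hA, if_neg hB]
      by_cases hx0 : x = 0
      · rw [if_pos hx0, if_neg fun hy0 => hxy ⟨hx0, hy0⟩]
        push_cast
        ring
      · rw [if_neg hx0]
        push_cast
        ring
  · have hxy : ¬ (x = 0 ∧ y = 0) := fun h => hA (e3.2 h).1
    have hz : (if x = 0 then (1 : ℂ) else 0) * (if y = 0 then (1 : ℂ) else 0) = 0 := by
      by_cases hx0 : x = 0
      · rw [if_neg fun hy0 => hxy ⟨hx0, hy0⟩, mul_zero]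
      · rw [if_neg hx0, zero_mul]
    rw [hz, if_neg hA]
    by_cases hB : x + C' * y = 0
    · rw [if_pos (e2.2 (Or.inr hB)), if_pos hB]
      push_cast
      ring
    · rw [if_neg fun h => (e2.1 h).elim hA hB, if_neg hB]
      push_cast
      ring

theorem norm_locD (D : ℕ) (P : Finset ℕ) (q r : ℤ × ℤ)
    (hP : ∀ p ∈ P, p.Prime ∧ ¬ p ∣ 2 * D ∧ IsSquare (-(D : ZMod p)) ∧ ¬ (p : ℤ) ∣ q.1 ∧
      ¬ (p : ℤ) ∣ q.2) :
    ∃ b : ℕ → ℕ × ℕ → ℂ, Loc P (nbD D q r) b bt := by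
  have hex : ∀ p : ℕ, ∃ (c c' : ℕ) (q' : ℤ × ℤ), p ∈ P →
      (p : ℤ) ∣ (c : ℤ) ^ 2 + D * (q.2 * q'.1) ^ 2 ∧ (p : ℤ) ∣ (c : ℤ) + c' ∧
      (p : ℤ) ∣ q.1 * q'.1 - 1 ∧ (p : ℤ) ∣ q.2 * q'.2 - 1 ∧ ¬ (p : ℤ) ∣ (c : ℤ) := by
    intro p
    by_cases hp : p ∈ P
    · obtain ⟨h1, h2, h3', h3, h4⟩ := hP p hp
      have : Fact p.Prime := ⟨h1⟩
      obtain ⟨i, hi⟩ := h3'
      have hq1 : (q.1 : ZMod p) ≠ 0 := fun h => h3 ((ZMod.intCast_zmod_eq_zero_iff_dvd q.1 p).1 h)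
      have hq2 : (q.2 : ZMod p) ≠ 0 := fun h => h4 ((ZMod.intCast_zmod_eq_zero_iff_dvd q.2 p).1 h)
      have hi0 : i ≠ 0 := by
        intro h
        rw [h, mul_zero] at hi
        exact NormLocD_D h2 (neg_eq_zero.1 hi)
      refine ⟨(i * ((q.2 : ZMod p) * (q.1 : ZMod p)⁻¹)).val,
        (-(i * ((q.2 : ZMod p) * (q.1 : ZMod p)⁻¹))).val,
        ((((q.1 : ZMod p)⁻¹).val : ℤ), (((q.2 : ZMod p)⁻¹).val : ℤ)),
        fun _ => ⟨?_, ?_, ?_, ?_, ?_⟩⟩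
      · rw [← ZMod.intCast_zmod_eq_zero_iff_dvd]
        push_cast
        rw [ZMod.natCast_zmod_val, ZMod.natCast_zmod_val]
        linear_combination (-((q.2 : ZMod p) * (q.1 : ZMod p)⁻¹) ^ 2) * hi
      · rw [← ZMod.intCast_zmod_eq_zero_iff_dvd]
        push_cast
        rw [ZMod.natCast_zmod_val, ZMod.natCast_zmod_val, add_neg_cancel]
      · rw [← ZMod.intCast_zmod_eq_zero_iff_dvd]
        push_cast
        rw [ZMod.natCast_zmod_val, mul_inv_cancel₀ hq1, sub_self]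
      · rw [← ZMod.intCast_zmod_eq_zero_iff_dvd]
        push_cast
        rw [ZMod.natCast_zmod_val, mul_inv_cancel₀ hq2, sub_self]
      · rw [← ZMod.intCast_zmod_eq_zero_iff_dvd]
        push_cast
        rw [ZMod.natCast_zmod_val]
        exact mul_ne_zero hi0 (mul_ne_zero hq2 (inv_ne_zero hq1))
    · exact ⟨0, 0, 0, fun h => absurd h hp⟩
  choose c c' q' h using hex
  refine ⟨fun p => nlb2 p (c p) (c' p) (q' p) r, ?_, ?_, ?_, ?_, ?_, ?_, ?_, ?_⟩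
  · exact fun p hp => (hP p hp).1
  · intro p _ v
    unfold nbD
    split_ifs <;> norm_num
  · intro p _ v
    unfold nbD
    split_ifs <;> norm_num
  · intro p hp v
    obtain ⟨h1, h2, -⟩ := hP p hp
    obtain ⟨g1, g2, g3, g4, -⟩ := h p hp
    rw [nl2_expand h1.ne_zero, NormLocD_nb h1 h2 g1 g2 g3 g4]
  · intro p hp
    obtain ⟨h1, -, -⟩ := hP p hp
    unfold nlb2 bt
    simp only [mul_zero, Nat.zero_mod, if_true, mul_one, Nat.cast_zero, zero_mul, add_zero,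
      Int.cast_zero, zero_div, ec_zero, one_mul]
    push_cast
    ring
  · intro p hp
    have hp1 : (1 : ℝ) ≤ p := by exact_mod_cast (hP p hp).1.one_lt.le
    exact div_nonneg (by linarith) (by positivity)
  · intro p hp
    have hp0 : (0 : ℝ) < p := by exact_mod_cast (hP p hp).1.pos
    unfold bt
    rw [div_le_div_iff₀ (pow_pos hp0 2) hp0]
    nlinarith
  · intro p hp a ha h0
    obtain ⟨h1, h2, -⟩ := hP p hp
    obtain ⟨-, g2, -, -, g5⟩ := h p hp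
    have hp2 : p ≠ 2 := fun h5 => h2 (by rw [h5]; exact dvd_mul_right 2 D)
    exact nl2_small h1 hp2 g5 g2 (q' p) r ha h0

end Pool.Agent.DL
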