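import Pool.Agent.helper41.DL.MertD
import Pool.Agent.helper41.DG.WB

/-! # The products over the primes modulo which `-D` is a square -/

set_option autoImplicit false
open scoped Classical

open Finset Pool.Agent.DG

namespace Pool.Agent.DL

theorem mem_ID {D : ℕ} {w z : ℝ} {p : ℕ} : p ∈ ID D w z ↔
    p.Prime ∧ ¬ p ∣ 2 * D ∧ IsSquare (-(D : ZMod p)) ∧ w < (p : ℝ) ∧ (p : ℝ) ≤ z := by
  unfold ID
  rw [mem_filter, mem_Icc]
  constructor
  · rintro ⟨⟨h1, h2⟩, h3, h4, h5, h6⟩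
    exact ⟨h3, h4, h5, h6, (Nat.le_floor_iff' (by omega)).1 h2⟩
  · rintro ⟨h3, h4, h5, h6, h7⟩
    exact ⟨⟨h3.one_le, (Nat.le_floor_iff' h3.pos.ne').2 h7⟩, h3, h4, h5, h6⟩

theorem ID_block (D : ℕ) (hD : 1 ≤ D) : ∃ C1 : ℝ, 10 ≤ C1 ∧ ∀ w z : ℝ, C1 ≤ w → ∀ t : ℝ, 1 ≤ t →
    ∑ p ∈ (ID D w z).filter (fun p : ℕ => t < (p : ℝ) ∧ (p : ℝ) ≤ t ^ 2), 1 / (p : ℝ) ≤
      2 / 5 := by
  obtain ⟨C, hC, hM0⟩ := mertensD D hD
  have hM := fun w z hw hz => (abs_le.mp (hM0 w z hw hz)).2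
  refine ⟨max 10 (Real.exp (20 * C)), le_max_left _ _, fun w z hw t ht => ?_⟩
  have hw10 : 10 ≤ w := (le_max_left _ _).trans hw
  have hwe : Real.exp (20 * C) ≤ w := (le_max_right _ _).trans hw
  by_cases hle : max w t ≤ t ^ 2
  · have hw2 : 2 ≤ max w t := by
      have := le_max_left w t
      linarith
    have h1 := hM (max w t) (t ^ 2) hw2 hle
    have hlw : 20 * C ≤ Real.log (max w t) := by
      rw [Real.le_log_iff_exp_le (by linarith)]
      exact hwe.trans (le_max_left _ _)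
    have hlpos : 0 < Real.log (max w t) := by linarith
    have hsub : (ID D w z).filter (fun p : ℕ => t < (p : ℝ) ∧ (p : ℝ) ≤ t ^ 2) ⊆ ID D (max w t) (t ^ 2) := by
      intro p hp
      rw [mem_filter, mem_ID] at hp
      rw [mem_ID]
      exact ⟨hp.1.1, hp.1.2.1, hp.1.2.2.1, max_lt hp.1.2.2.2.1 hp.2.1, hp.2.2⟩
    have h2 : ∑ p ∈ (ID D w z).filter (fun p : ℕ => t < (p : ℝ) ∧ (p : ℝ) ≤ t ^ 2), 1 / (p : ℝ) ≤
        ∑ p ∈ ID D (max w t) (t ^ 2), 1 / (p : ℝ) :=
      sum_le_sum_of_subset_of_nonneg hsub fun p _ _ => by positivity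
    have h3 : C / Real.log (max w t) ≤ 1 / 20 := by
      rw [div_le_iff₀ hlpos]; linarith
    have h4 : Real.log (Real.log (t ^ 2) / Real.log (max w t)) ≤ Real.log 2 := by
      have ht1 : 1 < t := by
        by_contra hcon
        push Not at hcon
        have : t = 1 := le_antisymm hcon ht
        rw [this] at hle
        have := le_max_left w 1
        linarith
      have hlt : 0 < Real.log t := Real.log_pos ht1
      apply Real.log_le_log
      · rw [Real.log_pow]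
        push_cast
        positivity
      · rw [div_le_iff₀ hlpos, Real.log_pow]
        push_cast
        have : Real.log t ≤ Real.log (max w t) := Real.log_le_log (by linarith) (le_max_right _ _)
        linarith
    have h5 := Real.log_two_lt_d9
    linarith
  · have he : (ID D w z).filter (fun p : ℕ => t < (p : ℝ) ∧ (p : ℝ) ≤ t ^ 2) = ∅ := by
      rw [filter_eq_empty_iff]
      rintro p hp ⟨h1, h2⟩
      rw [mem_ID] at hp
      exact hle ((max_lt hp.2.2.2.1 h1).le.trans h2)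
    rw [he, sum_empty]
    norm_num

theorem WBD_sq_sum (D : ℕ) (w z : ℝ) (_hw : 2 ≤ w) : ∑ p ∈ ID D w z, 1 / (p : ℝ) ^ 2 ≤ 1 := by
  have hsub : ID D w z ⊆ Ioc 1 ⌊z⌋₊ := by
    intro p hp
    rw [mem_ID] at hp
    rw [mem_Ioc]
    exact ⟨hp.1.one_lt, Nat.le_floor hp.2.2.2.2⟩
  have h1 : ∑ p ∈ ID D w z, 1 / (p : ℝ) ^ 2 ≤ ∑ p ∈ Ioc 1 ⌊z⌋₊, 1 / (p : ℝ) ^ 2 :=
    sum_le_sum_of_subset_of_nonneg hsub (fun i _ _ => by positivity)
  have h2 : ∀ n : ℕ, 1 ≤ n → ∑ p ∈ Ioc 1 n, 1 / (p : ℝ) ^ 2 ≤ 1 - 1 / (n : ℝ) := by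
    intro n hn
    induction n, hn using Nat.le_induction with
    | base => simp
    | succ n hn ih =>
      have h0 : (1 : ℝ) ≤ n := by exact_mod_cast hn
      have h00 : (0 : ℝ) < n := by linarith
      rw [← Finset.insert_Ioc_right_eq_Ioc_add_one (by omega), sum_insert (by simp)]
      have : 1 / (((n + 1 : ℕ) : ℝ)) ^ 2 ≤ 1 / (n : ℝ) - 1 / (((n + 1 : ℕ) : ℝ)) := by
        push_cast
        rw [div_sub_div _ _ (by positivity) (by positivity), div_le_div_iff₀ (by positivity) (by positivity)]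
        nlinarith
      linarith
  rcases Nat.eq_zero_or_pos ⌊z⌋₊ with h | h
  · rw [h] at h1
    simp at h1
    simpa using h1.trans zero_le_one
  · have := h2 _ h
    have h3 : 0 ≤ 1 / ((⌊z⌋₊ : ℕ) : ℝ) := by positivity
    linarith

theorem W_leD (D : ℕ) (hD : 1 ≤ D) : ∃ C : ℝ, 0 < C ∧ ∀ w z : ℝ, 10 ≤ w → w ≤ z →
    ∏ p ∈ ID D w z, (1 - kp p * bt p) ≤ C * (Real.log w / Real.log z) ^ (3 / 4 : ℝ) := by
  obtain ⟨C, hC, hM0⟩ := mertensD D hD
  have hM := fun w z hw hz => (abs_le.mp (hM0 w z hw hz)).1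
  refine ⟨Real.exp (3 / 2 * C + 2), Real.exp_pos _, fun w z hw hz => ?_⟩
  have hlw : 1 ≤ Real.log w := wb_log_ge hw
  have hlz : 1 ≤ Real.log z := wb_log_ge (hw.trans hz)
  have hM1 := hM w z (by linarith) hz
  have hsq := WBD_sq_sum D w z (by linarith)
  have hp1 : ∀ p ∈ ID D w z, 10 < (p : ℝ) := by
    intro p hp
    rw [mem_ID] at hp
    linarith [hp.2.2.2.1]
  have hp2 : ∀ p ∈ ID D w z, 1 ≤ p := by
    intro p hp
    rw [mem_ID] at hp
    exact hp.1.one_lt.le
  have h1 : ∏ p ∈ ID D w z, (1 - kp p * bt p) ≤ ∏ p ∈ ID D w z, Real.exp (-(kp p * bt p)) := by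
    apply prod_le_prod
    · intro p hp
      have := wb_kb_le (hp2 p hp)
      have h10 := hp1 p hp
      have : 3 / (2 * (p : ℝ)) ≤ 1 := by
        rw [div_le_one (by linarith)]
        linarith
      linarith
    · intro p hp
      have := Real.add_one_le_exp (-(kp p * bt p))
      linarith
  rw [← Real.exp_sum] at h1
  have h2 : ∑ p ∈ ID D w z, -(kp p * bt p) ≤
      -(3 / 2) * ∑ p ∈ ID D w z, 1 / (p : ℝ) + 2 * ∑ p ∈ ID D w z, 1 / (p : ℝ) ^ 2 := by
    rw [mul_sum, mul_sum, ← sum_add_distrib]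
    apply sum_le_sum
    intro p hp
    have := wb_kb_ge (hp2 p hp)
    have h10 := hp1 p hp
    have e1 : -(3 / 2) * (1 / (p : ℝ)) = -(3 / (2 * (p : ℝ))) := by
      field_simp
    have e2 : 2 * (1 / (p : ℝ) ^ 2) = 2 / (p : ℝ) ^ 2 := by ring
    rw [e1, e2]
    linarith
  have hCw : C / Real.log w ≤ C := div_le_self hC.le hlw
  have h3 : ∑ p ∈ ID D w z, -(kp p * bt p) ≤
      -(3 / 4) * Real.log (Real.log z / Real.log w) + (3 / 2 * C + 2) := by
    linarith
  have hpos : 0 < Real.log w / Real.log z := by positivity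
  have e3 : (Real.log w / Real.log z) ^ (3 / 4 : ℝ) =
      Real.exp (-(3 / 4) * Real.log (Real.log z / Real.log w)) := by
    rw [Real.rpow_def_of_pos hpos]
    congr 1
    rw [Real.log_div (by linarith : Real.log w ≠ 0) (by linarith : Real.log z ≠ 0),
      Real.log_div (by linarith : Real.log z ≠ 0) (by linarith : Real.log w ≠ 0)]
    ring
  calc ∏ p ∈ ID D w z, (1 - kp p * bt p) ≤ Real.exp (∑ p ∈ ID D w z, -(kp p * bt p)) := h1
    _ ≤ Real.exp (-(3 / 4) * Real.log (Real.log z / Real.log w) + (3 / 2 * C + 2)) :=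
        Real.exp_le_exp.mpr h3
    _ = Real.exp (3 / 2 * C + 2) * (Real.log w / Real.log z) ^ (3 / 4 : ℝ) := by
        rw [Real.exp_add, e3]
        ring

theorem prod_sub_leD (D : ℕ) (w z : ℝ) (hw : 10 ≤ w) (m : ℕ) :
    ∏ p ∈ (ID D w z).filter (fun p => ¬ p ∣ m), (1 - 3 / 4 * bt p) ≤
      (∏ p ∈ ID D w z, (1 - kp p * bt p)) *
        ∏ p ∈ (ID D w z).filter (fun p => p ∣ m), (1 + 2 / (p : ℝ)) := by
  have hp1 : ∀ p ∈ ID D w z, 10 < (p : ℝ) := by
    intro p hp
    rw [mem_ID] at hp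
    linarith [hp.2.2.2.1]
  have hp2 : ∀ p ∈ ID D w z, 1 ≤ p := by
    intro p hp
    rw [mem_ID] at hp
    exact hp.1.one_lt.le
  rw [← prod_filter_mul_prod_filter_not (ID D w z) (fun p => p ∣ m) (fun p => 1 - kp p * bt p)]
  have hA : ∏ p ∈ (ID D w z).filter (fun p => ¬ p ∣ m), (1 - 3 / 4 * bt p) ≤
      ∏ p ∈ (ID D w z).filter (fun p => ¬ p ∣ m), (1 - kp p * bt p) := by
    apply prod_le_prod
    · intro p hp
      have hp' := (mem_filter.mp hp).1
      have h1 := wb_bt_le (hp2 p hp')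
      have h10 := hp1 p hp'
      have h3 : 2 / (p : ℝ) ≤ 1 := by
        rw [div_le_one (by linarith)]
        linarith
      linarith
    · intro p hp
      have hp' := (mem_filter.mp hp).1
      have h1 := wb_bt_nonneg (hp2 p hp')
      have hk : kp p ≤ 3 / 4 := by
        unfold kp
        have : 0 ≤ 1 / (2 * (p : ℝ)) := by positivity
        linarith
      have := mul_le_mul_of_nonneg_right hk h1
      linarith
  have hA0 : 0 ≤ ∏ p ∈ (ID D w z).filter (fun p => ¬ p ∣ m), (1 - kp p * bt p) := by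
    apply prod_nonneg
    intro p hp
    have hp' := (mem_filter.mp hp).1
    have := wb_kb_le (hp2 p hp')
    have h10 := hp1 p hp'
    have : 3 / (2 * (p : ℝ)) ≤ 1 := by
      rw [div_le_one (by linarith)]
      linarith
    linarith
  have hB : 1 ≤ (∏ p ∈ (ID D w z).filter (fun p => p ∣ m), (1 - kp p * bt p)) *
      ∏ p ∈ (ID D w z).filter (fun p => p ∣ m), (1 + 2 / (p : ℝ)) := by
    rw [← prod_mul_distrib]
    have h : ∀ s : Finset ℕ, (∀ p ∈ s, p ∈ ID D w z) →
        1 ≤ ∏ p ∈ s, ((1 - kp p * bt p) * (1 + 2 / (p : ℝ))) := by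
      intro s
      induction s using Finset.induction_on with
      | empty => intro _; simp
      | insert p s hps ih =>
        intro hs
        rw [prod_insert hps]
        have hp' := hs p (mem_insert_self _ _)
        have ih' := ih (fun q hq => hs q (mem_insert_of_mem hq))
        have h10 := hp1 p hp'
        have h0 : (0 : ℝ) < p := by linarith
        have h1 := wb_kb_le (hp2 p hp')
        have h2 : 1 ≤ (1 - kp p * bt p) * (1 + 2 / (p : ℝ)) := by
          have h3 : (1 - 3 / (2 * (p : ℝ))) * (1 + 2 / (p : ℝ)) ≤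
              (1 - kp p * bt p) * (1 + 2 / (p : ℝ)) := by
            apply mul_le_mul_of_nonneg_right _ (by positivity)
            linarith
          have h4 : 1 ≤ (1 - 3 / (2 * (p : ℝ))) * (1 + 2 / (p : ℝ)) := by
            have e : (1 - 3 / (2 * (p : ℝ))) * (1 + 2 / (p : ℝ)) - 1 =
                ((p : ℝ) - 6) / (2 * (p : ℝ) ^ 2) := by
              field_simp
              ring
            have : 0 ≤ ((p : ℝ) - 6) / (2 * (p : ℝ) ^ 2) := by
              apply div_nonneg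
              · linarith
              · positivity
            linarith
          linarith
        calc (1 : ℝ) = 1 * 1 := (one_mul 1).symm
          _ ≤ _ := mul_le_mul h2 ih' zero_le_one (by linarith)
    exact h _ (fun p hp => (mem_filter.mp hp).1)
  calc ∏ p ∈ (ID D w z).filter (fun p => ¬ p ∣ m), (1 - 3 / 4 * bt p)
      ≤ ∏ p ∈ (ID D w z).filter (fun p => ¬ p ∣ m), (1 - kp p * bt p) := hA
    _ = 1 * ∏ p ∈ (ID D w z).filter (fun p => ¬ p ∣ m), (1 - kp p * bt p) := (one_mul _).symm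
    _ ≤ _ := mul_le_mul_of_nonneg_right hB hA0
    _ = _ := by ring

theorem WBD_prod (D : ℕ) (w z : ℝ) (hw : 2 ≤ w) :
    Real.exp (-2) * Real.exp (-∑ p ∈ ID D w z, 1 / (p : ℝ)) ≤
      ∏ p ∈ ID D w z, (1 - 1 / (p : ℝ)) := by
  have hp2 : ∀ p ∈ ID D w z, (2:ℝ) < p := by
    intro p hp
    rw [mem_ID] at hp
    linarith [hp.2.2.2.1]
  have h1 : ∀ p ∈ ID D w z, Real.exp (-(1 / (p : ℝ)) - 2 * (1 / (p : ℝ) ^ 2)) ≤
      1 - 1 / (p : ℝ) := by
    intro p hp
    have h5 := hp2 p hp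
    have hx1 : (0:ℝ) < 1 - 1 / (p : ℝ) := by
      rw [sub_pos, div_lt_one (by linarith)]; linarith
    have h2 : Real.exp (-(1 / (p : ℝ)) - 2 * (1 / (p : ℝ) ^ 2)) ≤
        Real.exp (-(1 / ((p : ℝ) - 1))) := by
      apply Real.exp_le_exp.2
      have e : 1 / ((p : ℝ) - 1) ≤ 1 / (p : ℝ) + 2 * (1 / (p : ℝ) ^ 2) := by
        have e1 : 1 / (p : ℝ) + 2 * (1 / (p : ℝ) ^ 2) = ((p : ℝ) + 2) / (p : ℝ) ^ 2 := by
          have : (p : ℝ) ≠ 0 := by linarith
          field_simp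
        rw [e1, div_le_div_iff₀ (by linarith) (by positivity)]
        nlinarith
      linarith
    refine h2.trans ?_
    rw [Real.exp_neg, inv_le_comm₀ (Real.exp_pos _) hx1]
    have h3 := Real.add_one_le_exp (1 / ((p : ℝ) - 1))
    have e : (1 - 1 / (p : ℝ))⁻¹ = 1 / ((p : ℝ) - 1) + 1 := by
      have : (p : ℝ) - 1 ≠ 0 := by linarith
      have : (p : ℝ) ≠ 0 := by linarith
      field_simp
      ring
    rw [e]; exact h3
  have h2 : ∏ p ∈ ID D w z, Real.exp (-(1 / (p : ℝ)) - 2 * (1 / (p : ℝ) ^ 2)) ≤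
      ∏ p ∈ ID D w z, (1 - 1 / (p : ℝ)) :=
    prod_le_prod (fun p _ => (Real.exp_pos _).le) h1
  refine le_trans ?_ h2
  rw [← Real.exp_sum, ← Real.exp_add]
  apply Real.exp_le_exp.2
  rw [sum_sub_distrib, ← mul_sum, sum_neg_distrib]
  have h3 := WBD_sq_sum D w z hw
  linarith

/-- the lower bound of the product `∏ (1 - 1/p)` -/
theorem V_geD (D : ℕ) (hD : 1 ≤ D) : ∃ c : ℝ, 0 < c ∧ ∀ w z : ℝ, 2 ≤ w → w ≤ z →
    c * Real.sqrt (Real.log w / Real.log z) ≤ ∏ p ∈ ID D w z, (1 - 1 / (p : ℝ)) := by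
  obtain ⟨C, hC, hM0⟩ := mertensD D hD
  have hM := fun w z hw hz => (abs_le.mp (hM0 w z hw hz)).2
  refine ⟨Real.exp (-2) * Real.exp (-(C / Real.log 2)), by positivity, fun w z hw hz => ?_⟩
  have hl2 : 0 < Real.log 2 := Real.log_pos (by norm_num)
  have hlw : Real.log 2 ≤ Real.log w := Real.log_le_log (by norm_num) hw
  have hlz : Real.log 2 ≤ Real.log z := Real.log_le_log (by norm_num) (hw.trans hz)
  have hM1 := hM w z hw hz
  have hCw : C / Real.log w ≤ C / Real.log 2 := div_le_div_of_nonneg_left hC.le hl2 hlw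
  have hpos : 0 < Real.log w / Real.log z := div_pos (by linarith) (by linarith)
  have e3 : Real.sqrt (Real.log w / Real.log z) =
      Real.exp (-(1 / 2 * Real.log (Real.log z / Real.log w))) := by
    rw [Real.sqrt_eq_rpow, Real.rpow_def_of_pos hpos]
    congr 1
    rw [Real.log_div (by linarith : Real.log w ≠ 0) (by linarith : Real.log z ≠ 0),
      Real.log_div (by linarith : Real.log z ≠ 0) (by linarith : Real.log w ≠ 0)]
    ring
  calc Real.exp (-2) * Real.exp (-(C / Real.log 2)) * Real.sqrt (Real.log w / Real.log z)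
      = Real.exp (-2) * Real.exp (-(1 / 2 * Real.log (Real.log z / Real.log w) +
          C / Real.log 2)) := by
        rw [e3, mul_assoc, ← Real.exp_add]
        congr 2
        ring
    _ ≤ Real.exp (-2) * Real.exp (-∑ p ∈ ID D w z, 1 / (p : ℝ)) := by
        apply mul_le_mul_of_nonneg_left _ (Real.exp_pos _).le
        apply Real.exp_le_exp.mpr
        linarith
    _ ≤ _ := WBD_prod D w z hw

end Pool.Agent.DL
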