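import Pool.Agent.helper41.DG.Sv
import Pool.Agent.helper41.DL.WBD
import Pool.Agent.helper41.DL.NormLocD

/-! # The upper bound sieve for the quadratic forms `u² + D v²` -/

set_option autoImplicit false
open scoped Classical

open Finset Pool.Agent.DG

namespace Pool.Agent.DL

/-- the sifting primes -/
noncomputable def IND (D N : ℕ) (w : ℝ) : Finset ℕ := ID D w ((N : ℝ) ^ (1 / 30 : ℝ))

theorem SvD_nb_nonneg (D : ℕ) (q r : ℤ × ℤ) (p : ℕ) (v : ℤ × ℤ) : 0 ≤ nbD D q r p v := by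
  unfold nbD
  split_ifs <;> norm_num

theorem SvD_nb_le (D : ℕ) (q r : ℤ × ℤ) (p : ℕ) (v : ℤ × ℤ) : nbD D q r p v ≤ 1 := by
  unfold nbD
  split_ifs <;> norm_num

/-- a factor lies between `0` and `1` -/
theorem SvD_fac (D : ℕ) (q r : ℤ × ℤ) (p : ℕ) (v : ℤ × ℤ) {κ : ℝ} (h0 : 0 ≤ κ)
    (h1 : κ ≤ 3 / 4) : 0 ≤ 1 - κ * nbD D q r p v ∧ 1 - κ * nbD D q r p v ≤ 1 := by
  have h2 := SvD_nb_nonneg D q r p v
  have h3 := SvD_nb_le D q r p v
  have h4 : κ * nbD D q r p v ≤ κ * 1 := mul_le_mul_of_nonneg_left h3 h0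
  have h5 : 0 ≤ κ * nbD D q r p v := mul_nonneg h0 h2
  constructor <;> linarith

theorem SvD_kp {p : ℕ} (hp : 1 ≤ p) : 0 ≤ kp p ∧ kp p ≤ 3 / 4 := by
  have h1 : (1 : ℝ) ≤ p := by exact_mod_cast hp
  have h0 : (0 : ℝ) < p := by linarith
  unfold kp
  have h2 : 1 / (2 * (p : ℝ)) ≤ 1 / 2 := by
    apply one_div_le_one_div_of_le (by norm_num)
    linarith
  have h3 : 0 ≤ 1 / (2 * (p : ℝ)) := by positivity
  constructor <;> linarith

/-- the product over more primes is smaller -/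
theorem SvD_mono {s t : Finset ℕ} (hst : s ⊆ t) {f : ℕ → ℝ} (h0 : ∀ p ∈ t, 0 ≤ f p)
    (h1 : ∀ p ∈ t, f p ≤ 1) : ∏ p ∈ t, f p ≤ ∏ p ∈ s, f p := by
  rw [← prod_sdiff hst]
  have h2 : ∏ p ∈ t \ s, f p ≤ 1 :=
    prod_le_one (fun p hp => h0 p (mem_sdiff.1 hp).1) (fun p hp => h1 p (mem_sdiff.1 hp).1)
  have h3 : 0 ≤ ∏ p ∈ s, f p := prod_nonneg (fun p hp => h0 p (hst hp))
  calc (∏ p ∈ t \ s, f p) * ∏ p ∈ s, f p ≤ 1 * ∏ p ∈ s, f p :=
        mul_le_mul_of_nonneg_right h2 h3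
    _ = _ := one_mul _

/-- the product of factors at least one over more primes is larger -/
theorem SvD_mono' {s t : Finset ℕ} (hst : s ⊆ t) {f : ℕ → ℝ} (h1 : ∀ p ∈ t, 1 ≤ f p) :
    ∏ p ∈ s, f p ≤ ∏ p ∈ t, f p := by
  rw [← prod_sdiff hst]
  have h2 : 1 ≤ ∏ p ∈ t \ s, f p := by
    have h := prod_le_prod (s := t \ s) (f := fun _ => (1 : ℝ)) (g := f)
      (fun _ _ => zero_le_one) (fun p hp => h1 p (mem_sdiff.1 hp).1)
    simpa using h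
  have h3 : 0 ≤ ∏ p ∈ s, f p := prod_nonneg (fun p hp => by linarith [h1 p (hst hp)])
  calc ∏ p ∈ s, f p = 1 * ∏ p ∈ s, f p := (one_mul _).symm
    _ ≤ _ := mul_le_mul_of_nonneg_right h2 h3

theorem SvD_ID_sub {D : ℕ} {w z z' : ℝ} (h : z ≤ z') : ID D w z ⊆ ID D w z' := by
  intro p hp
  rw [mem_ID] at hp ⊢
  exact ⟨hp.1, hp.2.1, hp.2.2.1, hp.2.2.2.1, hp.2.2.2.2.trans h⟩

/-- the sum of the products over a smaller range of primes -/
theorem SvD_box {D : ℕ} {C1 : ℝ} (hC : 10 ≤ C1)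
    (hblk : ∀ w z : ℝ, C1 ≤ w → ∀ t : ℝ, 1 ≤ t →
      ∑ p ∈ (ID D w z).filter (fun p : ℕ => t < (p : ℝ) ∧ (p : ℝ) ≤ t ^ 2), 1 / (p : ℝ) ≤ 2 / 5)
    (κ : ℕ → ℝ) (hκ : ∀ p, 1 ≤ p → 0 ≤ κ p ∧ κ p ≤ 3 / 4) (S : ℕ → Prop)
    [DecidablePred S]
    (N M : ℕ) (w z : ℝ) (q r u : ℤ × ℤ) (hw : C1 ≤ w) (hz : 1 ≤ z)
    (hz1 : z ≤ (N : ℝ) ^ (1 / 30 : ℝ)) (hz2 : z ^ 20 ≤ M)
    (hq : ∀ p ∈ IND D N w, ¬ (p : ℤ) ∣ q.1 ∧ ¬ (p : ℤ) ∣ q.2) :
    ∑ i ∈ range M, ∑ j ∈ range M,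
      ∏ p ∈ (IND D N w).filter S, (1 - κ p * nbD D q r p (u.1 + i, u.2 + j)) ≤
      6 * (M : ℝ) ^ 2 * ∏ p ∈ (ID D w z).filter S, (1 - κ p * bt p) := by
  have hsub : ID D w z ⊆ IND D N w := SvD_ID_sub hz1
  have hsubS : (ID D w z).filter S ⊆ (IND D N w).filter S := filter_subset_filter _ hsub
  have hpos : ∀ p ∈ (IND D N w).filter S, 1 ≤ p := by
    intro p hp
    have h := (mem_filter.1 hp).1
    unfold IND at h
    rw [mem_ID] at h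
    exact h.1.one_lt.le
  obtain ⟨b, hb⟩ := norm_locD D ((ID D w z).filter S) q r (by
    intro p hp
    have h := (mem_filter.1 hp).1
    have h' := hq p (hsub h)
    rw [mem_ID] at h
    exact ⟨h.1, h.2.1, h.2.2.1, h'.1, h'.2⟩)
  refine le_trans ?_ (upper_box hb (κ := κ) (w := w) (z := z) ?_ ?_ (hC.trans hw) hz ?_ ?_ ?_
    hz2 u)
  · apply sum_le_sum
    intro i _
    apply sum_le_sum
    intro j _
    exact SvD_mono hsubS
      (fun p hp => (SvD_fac D q r p _ (hκ p (hpos p hp)).1 (hκ p (hpos p hp)).2).1)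
      (fun p hp => (SvD_fac D q r p _ (hκ p (hpos p hp)).1 (hκ p (hpos p hp)).2).2)
  · exact fun p hp => (hκ p (hpos p (hsubS hp))).1
  · exact fun p hp => (hκ p (hpos p (hsubS hp))).2
  · intro p hp
    have h := (mem_filter.1 hp).1
    rw [mem_ID] at h
    exact h.2.2.2.1
  · intro p hp
    have h := (mem_filter.1 hp).1
    rw [mem_ID] at h
    exact h.2.2.2.2
  · intro t ht
    refine le_trans ?_ (hblk w z hw t ht)
    apply sum_le_sum_of_subset_of_nonneg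
    · exact filter_subset_filter _ (filter_subset _ _)
    · intro p _ _
      positivity

/-- the trivial bound -/
theorem SvD_triv {D : ℕ} (κ : ℕ → ℝ) (hκ : ∀ p, 1 ≤ p → 0 ≤ κ p ∧ κ p ≤ 3 / 4)
    (S : ℕ → Prop) [DecidablePred S] (N M : ℕ) (w : ℝ) (q r u : ℤ × ℤ) :
    ∑ i ∈ range M, ∑ j ∈ range M,
      ∏ p ∈ (IND D N w).filter S, (1 - κ p * nbD D q r p (u.1 + i, u.2 + j)) ≤
      (M : ℝ) ^ 2 := by
  have hpos : ∀ p ∈ (IND D N w).filter S, 1 ≤ p := by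
    intro p hp
    have h := (mem_filter.1 hp).1
    unfold IND at h
    rw [mem_ID] at h
    exact h.1.one_lt.le
  calc _ ≤ ∑ i ∈ range M, ∑ j ∈ range M, (1 : ℝ) := by
        apply sum_le_sum
        intro i _
        apply sum_le_sum
        intro j _
        exact prod_le_one
          (fun p hp => (SvD_fac D q r p _ (hκ p (hpos p hp)).1 (hκ p (hpos p hp)).2).1)
          (fun p hp => (SvD_fac D q r p _ (hκ p (hpos p hp)).1 (hκ p (hpos p hp)).2).2)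
    _ = (M : ℝ) ^ 2 := by
        simp
        ring

/-- the choice of the upper end -/
theorem SvD_z {N M : ℕ} (hN : 2 ≤ N) (hM : 1 ≤ M) (hMN : M ≤ N ^ 2) :
    ∃ z : ℝ, 1 ≤ z ∧ z ≤ (N : ℝ) ^ (1 / 30 : ℝ) ∧ z ^ 20 ≤ M ∧
      Real.log M ≤ 60 * Real.log z := by
  have hN1 : (1 : ℝ) ≤ N := by exact_mod_cast (by omega : 1 ≤ N)
  have hM1 : (1 : ℝ) ≤ M := by exact_mod_cast hM
  have hMN' : (M : ℝ) ≤ (N : ℝ) ^ 2 := by exact_mod_cast hMN
  have hl : Real.log M ≤ 2 * Real.log N := by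
    have h := Real.log_le_log (by linarith) hMN'
    rw [Real.log_pow] at h
    push_cast at h
    exact h
  have hM20 : ((M : ℝ) ^ (1 / 20 : ℝ)) ^ 20 = M := by
    rw [← Real.rpow_natCast, ← Real.rpow_mul (by linarith)]
    norm_num
  have hlM : 0 ≤ Real.log M := Real.log_nonneg hM1
  rcases le_total ((N : ℝ) ^ (1 / 30 : ℝ)) ((M : ℝ) ^ (1 / 20 : ℝ)) with h | h
  · refine ⟨(N : ℝ) ^ (1 / 30 : ℝ), Real.one_le_rpow hN1 (by norm_num), le_rfl, ?_, ?_⟩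
    · rw [← hM20]
      exact pow_le_pow_left₀ (by positivity) h 20
    · rw [Real.log_rpow (by linarith)]
      linarith
  · refine ⟨(M : ℝ) ^ (1 / 20 : ℝ), Real.one_le_rpow hM1 (by norm_num), h, hM20.le, ?_⟩
    rw [Real.log_rpow (by linarith)]
    linarith

/-- comparison of the logarithms -/
theorem SvD_log {w lz lM : ℝ} (hw : 10 ≤ w) (hM : 0 ≤ lM) (h : lM ≤ 60 * lz)
    (hlz : Real.log w ≤ lz) :
    (Real.log w / lz) ^ (3 / 4 : ℝ) ≤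
      61 * (Real.log w / (1 + lM)) ^ (3 / 4 : ℝ) := by
  have hlw : 1 ≤ Real.log w := wb_log_ge hw
  have h1 : Real.log w / lz ≤ 61 * (Real.log w / (1 + lM)) := by
    rw [mul_div_assoc', div_le_div_iff₀ (by linarith) (by linarith)]
    nlinarith
  have h2 : (Real.log w / lz) ^ (3 / 4 : ℝ) ≤
      (61 * (Real.log w / (1 + lM))) ^ (3 / 4 : ℝ) :=
    Real.rpow_le_rpow (div_nonneg (by linarith) (by linarith)) h1 (by norm_num)
  have h4 : 0 ≤ Real.log w / (1 + lM) := div_nonneg (by linarith) (by linarith)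
  rw [Real.mul_rpow (by norm_num) h4] at h2
  have h3 : (61 : ℝ) ^ (3 / 4 : ℝ) ≤ 61 := by
    calc (61 : ℝ) ^ (3 / 4 : ℝ) ≤ (61 : ℝ) ^ (1 : ℝ) :=
          Real.rpow_le_rpow_of_exponent_le (by norm_num) (by norm_num)
      _ = 61 := Real.rpow_one _
  exact h2.trans (mul_le_mul_of_nonneg_right h3 (Real.rpow_nonneg h4 _))

/-- the case of a large `w` -/
theorem SvD_log' {w lz lM : ℝ} (hw : 10 ≤ w) (hM : 0 ≤ lM) (h : lM ≤ 60 * lz)
    (hlz : lz ≤ Real.log w) :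
    1 ≤ 61 * (Real.log w / (1 + lM)) ^ (3 / 4 : ℝ) := by
  have hlw : 1 ≤ Real.log w := wb_log_ge hw
  have h1 := SvD_log (lz := Real.log w) hw hM (by linarith) le_rfl
  rw [div_self (by linarith), Real.one_rpow] at h1
  exact h1

theorem sieve_outerD (D : ℕ) (hD : 1 ≤ D) : ∃ C C1 : ℝ, 0 < C ∧ 10 ≤ C1 ∧
    ∀ (N M : ℕ) (w : ℝ) (q r u : ℤ × ℤ), 2 ≤ N → C1 ≤ w → w ≤ N → 1 ≤ M → M ≤ N ^ 2 →
    (∀ p ∈ IND D N w, ¬ (p : ℤ) ∣ q.1 ∧ ¬ (p : ℤ) ∣ q.2) →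
    ∑ i ∈ range M, ∑ j ∈ range M,
      ∏ p ∈ IND D N w, (1 - kp p * nbD D q r p (u.1 + i, u.2 + j)) ≤
      C * (M : ℝ) ^ 2 * (Real.log w / (1 + Real.log M)) ^ (3 / 4 : ℝ) := by
  obtain ⟨C1, hC1, hblk⟩ := ID_block D hD
  obtain ⟨C0, hC0, hW⟩ := W_leD D hD
  refine ⟨61 * (6 * C0 + 1), C1, by positivity, hC1, ?_⟩
  intro N M w q r u hN hw hwN hM hMN hq
  obtain ⟨z, hz, hz1, hz2, hz3⟩ := SvD_z hN hM hMN
  have hw10 : 10 ≤ w := hC1.trans hw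
  have hlM : 0 ≤ Real.log M := Real.log_nonneg (by exact_mod_cast hM)
  have hlw : 1 ≤ Real.log w := wb_log_ge hw10
  have hx : 0 ≤ (Real.log w / (1 + Real.log M)) ^ (3 / 4 : ℝ) :=
    Real.rpow_nonneg (div_nonneg (by linarith) (by linarith)) _
  have hM2 : 0 ≤ (M : ℝ) ^ 2 := by positivity
  have hMx : 0 ≤ (M : ℝ) ^ 2 * (Real.log w / (1 + Real.log M)) ^ (3 / 4 : ℝ) :=
    mul_nonneg hM2 hx
  rcases le_total w z with h | h
  · have h1 := SvD_box hC1 hblk kp (fun p hp => SvD_kp hp) (fun _ => True) N M w z q r u hw hz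
      hz1 hz2 hq
    simp only [Finset.filter_true] at h1
    have h2 := hW w z hw10 h
    have h3 := SvD_log hw10 hlM hz3 (Real.log_le_log (by linarith) h)
    have h4 : ∏ p ∈ ID D w z, (1 - kp p * bt p) ≤
        C0 * (61 * (Real.log w / (1 + Real.log M)) ^ (3 / 4 : ℝ)) :=
      h2.trans (mul_le_mul_of_nonneg_left h3 hC0.le)
    have h5 := mul_le_mul_of_nonneg_left h4 (by positivity : 0 ≤ 6 * (M : ℝ) ^ 2)
    refine (h1.trans h5).trans ?_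
    nlinarith
  · have h1 := SvD_triv (D := D) kp (fun p hp => SvD_kp hp) (fun _ => True) N M w q r u
    simp only [Finset.filter_true] at h1
    have h3 := SvD_log' hw10 hlM hz3 (Real.log_le_log (by linarith) h)
    have h5 := mul_le_mul_of_nonneg_left h3 hM2
    have h6 : 0 ≤ C0 * ((M : ℝ) ^ 2 * (Real.log w / (1 + Real.log M)) ^ (3 / 4 : ℝ)) :=
      mul_nonneg hC0.le hMx
    refine h1.trans ?_
    nlinarith

theorem sieve_innerD (D : ℕ) (hD : 1 ≤ D) : ∃ C C1 : ℝ, 0 < C ∧ 10 ≤ C1 ∧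
    ∀ (N M m : ℕ) (w : ℝ) (q r u : ℤ × ℤ), 2 ≤ N → C1 ≤ w → w ≤ N → 1 ≤ M → M ≤ N ^ 2 →
    (∀ p ∈ IND D N w, ¬ (p : ℤ) ∣ q.1 ∧ ¬ (p : ℤ) ∣ q.2) →
    ∑ i ∈ range M, ∑ j ∈ range M,
      ∏ p ∈ (IND D N w).filter (fun p => ¬ p ∣ m),
        (1 - 3 / 4 * nbD D q r p (u.1 + i, u.2 + j)) ≤
      C * (M : ℝ) ^ 2 * (Real.log w / (1 + Real.log M)) ^ (3 / 4 : ℝ) *
        ∏ p ∈ (IND D N w).filter (fun p => p ∣ m), (1 + 2 / (p : ℝ)) := by
  obtain ⟨C1, hC1, hblk⟩ := ID_block D hD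
  obtain ⟨C0, hC0, hW⟩ := W_leD D hD
  refine ⟨61 * (6 * C0 + 1), C1, by positivity, hC1, ?_⟩
  intro N M m w q r u hN hw hwN hM hMN hq
  obtain ⟨z, hz, hz1, hz2, hz3⟩ := SvD_z hN hM hMN
  have hw10 : 10 ≤ w := hC1.trans hw
  have hlM : 0 ≤ Real.log M := Real.log_nonneg (by exact_mod_cast hM)
  have hlw : 1 ≤ Real.log w := wb_log_ge hw10
  have hx : 0 ≤ (Real.log w / (1 + Real.log M)) ^ (3 / 4 : ℝ) :=
    Real.rpow_nonneg (div_nonneg (by linarith) (by linarith)) _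
  have hM2 : 0 ≤ (M : ℝ) ^ 2 := by positivity
  have hMx : 0 ≤ (M : ℝ) ^ 2 * (Real.log w / (1 + Real.log M)) ^ (3 / 4 : ℝ) :=
    mul_nonneg hM2 hx
  have hκ : ∀ p : ℕ, 1 ≤ p → 0 ≤ (fun _ : ℕ => (3 / 4 : ℝ)) p ∧
      (fun _ : ℕ => (3 / 4 : ℝ)) p ≤ 3 / 4 := fun p _ => by norm_num
  have hsub : ∀ {z : ℝ}, z ≤ (N : ℝ) ^ (1 / 30 : ℝ) →
      ∏ p ∈ (ID D w z).filter (fun p => p ∣ m), (1 + 2 / (p : ℝ)) ≤
      ∏ p ∈ (IND D N w).filter (fun p => p ∣ m), (1 + 2 / (p : ℝ)) := by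
    intro z hz
    apply SvD_mono' (filter_subset_filter _ (SvD_ID_sub hz))
    intro p _
    have : 0 ≤ 2 / (p : ℝ) := by positivity
    linarith
  have hQ1 : 1 ≤ ∏ p ∈ (IND D N w).filter (fun p => p ∣ m), (1 + 2 / (p : ℝ)) := by
    have h := SvD_mono' (empty_subset ((IND D N w).filter (fun p => p ∣ m)))
      (f := fun p : ℕ => 1 + 2 / (p : ℝ)) (fun p _ => by
        have : 0 ≤ 2 / (p : ℝ) := by positivity
        linarith)
    simpa using h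
  set Q : ℝ := ∏ p ∈ (IND D N w).filter (fun p => p ∣ m), (1 + 2 / (p : ℝ)) with hQ
  set X : ℝ := (Real.log w / (1 + Real.log M)) ^ (3 / 4 : ℝ) with hX
  rcases le_total w z with h | h
  · have h1 := SvD_box hC1 hblk (fun _ => (3 / 4 : ℝ)) hκ (fun p => ¬ p ∣ m) N M w z q r u hw hz
      hz1 hz2 hq
    have h2 := hW w z hw10 h
    have h3 := SvD_log hw10 hlM hz3 (Real.log_le_log (by linarith) h)
    have h4 : ∏ p ∈ ID D w z, (1 - kp p * bt p) ≤ C0 * (61 * X) :=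
      h2.trans (mul_le_mul_of_nonneg_left h3 hC0.le)
    have h5 := prod_sub_leD D w z hw10 m
    have h7 : 0 ≤ ∏ p ∈ (ID D w z).filter (fun p => p ∣ m), (1 + 2 / (p : ℝ)) :=
      prod_nonneg (fun p _ => by positivity)
    have h8 : ∏ p ∈ (ID D w z).filter (fun p => ¬ p ∣ m), (1 - 3 / 4 * bt p) ≤
        C0 * (61 * X) * Q := by
      refine h5.trans ?_
      exact mul_le_mul h4 (hsub hz1) h7 (by positivity)
    have h9 := mul_le_mul_of_nonneg_left h8 (by positivity : 0 ≤ 6 * (M : ℝ) ^ 2)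
    refine (h1.trans h9).trans ?_
    have h10 : 0 ≤ (M : ℝ) ^ 2 * X * Q := mul_nonneg hMx (by linarith)
    nlinarith
  · have h1 := SvD_triv (D := D) (fun _ => (3 / 4 : ℝ)) hκ (fun p => ¬ p ∣ m) N M w q r u
    have h3 := SvD_log' hw10 hlM hz3 (Real.log_le_log (by linarith) h)
    have h5 := mul_le_mul_of_nonneg_left h3 hM2
    have h6 : 0 ≤ C0 * ((M : ℝ) ^ 2 * X) := mul_nonneg hC0.le hMx
    have h7 : (M : ℝ) ^ 2 ≤ 61 * (6 * C0 + 1) * (M : ℝ) ^ 2 * X := by nlinarith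
    refine h1.trans (h7.trans ?_)
    have h8 : 0 ≤ 61 * (6 * C0 + 1) * (M : ℝ) ^ 2 * X := hM2.trans h7
    calc 61 * (6 * C0 + 1) * (M : ℝ) ^ 2 * X = 61 * (6 * C0 + 1) * (M : ℝ) ^ 2 * X * 1 :=
          (mul_one _).symm
      _ ≤ _ := mul_le_mul_of_nonneg_left hQ1 h8

end Pool.Agent.DL
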