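import Pool.Agent.helper41.DG.Geo
import Pool.Agent.helper41.DL.SvD

/-! # Isosceles pairs in the box for the form `u² + D v²` -/

set_option autoImplicit false
open scoped Classical

open Finset Pool.Agent.DG

namespace Pool.Agent.DL

/-- the value of the form -/
def nsqD (D : ℕ) (v : ℤ × ℤ) : ℕ := (v.1 ^ 2 + D * v.2 ^ 2).natAbs

/-- the pairs of points of the box with the same distance to `a / q` -/
noncomputable def IsoD (D N : ℕ) (q : ℤ) (a : ℤ × ℤ) : Finset ((ℤ × ℤ) × (ℤ × ℤ)) :=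
  (Bx N ×ˢ Bx N).filter (fun t => nsqD D (qv q a t.1) = nsqD D (qv q a t.2))

/-- the isosceles pairs of direction `e` -/
noncomputable def PeD (D N : ℕ) (q : ℤ) (a e : ℤ × ℤ) : Finset ((ℤ × ℤ) × (ℤ × ℤ)) :=
  (IsoD D N q a).filter
    (fun t => ∃ h : ℕ, 1 ≤ h ∧ t.2.1 - t.1.1 = h * e.1 ∧ t.2.2 - t.1.2 = h * e.2)

/-- the necessary conditions on the directions -/
def SdD (D N : ℕ) (q : ℤ) (a e : ℤ × ℤ) : Prop :=
  q ∣ 2 * (a.1 * e.1 + D * a.2 * e.2) ∧ |a.1 * e.1 + D * a.2 * e.2| ≤ 2 * D * q * N * sn e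

theorem GeoD_nsqD_cast (D : ℕ) (v : ℤ × ℤ) : ((nsqD D v : ℕ) : ℤ) = v.1 ^ 2 + D * v.2 ^ 2 := by
  unfold nsqD
  exact Int.natAbs_of_nonneg (by positivity)

theorem GeoD_mul_sn {e : ℤ × ℤ} {h : ℤ} {B : ℤ} (hh : 0 ≤ h) (h1 : |h * e.1| ≤ B)
    (h2 : |h * e.2| ≤ B) : h * sn e ≤ B := by
  unfold sn
  rw [abs_mul, abs_of_nonneg hh] at h1 h2
  rcases le_total e.1.natAbs e.2.natAbs with h3 | h3
  · rw [max_eq_right h3, Int.natCast_natAbs]
    exact h2
  · rw [max_eq_left h3, Int.natCast_natAbs]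
    exact h1

theorem GeoD_le_sn (a : ℤ × ℤ) : |a.1| ≤ (sn a : ℤ) ∧ |a.2| ≤ (sn a : ℤ) := by
  unfold sn
  rw [← Int.natCast_natAbs, ← Int.natCast_natAbs]
  exact ⟨by exact_mod_cast le_max_left _ _, by exact_mod_cast le_max_right _ _⟩

theorem GeoD_mem_Bx {N : ℕ} {x : ℤ × ℤ} (hx : x ∈ Bx N) :
    0 ≤ x.1 ∧ x.1 < N ∧ 0 ≤ x.2 ∧ x.2 < N := by
  unfold Bx at hx
  simp only [Finset.mem_product, Finset.mem_Ico] at hx
  exact ⟨hx.1.1, hx.1.2, hx.2.1, hx.2.2⟩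

theorem GeoD_mem_IsoD {D N : ℕ} {q : ℤ} {a : ℤ × ℤ} {t : (ℤ × ℤ) × (ℤ × ℤ)}
    (ht : t ∈ IsoD D N q a) :
    t.1 ∈ Bx N ∧ t.2 ∈ Bx N ∧ nsqD D (qv q a t.1) = nsqD D (qv q a t.2) := by
  unfold IsoD at ht
  simp only [Finset.mem_filter, Finset.mem_product] at ht
  exact ⟨ht.1.1, ht.1.2, ht.2⟩

theorem GeoD_mem_PeD {D N : ℕ} {q : ℤ} {a e : ℤ × ℤ} {t : (ℤ × ℤ) × (ℤ × ℤ)}
    (ht : t ∈ PeD D N q a e) :
    t ∈ IsoD D N q a ∧ ∃ h : ℕ, 1 ≤ h ∧ t.2.1 - t.1.1 = h * e.1 ∧ t.2.2 - t.1.2 = h * e.2 := by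
  unfold PeD at ht
  exact Finset.mem_filter.mp ht

/-- multiplication of an upper bound by `D` -/
theorem GeoD_mul_le {D : ℕ} (hD : 1 ≤ D) {x B : ℤ} (hx : |x| ≤ B) : |x| ≤ D * B ∧ |D * x| ≤ D * B := by
  have hD' : (1 : ℤ) ≤ D := by exact_mod_cast hD
  have hB : 0 ≤ B := (abs_nonneg x).trans hx
  constructor
  · have : 1 * B ≤ D * B := mul_le_mul_of_nonneg_right hD' hB
    linarith
  · rw [abs_mul, abs_of_nonneg (by linarith : (0 : ℤ) ≤ D)]
    exact mul_le_mul_of_nonneg_left hx (by linarith)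

/-- the direction of an isosceles pair: the other data -/
theorem Pe_hdD {D N : ℕ} {q : ℤ} {a e : ℤ × ℤ} (hD : 1 ≤ D) (hq : 1 ≤ q)
    (he : IsCoprime e.1 e.2) {t : (ℤ × ℤ) × (ℤ × ℤ)} (ht : t ∈ PeD D N q a e) :
    ∃ h d : ℤ, 1 ≤ h ∧ h * sn e ≤ N ∧ |d| * sn e ≤ 2 * D * (q * N + sn a) ∧
      t.2.1 - t.1.1 = h * e.1 ∧ t.2.2 - t.1.2 = h * e.2 ∧
      q * (t.1.1 + t.2.1) - 2 * a.1 = -(d * e.2) ∧
      D * (q * (t.1.2 + t.2.2) - 2 * a.2) = d * e.1 ∧
      4 * (D : ℤ) * (nsqD D (qv q a t.1) : ℤ) =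
        (nsqD D e : ℤ) * (D * (q * h) ^ 2 + d ^ 2) := by
  obtain ⟨hI, n, hn, h1, h2⟩ := GeoD_mem_PeD ht
  obtain ⟨hx, hx', heq⟩ := GeoD_mem_IsoD hI
  obtain ⟨x1, x2, x3, x4⟩ := GeoD_mem_Bx hx
  obtain ⟨y1, y2, y3, y4⟩ := GeoD_mem_Bx hx'
  obtain ⟨⟨x, y⟩, ⟨x', y'⟩⟩ := t
  obtain ⟨e1, e2⟩ := e
  obtain ⟨a1, a2⟩ := a
  simp only at h1 h2 x1 x2 x3 x4 y1 y2 y3 y4 he heq ⊢
  have hE : (q * x - a1) ^ 2 + D * (q * y - a2) ^ 2 =
      (q * x' - a1) ^ 2 + D * (q * y' - a2) ^ 2 := by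
    have h3 := congrArg (fun n : ℕ => (n : ℤ)) heq
    simpa [GeoD_nsqD_cast, qv] using h3
  have hn' : (1 : ℤ) ≤ n := by exact_mod_cast hn
  have hS : e1 * (q * (x + x') - 2 * a1) + e2 * (D * (q * (y + y') - 2 * a2)) = 0 := by
    have h3 : (q * n) * (e1 * (q * (x + x') - 2 * a1) +
        e2 * (D * (q * (y + y') - 2 * a2))) = 0 := by
      linear_combination (-(q * (q * (x + x') - 2 * a1))) * h1 +
        (-(q * (D * (q * (y + y') - 2 * a2)))) * h2 - hE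
    rcases mul_eq_zero.mp h3 with h4 | h4
    · exact absurd h4 (by positivity)
    · exact h4
  obtain ⟨u, v, huv⟩ := he
  obtain ⟨S1, hS1⟩ : ∃ S1, S1 = q * (x + x') - 2 * a1 := ⟨_, rfl⟩
  obtain ⟨V2, hV2⟩ : ∃ V2, V2 = q * (y + y') - 2 * a2 := ⟨_, rfl⟩
  obtain ⟨S2, hS2⟩ : ∃ S2, S2 = (D : ℤ) * V2 := ⟨_, rfl⟩
  rw [← hS1, ← hV2, ← hS2] at hS
  rw [← hS1, ← hV2, ← hS2]
  have hd1 : S1 = -((u * S2 - v * S1) * e2) := by
    linear_combination (-S1) * huv + u * hS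
  have hd2 : S2 = (u * S2 - v * S1) * e1 := by
    linear_combination (-S2) * huv + v * hS
  refine ⟨n, u * S2 - v * S1, hn', ?_, ?_, h1, h2, hd1, hd2, ?_⟩
  · refine GeoD_mul_sn (by linarith) ?_ ?_
    · simp only
      rw [← h1, abs_le]
      constructor <;> linarith
    · simp only
      rw [← h2, abs_le]
      constructor <;> linarith
  · have hs := GeoD_le_sn (a1, a2)
    have hs1 := abs_le.mp hs.1
    have hs2 := abs_le.mp hs.2
    simp only at hs1 hs2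
    have q1 : 0 ≤ q * (x + x') := mul_nonneg (by linarith) (by linarith)
    have q2 : q * (x + x') ≤ q * (2 * N) := mul_le_mul_of_nonneg_left (by linarith) (by linarith)
    have q3 : 0 ≤ q * (y + y') := mul_nonneg (by linarith) (by linarith)
    have q4 : q * (y + y') ≤ q * (2 * N) := mul_le_mul_of_nonneg_left (by linarith) (by linarith)
    have r1 : |S1| ≤ 2 * (q * N + sn (a1, a2)) := by
      rw [hS1, abs_le]
      constructor <;> linarith [hs1.1, hs1.2]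
    have r2 : |V2| ≤ 2 * (q * N + sn (a1, a2)) := by
      rw [hV2, abs_le]
      constructor <;> linarith [hs2.1, hs2.2]
    have r3 : 2 * (D : ℤ) * (q * N + sn (a1, a2)) = D * (2 * (q * N + sn (a1, a2))) := by ring
    rw [r3]
    refine GeoD_mul_sn (abs_nonneg _) ?_ ?_
    · simp only
      rw [abs_mul, abs_abs, ← abs_mul, ← hd2, hS2]
      exact (GeoD_mul_le hD r2).2
    · simp only
      rw [abs_mul, abs_abs, ← abs_mul, ← abs_neg, ← hd1]
      exact (GeoD_mul_le hD r1).1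
  · rw [GeoD_nsqD_cast, GeoD_nsqD_cast]
    simp only [qv]
    have r1 : 2 * (q * x - a1) = S1 - q * (n * e1) := by rw [← h1, hS1]; ring
    have r2 : 2 * (q * y - a2) = V2 - q * (n * e2) := by rw [← h2, hV2]; ring
    have r3 : 4 * (D : ℤ) * ((q * x - a1) ^ 2 + D * (q * y - a2) ^ 2) =
        D * (S1 - q * (n * e1)) ^ 2 + (S2 - D * (q * (n * e2))) ^ 2 := by
      rw [← r1, hS2]
      have r4 : (D : ℤ) * V2 - D * (q * (n * e2)) = D * (2 * (q * y - a2)) := by rw [r2]; ring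
      rw [r4]
      ring
    rw [r3]
    generalize hdd : u * S2 - v * S1 = d at hd1 hd2 ⊢
    rw [hd1, hd2]
    ring

/-- the parametrization of the isosceles pairs of a given direction by a box -/
theorem Pe_paramD {D N : ℕ} {q : ℤ} {a e : ℤ × ℤ} (hD : 1 ≤ D) (hq : 1 ≤ q)
    (he : IsCoprime e.1 e.2) :
    ∃ (d0 : ℤ) (f : (ℤ × ℤ) × (ℤ × ℤ) → ℤ × ℤ), Set.InjOn f (PeD D N q a e) ∧
      ∀ t ∈ PeD D N q a e, 1 ≤ (f t).1 ∧ 0 ≤ (f t).2 ∧ (f t).1 * sn e ≤ N ∧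
        (f t).2 * sn e ≤ 2 * D * N ∧
        4 * (D : ℤ) * (nsqD D (qv q a t.1) : ℤ) =
          (nsqD D e : ℤ) * (D * (q * (f t).1) ^ 2 + (q * (f t).2 + d0) ^ 2) := by
  rcases (PeD D N q a e).eq_empty_or_nonempty with h0 | h0
  · refine ⟨0, fun _ => (0, 0), ?_, ?_⟩
    · rw [h0]
      simp
    · rw [h0]
      simp
  choose! h d h1 h2 h3 h4 h5 h6 h7 h8 using fun t (ht : t ∈ PeD D N q a e) => Pe_hdD hD hq he ht
  obtain ⟨t0, ht0, hmin⟩ := Finset.exists_min_image (PeD D N q a e) d h0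
  have hq0 : q ≠ 0 := by omega
  have hD' : (1 : ℤ) ≤ D := by exact_mod_cast hD
  have hDq : (D : ℤ) * q ≠ 0 := mul_ne_zero (by omega) hq0
  -- the difference of two values of `d`
  have hj : ∀ t ∈ PeD D N q a e, ∃ j : ℤ, d t = q * j + d t0 ∧ j * sn e ≤ 2 * D * N := by
    intro t ht
    obtain ⟨u, v, huv⟩ := he
    set j := u * (D * ((t.1.2 + t.2.2) - (t0.1.2 + t0.2.2))) -
      v * ((t.1.1 + t.2.1) - (t0.1.1 + t0.2.1)) with hjdef
    have e1 := h6 t ht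
    have e2 := h7 t ht
    have e3 := h6 t0 ht0
    have e4 := h7 t0 ht0
    have ej : d t = q * j + d t0 := by
      rw [hjdef]
      linear_combination (-u) * e2 + u * e4 + v * e1 - v * e3 + (-(d t - d t0)) * huv
    have ej1 : (t.1.1 + t.2.1) - (t0.1.1 + t0.2.1) = -(j * e.2) := by
      apply mul_left_cancel₀ hq0
      linear_combination e1 - e3 - e.2 * ej
    have ej2 : D * ((t.1.2 + t.2.2) - (t0.1.2 + t0.2.2)) = j * e.1 := by
      apply mul_left_cancel₀ hq0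
      linear_combination e2 - e4 + e.1 * ej
    refine ⟨j, ej, ?_⟩
    have hj0 : 0 ≤ j := by
      have hm := hmin t ht
      by_contra hcon
      have hcon := not_le.mp hcon
      have : q * j < 0 := mul_neg_of_pos_of_neg (by linarith) hcon
      linarith
    obtain ⟨b1, b2, _⟩ := GeoD_mem_IsoD (GeoD_mem_PeD ht).1
    obtain ⟨c1, c2, _⟩ := GeoD_mem_IsoD (GeoD_mem_PeD ht0).1
    have b1 := GeoD_mem_Bx b1
    have b2 := GeoD_mem_Bx b2
    have c1 := GeoD_mem_Bx c1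
    have c2 := GeoD_mem_Bx c2
    have r3 : 2 * (D : ℤ) * N = D * (2 * N) := by ring
    rw [r3]
    refine GeoD_mul_sn hj0 ?_ ?_
    · rw [← ej2]
      refine (GeoD_mul_le hD ?_).2
      rw [abs_le]
      constructor <;> linarith [b1.1, b1.2.1, b1.2.2.1, b1.2.2.2, b2.1, b2.2.1, b2.2.2.1, b2.2.2.2,
        c1.1, c1.2.1, c1.2.2.1, c1.2.2.2, c2.1, c2.2.1, c2.2.2.1, c2.2.2.2]
    · rw [← abs_neg, ← ej1]
      refine (GeoD_mul_le hD ?_).1
      rw [abs_le]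
      constructor <;> linarith [b1.1, b1.2.1, b1.2.2.1, b1.2.2.2, b2.1, b2.2.1, b2.2.2.1, b2.2.2.2,
        c1.1, c1.2.1, c1.2.2.1, c1.2.2.2, c2.1, c2.2.1, c2.2.2.1, c2.2.2.2]
  choose! j hj1 hj2 using hj
  refine ⟨d t0, fun t => (h t, j t), ?_, ?_⟩
  · intro t ht t' ht' hf
    have ht := Finset.mem_coe.mp ht
    have ht' := Finset.mem_coe.mp ht'
    simp only [Prod.mk.injEq] at hf
    have hdd : d t = d t' := by rw [hj1 t ht, hj1 t' ht', hf.2]
    have s1 : (t.1.1 + t.2.1) = (t'.1.1 + t'.2.1) := by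
      apply mul_left_cancel₀ hq0
      linear_combination h6 t ht - h6 t' ht' - e.2 * hdd
    have s2 : (t.1.2 + t.2.2) = (t'.1.2 + t'.2.2) := by
      apply mul_left_cancel₀ hDq
      linear_combination h7 t ht - h7 t' ht' + e.1 * hdd
    have s3 : t.2.1 - t.1.1 = t'.2.1 - t'.1.1 := by
      rw [h4 t ht, h4 t' ht', hf.1]
    have s4 : t.2.2 - t.1.2 = t'.2.2 - t'.1.2 := by
      rw [h5 t ht, h5 t' ht', hf.1]
    ext <;> linarith
  · intro t ht
    refine ⟨h1 t ht, ?_, h2 t ht, hj2 t ht, ?_⟩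
    · have hm := hmin t ht
      have e1 := hj1 t ht
      by_contra hcon
      have hcon := not_le.mp hcon
      have : q * j t < 0 := mul_neg_of_pos_of_neg (by linarith) hcon
      linarith
    · simp only
      rw [h8 t ht, hj1 t ht]

theorem Pe_SdD {D N : ℕ} {q : ℤ} {a e : ℤ × ℤ} (hD : 1 ≤ D) (hq : 1 ≤ q)
    (he : IsCoprime e.1 e.2) (hne : (PeD D N q a e).Nonempty) : SdD D N q a e := by
  obtain ⟨t, ht⟩ := hne
  obtain ⟨h, d, _, _, _, _, _, h6, h7, _⟩ := Pe_hdD hD hq he ht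
  obtain ⟨b1, b2, _⟩ := GeoD_mem_IsoD (GeoD_mem_PeD ht).1
  have b1 := GeoD_mem_Bx b1
  have b2 := GeoD_mem_Bx b2
  have key : 2 * (a.1 * e.1 + D * a.2 * e.2) =
      q * ((t.1.1 + t.2.1) * e.1 + D * ((t.1.2 + t.2.2) * e.2)) := by
    linear_combination (-e.1) * h6 - e.2 * h7
  refine ⟨⟨_, key⟩, ?_⟩
  have hs := GeoD_le_sn e
  have e1 : |(t.1.1 + t.2.1) * e.1| ≤ 2 * N * sn e := by
    rw [abs_mul]
    refine mul_le_mul ?_ hs.1 (abs_nonneg _) (by positivity)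
    rw [abs_le]
    constructor <;> linarith [b1.1, b1.2.1, b2.1, b2.2.1]
  have e2 : |(t.1.2 + t.2.2) * e.2| ≤ 2 * N * sn e := by
    rw [abs_mul]
    refine mul_le_mul ?_ hs.2 (abs_nonneg _) (by positivity)
    rw [abs_le]
    constructor <;> linarith [b1.2.2.1, b1.2.2.2, b2.2.2.1, b2.2.2.2]
  have e3 : |(t.1.1 + t.2.1) * e.1 + D * ((t.1.2 + t.2.2) * e.2)| ≤ D * (4 * (N * sn e)) := by
    refine (abs_add_le _ _).trans ?_
    have f1 := (GeoD_mul_le hD e1).1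
    have f2 := (GeoD_mul_le hD e2).2
    linarith
  have e4 : 2 * |a.1 * e.1 + D * a.2 * e.2| ≤ q * (D * (4 * (N * sn e))) := by
    have e5 : |2 * (a.1 * e.1 + D * a.2 * e.2)| = 2 * |a.1 * e.1 + D * a.2 * e.2| := by
      rw [abs_mul]
      norm_num
    rw [← e5, key, abs_mul, abs_of_pos (by linarith : 0 < q)]
    exact mul_le_mul_of_nonneg_left e3 (by linarith)
  have e6 : q * (D * (4 * ((N : ℤ) * sn e))) = 2 * (2 * D * q * N * sn e) := by ring
  rw [e6] at e4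
  linarith

/-- the decomposition of the isosceles pairs -/
theorem energy_splitD (D N : ℕ) (q : ℤ) (a : ℤ × ℤ) (F : ℕ → ℝ) (hF : ∀ m, 0 ≤ F m) :
    ∑ t ∈ IsoD D N q a, F (nsqD D (qv q a t.1)) ≤ ∑ x ∈ Bx N, F (nsqD D (qv q a x)) +
      ∑ e ∈ Dir N, ∑ t ∈ PeD D N q a e, F (nsqD D (qv q a t.1)) := by
  rw [← Finset.sum_filter_add_sum_filter_not (IsoD D N q a) (fun t => t.1 = t.2)]
  refine add_le_add ?_ ?_
  · have h1 : ∑ t ∈ (IsoD D N q a).filter (fun t => t.1 = t.2), F (nsqD D (qv q a t.1)) =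
        ∑ x ∈ ((IsoD D N q a).filter (fun t => t.1 = t.2)).image Prod.fst,
          F (nsqD D (qv q a x)) := by
      rw [Finset.sum_image]
      intro t ht t' ht' h
      have h2 := (Finset.mem_filter.mp (Finset.mem_coe.mp ht)).2
      have h3 := (Finset.mem_filter.mp (Finset.mem_coe.mp ht')).2
      exact Prod.ext h (by rw [← h2, ← h3]; exact h)
    rw [h1]
    refine Finset.sum_le_sum_of_subset_of_nonneg ?_ fun _ _ _ => hF _
    intro x hx
    obtain ⟨t, ht, rfl⟩ := Finset.mem_image.mp hx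
    exact (GeoD_mem_IsoD (Finset.mem_filter.mp ht).1).1
  · have h1 : ∀ e ∈ Dir N, ∑ t ∈ PeD D N q a e, F (nsqD D (qv q a t.1)) =
        ∑ t ∈ IsoD D N q a, if t ∈ PeD D N q a e then F (nsqD D (qv q a t.1)) else 0 := by
      intro e _
      rw [← Finset.sum_filter]
      refine Finset.sum_congr ?_ fun _ _ => rfl
      ext t
      simp only [Finset.mem_filter]
      exact ⟨fun h => ⟨(GeoD_mem_PeD h).1, h⟩, fun h => h.2⟩
    rw [Finset.sum_congr rfl h1, Finset.sum_comm]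
    have h2 : ∑ t ∈ (IsoD D N q a).filter (fun t => ¬ t.1 = t.2), F (nsqD D (qv q a t.1)) ≤
        ∑ t ∈ (IsoD D N q a).filter (fun t => ¬ t.1 = t.2),
          ∑ e ∈ Dir N, (if t ∈ PeD D N q a e then F (nsqD D (qv q a t.1)) else 0) := by
      refine Finset.sum_le_sum fun t ht => ?_
      obtain ⟨ht1, ht2⟩ := Finset.mem_filter.mp ht
      obtain ⟨b1, b2, b3⟩ := GeoD_mem_IsoD ht1
      obtain ⟨e, he, h, hh, h3, h4⟩ := Geo_dir b1 b2 ht2
      have h5 : t ∈ PeD D N q a e := by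
        unfold PeD
        exact Finset.mem_filter.mpr ⟨ht1, h, hh, h3, h4⟩
      have h6 := Finset.single_le_sum
        (f := fun e => if t ∈ PeD D N q a e then F (nsqD D (qv q a t.1)) else 0)
        (s := Dir N) (fun e _ => by split_ifs; exacts [hF _, le_rfl]) he
      simp only [if_pos h5] at h6
      exact h6
    refine h2.trans ?_
    refine Finset.sum_le_sum_of_subset_of_nonneg (Finset.filter_subset _ _) fun t _ _ => ?_
    exact Finset.sum_nonneg fun e _ => by split_ifs; exacts [hF _, le_rfl]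

/-- the weights at a product -/
theorem wt_splitD (D : ℕ) (I : Finset ℕ) (hI : ∀ p ∈ I, p.Prime ∧ ¬ p ∣ 2 * D) (m : ℕ)
    (m1 : ℕ) (m2 : ℤ) (h : 4 * (D : ℤ) * (m : ℤ) = (m1 : ℤ) * m2) :
    wt I (1 / 4) m = (∏ p ∈ I.filter (fun p => p ∣ m1), (1 / 4 : ℝ)) *
      ∏ p ∈ I.filter (fun p => ¬ p ∣ m1), (1 - 3 / 4 * (if (p : ℤ) ∣ m2 then (1 : ℝ) else 0)) := by
  unfold wt
  rw [← Finset.prod_filter_mul_prod_filter_not I (fun p => p ∣ m1)]
  have hm : ∀ p ∈ I, (p ∣ m ↔ p ∣ m1 ∨ (p : ℤ) ∣ m2) := by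
    intro p hp
    obtain ⟨hp1, hp2⟩ := hI p hp
    have hpZ : Prime (p : ℤ) := Nat.prime_iff_prime_int.mp hp1
    have h4 : ¬ (p : ℤ) ∣ 4 * (D : ℤ) := by
      intro h5
      have h6 : p ∣ 4 * D := by exact_mod_cast h5
      have h7 : p ∣ 2 * (2 * D) := by
        have : 4 * D = 2 * (2 * D) := by ring
        rw [← this]
        exact h6
      rcases hp1.dvd_mul.mp h7 with h8 | h8
      · exact hp2 (Dvd.dvd.mul_right h8 D)
      · exact hp2 h8
    have h5 : p ∣ m ↔ (p : ℤ) ∣ 4 * (D : ℤ) * (m : ℤ) := by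
      rw [hpZ.dvd_mul]
      constructor
      · intro h6
        exact Or.inr (by exact_mod_cast h6)
      · rintro (h6 | h6)
        · exact absurd h6 h4
        · exact_mod_cast h6
    rw [h5, h, hpZ.dvd_mul]
    constructor
    · rintro (h6 | h6)
      · exact Or.inl (by exact_mod_cast h6)
      · exact Or.inr h6
    · rintro (h6 | h6)
      · exact Or.inl (by exact_mod_cast h6)
      · exact Or.inr h6
  congr 1
  · refine Finset.prod_congr rfl fun p hp => ?_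
    obtain ⟨hp1, hp2⟩ := Finset.mem_filter.mp hp
    rw [if_pos ((hm p hp1).mpr (Or.inl hp2))]
  · refine Finset.prod_congr rfl fun p hp => ?_
    obtain ⟨hp1, hp2⟩ := Finset.mem_filter.mp hp
    by_cases h5 : (p : ℤ) ∣ m2
    · rw [if_pos ((hm p hp1).mpr (Or.inr h5)), if_pos h5]
      norm_num
    · rw [if_neg h5, if_neg]
      · norm_num
      · intro h6
        rcases (hm p hp1).mp h6 with h7 | h7
        · exact hp2 h7
        · exact h5 h7

end Pool.Agent.DL
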