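import Pool.Agent.helper41.DG.Core
import Pool.Agent.helper41.DG.Pig
import Pool.Agent.helper41.DL.GeoD

/-! # The lower bound sieve in a cell -/

set_option autoImplicit false
open scoped Classical

open Finset Pool.Agent.DG

namespace Pool.Agent.DL

/-- the weight of one point, written as the product of the local factors -/
lemma CellLD_prod (D : ℕ) (I : Finset ℕ) {q : ℤ} {r : ℤ × ℤ} {a : ℤ × ℤ} (x : ℤ × ℤ)
    (h1 : a.1 % q = r.1) (h2 : a.2 % q = r.2) :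
    ∏ p ∈ I, (1 - (1 / 2) * nbD D (q, q) (-r) p (x - (a.1 / q, a.2 / q))) =
      wt I (1 / 2) (nsqD D (qv q a x)) := by
  unfold wt
  refine prod_congr rfl fun p _ => ?_
  have e1 : q * (x - (a.1 / q, a.2 / q)).1 + (-r).1 = (qv q a x).1 := by
    have := Int.mul_ediv_add_emod a.1 q
    simp only [qv, Prod.fst_sub, Prod.fst_neg]
    rw [h1] at this
    linarith
  have e2 : q * (x - (a.1 / q, a.2 / q)).2 + (-r).2 = (qv q a x).2 := by
    have := Int.mul_ediv_add_emod a.2 q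
    simp only [qv, Prod.snd_sub, Prod.snd_neg]
    rw [h2] at this
    linarith
  unfold nbD nsqD
  simp only
  rw [e1, e2]
  by_cases h : (p : ℤ) ∣ (qv q a x).1 ^ 2 + D * (qv q a x).2 ^ 2
  · rw [if_pos h, if_pos (Int.natCast_dvd.1 h)]
    norm_num
  · rw [if_neg h, if_neg (fun h' => h (Int.natCast_dvd.2 h'))]
    norm_num

lemma CellLD_box {N : ℕ} (hN : 2 ≤ N) {a u : ℤ} (h : a / N = u) :
    N * u ≤ a ∧ a < N * u + N := by
  have hN' : (0 : ℤ) < N := by exact_mod_cast (by omega : 0 < N)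
  have h1 := Int.mul_ediv_add_emod a N
  have h2 := Int.emod_nonneg a hN'.ne'
  have h3 := Int.emod_lt_of_pos a hN'
  rw [h] at h1
  constructor <;> linarith

theorem cell_lowerD (D : ℕ) (hD : 1 ≤ D) : ∃ C1 : ℝ, 10 ≤ C1 ∧
    ∀ (N : ℕ) (w : ℝ) (q : ℤ) (r u : ℤ × ℤ)
    (X : Finset (ℤ × ℤ)) (Y : Finset (ℤ × (ℤ × ℤ))), 2 ≤ N → C1 ≤ w → w ^ 30 ≤ N → 1 ≤ q →
    (q : ℝ) ≤ w → X ⊆ Bx N → (∀ y ∈ Y, Cell N q r u y) →
    40 * (N : ℝ) ^ 2 ≤ w * Real.sqrt ((X.card : ℝ) * Y.card) →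
    (1 / 4) * ((X.card : ℝ) * Y.card) * ∏ p ∈ IND D N w, (1 - 1 / (p : ℝ)) ≤
      ∑ x ∈ X, ∑ y ∈ Y, wt (IND D N w) (1 / 2) (nsqD D (qv q y.2 x)) := by
  obtain ⟨C1, hC1, hblock⟩ := ID_block D hD
  refine ⟨C1, hC1, fun N w q r u X Y hN hw hwN hq hqw hX hY hXY => ?_⟩
  have hN1 : (1 : ℝ) ≤ N := by exact_mod_cast (by omega : 1 ≤ N)
  have hz1 : (1 : ℝ) ≤ (N : ℝ) ^ (1 / 30 : ℝ) := Real.one_le_rpow hN1 (by norm_num)
  have hzN : ((N : ℝ) ^ (1 / 30 : ℝ)) ^ 30 ≤ N := by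
    rw [← Real.rpow_natCast, ← Real.rpow_mul (by linarith)]
    norm_num
  have hP : ∀ p ∈ IND D N w, p.Prime ∧ ¬ p ∣ 2 * D ∧ IsSquare (-(D : ZMod p)) ∧
      ¬ (p : ℤ) ∣ ((q, q) : ℤ × ℤ).1 ∧ ¬ (p : ℤ) ∣ ((q, q) : ℤ × ℤ).2 := by
    intro p hp
    obtain ⟨h1, h2, h3, h4, -⟩ := mem_ID.1 hp
    have h6 : ¬ (p : ℤ) ∣ q := by
      intro hd
      have h4 := Int.le_of_dvd (by omega) hd
      have h5 : (p : ℝ) ≤ (q : ℝ) := by exact_mod_cast h4
      linarith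
    exact ⟨h1, h2, h3, h6, h6⟩
  obtain ⟨b, hb⟩ := norm_locD D (IND D N w) (q, q) (-r) hP
  set f : ℤ × (ℤ × ℤ) → ℤ × ℤ := fun y => (y.2.1 / q, y.2.2 / q) with hf
  have hinj : Set.InjOn f (Y : Set (ℤ × (ℤ × ℤ))) := by
    intro y hy y' hy' he
    obtain ⟨h1, h2, h3, -, -⟩ := hY y hy
    obtain ⟨h1', h2', h3', -, -⟩ := hY y' hy'
    have e1 : y.2.1 / q = y'.2.1 / q := congrArg Prod.fst he
    have e2 : y.2.2 / q = y'.2.2 / q := congrArg Prod.snd he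
    have a1 := Int.mul_ediv_add_emod y.2.1 q
    have a2 := Int.mul_ediv_add_emod y'.2.1 q
    have b1 := Int.mul_ediv_add_emod y.2.2 q
    have b2 := Int.mul_ediv_add_emod y'.2.2 q
    rw [h2, e1] at a1
    rw [h2'] at a2
    rw [h3, e2] at b1
    rw [h3'] at b2
    refine Prod.ext (h1.trans h1'.symm) (Prod.ext ?_ ?_)
    · linarith
    · linarith
  have hcard : (Y.image f).card = Y.card := card_image_of_injOn hinj
  have hXb : ∀ x ∈ X, Box N (0, 0) x := by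
    intro x hx
    have h := hX hx
    unfold Bx at h
    rw [mem_product, mem_Ico, mem_Ico] at h
    refine ⟨h.1.1, ?_, h.2.1, ?_⟩
    · simpa using h.1.2
    · simpa using h.2.2
  have hYb : ∀ v ∈ Y.image f, Box N (N * u.1, N * u.2) v := by
    intro v hv
    obtain ⟨y, hy, rfl⟩ := mem_image.1 hv
    obtain ⟨-, -, -, h4, h5⟩ := hY y hy
    have c1 := CellLD_box hN h4
    have c2 := CellLD_box hN h5
    exact ⟨c1.1, c1.2, c2.1, c2.2⟩
  have key := core_lower hb (hC1.trans hw) hz1 (fun p hp => (mem_ID.1 hp).2.2.2.1)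
    (fun p hp => (mem_ID.1 hp).2.2.2.2) (hblock w _ hw) hzN (0, 0) (N * u.1, N * u.2) X
    (Y.image f) hXb hYb (by rw [hcard]; exact hXY)
  rw [hcard] at key
  refine key.trans (le_of_eq (sum_congr rfl fun x _ => ?_))
  rw [sum_image hinj]
  refine sum_congr rfl fun y hy => ?_
  obtain ⟨-, h2, h3, -, -⟩ := hY y hy
  exact CellLD_prod D (IND D N w) x h2 h3

end Pool.Agent.DL
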