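import Pool.Agent.helper41.DL.GeoD

/-! # The number of the directions -/

set_option autoImplicit false
open scoped Classical

open Finset Pool.Agent.DG

namespace Pool.Agent.DL

/-- primitive vectors with slopes in an interval, separated by their determinants -/
theorem SCountD_key (E : ℕ) (T : Finset (ℤ × ℤ)) (δ α L : ℝ) (hE : 1 ≤ E) (hδ : 0 < δ)
    (hL : 0 ≤ L) (hc : ∀ e ∈ T, IsCoprime e.1 e.2) (hx0 : ∀ e ∈ T, e.1 ≠ 0)
    (hx : ∀ e ∈ T, |e.1| < 2 * E)
    (hdet : ∀ e ∈ T, ∀ e' ∈ T, e.1 * e'.2 - e.2 * e'.1 ≠ 0 →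
      δ ≤ |((e.1 * e'.2 - e.2 * e'.1 : ℤ) : ℝ)|)
    (ht : ∀ e ∈ T, α ≤ (e.2 : ℝ) / e.1 ∧ (e.2 : ℝ) / e.1 ≤ α + L) :
    (T.card : ℝ) ≤ 2 * (1 + 4 * (E : ℝ) ^ 2 * L / δ) := by
  have hE0 : (0 : ℝ) < E := by exact_mod_cast hE
  set K : ℝ := 4 * (E : ℝ) ^ 2 / δ with hK
  have hKpos : 0 < K := by positivity
  have hKδ : K * δ = 4 * (E : ℝ) ^ 2 := by rw [hK]; field_simp
  set f : ℤ × ℤ → ℕ × Bool :=
    fun e => (⌊((e.2 : ℝ) / e.1 - α) * K⌋₊, decide (0 < e.1)) with hf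
  have hinj : Set.InjOn f T := by
    intro e he e' he' hff
    have he := Finset.mem_coe.1 he
    have he' := Finset.mem_coe.1 he'
    have h1 : ⌊((e.2 : ℝ) / e.1 - α) * K⌋₊ = ⌊((e'.2 : ℝ) / e'.1 - α) * K⌋₊ :=
      congrArg Prod.fst hff
    have h2 : decide (0 < e.1) = decide (0 < e'.1) := congrArg Prod.snd hff
    have hp : 0 ≤ ((e.2 : ℝ) / e.1 - α) * K :=
      mul_nonneg (by linarith [(ht e he).1]) hKpos.le
    have hp' : 0 ≤ ((e'.2 : ℝ) / e'.1 - α) * K :=
      mul_nonneg (by linarith [(ht e' he').1]) hKpos.le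
    have hfl := Nat.floor_le hp
    have hfl' := Nat.floor_le hp'
    have hlt := Nat.lt_floor_add_one (((e.2 : ℝ) / e.1 - α) * K)
    have hlt' := Nat.lt_floor_add_one (((e'.2 : ℝ) / e'.1 - α) * K)
    rw [h1] at hfl hlt
    have h3 : |((e.2 : ℝ) / e.1 - (e'.2 : ℝ) / e'.1) * K| < 1 := by
      rw [abs_lt]
      constructor <;> nlinarith
    have hxe : (e.1 : ℝ) ≠ 0 := by exact_mod_cast hx0 e he
    have hxe' : (e'.1 : ℝ) ≠ 0 := by exact_mod_cast hx0 e' he'
    have h5 : e.1 * e'.2 - e.2 * e'.1 = 0 := by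
      by_contra hne
      have hd := hdet e he e' he' hne
      have hid : ((e.1 * e'.2 - e.2 * e'.1 : ℤ) : ℝ) =
          -(((e.2 : ℝ) / e.1 - (e'.2 : ℝ) / e'.1) * (e.1 * e'.1)) := by
        push_cast
        field_simp
        ring
      rw [hid, abs_neg, abs_mul, abs_mul] at hd
      have ha1 : |(e.1 : ℝ)| ≤ 2 * E := by
        have := (hx e he).le
        exact_mod_cast this
      have ha2 : |(e'.1 : ℝ)| ≤ 2 * E := by
        have := (hx e' he').le
        exact_mod_cast this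
      have hm : |(e.1 : ℝ)| * |(e'.1 : ℝ)| ≤ 4 * (E : ℝ) ^ 2 := by
        calc |(e.1 : ℝ)| * |(e'.1 : ℝ)| ≤ (2 * E) * (2 * E) :=
              mul_le_mul ha1 ha2 (abs_nonneg _) (by positivity)
          _ = 4 * (E : ℝ) ^ 2 := by ring
      rw [abs_mul, abs_of_pos hKpos] at h3
      have h6 : |(e.2 : ℝ) / e.1 - (e'.2 : ℝ) / e'.1| * (|(e.1 : ℝ)| * |(e'.1 : ℝ)|) ≤
          |(e.2 : ℝ) / e.1 - (e'.2 : ℝ) / e'.1| * (K * δ) := by
        rw [hKδ]
        exact mul_le_mul_of_nonneg_left hm (abs_nonneg _)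
      have h7 : |(e.2 : ℝ) / e.1 - (e'.2 : ℝ) / e'.1| * K * δ < 1 * δ :=
        mul_lt_mul_of_pos_right h3 hδ
      nlinarith
    have h6 : e.1 * e'.2 = e.2 * e'.1 := by linarith
    have hd1 : e.1 ∣ e'.1 := by
      have : e.1 ∣ e.2 * e'.1 := ⟨e'.2, h6.symm⟩
      exact (hc e he).dvd_of_dvd_mul_left this
    have hd2 : e'.1 ∣ e.1 := by
      have : e'.1 ∣ e'.2 * e.1 := ⟨e.2, by linarith⟩
      exact (hc e' he').dvd_of_dvd_mul_left this
    have h7 : e.1 = e'.1 := by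
      rcases Int.associated_iff.1 (associated_of_dvd_dvd hd1 hd2) with h | h
      · exact h
      · exfalso
        have hz := hx0 e' he'
        by_cases h8 : 0 < e'.1
        · have h9 : ¬ 0 < e.1 := by omega
          simp [h8, h9] at h2
        · have h9 : 0 < e.1 := by omega
          simp [h8, h9] at h2
    have h8 : e.2 = e'.2 := by
      have : e'.1 * e'.2 = e'.1 * e.2 := by rw [← h7, h6, h7]; ring
      exact (mul_left_cancel₀ (hx0 e' he') this).symm
    exact Prod.ext h7 h8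
  have hmaps : ∀ e ∈ T, f e ∈ (Finset.range (⌊L * K⌋₊ + 1)) ×ˢ (Finset.univ : Finset Bool) := by
    intro e he
    rw [Finset.mem_product]
    refine ⟨?_, Finset.mem_univ _⟩
    rw [Finset.mem_range]
    apply Nat.lt_succ_of_le
    apply Nat.floor_le_floor
    exact mul_le_mul_of_nonneg_right (by linarith [(ht e he).2]) hKpos.le
  have hcard := Finset.card_le_card_of_injOn f hmaps hinj
  rw [Finset.card_product, Finset.card_range, Finset.card_univ, Fintype.card_bool] at hcard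
  have h1 : (T.card : ℝ) ≤ ((⌊L * K⌋₊ : ℝ) + 1) * 2 := by exact_mod_cast hcard
  have h2 : (⌊L * K⌋₊ : ℝ) ≤ L * K := Nat.floor_le (by positivity)
  have h3 : 4 * (E : ℝ) ^ 2 * L / δ = L * K := by rw [hK]; ring
  rw [h3]
  linarith

/-- one half of the directions -/
theorem SCountD_half (D N E : ℕ) (q b1 b2 : ℤ) (s : ℝ) (T : Finset (ℤ × ℤ)) (hD : 1 ≤ D)
    (hN : 1 ≤ N) (hE : 1 ≤ E) (hq : 1 ≤ q) (hs0 : 0 ≤ s) (hs : s ≤ |(b1 : ℝ)| ∨ s ≤ |(b2 : ℝ)|)
    (hc : ∀ e ∈ T, IsCoprime e.1 e.2) (hx0 : ∀ e ∈ T, e.1 ≠ 0)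
    (hx : ∀ e ∈ T, |e.1| < 2 * E) (hle : ∀ e ∈ T, |e.2| ≤ |e.1|)
    (hdet : ∀ e ∈ T, ∀ e' ∈ T, e.1 * e'.2 - e.2 * e'.1 ≠ 0 →
      (q : ℝ) / (2 * D) ≤ |((e.1 * e'.2 - e.2 * e'.1 : ℤ) : ℝ)|)
    (hb : ∀ e ∈ T, |b1 * e.1 + b2 * e.2| ≤ 2 * D * q * N * |e.1|) :
    (T.card : ℝ) ≤ 2 + 160 * (D : ℝ) ^ 2 * ((E : ℝ) ^ 2 / (q + s / N)) := by
  have hD0 : (1 : ℝ) ≤ D := by exact_mod_cast hD
  have hN0 : (1 : ℝ) ≤ N := by exact_mod_cast hN
  have hE0 : (1 : ℝ) ≤ E := by exact_mod_cast hE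
  have hq0 : (1 : ℝ) ≤ q := by exact_mod_cast hq
  have hDp : (0 : ℝ) < D := by linarith
  have hNp : (0 : ℝ) < N := by linarith
  have hEp : (0 : ℝ) < E := by linarith
  have hqp : (0 : ℝ) < q := by linarith
  have hA : (0 : ℝ) < q + s / N := by positivity
  have hδ : (0 : ℝ) < (q : ℝ) / (2 * D) := by positivity
  -- the slopes
  have hsl : ∀ e ∈ T, |(e.2 : ℝ) / e.1| ≤ 1 := by
    intro e he
    have h1 : (0 : ℝ) < |(e.1 : ℝ)| := abs_pos.2 (by exact_mod_cast hx0 e he)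
    rw [abs_div, div_le_one h1]
    have := hle e he
    exact_mod_cast this
  have hbs : ∀ e ∈ T, |(b1 : ℝ) + b2 * ((e.2 : ℝ) / e.1)| ≤ 2 * D * q * N := by
    intro e he
    have h0 : (e.1 : ℝ) ≠ 0 := by exact_mod_cast hx0 e he
    have h1 : (0 : ℝ) < |(e.1 : ℝ)| := abs_pos.2 h0
    have h2 : |(b1 : ℝ) * e.1 + b2 * e.2| ≤ 2 * D * q * N * |(e.1 : ℝ)| := by
      have := hb e he
      exact_mod_cast this
    have h3 : (b1 : ℝ) * e.1 + b2 * e.2 = ((b1 : ℝ) + b2 * ((e.2 : ℝ) / e.1)) * e.1 := by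
      field_simp
    rw [h3, abs_mul] at h2
    exact le_of_mul_le_mul_right h2 h1
  by_cases hbig : s ≤ 4 * D * q * N
  · have h1 := SCountD_key E T ((q : ℝ) / (2 * D)) (-1) 2 hE hδ (by norm_num) hc hx0 hx hdet
      (fun e he => by
        have := abs_le.1 (hsl e he)
        constructor <;> linarith)
    refine h1.trans ?_
    have h2 : (q : ℝ) + s / N ≤ 5 * D * q := by
      have : s / N ≤ 4 * D * q := by
        rw [div_le_iff₀ hNp]
        exact hbig
      nlinarith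
    have h3 : 4 * (E : ℝ) ^ 2 * 2 / (q / (2 * D)) = 16 * D * E ^ 2 / q := by
      field_simp
      ring
    have h4 : (E : ℝ) ^ 2 / q ≤ 5 * D * (E ^ 2 / (q + s / N)) := by
      rw [← mul_div_assoc, div_le_div_iff₀ hqp hA]
      have : (0 : ℝ) ≤ (E : ℝ) ^ 2 := by positivity
      nlinarith
    rw [h3]
    have h5 : 16 * (D : ℝ) * E ^ 2 / q = 16 * D * (E ^ 2 / q) := by ring
    rw [h5]
    have h6 : 16 * (D : ℝ) * (E ^ 2 / q) ≤ 16 * D * (5 * D * (E ^ 2 / (q + s / N))) :=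
      mul_le_mul_of_nonneg_left h4 (by positivity)
    nlinarith
  · push Not at hbig
    have hsp : 0 < s := lt_of_le_of_lt (by positivity) hbig
    by_cases hb2 : s ≤ 2 * |(b2 : ℝ)|
    · have hb2p : 0 < |(b2 : ℝ)| := by linarith
      have hb20 : (b2 : ℝ) ≠ 0 := abs_pos.1 hb2p
      set R : ℝ := 4 * D * q * N / s with hR
      have hRp : 0 < R := by positivity
      have h1 := SCountD_key E T ((q : ℝ) / (2 * D)) (-(b1 / b2) - R) (2 * R) hE hδ (by positivity)
        hc hx0 hx hdet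
        (fun e he => by
          have h2 := hbs e he
          have h3 : (b1 : ℝ) + b2 * ((e.2 : ℝ) / e.1) = b2 * ((e.2 : ℝ) / e.1 + b1 / b2) := by
            have h0 : (e.1 : ℝ) ≠ 0 := by exact_mod_cast hx0 e he
            field_simp
            ring
          rw [h3, abs_mul] at h2
          have h4 : |(e.2 : ℝ) / e.1 + b1 / b2| ≤ R := by
            rw [hR, le_div_iff₀ hsp]
            have h5 : |(e.2 : ℝ) / e.1 + b1 / b2| * s ≤
                |(e.2 : ℝ) / e.1 + b1 / b2| * (2 * |(b2 : ℝ)|) :=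
              mul_le_mul_of_nonneg_left hb2 (abs_nonneg _)
            nlinarith
          have h5 := abs_le.1 h4
          constructor <;> linarith [h5.1, h5.2])
      refine h1.trans ?_
      have h2 : 4 * (E : ℝ) ^ 2 * (2 * R) / (q / (2 * D)) = 64 * D ^ 2 * E ^ 2 * (N / s) := by
        rw [hR]
        field_simp
        ring
      have h3 : (q : ℝ) + s / N ≤ 5 / 4 * (s / N) := by
        have : 4 * (q : ℝ) ≤ s / N := by
          rw [le_div_iff₀ hNp]
          nlinarith [mul_pos hqp hNp]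
        linarith
      have h4 : (N : ℝ) / s ≤ 5 / 4 * (1 / (q + s / N)) := by
        rw [mul_one_div, div_le_div_iff₀ hsp hA]
        have h5 : (N : ℝ) * (5 / 4 * (s / N)) = 5 / 4 * s := by field_simp
        nlinarith
      rw [h2]
      have h5 : 64 * (D : ℝ) ^ 2 * E ^ 2 * (N / s) ≤
          64 * (D : ℝ) ^ 2 * E ^ 2 * (5 / 4 * (1 / (q + s / N))) :=
        mul_le_mul_of_nonneg_left h4 (by positivity)
      have h6 : 64 * (D : ℝ) ^ 2 * E ^ 2 * (5 / 4 * (1 / (q + s / N))) =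
          80 * (D : ℝ) ^ 2 * (E ^ 2 / (q + s / N)) := by ring
      rw [h6] at h5
      linarith
    · push Not at hb2
      have hb1 : s ≤ |(b1 : ℝ)| := by
        rcases hs with h | h
        · exact h
        · linarith [abs_nonneg (b2 : ℝ)]
      have hT : T = ∅ := by
        apply Finset.eq_empty_of_forall_notMem
        intro e he
        have h1 := hbs e he
        have h2 : |(b2 : ℝ) * ((e.2 : ℝ) / e.1)| ≤ |(b2 : ℝ)| := by
          rw [abs_mul]
          exact mul_le_of_le_one_right (abs_nonneg _) (hsl e he)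
        have h3 : |(b1 : ℝ)| ≤ |(b1 : ℝ) + b2 * ((e.2 : ℝ) / e.1)| +
            |(b2 : ℝ) * ((e.2 : ℝ) / e.1)| := by
          have := abs_sub ((b1 : ℝ) + b2 * ((e.2 : ℝ) / e.1)) ((b2 : ℝ) * ((e.2 : ℝ) / e.1))
          simpa using this
        have h4 : 2 * (2 * (D : ℝ) * q * N) = 4 * D * q * N := by ring
        linarith
      rw [hT]
      simp only [Finset.card_empty, Nat.cast_zero]
      positivity

theorem SCountD_bezout {q : ℤ} {a : ℤ × ℤ} (h : Low q a) (X : ℤ) (h1 : q ∣ X * a.1)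
    (h2 : q ∣ X * a.2) : q ∣ X := by
  have hu : IsUnit ((Int.gcd (Int.gcd a.1 a.2 : ℤ) q : ℤ)) := by
    apply h.2
    · exact Int.gcd_dvd_right _ _
    · exact (Int.gcd_dvd_left _ _).trans (Int.gcd_dvd_left _ _)
    · exact (Int.gcd_dvd_left _ _).trans (Int.gcd_dvd_right _ _)
  have h3 : q ∣ X * (Int.gcd a.1 a.2 : ℤ) := by
    rw [Int.gcd_eq_gcd_ab, mul_add, ← mul_assoc, ← mul_assoc]
    exact dvd_add (h1.mul_right _) (h2.mul_right _)
  have h4 : q ∣ X * (Int.gcd (Int.gcd a.1 a.2 : ℤ) q : ℤ) := by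
    rw [Int.gcd_eq_gcd_ab (Int.gcd a.1 a.2 : ℤ) q, mul_add, ← mul_assoc, ← mul_assoc]
    exact dvd_add (h3.mul_right _) ((Dvd.intro_left X rfl).mul_right _)
  exact (hu.dvd_mul_right).1 h4

theorem Sd_countD (D : ℕ) (hD : 1 ≤ D) : ∃ C : ℝ, 0 < C ∧
    ∀ (N : ℕ) (q : ℤ) (a : ℤ × ℤ) (E : ℕ) (S : Finset (ℤ × ℤ)),
    1 ≤ N → Low q a → 1 ≤ E →
    (∀ e ∈ S, IsCoprime e.1 e.2 ∧ SdD D N q a e ∧ E ≤ sn e ∧ sn e < 2 * E) →
    (S.card : ℝ) ≤ C * (1 + (E : ℝ) ^ 2 / Aq N q a) := by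
  have hD0 : (1 : ℝ) ≤ D := by exact_mod_cast hD
  refine ⟨320 * (D : ℝ) ^ 2, by positivity, ?_⟩
  intro N q a E S hN hlow hE hS
  have hq : 1 ≤ q := hlow.1
  have hsn : ∀ e : ℤ × ℤ, (sn e : ℤ) = max |e.1| |e.2| := by
    intro e
    rw [sn]
    push_cast
    rfl
  have hdet0 : ∀ e ∈ S, ∀ e' ∈ S, e.1 * e'.2 - e.2 * e'.1 ≠ 0 →
      (q : ℝ) / (2 * D) ≤ |((e.1 * e'.2 - e.2 * e'.1 : ℤ) : ℝ)| := by
    intro e he e' he' hne
    have h1 := (hS e he).2.1.1
    have h2 := (hS e' he').2.1.1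
    have h3 : q ∣ (2 * D * (e.1 * e'.2 - e.2 * e'.1)) * a.1 := by
      have : (2 * D * (e.1 * e'.2 - e.2 * e'.1)) * a.1 =
          D * e'.2 * (2 * (a.1 * e.1 + D * a.2 * e.2)) -
          D * e.2 * (2 * (a.1 * e'.1 + D * a.2 * e'.2)) := by ring
      rw [this]
      exact dvd_sub (h1.mul_left _) (h2.mul_left _)
    have h4 : q ∣ (2 * D * (e.1 * e'.2 - e.2 * e'.1)) * a.2 := by
      have : (2 * D * (e.1 * e'.2 - e.2 * e'.1)) * a.2 =
          e.1 * (2 * (a.1 * e'.1 + D * a.2 * e'.2)) -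
          e'.1 * (2 * (a.1 * e.1 + D * a.2 * e.2)) := by ring
      rw [this]
      exact dvd_sub (h2.mul_left _) (h1.mul_left _)
    have h5 := SCountD_bezout hlow _ h3 h4
    have h6 : 2 * (D : ℤ) * (e.1 * e'.2 - e.2 * e'.1) ≠ 0 := by
      have : (D : ℤ) ≠ 0 := by positivity
      positivity
    have h7 : q ≤ |2 * (D : ℤ) * (e.1 * e'.2 - e.2 * e'.1)| :=
      Int.le_of_dvd (abs_pos.2 h6) ((dvd_abs _ _).2 h5)
    have h8 : (q : ℝ) ≤ |2 * (D : ℝ) * ((e.1 * e'.2 - e.2 * e'.1 : ℤ) : ℝ)| := by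
      exact_mod_cast h7
    rw [abs_mul, abs_of_pos (by positivity : (0 : ℝ) < 2 * (D : ℝ))] at h8
    rw [div_le_iff₀ (by positivity)]
    linarith
  have hsnR : ∀ v : ℤ × ℤ, ((sn v : ℕ) : ℝ) = max |(v.1 : ℝ)| |(v.2 : ℝ)| := by
    intro v
    have := hsn v
    have h2 : (((sn v : ℕ) : ℤ) : ℝ) = ((max |v.1| |v.2| : ℤ) : ℝ) := by rw [this]
    push_cast at h2
    exact h2
  have hs0 : (0 : ℝ) ≤ (sn a : ℝ) := by positivity
  have h1 := SCountD_half D N E q a.1 (D * a.2) (sn a) (S.filter (fun e => |e.2| ≤ |e.1|)) hD hN hE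
    hq hs0
    (by
      rw [hsnR a]
      rcases max_choice |(a.1 : ℝ)| |(a.2 : ℝ)| with h | h
      · left; rw [h]
      · right
        rw [h]
        push_cast
        rw [abs_mul, abs_of_nonneg (by positivity : (0 : ℝ) ≤ (D : ℝ))]
        nlinarith [abs_nonneg (a.2 : ℝ)])
    (fun e he => (hS e (Finset.mem_filter.1 he).1).1)
    (fun e he h0 => by
      have h1 := (Finset.mem_filter.1 he).2
      have h2 := hS e (Finset.mem_filter.1 he).1
      have h3 := hsn e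
      rw [h0] at h1 h3
      have h4 : |e.2| = 0 := le_antisymm (by simpa using h1) (abs_nonneg _)
      rw [h4] at h3
      simp at h3
      omega)
    (fun e he => by
      have h2 := (hS e (Finset.mem_filter.1 he).1).2.2.2
      have h3 := hsn e
      have h4 := le_max_left |e.1| |e.2|
      rw [← h3] at h4
      have h5 : (sn e : ℤ) < 2 * E := by exact_mod_cast h2
      omega)
    (fun e he => (Finset.mem_filter.1 he).2)
    (fun e he e' he' => hdet0 e (Finset.mem_filter.1 he).1 e' (Finset.mem_filter.1 he').1)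
    (fun e he => by
      have h1 := (Finset.mem_filter.1 he).2
      have h2 := (hS e (Finset.mem_filter.1 he).1).2.1.2
      rw [hsn e, max_eq_left h1] at h2
      exact h2)
  have h2 := SCountD_half D N E q (D * a.2) a.1 (sn a)
    ((S.filter (fun e => ¬ |e.2| ≤ |e.1|)).image Prod.swap) hD hN hE hq hs0
    (by
      rw [hsnR a]
      rcases max_choice |(a.1 : ℝ)| |(a.2 : ℝ)| with h | h
      · right; rw [h]
      · left
        rw [h]
        push_cast
        rw [abs_mul, abs_of_nonneg (by positivity : (0 : ℝ) ≤ (D : ℝ))]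
        nlinarith [abs_nonneg (a.2 : ℝ)])
    (by
      intro e' he'
      obtain ⟨e, he, rfl⟩ := Finset.mem_image.1 he'
      exact ((hS e (Finset.mem_filter.1 he).1).1).symm)
    (by
      intro e' he'
      obtain ⟨e, he, rfl⟩ := Finset.mem_image.1 he'
      intro h0
      have h1 := (Finset.mem_filter.1 he).2
      simp only [Prod.fst_swap] at h0
      rw [h0] at h1
      simp at h1)
    (by
      intro e' he'
      obtain ⟨e, he, rfl⟩ := Finset.mem_image.1 he'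
      have h2 := (hS e (Finset.mem_filter.1 he).1).2.2.2
      have h3 := hsn e
      have h4 := le_max_right |e.1| |e.2|
      rw [← h3] at h4
      have h5 : (sn e : ℤ) < 2 * E := by exact_mod_cast h2
      simp only [Prod.fst_swap]
      omega)
    (by
      intro e' he'
      obtain ⟨e, he, rfl⟩ := Finset.mem_image.1 he'
      have h1 := (Finset.mem_filter.1 he).2
      simp only [Prod.fst_swap, Prod.snd_swap]
      exact (not_le.1 h1).le)
    (by
      intro e' he' f' hf' hne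
      obtain ⟨e, he, rfl⟩ := Finset.mem_image.1 he'
      obtain ⟨f, hf, rfl⟩ := Finset.mem_image.1 hf'
      simp only [Prod.fst_swap, Prod.snd_swap] at hne ⊢
      have h1 := hdet0 e (Finset.mem_filter.1 he).1 f (Finset.mem_filter.1 hf).1
        (by
          intro h0
          apply hne
          linarith)
      have h2 : ((e.2 * f.1 - e.1 * f.2 : ℤ) : ℝ) = -((e.1 * f.2 - e.2 * f.1 : ℤ) : ℝ) := by
        push_cast
        ring
      rw [h2, abs_neg]
      exact h1)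
    (by
      intro e' he'
      obtain ⟨e, he, rfl⟩ := Finset.mem_image.1 he'
      have h1 := (Finset.mem_filter.1 he).2
      have h2 := (hS e (Finset.mem_filter.1 he).1).2.1.2
      rw [hsn e, max_eq_right (not_le.1 h1).le] at h2
      simp only [Prod.fst_swap, Prod.snd_swap]
      rw [add_comm]
      exact h2)
  rw [Finset.card_image_of_injective _ Prod.swap_injective] at h2
  have h3 : (S.card : ℝ) = ((S.filter (fun e => |e.2| ≤ |e.1|)).card : ℝ) +
      ((S.filter (fun e => ¬ |e.2| ≤ |e.1|)).card : ℝ) := by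
    exact_mod_cast (Finset.card_filter_add_card_filter_not (s := S)
      (fun e : ℤ × ℤ => |e.2| ≤ |e.1|)).symm
  rw [h3, Aq]
  have h4 : (1 : ℝ) ≤ (D : ℝ) ^ 2 := by nlinarith
  have h5 : 0 ≤ (E : ℝ) ^ 2 / ((q : ℝ) + (sn a : ℝ) / N) := by
    have : (0 : ℝ) < q := by exact_mod_cast (by omega : (0 : ℤ) < q)
    positivity
  nlinarith

end Pool.Agent.DL
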