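import Pool.Agent.helper41.DG.SSum
import Pool.Agent.helper41.DL.SCountD
import Pool.Agent.helper41.DL.SSieveD

/-! # The sum over the directions -/

set_option autoImplicit false
open scoped Classical

open Finset Pool.Agent.DG

namespace Pool.Agent.DL

/-- one dyadic range -/
theorem SSumD_range (D : ℕ) (hD0 : 1 ≤ D) : ∃ K C3 C1 : ℝ, 0 < K ∧ 0 < C3 ∧ 10 ≤ C1 ∧
    ∀ (N : ℕ) (w : ℝ) (q : ℤ) (a : ℤ × ℤ) (E : ℕ) (S : Finset (ℤ × ℤ)),
    2 ≤ N → C1 ≤ w → w ≤ N → Low q a → Aq N q a ≤ w → 1 ≤ E → E ≤ N →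
    (∀ e ∈ S, IsCoprime e.1 e.2 ∧ SdD D N q a e ∧ E ≤ sn e ∧ sn e < 2 * E) →
    ∑ e ∈ S, Gw (IND D N w) (nsqD D e) / (sn e : ℝ) ^ 2 ≤
      C3 * (1 / (E : ℝ) ^ 2) + K * ((Real.log w) ^ (3 / 4 : ℝ) / Aq N q a) *
        (1 / (1 + Real.log E)) ^ (3 / 4 : ℝ) := by
  obtain ⟨C2, C1, hC2, hC1, H2⟩ := Sd_sieveD D hD0
  obtain ⟨C3, hC3, H3⟩ := Sd_countD D hD0
  refine ⟨2 * C2 + 3 * C3, C3, C1, by positivity, hC3, hC1, ?_⟩
  intro N w q a E S hN hw hwN hLow hAw hE hEN hS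
  obtain ⟨hA1, hqA⟩ := SSum_Aq_ge (N := N) hLow
  set A : ℝ := Aq N q a with hA
  have hA0 : 0 < A := by linarith
  have hE1 : (1 : ℝ) ≤ E := by exact_mod_cast hE
  have hE0 : (0 : ℝ) < E := by linarith
  have hEsq : (0 : ℝ) < (E : ℝ) ^ 2 := by positivity
  have hw1 : 1 ≤ Real.log w := by
    rw [Real.le_log_iff_exp_le (by linarith)]
    have := Real.exp_one_lt_d9
    linarith
  have hlw0 : 0 ≤ Real.log w := by linarith
  have hlogE : 0 ≤ Real.log E := Real.log_nonneg hE1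
  set t : ℝ := 1 / (1 + Real.log E) with ht
  have ht0 : 0 ≤ t := by positivity
  have htE : t * (1 + Real.log E) = 1 := by
    rw [ht]
    field_simp
  set lw : ℝ := (Real.log w) ^ (3 / 4 : ℝ) with hlw
  have hlwn : 0 ≤ lw := Real.rpow_nonneg hlw0 _
  have htn : 0 ≤ t ^ (3 / 4 : ℝ) := Real.rpow_nonneg ht0 _
  -- reduction to the sum of the weights
  have hred : ∑ e ∈ S, Gw (IND D N w) (nsqD D e) / (sn e : ℝ) ^ 2 ≤
      (∑ e ∈ S, Gw (IND D N w) (nsqD D e)) / (E : ℝ) ^ 2 := by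
    rw [sum_div]
    apply sum_le_sum
    intro e he
    obtain ⟨_, _, h1, _⟩ := hS e he
    have h1' : (E : ℝ) ≤ sn e := by exact_mod_cast h1
    apply div_le_div_of_nonneg_left (SSum_Gw_nonneg _ _) hEsq
    exact pow_le_pow_left₀ hE0.le h1' 2
  refine hred.trans ?_
  by_cases hcase : A ^ 2 ≤ E
  · have hAE : A ≤ E := by nlinarith
    have h1 := H2 N w q a E S hN hw hwN hLow (by linarith) hE hEN hAE
      (fun e he => ⟨(hS e he).2.1, (hS e he).2.2⟩)
    have h2 : Real.log (E / A) = Real.log E - Real.log A := Real.log_div hE0.ne' hA0.ne'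
    have h3 : 2 * Real.log A ≤ Real.log E := by
      have := Real.log_le_log (by positivity) hcase
      rw [Real.log_pow] at this
      push_cast at this
      exact this
    have h4 : (1 / 2) * (1 + Real.log E) ≤ 1 + Real.log (E / A) := by
      rw [h2]
      linarith
    have h5 : Real.log w / (1 + Real.log (E / A)) ≤ 2 * Real.log w * t := by
      rw [div_le_iff₀ (by linarith)]
      have e1 : 0 ≤ 2 * Real.log w * t := by positivity
      have e2 := mul_le_mul_of_nonneg_left h4 e1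
      have e3 : 2 * Real.log w * t * (1 / 2 * (1 + Real.log E)) = Real.log w := by
        have : 2 * Real.log w * t * (1 / 2 * (1 + Real.log E)) =
          Real.log w * (t * (1 + Real.log E)) := by ring
        rw [this, htE, mul_one]
      linarith
    have h6 : 0 ≤ Real.log w / (1 + Real.log (E / A)) := by
      apply div_nonneg hlw0
      linarith
    have h7 : (Real.log w / (1 + Real.log (E / A))) ^ (3 / 4 : ℝ) ≤ 2 * (lw * t ^ (3 / 4 : ℝ)) :=
      (Real.rpow_le_rpow h6 h5 (by norm_num)).trans (SSum_rpow3 (by norm_num) hlw0 ht0)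
    have h8 : ∑ e ∈ S, Gw (IND D N w) (nsqD D e) ≤
        C2 * ((E : ℝ) ^ 2 / A) * (2 * (lw * t ^ (3 / 4 : ℝ))) :=
      h1.trans (mul_le_mul_of_nonneg_left h7 (by positivity))
    have h9 : (∑ e ∈ S, Gw (IND D N w) (nsqD D e)) / (E : ℝ) ^ 2 ≤
        2 * C2 * (lw / A) * t ^ (3 / 4 : ℝ) := by
      rw [div_le_iff₀ hEsq]
      refine h8.trans (le_of_eq ?_)
      field_simp
    have h10 : 0 ≤ C3 * (1 / (E : ℝ) ^ 2) := by positivity
    have h11 : 0 ≤ 3 * C3 * (lw / A) * t ^ (3 / 4 : ℝ) := by positivity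
    have h12 : (2 * C2 + 3 * C3) * (lw / A) * t ^ (3 / 4 : ℝ) =
      2 * C2 * (lw / A) * t ^ (3 / 4 : ℝ) + 3 * C3 * (lw / A) * t ^ (3 / 4 : ℝ) := by ring
    rw [h12]
    linarith
  · push Not at hcase
    have h1 := H3 N q a E S (by omega) hLow hE hS
    rw [← hA] at h1
    have h2 : ∑ e ∈ S, Gw (IND D N w) (nsqD D e) ≤ S.card := by
      calc ∑ e ∈ S, Gw (IND D N w) (nsqD D e) ≤ ∑ e ∈ S, (1 : ℝ) :=
            sum_le_sum (fun e _ => SSum_Gw_le_one _ _)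
        _ = S.card := by simp
    have h3 : Real.log E ≤ 2 * Real.log w := by
      have e1 : Real.log E ≤ Real.log (A ^ 2) := Real.log_le_log hE0 hcase.le
      rw [Real.log_pow] at e1
      push_cast at e1
      have e2 : Real.log A ≤ Real.log w := Real.log_le_log hA0 hAw
      linarith
    have h4 : 1 ≤ 3 * Real.log w * t := by
      have e1 : 1 + Real.log E ≤ 3 * Real.log w := by linarith
      have e2 := mul_le_mul_of_nonneg_left e1 ht0
      linarith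
    have h5 : 1 ≤ 3 * (lw * t ^ (3 / 4 : ℝ)) := by
      have e1 := Real.one_le_rpow h4 (by norm_num : (0 : ℝ) ≤ 3 / 4)
      exact e1.trans (SSum_rpow3 (by norm_num) hlw0 ht0)
    have h6 : (∑ e ∈ S, Gw (IND D N w) (nsqD D e)) / (E : ℝ) ^ 2 ≤ C3 * (1 / (E : ℝ) ^ 2) + C3 / A := by
      rw [div_le_iff₀ hEsq]
      refine (h2.trans h1).trans (le_of_eq ?_)
      field_simp
    have h7 : C3 / A ≤ 3 * C3 * (lw / A) * t ^ (3 / 4 : ℝ) := by
      have e1 : 0 ≤ C3 / A := by positivity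
      have e2 := mul_le_mul_of_nonneg_left h5 e1
      have e3 : C3 / A * (3 * (lw * t ^ (3 / 4 : ℝ))) = 3 * C3 * (lw / A) * t ^ (3 / 4 : ℝ) := by
        ring
      linarith
    have h11 : 0 ≤ 2 * C2 * (lw / A) * t ^ (3 / 4 : ℝ) := by positivity
    have h12 : (2 * C2 + 3 * C3) * (lw / A) * t ^ (3 / 4 : ℝ) =
      2 * C2 * (lw / A) * t ^ (3 / 4 : ℝ) + 3 * C3 * (lw / A) * t ^ (3 / 4 : ℝ) := by ring
    rw [h12]
    linarith

theorem outerID (D : ℕ) (hD : 1 ≤ D) : ∃ C C1 : ℝ, 0 < C ∧ 10 ≤ C1 ∧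
    ∀ (N : ℕ) (w : ℝ) (q : ℤ) (a : ℤ × ℤ),
    2 ≤ N → C1 ≤ w → w ≤ N → Low q a → Aq N q a ≤ w →
    ∑ e ∈ (Dir N).filter (fun e => SdD D N q a e), Gw (IND D N w) (nsqD D e) / (sn e : ℝ) ^ 2 ≤
      C * (1 + (Real.log w) ^ (3 / 4 : ℝ) * (Real.log N) ^ (1 / 4 : ℝ) / Aq N q a) := by
  obtain ⟨K, C3, C1, hK, hC3, hC1, H⟩ := SSumD_range D hD
  obtain ⟨C4, hC4, H4⟩ := dyadic_sum
  refine ⟨2 * C3 + K * C4, C1, by positivity, hC1, ?_⟩
  intro N w q a hN hw hwN hLow hAw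
  obtain ⟨hA1, _⟩ := SSum_Aq_ge (N := N) hLow
  set A : ℝ := Aq N q a with hA
  have hA0 : 0 < A := by linarith
  have hlw0 : 0 ≤ Real.log w := Real.log_nonneg (by linarith)
  have hN2 : (2 : ℝ) ≤ N := by exact_mod_cast hN
  have hlN0 : 0 ≤ Real.log N := Real.log_nonneg (by linarith)
  set T : Finset (ℤ × ℤ) := (Dir N).filter (fun e => SdD D N q a e) with hT
  have hmaps : ∀ e ∈ T, Nat.log 2 (sn e) ∈ range (Nat.log 2 N + 1) := by
    intro e he
    rw [hT, mem_filter] at he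
    obtain ⟨h1, h2, _⟩ := sn_pos_of_mem_Dir he.1
    rw [mem_range]
    have := Nat.log_mono_right (b := 2) h2
    omega
  rw [← sum_fiberwise_of_maps_to hmaps]
  have hterm : ∀ i ∈ range (Nat.log 2 N + 1),
      ∑ e ∈ T with Nat.log 2 (sn e) = i, Gw (IND D N w) (nsqD D e) / (sn e : ℝ) ^ 2 ≤
        C3 * (1 / ((2 ^ i : ℝ)) ^ 2) + K * ((Real.log w) ^ (3 / 4 : ℝ) / A) *
          (1 / (1 + Real.log (2 ^ i))) ^ (3 / 4 : ℝ) := by
    intro i hi
    rw [mem_range] at hi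
    have hEN : 2 ^ i ≤ N :=
      (Nat.pow_le_pow_right (by norm_num) (by omega : i ≤ Nat.log 2 N)).trans
        (Nat.pow_log_le_self 2 (by omega))
    have := H N w q a (2 ^ i) (T.filter (fun e => Nat.log 2 (sn e) = i)) hN hw hwN hLow hAw
      Nat.one_le_two_pow hEN (by
        intro e he
        rw [mem_filter, hT, mem_filter] at he
        obtain ⟨⟨he1, he2⟩, he3⟩ := he
        obtain ⟨h1, h2, h3⟩ := sn_pos_of_mem_Dir he1
        refine ⟨h3, he2, ?_, ?_⟩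
        · rw [← he3]
          exact Nat.pow_log_le_self 2 (by omega)
        · rw [← he3]
          have := Nat.lt_pow_succ_log_self (b := 2) (by norm_num) (sn e)
          rw [pow_succ] at this
          omega)
    push_cast at this
    exact this
  refine (sum_le_sum hterm).trans ?_
  rw [sum_add_distrib, ← mul_sum, ← mul_sum]
  have h1 : ∑ i ∈ range (Nat.log 2 N + 1), 1 / ((2 ^ i : ℝ)) ^ 2 ≤ 2 := by
    have e1 := SSum_geom (Nat.log 2 N + 1)
    have e2 : (0 : ℝ) ≤ (1 / 4) ^ (Nat.log 2 N + 1) := by positivity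
    linarith
  have h2 := H4 N hN
  have hB : 0 ≤ (Real.log w) ^ (3 / 4 : ℝ) / A := div_nonneg (Real.rpow_nonneg hlw0 _) hA0.le
  have h3 := mul_le_mul_of_nonneg_left h2 (mul_nonneg hK.le hB)
  have h4 := mul_le_mul_of_nonneg_left h1 hC3.le
  set R : ℝ := (Real.log w) ^ (3 / 4 : ℝ) * (Real.log N) ^ (1 / 4 : ℝ) / A with hR
  have hR0 : 0 ≤ R :=
    div_nonneg (mul_nonneg (Real.rpow_nonneg hlw0 _) (Real.rpow_nonneg hlN0 _)) hA0.le
  have h5 : K * ((Real.log w) ^ (3 / 4 : ℝ) / A) * (C4 * (Real.log N) ^ (1 / 4 : ℝ)) =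
      K * C4 * R := by
    rw [hR]
    ring
  have h6 : 0 ≤ C3 * R := mul_nonneg hC3.le hR0
  have h7 : 0 ≤ K * C4 := by positivity
  nlinarith

end Pool.Agent.DL
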