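import Pool.Agent.helper41.DL.GeoD

/-! # The outer sum for the large directions -/

set_option autoImplicit false
open scoped Classical

open Finset Pool.Agent.DG

namespace Pool.Agent.DL

theorem OutIID_Gw_nonneg (I : Finset ℕ) (m : ℕ) : 0 ≤ Gw I m := by
  unfold Gw
  refine Finset.prod_nonneg fun p _ => ?_
  split_ifs
  · unfold kp
    have : (0 : ℝ) ≤ 1 / (2 * (p : ℝ)) := by positivity
    linarith
  · exact zero_le_one

theorem OutIID_Gw_eq (D : ℕ) (I : Finset ℕ) (q h d : ℤ) :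
    Gw I (D * (q * h) ^ 2 + d ^ 2).natAbs =
      ∏ p ∈ I, (1 - kp p * nbD D (1, q) (0, 0) p (d, h)) := by
  unfold Gw nbD
  refine Finset.prod_congr rfl fun p _ => ?_
  have h1 : p ∣ (D * (q * h) ^ 2 + d ^ 2).natAbs ↔
      (p : ℤ) ∣ (((1, q) : ℤ × ℤ).1 * ((d, h) : ℤ × ℤ).1 + ((0, 0) : ℤ × ℤ).1) ^ 2 +
        D * (((1, q) : ℤ × ℤ).2 * ((d, h) : ℤ × ℤ).2 + ((0, 0) : ℤ × ℤ).2) ^ 2 := by
    simp only [add_zero, one_mul]
    rw [add_comm (d ^ 2)]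
    exact Int.natCast_dvd.symm
  by_cases h2 : p ∣ (D * (q * h) ^ 2 + d ^ 2).natAbs
  · rw [if_pos h2, if_pos (h1.1 h2), mul_one]
  · rw [if_neg h2, if_neg (fun h3 => h2 (h1.2 h3)), mul_zero, sub_zero]

/-- covering of the range of the second variable -/
theorem OutIID_cover (G : ℤ → ℤ → ℝ) (hG : ∀ h d, 0 ≤ G h d) (H K : ℕ) (hH : 1 ≤ H) (D : ℤ)
    (hK : 2 * D + 1 ≤ K * H) :
    ∑ h ∈ Icc (1 : ℤ) (H : ℤ), ∑ d ∈ Icc (-D) D, G h d ≤
      ∑ k ∈ range K, ∑ i ∈ range H, ∑ j ∈ range H, G (1 + j) ((-D + k * H) + i) := by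
  rw [← Finset.sum_product' (Icc (1 : ℤ) (H : ℤ)) (Icc (-D) D) (fun h d => G h d)]
  have h1 : ∑ k ∈ range K, ∑ i ∈ range H, ∑ j ∈ range H, G (1 + j) ((-D + k * H) + i) =
      ∑ x ∈ range K ×ˢ (range H ×ˢ range H), G (1 + x.2.2) ((-D + x.1 * H) + x.2.1) := by
    rw [Finset.sum_product]
    refine Finset.sum_congr rfl fun k _ => ?_
    rw [Finset.sum_product]
  rw [h1]
  set f : ℕ × (ℕ × ℕ) → ℤ × ℤ := fun x => (1 + x.2.2, (-D + x.1 * H) + x.2.1) with hf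
  have hsub : Icc (1 : ℤ) (H : ℤ) ×ˢ Icc (-D) D ⊆ (range K ×ˢ (range H ×ˢ range H)).image f := by
    rintro ⟨h, d⟩ hx
    rw [Finset.mem_product, Finset.mem_Icc, Finset.mem_Icc] at hx
    obtain ⟨⟨h1, h2⟩, h3, h4⟩ := hx
    simp only at h1 h2 h3 h4
    obtain ⟨n, hn⟩ : ∃ n : ℕ, (n : ℤ) = d + D := ⟨(d + D).toNat, Int.toNat_of_nonneg (by omega)⟩
    have h5 : n < K * H := by
      have : (n : ℤ) < (K : ℤ) * (H : ℤ) := by omega
      exact_mod_cast this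
    refine Finset.mem_image.2 ⟨(n / H, (n % H, (h - 1).toNat)), ?_, ?_⟩
    · simp only [Finset.mem_product, Finset.mem_range]
      exact ⟨Nat.div_lt_of_lt_mul (by rw [mul_comm]; exact h5), Nat.mod_lt _ hH, by omega⟩
    · have h6 : (((n / H : ℕ) : ℤ)) * (H : ℤ) + ((n % H : ℕ) : ℤ) = (n : ℤ) := by
        have := Nat.div_add_mod' n H
        exact_mod_cast this
      simp only [hf]
      refine Prod.ext ?_ ?_
      · simp only
        omega
      · simp only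
        linarith
  calc ∑ x ∈ Icc (1 : ℤ) (H : ℤ) ×ˢ Icc (-D) D, G x.1 x.2
      ≤ ∑ x ∈ (range K ×ˢ (range H ×ˢ range H)).image f, G x.1 x.2 :=
        Finset.sum_le_sum_of_subset_of_nonneg hsub (fun x _ _ => hG _ _)
    _ ≤ ∑ x ∈ range K ×ˢ (range H ×ˢ range H), G (f x).1 (f x).2 :=
        Finset.sum_image_le_of_nonneg (fun x _ => hG _ _)

theorem outerIID (D : ℕ) (hD : 1 ≤ D) : ∃ C C1 : ℝ, 0 < C ∧ 10 ≤ C1 ∧
    ∀ (N : ℕ) (w : ℝ) (q : ℤ) (A : ℝ) (E : ℕ),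
    2 ≤ N → C1 ≤ w → w ≤ N → 1 ≤ q → (q : ℝ) ≤ A → A ≤ w → 1 ≤ E → E ≤ N →
    ∑ h ∈ Icc (1 : ℤ) ((N / E : ℕ) : ℤ), ∑ d ∈ Icc (-⌊2 * D * N * A / E⌋) ⌊2 * D * N * A / E⌋,
      Gw (IND D N w) (D * (q * h) ^ 2 + d ^ 2).natAbs ≤
      C * ((N : ℝ) / E) ^ 2 * A * (Real.log w / (1 + Real.log (N / E))) ^ (3 / 4 : ℝ) := by
  obtain ⟨C, C1, hC, hC1, hs⟩ := sieve_outerD D hD
  have hDr : (1 : ℝ) ≤ (D : ℝ) := by exact_mod_cast hD
  refine ⟨(11 * D) * (C * 2), C1, by positivity, hC1, ?_⟩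
  intro N w q A E hN hw hwN hq hqA hAw hE hEN
  set H : ℕ := N / E with hHdef
  have hE0 : (0 : ℝ) < E := by exact_mod_cast hE
  have hH : 1 ≤ H := (Nat.one_le_div_iff (by omega)).2 hEN
  have hHN : H ≤ N := Nat.div_le_self _ _
  have hH0 : (1 : ℝ) ≤ (H : ℝ) := by exact_mod_cast hH
  have hA1 : (1 : ℝ) ≤ A := le_trans (by exact_mod_cast hq) hqA
  have hHle : (H : ℝ) ≤ (N : ℝ) / E := Nat.cast_div_le
  have hlt : (N : ℝ) / E < H + 1 := by
    rw [div_lt_iff₀ hE0]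
    have := Nat.lt_mul_div_succ N (show 0 < E by omega)
    have h2 : (N : ℝ) < (E : ℝ) * ((N / E : ℕ) + 1) := by exact_mod_cast this
    rw [mul_comm]
    exact h2
  have hle2 : (N : ℝ) / E ≤ 2 * H := by linarith
  set R : ℤ := ⌊2 * D * N * A / E⌋ with hR
  have hRnn : 0 ≤ R := Int.floor_nonneg.2 (by positivity)
  have hRle : (R : ℝ) ≤ 4 * H * (D * A) := by
    calc (R : ℝ) ≤ 2 * D * N * A / E := Int.floor_le _
      _ = 2 * ((N : ℝ) / E) * (D * A) := by ring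
      _ ≤ 2 * (2 * H) * (D * A) := by gcongr
      _ = 4 * H * (D * A) := by ring
  have hDA : 1 ≤ (D : ℝ) * A := by nlinarith
  obtain ⟨K, hK1, hK2⟩ : ∃ K : ℕ, 2 * R + 1 ≤ K * H ∧ (K : ℝ) ≤ 11 * (D * A) := by
    refine ⟨⌈(2 * R + 1 : ℝ) / H⌉₊, ?_, ?_⟩
    · have h1 : (2 * R + 1 : ℝ) / H ≤ (⌈(2 * R + 1 : ℝ) / H⌉₊ : ℝ) := Nat.le_ceil _
      rw [div_le_iff₀ (by linarith)] at h1
      exact_mod_cast h1
    · have hD0 : (0 : ℝ) ≤ R := by exact_mod_cast hRnn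
      have h1 : (⌈(2 * R + 1 : ℝ) / H⌉₊ : ℝ) < (2 * R + 1 : ℝ) / H + 1 :=
        Nat.ceil_lt_add_one (by positivity)
      have h2 : (2 * R + 1 : ℝ) / H ≤ 8 * (D * A) + 1 := by
        rw [div_le_iff₀ (by linarith)]
        nlinarith
      linarith
  have h1 := OutIID_cover (fun h d => Gw (IND D N w) (D * (q * h) ^ 2 + d ^ 2).natAbs)
    (fun h d => OutIID_Gw_nonneg _ _) H K hH R hK1
  have hIN : ∀ p ∈ IND D N w, ¬ (p : ℤ) ∣ ((1, q) : ℤ × ℤ).1 ∧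
      ¬ (p : ℤ) ∣ ((1, q) : ℤ × ℤ).2 := by
    intro p hp
    obtain ⟨h2, h3, h3', h4, h5⟩ := mem_ID.1 hp
    constructor
    · intro h6
      have h7 := Int.isUnit_iff.1 (isUnit_of_dvd_one h6)
      have h8 := h2.one_lt
      omega
    · intro h6
      have h7 : (p : ℤ) ≤ q := Int.le_of_dvd (by omega) h6
      have h8 : (p : ℝ) ≤ (q : ℝ) := by exact_mod_cast h7
      linarith
  have hb : ∀ k ∈ range K, ∑ i ∈ range H, ∑ j ∈ range H,
      Gw (IND D N w) (D * (q * (1 + j)) ^ 2 + ((-R + k * H) + i) ^ 2).natAbs ≤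
      C * (H : ℝ) ^ 2 * (Real.log w / (1 + Real.log H)) ^ (3 / 4 : ℝ) := by
    intro k _
    have h2 := hs N H w (1, q) (0, 0) (-R + k * H, 1) hN hw hwN hH
      (hHN.trans (Nat.le_self_pow (by norm_num) N)) hIN
    refine le_trans (le_of_eq ?_) h2
    refine Finset.sum_congr rfl fun i _ => Finset.sum_congr rfl fun j _ => ?_
    exact OutIID_Gw_eq _ _ _ _ _
  have hlogw : 0 ≤ Real.log w := Real.log_nonneg (by linarith)
  have hlogH : 0 ≤ Real.log H := Real.log_nonneg hH0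
  have hNE1 : 1 ≤ (N : ℝ) / E := hH0.trans hHle
  have hlogNE : 0 ≤ Real.log (N / E) := Real.log_nonneg hNE1
  have hlog : 1 + Real.log (N / E) ≤ 2 * (1 + Real.log H) := by
    have h3 : Real.log (N / E) ≤ Real.log 2 + Real.log H := by
      rw [← Real.log_mul (by norm_num) (by linarith)]
      exact Real.log_le_log (by linarith) hle2
    have h4 := Real.log_two_lt_d9
    linarith
  have hpow : (Real.log w / (1 + Real.log H)) ^ (3 / 4 : ℝ) ≤
      2 * (Real.log w / (1 + Real.log (N / E))) ^ (3 / 4 : ℝ) := by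
    calc (Real.log w / (1 + Real.log H)) ^ (3 / 4 : ℝ)
        ≤ (2 * (Real.log w / (1 + Real.log (N / E)))) ^ (3 / 4 : ℝ) := by
          apply Real.rpow_le_rpow (by positivity) _ (by norm_num)
          rw [← mul_div_assoc, div_le_div_iff₀ (by linarith) (by linarith)]
          nlinarith
      _ = 2 ^ (3 / 4 : ℝ) * (Real.log w / (1 + Real.log (N / E))) ^ (3 / 4 : ℝ) :=
          Real.mul_rpow (by norm_num) (by positivity)
      _ ≤ 2 * (Real.log w / (1 + Real.log (N / E))) ^ (3 / 4 : ℝ) := by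
          apply mul_le_mul_of_nonneg_right _ (by positivity)
          calc (2 : ℝ) ^ (3 / 4 : ℝ) ≤ 2 ^ (1 : ℝ) :=
                Real.rpow_le_rpow_of_exponent_le (by norm_num) (by norm_num)
            _ = 2 := Real.rpow_one 2
  have e2 := Finset.sum_le_sum hb
  rw [Finset.sum_const, Finset.card_range, nsmul_eq_mul] at e2
  have e3 : (K : ℝ) * (C * (H : ℝ) ^ 2 * (Real.log w / (1 + Real.log H)) ^ (3 / 4 : ℝ)) ≤
      (11 * (D * A)) * (C * ((N : ℝ) / E) ^ 2 *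
          (2 * (Real.log w / (1 + Real.log (N / E))) ^ (3 / 4 : ℝ))) := by
    gcongr
  have e4 : (11 * (D * A)) * (C * ((N : ℝ) / E) ^ 2 *
          (2 * (Real.log w / (1 + Real.log (N / E))) ^ (3 / 4 : ℝ))) =
        (11 * D) * (C * 2) * ((N : ℝ) / E) ^ 2 * A *
        (Real.log w / (1 + Real.log (N / E))) ^ (3 / 4 : ℝ) := by ring
  rw [← e4]
  exact (h1.trans e2).trans e3

end Pool.Agent.DL
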