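import Pool.Agent.helper41.DL.PhdD

/-! # The isosceles pairs with large directions: the inner sieve -/

set_option autoImplicit false
open scoped Classical

open Finset Pool.Agent.DG

namespace Pool.Agent.DL

theorem TypeIIfD_nbD_range (D : ℕ) (q r : ℤ × ℤ) (p : ℕ) (v : ℤ × ℤ) :
    0 ≤ nbD D q r p v ∧ nbD D q r p v ≤ 1 := by
  unfold nbD
  split_ifs
  · exact ⟨zero_le_one, le_rfl⟩
  · exact ⟨le_rfl, zero_le_one⟩

/-- a sum over a set which injects into a box -/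
theorem TypeIIfD_box {T : Type*} (P : Finset T) (f : T → ℤ × ℤ) (hinj : Set.InjOn f P) (u : ℤ × ℤ)
    (M : ℕ) (G : ℤ × ℤ → ℝ) (hG : ∀ v, 0 ≤ G v)
    (hf : ∀ t ∈ P, u.1 ≤ (f t).1 ∧ u.2 ≤ (f t).2 ∧ (f t).1 - u.1 < M ∧ (f t).2 - u.2 < M) :
    ∑ t ∈ P, G (f t) ≤ ∑ i ∈ range M, ∑ j ∈ range M, G (u.1 + i, u.2 + j) := by
  have h1 : ∑ t ∈ P, G (f t) = ∑ v ∈ P.image f, G v :=
    (Finset.sum_image (fun x hx y hy hxy => hinj hx hy hxy)).symm
  have h2 : ∑ i ∈ range M, ∑ j ∈ range M, G (u.1 + i, u.2 + j) =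
      ∑ v ∈ (range M ×ˢ range M).image (fun c : ℕ × ℕ => (u.1 + (c.1 : ℤ), u.2 + (c.2 : ℤ))), G v := by
    rw [Finset.sum_image, Finset.sum_product]
    rintro ⟨a, b⟩ - ⟨a', b'⟩ - hab
    simp only [Prod.mk.injEq, add_right_inj, Nat.cast_inj] at hab
    exact Prod.ext hab.1 hab.2
  rw [h1, h2]
  refine Finset.sum_le_sum_of_subset_of_nonneg ?_ (fun v _ _ => hG v)
  intro v hv
  obtain ⟨t, ht, rfl⟩ := Finset.mem_image.1 hv
  obtain ⟨h3, h4, h5, h6⟩ := hf t ht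
  refine Finset.mem_image.2 ⟨(((f t).1 - u.1).toNat, ((f t).2 - u.2).toNat), ?_, ?_⟩
  · simp only [Finset.mem_product, Finset.mem_range]
    constructor <;> omega
  · apply Prod.ext
    · simp only
      omega
    · simp only
      omega

theorem typeII_fixedD (D : ℕ) (hD : 1 ≤ D) : ∃ C C1 : ℝ, 0 < C ∧ 10 ≤ C1 ∧
    ∀ (N : ℕ) (w : ℝ) (q : ℤ) (a : ℤ × ℤ)
    (E : ℕ) (h d : ℤ), 2 ≤ N → C1 ≤ w → w ≤ N → Low q a → (q : ℝ) ≤ w → 1 ≤ h → d ≠ 0 →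
    N ≤ 4 * E ^ 2 → E ≤ N → Aq N q a ^ 4 ≤ N →
    ∑ t ∈ PhdD D N q a E h d, wt (IND D N w) (1 / 4) (nsqD D (qv q a t.1)) ≤
      C * ((E : ℝ) / Aq N q a) ^ 2 * (Real.log w / Real.log N) ^ (3 / 4 : ℝ) *
        Gw (IND D N w) (D * (q * h) ^ 2 + d ^ 2).natAbs := by
  have hDR : (1 : ℝ) ≤ D := by exact_mod_cast hD
  obtain ⟨K, hK⟩ : ∃ K : ℝ, K = (D : ℝ) ^ 2 := ⟨_, rfl⟩
  have hK1 : 1 ≤ K := by rw [hK]; nlinarith
  obtain ⟨C0, C01, hC0, hC01, hs⟩ := sieve_innerD D hD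
  refine ⟨C0 * (25 * K) ^ 2 * 4, max C01 (25 * K), by positivity, le_max_of_le_left hC01, ?_⟩
  intro N w q a E h d hN hw hwN hL hqw hh hd hNE hEN hAN
  have hw1 : C01 ≤ w := le_trans (le_max_left _ _) hw
  have hwK : 25 * K ≤ w := le_trans (le_max_right _ _) hw
  have hw2 : (25 : ℝ) ≤ w := by linarith
  have hNK : 25 * K ≤ N := hwK.trans hwN
  have hN25 : (25 : ℝ) ≤ N := hw2.trans hwN
  have hE1 : 1 ≤ E := by
    rcases Nat.eq_zero_or_pos E with h0 | h0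
    · subst h0
      simp at hNE
      omega
    · exact h0
  have hq1 : 1 ≤ q := hL.1
  have hA1 : 1 ≤ Aq N q a := by
    unfold Aq
    have h1 : (1 : ℝ) ≤ q := by exact_mod_cast hq1
    have h2 : (0 : ℝ) ≤ (sn a : ℝ) / (N : ℝ) := by positivity
    linarith
  obtain ⟨q1, r, u, f, hq11, hq1q, hinj, hf⟩ := Phd_paramD D N q a E h d hD (by omega) hL hE1 hh hd
  set A : ℝ := Aq N q a with hA
  obtain ⟨x, hx⟩ : ∃ x : ℝ, x = (E : ℝ) / A := ⟨_, rfl⟩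
  rw [← hx, ← hK] at hf
  rw [← hx]
  have hA0 : (0 : ℝ) < A := by linarith
  have hER : (1 : ℝ) ≤ E := by exact_mod_cast hE1
  have hx0 : 0 < x := by rw [hx]; positivity
  have hx4 : (N : ℝ) / 16 ≤ x ^ 4 := by
    rw [hx, div_pow, le_div_iff₀ (by positivity)]
    have h1 : (N : ℝ) ≤ 4 * (E : ℝ) ^ 2 := by exact_mod_cast hNE
    have h2 : (N : ℝ) / 16 * A ^ 4 ≤ (N : ℝ) / 16 * N := by
      apply mul_le_mul_of_nonneg_left hAN (by positivity)
    have h3 : (N : ℝ) * N ≤ (4 * (E : ℝ) ^ 2) * (4 * (E : ℝ) ^ 2) :=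
      mul_le_mul h1 h1 (by positivity) (by positivity)
    nlinarith
  have hx1 : 1 ≤ x := by
    by_contra hlt
    rw [not_le] at hlt
    have h1 : x ^ 4 < 1 := pow_lt_one₀ hx0.le hlt (by norm_num)
    linarith
  have hxE : x ≤ E := by
    rw [hx, div_le_iff₀ hA0]
    nlinarith
  obtain ⟨M, hM⟩ : ∃ M : ℕ, M = ⌊24 * K * x⌋₊ + 1 := ⟨_, rfl⟩
  have hM1 : 1 ≤ M := by omega
  have hMlt : 24 * K * x < M := by
    rw [hM]
    push_cast
    exact Nat.lt_floor_add_one _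
  have hMle : (M : ℝ) ≤ 25 * K * x := by
    rw [hM]
    push_cast
    have := Nat.floor_le (show 0 ≤ 24 * K * x by positivity)
    nlinarith
  have hMN : M ≤ N ^ 2 := by
    have h1 : (M : ℝ) ≤ (N : ℝ) ^ 2 := by
      have h2 : (E : ℝ) ≤ N := by exact_mod_cast hEN
      calc (M : ℝ) ≤ 25 * K * x := hMle
        _ ≤ N * N := mul_le_mul hNK (hxE.trans h2) hx0.le (by positivity)
        _ = (N : ℝ) ^ 2 := by ring
    exact_mod_cast h1
  have hlogN : 0 < Real.log N := Real.log_pos (by linarith)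
  have hlogw : 0 < Real.log w := Real.log_pos (by linarith)
  have hlogM : Real.log N ≤ 4 * (1 + Real.log M) := by
    have hMpos : (0 : ℝ) < M := by linarith
    have h1 : (N : ℝ) ≤ (M : ℝ) ^ 4 := by
      have h2 : (24 * x) ^ 4 ≤ (M : ℝ) ^ 4 := by
        refine pow_le_pow_left₀ (by positivity) (le_trans ?_ hMlt.le) 4
        nlinarith
      have h3 : (24 * x) ^ 4 = 24 ^ 4 * x ^ 4 := by ring
      nlinarith
    have h2 := Real.log_le_log (by linarith) h1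
    rw [Real.log_pow] at h2
    push_cast at h2
    linarith
  -- the primes
  have hI : ∀ p ∈ IND D N w, p.Prime ∧ ¬ p ∣ 2 * D := by
    intro p hp
    have h1 := mem_ID.1 hp
    exact ⟨h1.1, h1.2.1⟩
  have hpq : ∀ p ∈ IND D N w, ¬ (p : ℤ) ∣ q1 := by
    intro p hp hdv
    have h1 := mem_ID.1 hp
    have h2 : (p : ℤ) ≤ q := Int.le_of_dvd (by omega) (hdv.trans hq1q)
    have h3 : (p : ℝ) ≤ q := by exact_mod_cast h2
    linarith [h1.2.2.2.1]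
  obtain ⟨m1, hm1⟩ : ∃ m1 : ℕ, m1 = (D * (q * h) ^ 2 + d ^ 2).natAbs := ⟨_, rfl⟩
  rw [← hm1] at hf ⊢
  obtain ⟨G, hG⟩ : ∃ G : ℤ × ℤ → ℝ, G = fun v =>
    ∏ p ∈ (IND D N w).filter (fun p => ¬ p ∣ m1), (1 - 3 / 4 * nbD D (q1, q1) r p v) := ⟨_, rfl⟩
  have hG0 : ∀ v, 0 ≤ G v := by
    intro v
    rw [hG]
    refine Finset.prod_nonneg fun p _ => ?_
    have := TypeIIfD_nbD_range D (q1, q1) r p v
    linarith [this.2]
  have hwt : ∀ t ∈ PhdD D N q a E h d, wt (IND D N w) (1 / 4) (nsqD D (qv q a t.1)) =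
      (∏ p ∈ (IND D N w).filter (fun p => p ∣ m1), (1 / 4 : ℝ)) * G (f t) := by
    intro t ht
    obtain ⟨-, -, -, -, h5⟩ := hf t ht
    rw [wt_splitD D (IND D N w) hI _ m1 _ h5, hG]
    rfl
  have hbox := TypeIIfD_box (PhdD D N q a E h d) f hinj u M G hG0 (by
    intro t ht
    obtain ⟨h1, h2, h3, h4, -⟩ := hf t ht
    refine ⟨h1, h2, ?_, ?_⟩
    · have : (((f t).1 - u.1 : ℤ) : ℝ) < (M : ℝ) := lt_of_le_of_lt h3 hMlt
      exact_mod_cast this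
    · have : (((f t).2 - u.2 : ℤ) : ℝ) < (M : ℝ) := lt_of_le_of_lt h4 hMlt
      exact_mod_cast this)
  have hsieve := hs N M m1 w (q1, q1) r u hN hw1 hwN hM1 hMN (fun p hp => ⟨hpq p hp, hpq p hp⟩)
  have hK0 : 0 ≤ ∏ p ∈ (IND D N w).filter (fun p => p ∣ m1), (1 / 4 : ℝ) :=
    Finset.prod_nonneg fun p _ => by norm_num
  have hP0 : 0 ≤ ∏ p ∈ (IND D N w).filter (fun p => p ∣ m1), (1 + 2 / (p : ℝ)) :=
    Finset.prod_nonneg fun p _ => by positivity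
  have hpow : (Real.log w / (1 + Real.log M)) ^ (3 / 4 : ℝ) ≤
      4 * (Real.log w / Real.log N) ^ (3 / 4 : ℝ) := by
    have h1 : Real.log w / (1 + Real.log M) ≤ 4 * (Real.log w / Real.log N) := by
      have h2 : 0 < 1 + Real.log M := by linarith
      rw [← mul_div_assoc, div_le_div_iff₀ h2 hlogN]
      nlinarith
    have h3 : 0 ≤ Real.log w / (1 + Real.log M) := by
      have h2 : 0 < 1 + Real.log M := by linarith
      positivity
    refine (Real.rpow_le_rpow h3 h1 (by norm_num)).trans ?_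
    rw [Real.mul_rpow (by norm_num) (by positivity)]
    refine mul_le_mul_of_nonneg_right ?_ (by positivity)
    calc (4 : ℝ) ^ (3 / 4 : ℝ) ≤ 4 ^ (1 : ℝ) :=
          Real.rpow_le_rpow_of_exponent_le (by norm_num) (by norm_num)
      _ = 4 := Real.rpow_one 4
  have hM2 : (M : ℝ) ^ 2 ≤ (25 * K) ^ 2 * x ^ 2 := by
    have := pow_le_pow_left₀ (Nat.cast_nonneg M) hMle 2
    linarith [this, mul_pow (25 * K) x 2]
  rw [Finset.sum_congr rfl hwt, ← Finset.mul_sum, ← Gw_eq (IND D N w) (fun p hp => (hI p hp).1) m1]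
  have hfin : ∑ t ∈ PhdD D N q a E h d, G (f t) ≤ (C0 * (25 * K) ^ 2 * 4 * x ^ 2 *
      (Real.log w / Real.log N) ^ (3 / 4 : ℝ)) *
      ∏ p ∈ (IND D N w).filter (fun p => p ∣ m1), (1 + 2 / (p : ℝ)) := by
    refine hbox.trans ?_
    have h1 : ∑ i ∈ range M, ∑ j ∈ range M, G (u.1 + i, u.2 + j) ≤ C0 * (M : ℝ) ^ 2 *
        (Real.log w / (1 + Real.log M)) ^ (3 / 4 : ℝ) *
        ∏ p ∈ (IND D N w).filter (fun p => p ∣ m1), (1 + 2 / (p : ℝ)) := by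
      rw [hG]
      exact hsieve
    refine h1.trans (mul_le_mul_of_nonneg_right ?_ hP0)
    have h2 : C0 * (M : ℝ) ^ 2 ≤ C0 * ((25 * K) ^ 2 * x ^ 2) := mul_le_mul_of_nonneg_left hM2 hC0.le
    have h3 : 0 ≤ (Real.log w / (1 + Real.log M)) ^ (3 / 4 : ℝ) := by
      refine Real.rpow_nonneg ?_ _
      have h2 : 0 < 1 + Real.log M := by linarith
      positivity
    calc C0 * (M : ℝ) ^ 2 * (Real.log w / (1 + Real.log M)) ^ (3 / 4 : ℝ) ≤
          C0 * ((25 * K) ^ 2 * x ^ 2) * (4 * (Real.log w / Real.log N) ^ (3 / 4 : ℝ)) :=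
          mul_le_mul h2 hpow h3 (by positivity)
      _ = _ := by ring
  calc _ ≤ (∏ p ∈ (IND D N w).filter (fun p => p ∣ m1), (1 / 4 : ℝ)) *
        ((C0 * (25 * K) ^ 2 * 4 * x ^ 2 * (Real.log w / Real.log N) ^ (3 / 4 : ℝ)) *
      ∏ p ∈ (IND D N w).filter (fun p => p ∣ m1), (1 + 2 / (p : ℝ))) :=
        mul_le_mul_of_nonneg_left hfin hK0
    _ = _ := by ring

end Pool.Agent.DL
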