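import Pool.Agent.helper41.DG.SSum
import Pool.Agent.helper41.DL.TypeIIfD
import Pool.Agent.helper41.DL.OutIID

/-! # The contribution of the large directions -/

set_option autoImplicit false
open scoped Classical

open Finset Pool.Agent.DG

namespace Pool.Agent.DL

theorem TypeIID_wt_nonneg (I : Finset ℕ) (m : ℕ) : 0 ≤ wt I (1 / 4) m := by
  unfold wt
  refine prod_nonneg fun p _ => ?_
  split_ifs <;> norm_num

theorem TypeIID_kp_le (p : ℕ) : kp p ≤ 1 := by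
  unfold kp
  have : 0 ≤ 1 / (2 * (p : ℝ)) := by positivity
  linarith

theorem TypeIID_Gw_nonneg (I : Finset ℕ) (m : ℕ) : 0 ≤ Gw I m := by
  unfold Gw
  refine prod_nonneg fun p _ => ?_
  split_ifs
  · linarith [TypeIID_kp_le p]
  · norm_num

theorem TypeIID_A_ge (N : ℕ) (q : ℤ) (a : ℤ × ℤ) : (q : ℝ) ≤ Aq N q a := by
  unfold Aq
  have : 0 ≤ (sn a : ℝ) / (N : ℝ) := by positivity
  linarith

/-- positive multiples of two primitive vectors are equal only if the vectors are equal -/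
theorem TypeIID_dir_unique {e e' : ℤ × ℤ} (he : IsCoprime e.1 e.2) (he' : IsCoprime e'.1 e'.2)
    {h h' : ℕ} (hh : 1 ≤ h) (hh' : 1 ≤ h') (h1 : (h : ℤ) * e.1 = h' * e'.1)
    (h2 : (h : ℤ) * e.2 = h' * e'.2) : e = e' := by
  have d1 : (h : ℤ) ∣ h' := by
    obtain ⟨x, y, hxy⟩ := he'
    refine ⟨x * e.1 + y * e.2, ?_⟩
    calc (h' : ℤ) = h' * (x * e'.1 + y * e'.2) := by rw [hxy, mul_one]
      _ = x * (h' * e'.1) + y * (h' * e'.2) := by ring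
      _ = h * (x * e.1 + y * e.2) := by rw [← h1, ← h2]; ring
  have d2 : (h' : ℤ) ∣ h := by
    obtain ⟨x, y, hxy⟩ := he
    refine ⟨x * e'.1 + y * e'.2, ?_⟩
    calc (h : ℤ) = h * (x * e.1 + y * e.2) := by rw [hxy, mul_one]
      _ = x * (h * e.1) + y * (h * e.2) := by ring
      _ = h' * (x * e'.1 + y * e'.2) := by rw [h1, h2]; ring
  have e0 : h = h' := Nat.dvd_antisymm (by exact_mod_cast d1) (by exact_mod_cast d2)
  subst e0
  have hne : (h : ℤ) ≠ 0 := by exact_mod_cast (by omega : h ≠ 0)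
  exact Prod.ext (mul_left_cancel₀ hne h1) (mul_left_cancel₀ hne h2)

/-- the pairs counted for a direction -/
noncomputable def TypeIID_P (D N : ℕ) (q : ℤ) (a e : ℤ × ℤ) : Finset ((ℤ × ℤ) × (ℤ × ℤ)) :=
  (PeD D N q a e).filter (fun t => ¬ (q * (t.1.1 + t.2.1) = 2 * a.1 ∧
        q * (t.1.2 + t.2.2) = 2 * a.2))

theorem TypeIID_disj (D N : ℕ) (q : ℤ) (a : ℤ × ℤ) {e e' : ℤ × ℤ} (he : IsCoprime e.1 e.2)
    (he' : IsCoprime e'.1 e'.2) (hne : e ≠ e') :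
    Disjoint (TypeIID_P D N q a e) (TypeIID_P D N q a e') := by
  rw [Finset.disjoint_left]
  intro t ht ht'
  unfold TypeIID_P PeD at ht ht'
  simp only [mem_filter] at ht ht'
  obtain ⟨⟨_, h, hh, h1, h2⟩, _⟩ := ht
  obtain ⟨⟨_, h', hh', h1', h2'⟩, _⟩ := ht'
  exact hne (TypeIID_dir_unique he he' hh hh' (by rw [← h1, ← h1']) (by rw [← h2, ← h2']))

/-- every counted pair has its parameters in the stated ranges -/
theorem TypeIID_mem {D N : ℕ} {q : ℤ} {a e : ℤ × ℤ} (hD : 1 ≤ D) (hN : 2 ≤ N) (hq : 1 ≤ q) (he : e ∈ Dir N)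
    (hs : N < sn e ^ 2) {t : (ℤ × ℤ) × (ℤ × ℤ)} (ht : t ∈ TypeIID_P D N q a e) :
    ∃ i ∈ (range (Nat.log 2 N + 1)).filter (fun i => N ≤ 4 * (2 ^ i) ^ 2),
      ∃ h ∈ Icc (1 : ℤ) ((N / 2 ^ i : ℕ) : ℤ),
      ∃ d ∈ (Icc (-⌊2 * (D : ℝ) * (N : ℝ) * Aq N q a / ((2 ^ i : ℕ) : ℝ)⌋)
          ⌊2 * (D : ℝ) * (N : ℝ) * Aq N q a / ((2 ^ i : ℕ) : ℝ)⌋).filter (fun d => d ≠ 0),
        t ∈ PhdD D N q a (2 ^ i) h d := by
  obtain ⟨hs1, hsN, hco⟩ := sn_pos_of_mem_Dir he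
  unfold TypeIID_P at ht
  rw [mem_filter] at ht
  obtain ⟨htP, hnot⟩ := ht
  obtain ⟨h, d, hh, hhN, hdN, h1, h2, h3, h4, _⟩ := Pe_hdD hD hq hco htP
  have hd0 : d ≠ 0 := by
    rintro rfl
    apply hnot
    have hD0 : (D : ℤ) ≠ 0 := by exact_mod_cast (by omega : D ≠ 0)
    rw [zero_mul] at h4
    have h5 := (mul_eq_zero.1 h4).resolve_left hD0
    constructor
    · linarith
    · linarith
  set i := Nat.log 2 (sn e) with hi
  have hlo : 2 ^ i ≤ sn e := Nat.pow_log_le_self 2 (by omega)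
  have hhi : sn e < 2 ^ (i + 1) := Nat.lt_pow_succ_log_self (by norm_num) _
  have hhi' : sn e < 2 * 2 ^ i := by rw [pow_succ] at hhi; omega
  have hEpos : 0 < 2 ^ i := by positivity
  have hEposR : (0 : ℝ) < ((2 ^ i : ℕ) : ℝ) := by exact_mod_cast hEpos
  have hNR : (0 : ℝ) < (N : ℝ) := by exact_mod_cast (by omega : 0 < N)
  refine ⟨i, ?_, h, ?_, d, ?_, ?_⟩
  · rw [mem_filter, mem_range]
    refine ⟨Nat.lt_succ_of_le (Nat.log_mono_right hsN), ?_⟩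
    have : sn e ^ 2 < (2 * 2 ^ i) ^ 2 := Nat.pow_lt_pow_left hhi' (by norm_num)
    have e4 : (2 * 2 ^ i) ^ 2 = 4 * (2 ^ i) ^ 2 := by ring
    omega
  · rw [mem_Icc]
    refine ⟨hh, ?_⟩
    obtain ⟨k, rfl⟩ := Int.eq_ofNat_of_zero_le (by omega : 0 ≤ h)
    have : k * sn e ≤ N := by exact_mod_cast hhN
    have : k * 2 ^ i ≤ N := (Nat.mul_le_mul_left k hlo).trans this
    exact_mod_cast (Nat.le_div_iff_mul_le hEpos).2 this
  · rw [mem_filter, mem_Icc]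
    have hreal : (|d| : ℝ) ≤ 2 * (D : ℝ) * (N : ℝ) * Aq N q a / ((2 ^ i : ℕ) : ℝ) := by
      rw [le_div_iff₀ hEposR]
      have e1 : ((|d| * (sn e : ℤ) : ℤ) : ℝ) ≤ ((2 * D * (q * N + sn a) : ℤ) : ℝ) := by
        exact_mod_cast hdN
      push_cast at e1
      have e2 : 2 * (D : ℝ) * (N : ℝ) * Aq N q a = 2 * (D : ℝ) * ((q : ℝ) * N + sn a) := by
        unfold Aq; field_simp
      rw [e2]
      have e3 : ((2 ^ i : ℕ) : ℝ) ≤ (sn e : ℝ) := by exact_mod_cast hlo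
      calc |(d : ℝ)| * ((2 ^ i : ℕ) : ℝ) ≤ |(d : ℝ)| * (sn e : ℝ) :=
            mul_le_mul_of_nonneg_left e3 (abs_nonneg _)
        _ ≤ _ := e1
    have hfl : |d| ≤ ⌊2 * (D : ℝ) * (N : ℝ) * Aq N q a / ((2 ^ i : ℕ) : ℝ)⌋ := by
      rw [Int.le_floor]; push_cast; exact_mod_cast hreal
    exact ⟨abs_le.1 hfl, hd0⟩
  · unfold PhdD
    rw [mem_filter]
    unfold PeD at htP
    rw [mem_filter] at htP
    exact ⟨htP.1, e, hco, hlo, hhi', h1, h2, h3, h4⟩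

/-- domination of a sum by a sum over a cover -/
theorem TypeIID_cover {α ι : Type*} [DecidableEq α] (U : Finset α) (S : Finset ι) (W : ι → Finset α)
    (F : α → ℝ) (hF : ∀ x, 0 ≤ F x) (h : ∀ x ∈ U, ∃ i ∈ S, x ∈ W i) :
    ∑ x ∈ U, F x ≤ ∑ i ∈ S, ∑ x ∈ W i, F x := by
  calc ∑ x ∈ U, F x ≤ ∑ x ∈ U, ∑ i ∈ S, (if x ∈ W i then F x else 0) := by
        refine sum_le_sum fun x hx => ?_
        obtain ⟨i, hi, hxi⟩ := h x hx
        have := single_le_sum (f := fun i => if x ∈ W i then F x else 0)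
          (fun j _ => by split_ifs <;> [exact hF x; exact le_rfl]) hi
        simpa [hxi] using this
    _ = ∑ i ∈ S, ∑ x ∈ U, (if x ∈ W i then F x else 0) := sum_comm
    _ ≤ ∑ i ∈ S, ∑ x ∈ W i, F x := by
        refine sum_le_sum fun i _ => ?_
        rw [← sum_filter]
        refine sum_le_sum_of_subset_of_nonneg (fun x hx => (mem_filter.1 hx).2)
          fun x _ _ => hF x

/-- the sum over the directions is at most the sum over the parameters -/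
theorem TypeIID_reduce {D N : ℕ} {q : ℤ} {a : ℤ × ℤ} (hD : 1 ≤ D) (hN : 2 ≤ N) (hq : 1 ≤ q)
    (F : (ℤ × ℤ) × (ℤ × ℤ) → ℝ) (hF : ∀ t, 0 ≤ F t) :
    ∑ e ∈ (Dir N).filter (fun e => N < sn e ^ 2), ∑ t ∈ TypeIID_P D N q a e, F t ≤
      ∑ i ∈ (range (Nat.log 2 N + 1)).filter (fun i => N ≤ 4 * (2 ^ i) ^ 2),
        ∑ h ∈ Icc (1 : ℤ) ((N / 2 ^ i : ℕ) : ℤ),
          ∑ d ∈ (Icc (-⌊2 * (D : ℝ) * (N : ℝ) * Aq N q a / ((2 ^ i : ℕ) : ℝ)⌋)
            ⌊2 * (D : ℝ) * (N : ℝ) * Aq N q a / ((2 ^ i : ℕ) : ℝ)⌋).filter (fun d => d ≠ 0),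
            ∑ t ∈ PhdD D N q a (2 ^ i) h d, F t := by
  have hdisj : Set.PairwiseDisjoint (↑((Dir N).filter (fun e => N < sn e ^ 2)))
      (TypeIID_P D N q a) := by
    intro e he e' he' hne
    have h1 := (sn_pos_of_mem_Dir (mem_filter.1 (mem_coe.1 he)).1).2.2
    have h2 := (sn_pos_of_mem_Dir (mem_filter.1 (mem_coe.1 he')).1).2.2
    exact TypeIID_disj D N q a h1 h2 hne
  rw [← sum_biUnion hdisj]
  set T := ((range (Nat.log 2 N + 1)).filter (fun i => N ≤ 4 * (2 ^ i) ^ 2)).sigma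
    (fun i => (Icc (1 : ℤ) ((N / 2 ^ i : ℕ) : ℤ)).sigma (fun _ =>
      (Icc (-⌊2 * (D : ℝ) * (N : ℝ) * Aq N q a / ((2 ^ i : ℕ) : ℝ)⌋)
            ⌊2 * (D : ℝ) * (N : ℝ) * Aq N q a / ((2 ^ i : ℕ) : ℝ)⌋).filter (fun d => d ≠ 0))) with hT
  have key := TypeIID_cover (((Dir N).filter (fun e => N < sn e ^ 2)).biUnion (TypeIID_P D N q a)) T
    (fun s => PhdD D N q a (2 ^ s.1) s.2.1 s.2.2) F hF ?_
  · refine key.trans (le_of_eq ?_)
    rw [hT, sum_sigma]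
    refine sum_congr rfl fun i _ => ?_
    rw [sum_sigma]
  · intro t ht
    rw [mem_biUnion] at ht
    obtain ⟨e, he, ht⟩ := ht
    rw [mem_filter] at he
    obtain ⟨i, hi, h, hh, d, hd, hmem⟩ := TypeIID_mem hD hN hq he.1 he.2 ht
    exact ⟨⟨i, h, d⟩, by rw [hT]; exact mem_sigma.2 ⟨hi, mem_sigma.2 ⟨hh, hd⟩⟩, hmem⟩

theorem typeII_sumD (D : ℕ) (hD : 1 ≤ D) : ∃ C C1 : ℝ, 0 < C ∧ 10 ≤ C1 ∧
    ∀ (N : ℕ) (w : ℝ) (q : ℤ) (a : ℤ × ℤ),
    2 ≤ N → C1 ≤ w → w ≤ N → Low q a → Aq N q a ≤ w → Aq N q a ^ 4 ≤ N →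
    ∑ e ∈ (Dir N).filter (fun e => N < sn e ^ 2),
      ∑ t ∈ (PeD D N q a e).filter (fun t => ¬ (q * (t.1.1 + t.2.1) = 2 * a.1 ∧
        q * (t.1.2 + t.2.2) = 2 * a.2)), wt (IND D N w) (1 / 4) (nsqD D (qv q a t.1)) ≤
      C * (N : ℝ) ^ 2 * (Real.log w / Real.log N) ^ (3 / 4 : ℝ) *
        ((Real.log w) ^ (3 / 4 : ℝ) * (Real.log N) ^ (1 / 4 : ℝ) / Aq N q a) := by
  obtain ⟨C2, C2', hC2, hC2', hf⟩ := typeII_fixedD D hD
  obtain ⟨C3, C3', hC3, hC3', ho⟩ := outerIID D hD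
  obtain ⟨C4, hC4, hd⟩ := dyadic_sum
  refine ⟨C2 * C3 * C4, max C2' C3', by positivity, hC2'.trans (le_max_left _ _), ?_⟩
  intro N w q a hN hw hwN hL hAw hA4
  have hw2 : C2' ≤ w := (le_max_left _ _).trans hw
  have hw3 : C3' ≤ w := (le_max_right _ _).trans hw
  have hw10 : (10 : ℝ) ≤ w := hC2'.trans hw2
  have hq : 1 ≤ q := hL.1
  have hqA := TypeIID_A_ge N q a
  set A := Aq N q a with hA
  have hq1 : (1 : ℝ) ≤ q := by exact_mod_cast hq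
  have hA1 : 1 ≤ A := hq1.trans hqA
  have hApos : 0 < A := by linarith
  have hlw : 0 < Real.log w := Real.log_pos (by linarith)
  have hNR : (2 : ℝ) ≤ N := by exact_mod_cast hN
  have hNpos : (0 : ℝ) < N := by linarith
  have hlN : 0 < Real.log N := Real.log_pos (by linarith)
  refine (TypeIID_reduce hD hN hq (fun t => wt (IND D N w) (1 / 4) (nsqD D (qv q a t.1)))
    (fun t => TypeIID_wt_nonneg _ _)).trans ?_
  set ρ : ℝ := (Real.log w / Real.log N) ^ (3 / 4 : ℝ) with hρ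
  have hρ0 : 0 ≤ ρ := Real.rpow_nonneg (div_nonneg hlw.le hlN.le) _
  set lw : ℝ := (Real.log w) ^ (3 / 4 : ℝ) with hlwd
  have hlw0 : 0 ≤ lw := Real.rpow_nonneg hlw.le _
  -- one dyadic range
  have hone : ∀ i ∈ (range (Nat.log 2 N + 1)).filter (fun i => N ≤ 4 * (2 ^ i) ^ 2),
      ∑ h ∈ Icc (1 : ℤ) ((N / 2 ^ i : ℕ) : ℤ),
          ∑ d ∈ (Icc (-⌊2 * (D : ℝ) * (N : ℝ) * A / ((2 ^ i : ℕ) : ℝ)⌋)
            ⌊2 * (D : ℝ) * (N : ℝ) * A / ((2 ^ i : ℕ) : ℝ)⌋).filter (fun d => d ≠ 0),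
            ∑ t ∈ PhdD D N q a (2 ^ i) h d, wt (IND D N w) (1 / 4) (nsqD D (qv q a t.1)) ≤
        C2 * C3 * ((N : ℝ) ^ 2 / A) * ρ * lw *
          (1 / (1 + Real.log (2 ^ (Nat.log 2 N - i)))) ^ (3 / 4 : ℝ) := by
    intro i hi
    rw [mem_filter, mem_range] at hi
    obtain ⟨hi1, hi2⟩ := hi
    set E : ℕ := 2 ^ i with hE
    have hE1 : 1 ≤ E := Nat.one_le_two_pow
    have hEN : E ≤ N := (Nat.pow_le_pow_right (by norm_num) (Nat.lt_succ_iff.1 hi1)).trans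
      (Nat.pow_log_le_self 2 (by omega))
    have hER : (1 : ℝ) ≤ (E : ℝ) := by exact_mod_cast hE1
    have hEpos : (0 : ℝ) < (E : ℝ) := by linarith
    have hbound : ∀ h ∈ Icc (1 : ℤ) ((N / E : ℕ) : ℤ),
        ∑ d ∈ (Icc (-⌊2 * (D : ℝ) * (N : ℝ) * A / (E : ℝ)⌋) ⌊2 * (D : ℝ) * (N : ℝ) * A / (E : ℝ)⌋).filter (fun d => d ≠ 0),
          ∑ t ∈ PhdD D N q a E h d, wt (IND D N w) (1 / 4) (nsqD D (qv q a t.1)) ≤
        C2 * ((E : ℝ) / A) ^ 2 * ρ *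
          ∑ d ∈ Icc (-⌊2 * (D : ℝ) * (N : ℝ) * A / (E : ℝ)⌋) ⌊2 * (D : ℝ) * (N : ℝ) * A / (E : ℝ)⌋,
            Gw (IND D N w) (D * (q * h) ^ 2 + d ^ 2).natAbs := by
      intro h hh
      rw [mem_Icc] at hh
      rw [mul_sum]
      calc ∑ d ∈ (Icc (-⌊2 * (D : ℝ) * (N : ℝ) * A / (E : ℝ)⌋) ⌊2 * (D : ℝ) * (N : ℝ) * A / (E : ℝ)⌋).filter
              (fun d => d ≠ 0), ∑ t ∈ PhdD D N q a E h d, wt (IND D N w) (1 / 4) (nsqD D (qv q a t.1))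
          ≤ ∑ d ∈ (Icc (-⌊2 * (D : ℝ) * (N : ℝ) * A / (E : ℝ)⌋) ⌊2 * (D : ℝ) * (N : ℝ) * A / (E : ℝ)⌋).filter
              (fun d => d ≠ 0), C2 * ((E : ℝ) / A) ^ 2 * ρ *
                Gw (IND D N w) (D * (q * h) ^ 2 + d ^ 2).natAbs := by
            refine sum_le_sum fun d hd => ?_
            rw [mem_filter] at hd
            exact hf N w q a E h d hN hw2 hwN hL (hqA.trans hAw) hh.1 hd.2 hi2 hEN hA4
        _ ≤ _ := by
            refine sum_le_sum_of_subset_of_nonneg (filter_subset _ _) fun d _ _ => ?_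
            have := TypeIID_Gw_nonneg (IND D N w) (D * (q * h) ^ 2 + d ^ 2).natAbs
            positivity
    refine (sum_le_sum hbound).trans ?_
    rw [← mul_sum]
    have h3 := ho N w q A E hN hw3 hwN hq hqA hAw hE1 hEN
    have hconst : 0 ≤ C2 * ((E : ℝ) / A) ^ 2 * ρ := by positivity
    refine (mul_le_mul_of_nonneg_left h3 hconst).trans ?_
    have hlog : 1 + Real.log (2 ^ (Nat.log 2 N - i)) ≤ 1 + Real.log ((N : ℝ) / E) := by
      have e1 : ((2 : ℝ) ^ (Nat.log 2 N - i)) ≤ (N : ℝ) / E := by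
        rw [le_div_iff₀ hEpos]
        have e2 : 2 ^ (Nat.log 2 N - i) * 2 ^ i ≤ N := by
          rw [← pow_add, Nat.sub_add_cancel (Nat.lt_succ_iff.1 hi1)]
          exact Nat.pow_log_le_self 2 (by omega)
        exact_mod_cast e2
      have := Real.log_le_log (by positivity) e1
      linarith
    have hlog0 : 0 ≤ Real.log ((2 : ℝ) ^ (Nat.log 2 N - i)) :=
      Real.log_nonneg (one_le_pow₀ (by norm_num))
    have hpow : (Real.log w / (1 + Real.log ((N : ℝ) / E))) ^ (3 / 4 : ℝ) ≤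
        lw * (1 / (1 + Real.log (2 ^ (Nat.log 2 N - i)))) ^ (3 / 4 : ℝ) := by
      rw [hlwd, ← Real.mul_rpow hlw.le (by positivity)]
      have hlog1 : 0 < 1 + Real.log ((2 : ℝ) ^ (Nat.log 2 N - i)) := by linarith
      refine Real.rpow_le_rpow (div_nonneg hlw.le (by linarith)) ?_ (by norm_num)
      rw [mul_one_div]
      exact div_le_div_of_nonneg_left hlw.le hlog1 hlog
    have hconst2 : 0 ≤ C2 * ((E : ℝ) / A) ^ 2 * ρ * (C3 * ((N : ℝ) / E) ^ 2 * A) := by positivity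
    calc C2 * ((E : ℝ) / A) ^ 2 * ρ *
          (C3 * ((N : ℝ) / E) ^ 2 * A * (Real.log w / (1 + Real.log ((N : ℝ) / E))) ^ (3 / 4 : ℝ))
        = C2 * ((E : ℝ) / A) ^ 2 * ρ * (C3 * ((N : ℝ) / E) ^ 2 * A) *
          (Real.log w / (1 + Real.log ((N : ℝ) / E))) ^ (3 / 4 : ℝ) := by ring
      _ ≤ C2 * ((E : ℝ) / A) ^ 2 * ρ * (C3 * ((N : ℝ) / E) ^ 2 * A) *
          (lw * (1 / (1 + Real.log (2 ^ (Nat.log 2 N - i)))) ^ (3 / 4 : ℝ)) :=
          mul_le_mul_of_nonneg_left hpow hconst2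
      _ = C2 * C3 * ((N : ℝ) ^ 2 / A) * ρ * lw *
          (1 / (1 + Real.log (2 ^ (Nat.log 2 N - i)))) ^ (3 / 4 : ℝ) := by
          field_simp
  refine (sum_le_sum hone).trans ?_
  have hK : 0 ≤ C2 * C3 * ((N : ℝ) ^ 2 / A) * ρ * lw := by positivity
  have hnn : ∀ j : ℕ, 0 ≤ (1 / (1 + Real.log ((2 : ℝ) ^ j))) ^ (3 / 4 : ℝ) := by
    intro j
    have : 0 ≤ Real.log ((2 : ℝ) ^ j) := Real.log_nonneg (one_le_pow₀ (by norm_num))
    positivity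
  calc ∑ i ∈ (range (Nat.log 2 N + 1)).filter (fun i => N ≤ 4 * (2 ^ i) ^ 2),
        C2 * C3 * ((N : ℝ) ^ 2 / A) * ρ * lw *
          (1 / (1 + Real.log (2 ^ (Nat.log 2 N - i)))) ^ (3 / 4 : ℝ)
      ≤ ∑ i ∈ range (Nat.log 2 N + 1), C2 * C3 * ((N : ℝ) ^ 2 / A) * ρ * lw *
          (1 / (1 + Real.log (2 ^ (Nat.log 2 N - i)))) ^ (3 / 4 : ℝ) :=
        sum_le_sum_of_subset_of_nonneg (filter_subset _ _) fun i _ _ =>
          mul_nonneg hK (hnn _)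
    _ = C2 * C3 * ((N : ℝ) ^ 2 / A) * ρ * lw * ∑ i ∈ range (Nat.log 2 N + 1),
          (1 / (1 + Real.log ((2 : ℝ) ^ i))) ^ (3 / 4 : ℝ) := by
        rw [← mul_sum]
        congr 1
        have := sum_range_reflect (fun i => (1 / (1 + Real.log ((2 : ℝ) ^ i))) ^ (3 / 4 : ℝ))
          (Nat.log 2 N + 1)
        rw [← this]
        refine sum_congr rfl fun i _ => ?_
        simp only [Nat.add_sub_cancel]
    _ ≤ C2 * C3 * ((N : ℝ) ^ 2 / A) * ρ * lw * (C4 * (Real.log N) ^ (1 / 4 : ℝ)) :=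
        mul_le_mul_of_nonneg_left (hd N hN) hK
    _ = _ := by ring

end Pool.Agent.DL
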