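import Pool.Agent.helper41.DL.TypeID
import Pool.Agent.helper41.DL.SSumD
import Pool.Agent.helper41.DL.TypeIID

/-! # The weighted number of the isosceles pairs -/

set_option autoImplicit false
open scoped Classical

open Finset Pool.Agent.DG

namespace Pool.Agent.DL


theorem EnergyD_wt_nonneg (I : Finset ℕ) (m : ℕ) : 0 ≤ wt I (1 / 4) m := by
  unfold wt
  refine Finset.prod_nonneg fun p _ => ?_
  split_ifs <;> norm_num

theorem EnergyD_Gw_nonneg (I : Finset ℕ) (m : ℕ) : 0 ≤ Gw I m := by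
  unfold Gw
  refine Finset.prod_nonneg fun p _ => ?_
  split_ifs with h
  · have h0 : (0 : ℝ) ≤ 1 / (2 * (p : ℝ)) := by positivity
    unfold kp
    linarith
  · norm_num

theorem EnergyD_mem_Pe {D N : ℕ} {q : ℤ} {a e : ℤ × ℤ} {t : (ℤ × ℤ) × (ℤ × ℤ)} (ht : t ∈ PeD D N q a e) :
    t.1 ∈ Bx N ∧ ∃ h : ℕ, 1 ≤ h ∧ t.2.1 - t.1.1 = h * e.1 ∧ t.2.2 - t.1.2 = h * e.2 := by
  unfold PeD at ht
  rw [Finset.mem_filter] at ht
  obtain ⟨h1, h2⟩ := ht
  unfold IsoD at h1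
  rw [Finset.mem_filter, Finset.mem_product] at h1
  exact ⟨h1.1.1, h2⟩

theorem EnergyD_gcd {e : ℤ × ℤ} (he : IsCoprime e.1 e.2) {h : ℕ} {x y : ℤ} (hx : x = h * e.1)
    (hy : y = h * e.2) : Int.gcd x y = h := by
  have h1 : Int.gcd e.1 e.2 = 1 := Int.isCoprime_iff_gcd_eq_one.mp he
  rw [hx, hy, Int.gcd_mul_left, h1]
  simp

theorem EnergyD_dir {D N : ℕ} {q : ℤ} {a e e' : ℤ × ℤ} {t : (ℤ × ℤ) × (ℤ × ℤ)}
    (he : IsCoprime e.1 e.2) (he' : IsCoprime e'.1 e'.2)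
    (ht : t ∈ PeD D N q a e) (ht' : t ∈ PeD D N q a e') : e = e' := by
  obtain ⟨-, h, h1, hx, hy⟩ := EnergyD_mem_Pe ht
  obtain ⟨-, h', h1', hx', hy'⟩ := EnergyD_mem_Pe ht'
  have g1 := EnergyD_gcd he hx hy
  have g2 := EnergyD_gcd he' hx' hy'
  have hh : h = h' := by rw [← g1, ← g2]
  subst hh
  have h0 : (h : ℤ) ≠ 0 := by
    have : (0 : ℤ) < h := by exact_mod_cast h1
    exact this.ne'
  refine Prod.ext ?_ ?_
  · exact mul_left_cancel₀ h0 (by rw [← hx, ← hx'])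
  · exact mul_left_cancel₀ h0 (by rw [← hy, ← hy'])

/-- the pairs symmetric about the point `a / q` -/
theorem EnergyD_sym (D N : ℕ) (q : ℤ) (a : ℤ × ℤ) (hq : 1 ≤ q) (F : ℕ → ℝ) (hF : ∀ m, 0 ≤ F m) :
    ∑ e ∈ (Dir N).filter (fun e => N < sn e ^ 2),
      ∑ t ∈ (PeD D N q a e).filter (fun t => (q * (t.1.1 + t.2.1) = 2 * a.1 ∧
        q * (t.1.2 + t.2.2) = 2 * a.2)), F (nsqD D (qv q a t.1)) ≤
      ∑ x ∈ Bx N, F (nsqD D (qv q a x)) := by
  rw [Finset.sum_sigma']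
  set S := ((Dir N).filter (fun e => N < sn e ^ 2)).sigma (fun e =>
    (PeD D N q a e).filter (fun t => (q * (t.1.1 + t.2.1) = 2 * a.1 ∧
        q * (t.1.2 + t.2.2) = 2 * a.2))) with hS
  have hmem : ∀ s ∈ S, IsCoprime s.1.1 s.1.2 ∧ s.2 ∈ PeD D N q a s.1 ∧
      q * (s.2.1.1 + s.2.2.1) = 2 * a.1 ∧ q * (s.2.1.2 + s.2.2.2) = 2 * a.2 := by
    intro s hs
    rw [hS, Finset.mem_sigma, Finset.mem_filter, Finset.mem_filter] at hs
    exact ⟨(sn_pos_of_mem_Dir hs.1.1).2.2, hs.2.1, hs.2.2.1, hs.2.2.2⟩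
  have hq0 : q ≠ 0 := by omega
  have hinj : Set.InjOn (fun s : (Σ _ : ℤ × ℤ, (ℤ × ℤ) × (ℤ × ℤ)) => s.2.1) (S : Set _) := by
    rintro ⟨e, x, x'⟩ hs ⟨e', y, y'⟩ hs' hxy
    obtain ⟨c1, p1, u1, v1⟩ := hmem _ (Finset.mem_coe.mp hs)
    obtain ⟨c2, p2, u2, v2⟩ := hmem _ (Finset.mem_coe.mp hs')
    simp only at hxy u1 v1 u2 v2 c1 c2 p1 p2
    subst hxy
    have e1 : x.1 + x'.1 = x.1 + y'.1 := mul_left_cancel₀ hq0 (by rw [u1, u2])
    have e2 : x.2 + x'.2 = x.2 + y'.2 := mul_left_cancel₀ hq0 (by rw [v1, v2])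
    have hx' : x' = y' := Prod.ext (by linarith) (by linarith)
    subst hx'
    have hee : e = e' := EnergyD_dir c1 c2 p1 p2
    subst hee
    rfl
  have himg : ∑ x ∈ S.image (fun s => s.2.1), F (nsqD D (qv q a x)) =
      ∑ s ∈ S, F (nsqD D (qv q a s.2.1)) := Finset.sum_image hinj
  rw [← himg]
  refine Finset.sum_le_sum_of_subset_of_nonneg ?_ (fun _ _ _ => hF _)
  intro x hx
  rw [Finset.mem_image] at hx
  obtain ⟨s, hs, rfl⟩ := hx
  exact (EnergyD_mem_Pe (hmem s hs).2.1).1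

theorem EnergyD_rpow {x y A : ℝ} (hx : 0 < x) (hy : 0 < y) :
    (x / y) ^ (3 / 4 : ℝ) * (x ^ (3 / 4 : ℝ) * y ^ (1 / 4 : ℝ) / A) =
      x ^ (3 / 2 : ℝ) / y ^ (1 / 2 : ℝ) / A := by
  have h1 : x ^ (3 / 2 : ℝ) = x ^ (3 / 4 : ℝ) * x ^ (3 / 4 : ℝ) := by
    rw [← Real.rpow_add hx]; norm_num
  have h2 : y ^ (3 / 4 : ℝ) = y ^ (1 / 2 : ℝ) * y ^ (1 / 4 : ℝ) := by
    rw [← Real.rpow_add hy]; norm_num
  have h3 : y ^ (1 / 2 : ℝ) ≠ 0 := (Real.rpow_pos_of_pos hy _).ne'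
  have h4 : y ^ (1 / 4 : ℝ) ≠ 0 := (Real.rpow_pos_of_pos hy _).ne'
  rw [Real.div_rpow hx.le hy.le, h1, h2]
  field_simp

theorem energy_leD (D : ℕ) (hD : 1 ≤ D) : ∃ C C1 : ℝ, 0 < C ∧ 10 ≤ C1 ∧
    ∀ (N : ℕ) (w : ℝ) (q : ℤ) (a : ℤ × ℤ),
    2 ≤ N → C1 ≤ w → w ≤ N → Low q a → Aq N q a ≤ w → Aq N q a ^ 4 ≤ N →
    ∑ t ∈ IsoD D N q a, wt (IND D N w) (1 / 4) (nsqD D (qv q a t.1)) ≤
      C * (N : ℝ) ^ 2 * ((Real.log w / Real.log N) ^ (3 / 4 : ℝ) +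
        (Real.log w) ^ (3 / 2 : ℝ) / (Real.log N) ^ (1 / 2 : ℝ) / Aq N q a) := by
  obtain ⟨Cd, wd, hCd, hwd, hDg⟩ := diag_leD D hD
  obtain ⟨Ci, wi, hCi, hwi, hI⟩ := typeI_fixedD D hD
  obtain ⟨Co, wo, hCo, hwo, hO⟩ := outerID D hD
  obtain ⟨Ct, wt2, hCt, hwt, hT⟩ := typeII_sumD D hD
  refine ⟨2 * Cd + Ci * Co + Ct, wd + wi + wo + wt2, by positivity, by linarith, ?_⟩
  intro N w q a hN hw hwN hL hA hA4
  have hq : 1 ≤ q := hL.1
  have hNpos : (0 : ℝ) < N := by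
    have : (2 : ℝ) ≤ N := by exact_mod_cast hN
    linarith
  have hqA : (q : ℝ) ≤ Aq N q a := by
    unfold Aq
    have : (0 : ℝ) ≤ (sn a : ℝ) / (N : ℝ) := by positivity
    linarith
  have hqw : (q : ℝ) ≤ w := hqA.trans hA
  have hq1 : (1 : ℝ) ≤ q := by exact_mod_cast hq
  have hApos : 0 < Aq N q a := by linarith
  have hw10 : 10 ≤ w := by linarith
  have hlw : 0 < Real.log w := Real.log_pos (by linarith)
  have hlN : 0 < Real.log N := Real.log_pos (by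
    have : (2 : ℝ) ≤ N := by exact_mod_cast hN
    linarith)
  set R : ℝ := (Real.log w / Real.log N) ^ (3 / 4 : ℝ) with hR
  set U : ℝ := (Real.log w) ^ (3 / 4 : ℝ) * (Real.log N) ^ (1 / 4 : ℝ) / Aq N q a with hU
  have hR0 : 0 ≤ R := Real.rpow_nonneg (by positivity) _
  have hU0 : 0 ≤ U := by
    rw [hU]
    have h1 : 0 ≤ (Real.log w) ^ (3 / 4 : ℝ) := Real.rpow_nonneg hlw.le _
    have h2 : 0 ≤ (Real.log N) ^ (1 / 4 : ℝ) := Real.rpow_nonneg hlN.le _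
    positivity
  have hRU : R * U = (Real.log w) ^ (3 / 2 : ℝ) / (Real.log N) ^ (1 / 2 : ℝ) / Aq N q a :=
    EnergyD_rpow hlw hlN
  rw [← hRU]
  have hsplit := energy_splitD D N q a (wt (IND D N w) (1 / 4)) (EnergyD_wt_nonneg _)
  have hdiag := hDg N w q a hN (by linarith) hwN hq hqw
  rw [← hR] at hdiag
  -- the small directions
  have hsmall : ∑ e ∈ (Dir N).filter (fun e => ¬ N < sn e ^ 2), ∑ t ∈ PeD D N q a e,
      wt (IND D N w) (1 / 4) (nsqD D (qv q a t.1)) ≤ Ci * (N : ℝ) ^ 2 * R * (Co * (1 + U)) := by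
    have h1 : ∑ e ∈ (Dir N).filter (fun e => ¬ N < sn e ^ 2), ∑ t ∈ PeD D N q a e,
        wt (IND D N w) (1 / 4) (nsqD D (qv q a t.1)) ≤
        ∑ e ∈ (Dir N).filter (fun e => ¬ N < sn e ^ 2),
          (if SdD D N q a e then Ci * (N : ℝ) ^ 2 * R * (Gw (IND D N w) (nsqD D e) / (sn e : ℝ) ^ 2)
            else 0) := by
      refine Finset.sum_le_sum fun e he => ?_
      rw [Finset.mem_filter] at he
      obtain ⟨hs1, hs2, hc⟩ := sn_pos_of_mem_Dir he.1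
      by_cases hne : (PeD D N q a e).Nonempty
      · rw [if_pos (Pe_SdD hD hq hc hne)]
        have h2 := hI N w q a e hN (by linarith) hwN hq hqw hc (not_lt.mp he.2)
        rw [← hR] at h2
        refine h2.trans (le_of_eq ?_)
        have h3 : (sn e : ℝ) ≠ 0 := by
          have : (1 : ℝ) ≤ sn e := by exact_mod_cast hs1
          positivity
        field_simp
      · rw [Finset.not_nonempty_iff_eq_empty] at hne
        rw [hne, Finset.sum_empty]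
        split_ifs
        · have := EnergyD_Gw_nonneg (IND D N w) (nsqD D e)
          positivity
        · exact le_rfl
    have h2 : ∑ e ∈ (Dir N).filter (fun e => ¬ N < sn e ^ 2),
          (if SdD D N q a e then Ci * (N : ℝ) ^ 2 * R * (Gw (IND D N w) (nsqD D e) / (sn e : ℝ) ^ 2)
            else 0) ≤
        ∑ e ∈ (Dir N),
          (if SdD D N q a e then Ci * (N : ℝ) ^ 2 * R * (Gw (IND D N w) (nsqD D e) / (sn e : ℝ) ^ 2)
            else 0) := by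
      refine Finset.sum_le_sum_of_subset_of_nonneg (Finset.filter_subset _ _) fun e _ _ => ?_
      split_ifs
      · have := EnergyD_Gw_nonneg (IND D N w) (nsqD D e)
        positivity
      · exact le_rfl
    refine (h1.trans h2).trans ?_
    rw [← Finset.sum_filter, ← Finset.mul_sum]
    have h3 := hO N w q a hN (by linarith) hwN hL hA
    rw [← hU] at h3
    exact mul_le_mul_of_nonneg_left h3 (by positivity)
  -- the large directions
  have hlarge : ∑ e ∈ (Dir N).filter (fun e => N < sn e ^ 2), ∑ t ∈ PeD D N q a e,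
      wt (IND D N w) (1 / 4) (nsqD D (qv q a t.1)) ≤ Cd * (N : ℝ) ^ 2 * R +
        Ct * (N : ℝ) ^ 2 * R * U := by
    have h1 : ∑ e ∈ (Dir N).filter (fun e => N < sn e ^ 2), ∑ t ∈ PeD D N q a e,
      wt (IND D N w) (1 / 4) (nsqD D (qv q a t.1)) =
        ∑ e ∈ (Dir N).filter (fun e => N < sn e ^ 2),
          ∑ t ∈ (PeD D N q a e).filter (fun t => (q * (t.1.1 + t.2.1) = 2 * a.1 ∧
            q * (t.1.2 + t.2.2) = 2 * a.2)), wt (IND D N w) (1 / 4) (nsqD D (qv q a t.1)) +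
        ∑ e ∈ (Dir N).filter (fun e => N < sn e ^ 2),
          ∑ t ∈ (PeD D N q a e).filter (fun t => ¬ (q * (t.1.1 + t.2.1) = 2 * a.1 ∧
            q * (t.1.2 + t.2.2) = 2 * a.2)), wt (IND D N w) (1 / 4) (nsqD D (qv q a t.1)) := by
      rw [← Finset.sum_add_distrib]
      exact Finset.sum_congr rfl fun e _ => (Finset.sum_filter_add_sum_filter_not _ _ _).symm
    rw [h1]
    have h2 := EnergyD_sym D N q a hq (wt (IND D N w) (1 / 4)) (EnergyD_wt_nonneg _)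
    have h3 := hT N w q a hN (by linarith) hwN hL hA hA4
    rw [← hR, ← hU] at h3
    linarith
  have hsum : ∑ e ∈ Dir N, ∑ t ∈ PeD D N q a e, wt (IND D N w) (1 / 4) (nsqD D (qv q a t.1)) =
      ∑ e ∈ (Dir N).filter (fun e => N < sn e ^ 2), ∑ t ∈ PeD D N q a e,
        wt (IND D N w) (1 / 4) (nsqD D (qv q a t.1)) +
      ∑ e ∈ (Dir N).filter (fun e => ¬ N < sn e ^ 2), ∑ t ∈ PeD D N q a e,
        wt (IND D N w) (1 / 4) (nsqD D (qv q a t.1)) :=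
    (Finset.sum_filter_add_sum_filter_not _ _ _).symm
  have hfin : 0 ≤ (N : ℝ) ^ 2 * (Ct * R + (2 * Cd) * (R * U)) := by positivity
  calc ∑ t ∈ IsoD D N q a, wt (IND D N w) (1 / 4) (nsqD D (qv q a t.1))
      ≤ Cd * (N : ℝ) ^ 2 * R + ((Cd * (N : ℝ) ^ 2 * R + Ct * (N : ℝ) ^ 2 * R * U) +
          Ci * (N : ℝ) ^ 2 * R * (Co * (1 + U))) := by
        rw [hsum] at hsplit
        linarith
    _ ≤ (2 * Cd + Ci * Co + Ct) * (N : ℝ) ^ 2 * (R + R * U) := by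
        nlinarith [hfin]

end Pool.Agent.DL
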