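import Pool.Agent.helper41.DL.TBD
import Pool.Agent.helper41.DG.Up

/-! # The theorem for rectangular lattices -/

set_option autoImplicit false
open scoped Classical

open Finset Pool.Agent.DG

namespace Pool.Agent.DL

lemma FinD_norm_comb {D : ℕ} {a b : EuclideanSpace ℝ (Fin 2)} (hab : ‖b‖ ^ 2 = D * ‖a‖ ^ 2)
    (hin : inner ℝ a b = 0) (s t : ℝ) :
    ‖s • a + t • b‖ = ‖a‖ * Real.sqrt (s ^ 2 + D * t ^ 2) := by
  have h0 : 0 ≤ ‖a‖ * Real.sqrt (s ^ 2 + D * t ^ 2) := by positivity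
  have h1 : ‖s • a + t • b‖ ^ 2 = (‖a‖ * Real.sqrt (s ^ 2 + D * t ^ 2)) ^ 2 := by
    rw [norm_add_sq_real, norm_smul, norm_smul, real_inner_smul_left, real_inner_smul_right, hin,
      mul_pow, mul_pow, mul_pow, Real.sq_sqrt (by positivity), Real.norm_eq_abs,
      Real.norm_eq_abs, sq_abs, sq_abs, hab]
    ring
  exact (sq_eq_sq₀ (norm_nonneg _) h0).1 h1

lemma FinD_dist {D : ℕ} {o a b : EuclideanSpace ℝ (Fin 2)} (hab : ‖b‖ ^ 2 = D * ‖a‖ ^ 2)
    (hin : inner ℝ a b = 0) (s t s' t' : ℝ) :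
    dist (o + s • a + t • b) (o + s' • a + t' • b) =
      ‖a‖ * Real.sqrt ((s - s') ^ 2 + D * (t - t') ^ 2) := by
  rw [dist_eq_norm]
  have h1 : o + s • a + t • b - (o + s' • a + t' • b) = (s - s') • a + (t - t') • b := by
    rw [sub_smul, sub_smul]
    abel
  rw [h1, FinD_norm_comb hab hin]

/-- every point of the plane has coordinates with respect to the origin `o` and `a`, `b` -/
lemma FinD_coord {D : ℕ} (hD : 1 ≤ D) {o a b : EuclideanSpace ℝ (Fin 2)} (ha : a ≠ 0)
    (hab : ‖b‖ ^ 2 = D * ‖a‖ ^ 2) (hin : inner ℝ a b = 0) (v : EuclideanSpace ℝ (Fin 2)) :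
    ∃ s t : ℝ, v = o + s • a + t • b := by
  have hS : 0 < ‖a‖ ^ 2 := by
    have := norm_pos_iff.2 ha
    positivity
  have hDr : (1 : ℝ) ≤ (D : ℝ) := by exact_mod_cast hD
  have e1 : a 0 ^ 2 + a 1 ^ 2 = ‖a‖ ^ 2 := by
    rw [EuclideanSpace.norm_sq_eq]
    simp [Fin.sum_univ_two]
  have e2 : b 0 ^ 2 + b 1 ^ 2 = D * ‖a‖ ^ 2 := by
    rw [← hab, EuclideanSpace.norm_sq_eq]
    simp [Fin.sum_univ_two]
  have e3 : a 0 * b 0 + a 1 * b 1 = 0 := by
    have : inner ℝ a b = b 0 * a 0 + b 1 * a 1 := by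
      simp [PiLp.inner_apply, Fin.sum_univ_two]
    rw [this] at hin
    linarith
  set R : ℝ := a 0 * b 1 - a 1 * b 0 with hR
  have hR2 : R ^ 2 = D * (‖a‖ ^ 2) ^ 2 := by
    have : R ^ 2 = (a 0 ^ 2 + a 1 ^ 2) * (b 0 ^ 2 + b 1 ^ 2) - (a 0 * b 0 + a 1 * b 1) ^ 2 := by
      rw [hR]; ring
    rw [this, e1, e2, e3]; ring
  have hR0 : R ≠ 0 := by
    intro h
    rw [h] at hR2
    have : 0 < (D : ℝ) * (‖a‖ ^ 2) ^ 2 := by positivity
    rw [← hR2] at this
    norm_num at this
  refine ⟨((v 0 - o 0) * b 1 - (v 1 - o 1) * b 0) / R,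
    (a 0 * (v 1 - o 1) - a 1 * (v 0 - o 0)) / R, ?_⟩
  ext k
  fin_cases k
  · simp only [Fin.zero_eta, PiLp.add_apply, PiLp.smul_apply, smul_eq_mul]
    field_simp
    rw [hR]
    ring
  · simp only [Fin.mk_one, PiLp.add_apply, PiLp.smul_apply, smul_eq_mul]
    field_simp
    rw [hR]
    ring

/-- the comparison of the two bounds -/
lemma FinD_compare {c C : ℝ} (hc : 0 < c) (hC : 0 < C) {n m k N : ℕ} (hk : 1 ≤ k) (hkm : k ≤ m)
    (hmn : m ≤ n) (hnN : m ≤ N ^ 2) {f T : ℝ} (hT1 : 1 ≤ T)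
    (hf : f ≤ C * (n / Real.sqrt (Real.log (2 * n))))
    (hT : 2 ≤ N → c * (((m : ℝ) ^ 2 / (N : ℝ) ^ 2) /
      Real.sqrt (Real.log N * (1 + Real.log ((N : ℝ) ^ 2 / k)))) ≤ T) :
    f ≤ (C / c + 2 * C) * (((n : ℝ) / m) * ((N : ℝ) ^ 2 / m) *
      (1 + Real.log ((N : ℝ) ^ 2 / k))) * T := by
  have hm : 1 ≤ m := hk.trans hkm
  have hn : 1 ≤ n := hm.trans hmn
  have hk0 : (0 : ℝ) < k := by exact_mod_cast hk
  have hm0 : (0 : ℝ) < m := by exact_mod_cast hm
  have hm1 : (1 : ℝ) ≤ m := by exact_mod_cast hm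
  have hn0 : (0 : ℝ) < n := by exact_mod_cast hn
  have hn1 : (1 : ℝ) ≤ n := by exact_mod_cast hn
  have hkm' : (k : ℝ) ≤ m := by exact_mod_cast hkm
  have hmn' : (m : ℝ) ≤ n := by exact_mod_cast hmn
  have hnN' : (m : ℝ) ≤ (N : ℝ) ^ 2 := by exact_mod_cast hnN
  have hNne : N ≠ 0 := by
    rintro rfl
    simp at hnN
    omega
  have hN0 : (0 : ℝ) < N := by exact_mod_cast Nat.pos_of_ne_zero hNne
  have hL1 : 1 ≤ (N : ℝ) ^ 2 / m := by
    rw [le_div_iff₀ hm0, one_mul]
    exact hnN'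
  have hLK : (N : ℝ) ^ 2 / m ≤ (N : ℝ) ^ 2 / k :=
    div_le_div_of_nonneg_left (by positivity) hk0 hkm'
  have hNL : (N : ℝ) ^ 2 = (N : ℝ) ^ 2 / m * m := by
    rw [div_mul_cancel₀]
    exact hm0.ne'
  have hlog2 : 0.69 < Real.log 2 := by
    have := Real.log_two_gt_d9
    linarith
  have hlog2n : Real.log 2 ≤ Real.log (2 * n) := Real.log_le_log (by norm_num) (by linarith)
  have hlog2n0 : 0 < Real.log (2 * n) := by linarith
  have hsq : 0 < Real.sqrt (Real.log (2 * n)) := Real.sqrt_pos.2 hlog2n0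
  have hCc : 0 < C / c := div_pos hC hc
  rcases Nat.lt_or_ge N 2 with hN2 | hN2
  · -- N = 1
    have hN1 : N = 1 := by omega
    subst hN1
    have hm1' : m = 1 := by
      simp at hnN
      omega
    subst hm1'
    have hk1' : k = 1 := by omega
    subst hk1'
    have h3 : (1 / 2 : ℝ) ≤ Real.sqrt (Real.log (2 * n)) := by
      apply Real.le_sqrt_of_sq_le
      norm_num
      linarith
    have h4 : (n : ℝ) / Real.sqrt (Real.log (2 * n)) ≤ 2 * n := by
      rw [div_le_iff₀ hsq]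
      calc (n : ℝ) = 2 * n * (1 / 2) := by ring
        _ ≤ _ := mul_le_mul_of_nonneg_left h3 (by positivity)
    calc f ≤ C * ((n : ℝ) / Real.sqrt (Real.log (2 * n))) := hf
      _ ≤ C * (2 * n) := mul_le_mul_of_nonneg_left h4 hC.le
      _ ≤ (C / c + 2 * C) * n * 1 := by nlinarith
      _ ≤ (C / c + 2 * C) * n * T := mul_le_mul_of_nonneg_left hT1 (by positivity)
      _ = _ := by simp
  · have hT' := hT hN2
    generalize (N : ℝ) ^ 2 / k = K at hLK hT' ⊢
    generalize (N : ℝ) ^ 2 / m = L at hL1 hLK hNL ⊢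
    have hL0 : 0 < L := by linarith
    have hK0 : 0 < K := by linarith
    have hlogL : 0 ≤ Real.log L := Real.log_nonneg hL1
    have hlogLK : Real.log L ≤ Real.log K := Real.log_le_log hL0 hLK
    have hlogK : 0 ≤ Real.log K := hlogL.trans hlogLK
    have hlogN : 0 < Real.log N := Real.log_pos (by exact_mod_cast hN2)
    have hM : 0 ≤ (n : ℝ) / m * L * (1 + Real.log K) := mul_nonneg (by positivity) (by linarith)
    have h1 : Real.log N ≤ (1 + Real.log K) * Real.log (2 * n) := by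
      have h2 : 2 * Real.log N = Real.log L + Real.log m := by
        rw [← Real.log_mul hL0.ne' hm0.ne', ← hNL, Real.log_pow]
        norm_num
      have h3 : Real.log m ≤ Real.log (2 * n) := Real.log_le_log hm0 (by linarith)
      have h4 : Real.log K * 0.69 ≤ Real.log K * Real.log (2 * n) :=
        mul_le_mul_of_nonneg_left (by linarith) hlogK
      have h5 : (1 + Real.log K) * Real.log (2 * n) =
          Real.log (2 * n) + Real.log K * Real.log (2 * n) := by ring
      rw [h5]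
      linarith
    set r : ℝ := Real.sqrt (Real.log N * (1 + Real.log K)) with hr
    have hr0 : 0 < r := Real.sqrt_pos.2 (mul_pos hlogN (by linarith))
    have h4 : r ≤ (1 + Real.log K) * Real.sqrt (Real.log (2 * n)) := by
      have h5 : Real.log N * (1 + Real.log K) ≤ (1 + Real.log K) ^ 2 * Real.log (2 * n) := by
        calc Real.log N * (1 + Real.log K)
            ≤ (1 + Real.log K) * Real.log (2 * n) * (1 + Real.log K) :=
              mul_le_mul_of_nonneg_right h1 (by linarith)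
          _ = _ := by ring
      calc r ≤ Real.sqrt ((1 + Real.log K) ^ 2 * Real.log (2 * n)) := Real.sqrt_le_sqrt h5
        _ = _ := by rw [Real.sqrt_mul (sq_nonneg _), Real.sqrt_sq (by linarith)]
    -- c m <= T L r
    have h6 : c * m ≤ T * (L * r) := by
      have e1 : (m : ℝ) ^ 2 / (N : ℝ) ^ 2 / r = m / (L * r) := by
        rw [hNL]
        field_simp
      rw [e1, ← mul_div_assoc, div_le_iff₀ (mul_pos hL0 hr0)] at hT'
      exact hT'
    have h7 : (n : ℝ) / Real.sqrt (Real.log (2 * n)) ≤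
        n / m * (T * (L * (1 + Real.log K)) / c) := by
      have h8 : (m : ℝ) / Real.sqrt (Real.log (2 * n)) ≤ T * (L * (1 + Real.log K)) / c := by
        rw [div_le_div_iff₀ hsq hc]
        calc (m : ℝ) * c = c * m := by ring
          _ ≤ T * (L * r) := h6
          _ ≤ T * (L * ((1 + Real.log K) * Real.sqrt (Real.log (2 * n)))) := by
              apply mul_le_mul_of_nonneg_left _ (by linarith)
              exact mul_le_mul_of_nonneg_left h4 hL0.le
          _ = _ := by ring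
      calc (n : ℝ) / Real.sqrt (Real.log (2 * n))
          = n / m * (m / Real.sqrt (Real.log (2 * n))) := by field_simp
        _ ≤ _ := mul_le_mul_of_nonneg_left h8 (by positivity)
    calc f ≤ C * (n / Real.sqrt (Real.log (2 * n))) := hf
      _ ≤ C * (n / m * (T * (L * (1 + Real.log K)) / c)) := mul_le_mul_of_nonneg_left h7 hC.le
      _ = C / c * (n / m * L * (1 + Real.log K)) * T := by ring
      _ ≤ _ := by
        apply mul_le_mul_of_nonneg_right _ (by linarith)
        apply mul_le_mul_of_nonneg_right _ hM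
        linarith

/-- a part of one of the two classes lies in a section of a rectangular lattice, the rest of the
configuration is arbitrary; pinned version -/
theorem dense_pinD (D : ℕ) (hD : 1 ≤ D) : ∃ C : ℝ, 0 < C ∧ ∀ n N : ℕ,
    ∀ o a b : EuclideanSpace ℝ (Fin 2), a ≠ 0 → ‖b‖ ^ 2 = D * ‖a‖ ^ 2 → inner ℝ a b = 0 →
    ∀ x y : Fin n → EuclideanSpace ℝ (Fin 2), Function.Injective (Sum.elim x y) →
    ∀ S J : Finset (Fin n), J.Nonempty → J.card ≤ S.card →
      (∀ i ∈ S, ∃ s t : ℕ, s < N ∧ t < N ∧ x i = o + (s : ℝ) • a + (t : ℝ) • b) →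
      ∃ P : Finset (EuclideanSpace ℝ (Fin 2)), P.card = 2 * n ∧ ∃ j ∈ J,
        ((P.offDiag.image (fun p => dist p.1 p.2)).card : ℝ) ≤
          C * (((n : ℝ) / S.card) * ((N : ℝ) ^ 2 / S.card) *
            (1 + Real.log ((N : ℝ) ^ 2 / J.card))) *
            ((S.image (fun i => dist (x i) (y j))).card : ℝ) := by
  obtain ⟨C, hC, hup⟩ := f_upper
  obtain ⟨c, hc, hlow⟩ := T_pinD D hD
  refine ⟨C / c + 2 * C, by positivity, ?_⟩
  intro n N o a b ha hab hin x y hinj S J hJ hJS hx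
  choose! xs xt hxs hxt hxe using hx
  choose ys yt hye using fun i => FinD_coord hD (o := o) ha hab hin (y i)
  obtain ⟨j0, hj0⟩ := hJ
  have hn : 1 ≤ n := j0.pos
  have hSn : S.card ≤ n := by
    calc S.card ≤ (Finset.univ : Finset (Fin n)).card := Finset.card_le_univ S
      _ = n := by simp
  have hJ1 : 1 ≤ J.card := Finset.card_pos.2 ⟨j0, hj0⟩
  have hS1 : 1 ≤ S.card := hJ1.trans hJS
  obtain ⟨P, hP1, hP2⟩ := hup n hn
  refine ⟨P, hP1, ?_⟩
  let X : Finset (ℤ × ℤ) := S.image fun i => ((xs i : ℤ), (xt i : ℤ))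
  let Y : Finset (ℝ × ℝ) := J.image fun i => (ys i, yt i)
  have hXinj : Set.InjOn (fun i : Fin n => ((xs i : ℤ), (xt i : ℤ))) (S : Set (Fin n)) := by
    intro i hi j hj hij
    have hij' : ((xs i : ℤ), (xt i : ℤ)) = ((xs j : ℤ), (xt j : ℤ)) := hij
    rw [Prod.mk.injEq] at hij'
    have h1 : xs i = xs j := by exact_mod_cast hij'.1
    have h2 : xt i = xt j := by exact_mod_cast hij'.2
    have h3 : x i = x j := by rw [hxe i hi, hxe j hj, h1, h2]
    exact Sum.inl_injective (hinj (a₁ := Sum.inl i) (a₂ := Sum.inl j) h3)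
  have hYinj : Function.Injective fun i : Fin n => (ys i, yt i) := by
    intro i j hij
    have hij' : (ys i, yt i) = (ys j, yt j) := hij
    rw [Prod.mk.injEq] at hij'
    have h3 : y i = y j := by rw [hye i, hye j, hij'.1, hij'.2]
    exact Sum.inr_injective (hinj (a₁ := Sum.inr i) (a₂ := Sum.inr j) h3)
  have hXc : X.card = S.card := Finset.card_image_of_injOn hXinj
  have hYc : Y.card = J.card := Finset.card_image_of_injective _ hYinj
  have hXB : X ⊆ Bx N := by
    intro v hv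
    obtain ⟨i, hi, rfl⟩ := Finset.mem_image.1 hv
    have h1 := hxs i hi
    have h2 := hxt i hi
    simp only [Bx, Finset.mem_product, Finset.mem_Ico]
    refine ⟨⟨?_, ?_⟩, ?_, ?_⟩ <;> omega
  have hXn : X.Nonempty := by
    rw [← Finset.card_pos, hXc]
    exact hS1
  have hYn : Y.Nonempty := by
    rw [← Finset.card_pos, hYc]
    exact hJ1
  -- the number of the grid points
  have hnN : S.card ≤ N ^ 2 := by
    have h0 : X.card ≤ (Bx N).card := Finset.card_le_card hXB
    rw [hXc] at h0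
    have h1 : (Bx N).card = N ^ 2 := by
      simp [Bx, pow_two]
    rwa [h1] at h0
  -- the distances
  have hdist : ∀ j ∈ J, TrD D X {(ys j, yt j)} ≤ (S.image (fun i => dist (x i) (y j))).card := by
    intro j hj
    have h1 : ((X ×ˢ ({(ys j, yt j)} : Finset (ℝ × ℝ))).image (fun t : (ℤ × ℤ) × (ℝ × ℝ) =>
          ((t.1.1 : ℝ) - t.2.1) ^ 2 + D * ((t.1.2 : ℝ) - t.2.2) ^ 2)).image
          (fun m : ℝ => ‖a‖ * Real.sqrt m) ⊆
        S.image (fun i => dist (x i) (y j)) := by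
      intro r
      simp only [Finset.mem_image, Finset.mem_product]
      rintro ⟨m, ⟨q, ⟨hq1, hq2⟩, rfl⟩, rfl⟩
      obtain ⟨i, hi1, hi⟩ := Finset.mem_image.1 hq1
      rw [Finset.mem_singleton] at hq2
      refine ⟨i, hi1, ?_⟩
      rw [hxe i hi1, hye j, FinD_dist hab hin, ← hi, hq2]
      simp
    refine le_trans (le_of_eq ?_) (Finset.card_le_card h1)
    rw [Finset.card_image_of_injOn]
    · rfl
    · intro m hm m' hm' hmm
      have ha' : ‖a‖ ≠ 0 := norm_ne_zero_iff.2 ha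
      have h2 : Real.sqrt m = Real.sqrt m' := mul_left_cancel₀ ha' hmm
      have h0 : ∀ z ∈ ((X ×ˢ ({(ys j, yt j)} : Finset (ℝ × ℝ))).image
          (fun t : (ℤ × ℤ) × (ℝ × ℝ) =>
          ((t.1.1 : ℝ) - t.2.1) ^ 2 + D * ((t.1.2 : ℝ) - t.2.2) ^ 2)), 0 ≤ z := by
        intro z hz
        obtain ⟨t, _, rfl⟩ := Finset.mem_image.1 hz
        positivity
      exact (Real.sqrt_inj (h0 m hm) (h0 m' hm')).1 h2
  have hT1 : ∀ j ∈ J, (1 : ℝ) ≤ ((S.image (fun i => dist (x i) (y j))).card : ℝ) := by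
    intro j _
    have : 0 < (S.image (fun i => dist (x i) (y j))).card := by
      rw [Finset.card_pos]
      exact (Finset.card_pos.1 hS1).image _
    exact_mod_cast this
  rcases Nat.lt_or_ge N 2 with hN2 | hN2
  · refine ⟨j0, hj0, ?_⟩
    exact FinD_compare hc hC hJ1 hJS hSn hnN (hT1 j0 hj0) hP2 (fun h => absurd h (by omega))
  · obtain ⟨v, hv, h1⟩ := hlow N X Y hN2 hXB hXn hYn (by rw [hXc, hYc]; exact hJS)
    obtain ⟨j, hj, rfl⟩ := Finset.mem_image.1 hv
    refine ⟨j, hj, ?_⟩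
    refine FinD_compare hc hC hJ1 hJS hSn hnN (hT1 j hj) hP2 ?_
    intro _
    rw [hXc, hYc] at h1
    exact h1.trans (by exact_mod_cast hdist j hj)

end Pool.Agent.DL
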