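import Pool.Agent.helper41.DL.FinD

/-! # The theorem for arbitrary lattices -/

set_option autoImplicit false
open scoped Classical

open Finset Pool.Agent.DG

namespace Pool.Agent.DL

/-- equally spaced points on a line -/
theorem FinL_line (n : ℕ) : ∃ P : Finset (EuclideanSpace ℝ (Fin 2)), P.card = 2 * n ∧
    (P.offDiag.image (fun p => dist p.1 p.2)).card ≤ 2 * n := by
  obtain ⟨e, he⟩ : ∃ e : EuclideanSpace ℝ (Fin 2), ‖e‖ = 1 := ⟨EuclideanSpace.single 0 1, by simp⟩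
  have hinj : Function.Injective (fun i : ℕ => (i : ℝ) • e) := by
    intro i j hij
    have h1 : ‖((i : ℝ) - j) • e‖ = 0 := by
      rw [sub_smul, norm_eq_zero, sub_eq_zero]
      exact hij
    rw [norm_smul, he, mul_one, Real.norm_eq_abs, abs_eq_zero, sub_eq_zero] at h1
    exact_mod_cast h1
  refine ⟨(Finset.range (2 * n)).image (fun i : ℕ => (i : ℝ) • e), ?_, ?_⟩
  · rw [Finset.card_image_of_injective _ hinj, Finset.card_range]
  · have hsub : (((Finset.range (2 * n)).image (fun i : ℕ => (i : ℝ) • e)).offDiag.image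
        (fun p => dist p.1 p.2)) ⊆ (Finset.range (2 * n)).image (fun k : ℕ => (k : ℝ)) := by
      intro r hr
      obtain ⟨⟨u, v⟩, huv, rfl⟩ := Finset.mem_image.1 hr
      obtain ⟨hu, hv, -⟩ := Finset.mem_offDiag.1 huv
      obtain ⟨i, hi, rfl⟩ := Finset.mem_image.1 hu
      obtain ⟨j, hj, rfl⟩ := Finset.mem_image.1 hv
      rw [Finset.mem_range] at hi hj
      refine Finset.mem_image.2 ⟨((i : ℤ) - j).natAbs, Finset.mem_range.2 (by omega), ?_⟩
      show ((((i : ℤ) - j).natAbs : ℕ) : ℝ) = dist ((i : ℝ) • e) ((j : ℝ) • e)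
      rw [dist_eq_norm, ← sub_smul, norm_smul, he, mul_one, Real.norm_eq_abs, Nat.cast_natAbs]
      push_cast
      rfl
    exact (Finset.card_le_card hsub).trans (Finset.card_image_le.trans (by simp))

theorem FinL_span (a b : EuclideanSpace ℝ (Fin 2)) (hab : LinearIndependent ℝ ![a, b])
    (v : EuclideanSpace ℝ (Fin 2)) : ∃ s t : ℝ, v = s • a + t • b := by
  have h1 : Submodule.span ℝ (Set.range ![a, b]) = ⊤ :=
    hab.span_eq_top_of_card_eq_finrank (by simp)
  have h2 : v ∈ Submodule.span ℝ (Set.range ![a, b]) := by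
    rw [h1]
    trivial
  rw [Matrix.range_cons, Matrix.range_cons, Matrix.range_empty, Set.union_empty,
    Set.singleton_union, Submodule.mem_span_pair] at h2
  obtain ⟨s, t, h⟩ := h2
  exact ⟨s, t, h.symm⟩

theorem FinL_indep (a b : EuclideanSpace ℝ (Fin 2)) (hab : LinearIndependent ℝ ![a, b]) (s t : ℝ)
    (h : s • a + t • b = 0) : s = 0 ∧ t = 0 := LinearIndependent.pair_iff.1 hab s t h

theorem FinL_normsq (a b : EuclideanSpace ℝ (Fin 2)) (s t : ℝ) :
    ‖s • a + t • b‖ ^ 2 = ‖a‖ ^ 2 * s ^ 2 + 2 * inner ℝ a b * (s * t) + ‖b‖ ^ 2 * t ^ 2 := by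
  rw [norm_add_sq_real, norm_smul, norm_smul, inner_smul_left, inner_smul_right]
  simp only [Real.norm_eq_abs, mul_pow, sq_abs, conj_trivial]
  ring

/-- the number of the lattice points -/
theorem FinL_card (a b : EuclideanSpace ℝ (Fin 2)) (n N : ℕ) (o : EuclideanSpace ℝ (Fin 2))
    (x : Fin n → EuclideanSpace ℝ (Fin 2)) (hx : Function.Injective x) (S : Finset (Fin n))
    (hS : ∀ i ∈ S, ∃ s t : ℕ, s < N ∧ t < N ∧ x i = o + (s : ℝ) • a + (t : ℝ) • b) :
    S.card ≤ N ^ 2 := by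
  have hsub : S.image x ⊆ ((Finset.range N ×ˢ Finset.range N).image
      (fun p : ℕ × ℕ => o + (p.1 : ℝ) • a + (p.2 : ℝ) • b)) := by
    intro z hz
    obtain ⟨i, hi, rfl⟩ := Finset.mem_image.1 hz
    obtain ⟨s, t, hs, ht, h⟩ := hS i hi
    exact Finset.mem_image.2 ⟨(s, t), Finset.mem_product.2 ⟨Finset.mem_range.2 hs,
      Finset.mem_range.2 ht⟩, h.symm⟩
  have h1 := Finset.card_le_card hsub
  rw [Finset.card_image_of_injective _ hx] at h1
  refine h1.trans (Finset.card_image_le.trans ?_)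
  rw [Finset.card_product, Finset.card_range, sq]

theorem FinL_factor (m N : ℕ) (hm : 1 ≤ m) (h : m ≤ N ^ 2) :
    1 ≤ (N : ℝ) ^ 2 / m ∧ 0 ≤ Real.log ((N : ℝ) ^ 2 / m) := by
  have hm' : (0 : ℝ) < m := by exact_mod_cast hm
  have h1 : 1 ≤ (N : ℝ) ^ 2 / m := by
    rw [one_le_div hm']
    exact_mod_cast h
  exact ⟨h1, Real.log_nonneg h1⟩

/-- the case of a form which is not proportional to an integral one -/
theorem FinL_irr (a b : EuclideanSpace ℝ (Fin 2)) (hab : LinearIndependent ℝ ![a, b])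
    (hα : 0 < ‖a‖ ^ 2) (hpos : 0 < 4 * ‖a‖ ^ 2 * ‖b‖ ^ 2 - (2 * inner ℝ a b) ^ 2)
    (h : ¬ ∃ (ρ : ℝ) (A B C : ℤ), 0 < ρ ∧ ‖a‖ ^ 2 = ρ * A ∧ 2 * inner ℝ a b = ρ * B ∧
      ‖b‖ ^ 2 = ρ * C) (n N : ℕ) (o : EuclideanSpace ℝ (Fin 2))
    (x : Fin n → EuclideanSpace ℝ (Fin 2)) (hx : Function.Injective x)
    (yj : EuclideanSpace ℝ (Fin 2)) (S : Finset (Fin n))
    (hS : ∀ i ∈ S, ∃ s t : ℕ, s < N ∧ t < N ∧ x i = o + (s : ℝ) • a + (t : ℝ) • b) :
    S.card ≤ 4 * (S.image (fun i => dist (x i) yj)).card := by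
  obtain ⟨y1, y2, hy⟩ := FinL_span a b hab (yj - o)
  choose! s t hs ht hxi using hS
  have hX : Set.InjOn (fun i => (((s i : ℕ) : ℤ), ((t i : ℕ) : ℤ))) (S : Set (Fin n)) := by
    intro i hi j hj hij
    simp only [Prod.mk.injEq, Nat.cast_inj] at hij
    apply hx
    rw [hxi i hi, hxi j hj, hij.1, hij.2]
  have h1 := irr_form (‖a‖ ^ 2) (2 * inner ℝ a b) (‖b‖ ^ 2) hα hpos h (y1, y2)
    (S.image (fun i => (((s i : ℕ) : ℤ), ((t i : ℕ) : ℤ))))
  rw [Finset.card_image_of_injOn hX] at h1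
  refine h1.trans (Nat.mul_le_mul_left _ ?_)
  refine le_trans (Finset.card_le_card ?_) (Finset.card_image_le (s := S.image
    (fun i => dist (x i) yj)) (f := fun r => r ^ 2))
  intro r hr
  obtain ⟨z, hz, rfl⟩ := Finset.mem_image.1 hr
  obtain ⟨i, hi, rfl⟩ := Finset.mem_image.1 hz
  refine Finset.mem_image.2 ⟨dist (x i) yj, Finset.mem_image.2 ⟨i, hi, rfl⟩, ?_⟩
  have h2 : x i - yj = (((s i : ℕ) : ℝ) - y1) • a + (((t i : ℕ) : ℝ) - y2) • b := by
    have h3 : x i - yj = (x i - o) - (yj - o) := by abel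
    rw [h3, hy, hxi i hi, sub_smul, sub_smul]
    abel
  rw [dist_eq_norm, h2, FinL_normsq]
  push_cast
  ring

theorem FinL_num1 (C₀ u κ l X lX : ℝ) (hC : 0 ≤ C₀) (hu : 0 ≤ u) (hκ : 0 ≤ κ) (hl : 0 ≤ l)
    (hX : 0 ≤ X) (hlX : 0 ≤ lX) :
    C₀ * (u * (κ * X) * (1 + (l + lX))) ≤ C₀ * (κ * (1 + l)) * (u * X * (1 + lX)) := by
  have h1 : 1 + (l + lX) ≤ (1 + l) * (1 + lX) := by nlinarith [mul_nonneg hl hlX]
  calc C₀ * (u * (κ * X) * (1 + (l + lX))) = (C₀ * (u * (κ * X))) * (1 + (l + lX)) := by ring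
    _ ≤ (C₀ * (u * (κ * X))) * ((1 + l) * (1 + lX)) :=
        mul_le_mul_of_nonneg_left h1 (by positivity)
    _ = _ := by ring

theorem FinL_num2 (p n m T X lX : ℝ) (h3 : p ≤ 2 * n) (hm : 0 < m) (hn : 0 ≤ n) (h2 : m ≤ 4 * T)
    (hX : 1 ≤ X) (hlX : 0 ≤ lX) : p ≤ 8 * (n / m * X * (1 + lX)) * T := by
  have hT : 0 ≤ T := by linarith
  have h4 : 1 ≤ X * (1 + lX) := by nlinarith
  have h5 : 2 * n ≤ 8 * (n / m) * T := by
    rw [mul_assoc, div_mul_eq_mul_div, ← mul_div_assoc, le_div_iff₀ hm]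
    nlinarith
  have h6 : 0 ≤ 8 * (n / m) * T := by positivity
  calc p ≤ 2 * n := h3
    _ ≤ 8 * (n / m) * T := h5
    _ ≤ 8 * (n / m) * T * (X * (1 + lX)) := le_mul_of_one_le_right h6 h4
    _ = _ := by ring

/-- a part of one of the two classes lies in a section of a fixed lattice, the rest of the
configuration is arbitrary; pinned version -/
theorem dense_pinL (a b : EuclideanSpace ℝ (Fin 2)) (hab : LinearIndependent ℝ ![a, b]) :
    ∃ C : ℝ, 0 < C ∧ ∀ n N : ℕ, ∀ o : EuclideanSpace ℝ (Fin 2),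
    ∀ x y : Fin n → EuclideanSpace ℝ (Fin 2), Function.Injective (Sum.elim x y) →
    ∀ S J : Finset (Fin n), J.Nonempty → J.card ≤ S.card →
      (∀ i ∈ S, ∃ s t : ℕ, s < N ∧ t < N ∧ x i = o + (s : ℝ) • a + (t : ℝ) • b) →
      ∃ P : Finset (EuclideanSpace ℝ (Fin 2)), P.card = 2 * n ∧ ∃ j ∈ J,
        ((P.offDiag.image (fun p => dist p.1 p.2)).card : ℝ) ≤
          C * (((n : ℝ) / S.card) * ((N : ℝ) ^ 2 / S.card) *
            (1 + Real.log ((N : ℝ) ^ 2 / J.card))) *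
            ((S.image (fun i => dist (x i) (y j))).card : ℝ) := by
  have ha : a ≠ 0 := by
    intro h
    have := FinL_indep a b hab 1 0 (by simp [h])
    exact one_ne_zero this.1
  have hα : 0 < ‖a‖ ^ 2 := by positivity
  have hb' : ∀ t : ℝ, b - t • a ≠ 0 := by
    intro t h
    have := FinL_indep a b hab (-t) 1 (by rw [neg_smul, one_smul, ← h]; abel)
    exact one_ne_zero this.2
  have hsq : ∀ t : ℝ, ‖b - t • a‖ ^ 2 = ‖b‖ ^ 2 - 2 * t * inner ℝ a b + t ^ 2 * ‖a‖ ^ 2 := by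
    intro t
    have h1 := FinL_normsq a b (-t) 1
    rw [neg_smul, one_smul] at h1
    have h2 : -(t • a) + b = b - t • a := by abel
    rw [h2] at h1
    rw [h1]
    ring
  have hpos : 0 < 4 * ‖a‖ ^ 2 * ‖b‖ ^ 2 - (2 * inner ℝ a b) ^ 2 := by
    have h1 : 0 < ‖b - (inner ℝ a b / ‖a‖ ^ 2) • a‖ ^ 2 := by
      have := norm_pos_iff.2 (hb' (inner ℝ a b / ‖a‖ ^ 2))
      positivity
    rw [hsq] at h1
    have h2 : ‖b‖ ^ 2 - 2 * (inner ℝ a b / ‖a‖ ^ 2) * inner ℝ a b +
        (inner ℝ a b / ‖a‖ ^ 2) ^ 2 * ‖a‖ ^ 2 = (‖b‖ ^ 2 * ‖a‖ ^ 2 - inner ℝ a b ^ 2) / ‖a‖ ^ 2 := by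
      field_simp
      ring
    rw [h2, lt_div_iff₀ hα, zero_mul] at h1
    nlinarith
  by_cases h : ∃ (ρ : ℝ) (A B C : ℤ), 0 < ρ ∧ ‖a‖ ^ 2 = ρ * A ∧ 2 * inner ℝ a b = ρ * B ∧
      ‖b‖ ^ 2 = ρ * C
  · obtain ⟨ρ, A, B, C, hρ, hA, hB, hC⟩ := h
    have hA0 : 0 < A := by
      have h1 : 0 < ρ * (A : ℝ) := hA ▸ hα
      have h2 : (0 : ℝ) < A := (mul_pos_iff_of_pos_left hρ).1 h1
      exact_mod_cast h2
    have hAR : (0 : ℝ) < A := by exact_mod_cast hA0
    have hD0 : 0 < 4 * A * C - B ^ 2 := by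
      rw [hA, hB, hC] at hpos
      have h1 : 0 < ρ ^ 2 * (4 * (A : ℝ) * C - (B : ℝ) ^ 2) := by nlinarith
      have h2 : (0 : ℝ) < 4 * (A : ℝ) * C - (B : ℝ) ^ 2 :=
        (mul_pos_iff_of_pos_left (by positivity)).1 h1
      exact_mod_cast h2
    obtain ⟨D, hD⟩ : ∃ D : ℕ, (D : ℤ) = 4 * A * C - B ^ 2 :=
      ⟨(4 * A * C - B ^ 2).toNat, Int.toNat_of_nonneg hD0.le⟩
    have hD1 : 1 ≤ D := by
      have : (0 : ℤ) < D := hD ▸ hD0
      omega
    have hDR : (D : ℝ) = 4 * A * C - (B : ℝ) ^ 2 := by exact_mod_cast hD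
    obtain ⟨A', hA'⟩ : ∃ A' : ℕ, (A' : ℤ) = A := ⟨A.toNat, Int.toNat_of_nonneg hA0.le⟩
    set k : ℕ := 2 * A' + 2 * B.natAbs + 1 with hk
    obtain ⟨C₀, hC₀, hmain⟩ := dense_pinD D hD1
    have hkR : (1 : ℝ) ≤ (k : ℝ) ^ 2 := by
      have : (1 : ℝ) ≤ k := by
        rw [hk]
        push_cast
        have h1 : (0 : ℝ) ≤ A' := Nat.cast_nonneg _
        have h2 : (0 : ℝ) ≤ B.natAbs := Nat.cast_nonneg _
        linarith
      nlinarith
    have hlk : 0 ≤ Real.log ((k : ℝ) ^ 2) := Real.log_nonneg hkR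
    refine ⟨C₀ * ((k : ℝ) ^ 2 * (1 + Real.log ((k : ℝ) ^ 2))), by positivity, ?_⟩
    intro n N o x y hxy S J hne hJS hS
    have hx : Function.Injective x := fun i j hij => Sum.inl_injective (hxy (by simpa using hij))
    have hcard := FinL_card a b n N o x hx S hS
    have hmJ : 1 ≤ J.card := hne.card_pos
    have hm : 1 ≤ S.card := hmJ.trans hJS
    obtain ⟨hf1, -⟩ := FinL_factor S.card N hm hcard
    obtain ⟨hg1, hf2⟩ := FinL_factor J.card N hmJ (hJS.trans hcard)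
    -- the rectangular lattice
    set a' : EuclideanSpace ℝ (Fin 2) := (1 / (2 * (A : ℝ))) • a with ha'
    set b' : EuclideanSpace ℝ (Fin 2) := b - ((B : ℝ) / (2 * A)) • a with hb'd
    have haa : a = (2 * (A : ℝ)) • a' := by
      rw [ha', smul_smul]
      have : 2 * (A : ℝ) * (1 / (2 * (A : ℝ))) = 1 := by field_simp
      rw [this, one_smul]
    have hbb : b = b' + (B : ℝ) • a' := by
      rw [hb'd, ha', smul_smul]
      have : (B : ℝ) * (1 / (2 * (A : ℝ))) = (B : ℝ) / (2 * A) := by ring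
      rw [this]
      abel
    have ha'0 : a' ≠ 0 := by
      intro h0
      rw [h0, smul_zero] at haa
      exact ha haa
    have hna : ‖a'‖ ^ 2 = ρ / (4 * A) := by
      rw [ha', norm_smul, mul_pow, hA, Real.norm_eq_abs, sq_abs]
      field_simp
      ring
    have hnb : ‖b'‖ ^ 2 = D * ‖a'‖ ^ 2 := by
      rw [hna, hb'd, hsq, hC, hA]
      have h2 : inner ℝ a b = ρ * B / 2 := by linarith
      rw [h2, hDR]
      field_simp
      ring
    have hin : inner ℝ a' b' = 0 := by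
      rw [hb'd, ha', inner_smul_left, inner_sub_right, inner_smul_right, real_inner_self_eq_norm_sq,
        hA]
      have h2 : inner ℝ a b = ρ * B / 2 := by linarith
      rw [h2]
      have : ρ * (B : ℝ) / 2 - (B : ℝ) / (2 * A) * (ρ * A) = 0 := by
        field_simp
        ring
      rw [this, mul_zero]
    obtain ⟨P, hP, j, hj, hle⟩ := hmain n (k * N) (o - ((B.natAbs * N : ℕ) : ℝ) • a') a' b' ha'0 hnb hin
      x y hxy S J hne hJS (by
        intro i hi
        obtain ⟨s, t, hs, ht, hxi⟩ := hS i hi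
        have habs : (B.natAbs : ℤ) = |B| := Int.natCast_natAbs B
        have hNpos : 0 < N := by omega
        have hge : 0 ≤ 2 * A * s + B * t + B.natAbs * N := by
          have h1 : -(|B|) ≤ B := neg_abs_le B
          have h2 : (0 : ℤ) ≤ t := Int.natCast_nonneg t
          have h3 : (t : ℤ) ≤ N := by exact_mod_cast ht.le
          have h4 : 0 ≤ |B| := abs_nonneg B
          rw [habs]
          nlinarith [mul_nonneg hA0.le (Int.natCast_nonneg s), mul_le_mul_of_nonneg_left h3 h4,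
            mul_le_mul_of_nonneg_right h1 h2]
        refine ⟨(2 * A * s + B * t + B.natAbs * N).toNat, t, ?_, ?_, ?_⟩
        · have h5 : ((2 * A * s + B * t + B.natAbs * N).toNat : ℤ) < (k * N : ℕ) := by
            rw [Int.toNat_of_nonneg hge, hk]
            push_cast
            rw [hA']
            have h1 : B ≤ |B| := le_abs_self B
            have h2 : (0 : ℤ) ≤ t := Int.natCast_nonneg t
            have h3 : (t : ℤ) ≤ N := by exact_mod_cast ht.le
            have h4 : 0 ≤ |B| := abs_nonneg B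
            have h6 : (s : ℤ) ≤ N := by exact_mod_cast hs.le
            have h7 : (0 : ℤ) < N := by exact_mod_cast hNpos
            nlinarith [mul_le_mul_of_nonneg_left h6 hA0.le, mul_le_mul_of_nonneg_left h3 h4,
              mul_le_mul_of_nonneg_right h1 h2]
          exact_mod_cast h5
        · have : 1 ≤ k := by omega
          nlinarith
        · have hcast : (((2 * A * s + B * t + B.natAbs * N).toNat : ℕ) : ℝ) =
              2 * A * s + B * t + ((B.natAbs * N : ℕ) : ℝ) := by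
            have h1 : (((2 * A * s + B * t + B.natAbs * N).toNat : ℕ) : ℤ) =
              2 * A * s + B * t + B.natAbs * N := Int.toNat_of_nonneg hge
            have h2 : ((((2 * A * s + B * t + B.natAbs * N).toNat : ℕ) : ℤ) : ℝ) =
              ((2 * A * s + B * t + B.natAbs * N : ℤ) : ℝ) := by rw [h1]
            have h3 : ((B.natAbs : ℕ) : ℝ) = |(B : ℝ)| := by rw [Nat.cast_natAbs, Int.cast_abs]
            rw [Nat.cast_mul, h3]
            push_cast at h2 ⊢
            exact h2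
          have e4 : (s : ℝ) • a + (t : ℝ) • b = (2 * A * s + B * t : ℝ) • a' + (t : ℝ) • b' := by
            calc (s : ℝ) • a + (t : ℝ) • b
                = (s : ℝ) • ((2 * (A : ℝ)) • a') + (t : ℝ) • (b' + (B : ℝ) • a') := by
                  rw [← haa, ← hbb]
              _ = (2 * A * s + B * t : ℝ) • a' + (t : ℝ) • b' := by module
          rw [hcast, hxi, add_assoc, e4]
          module)
    refine ⟨P, hP, j, hj, hle.trans ?_⟩
    have hx0 : (0 : ℝ) < (N : ℝ) ^ 2 / S.card := lt_of_lt_of_le one_pos hf1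
    have hy0 : (0 : ℝ) < (N : ℝ) ^ 2 / J.card := lt_of_lt_of_le one_pos hg1
    have e3 : ∀ m : ℕ, (((k * N : ℕ) : ℝ)) ^ 2 / (m : ℝ) = (k : ℝ) ^ 2 * ((N : ℝ) ^ 2 / m) := by
      intro m
      push_cast
      ring
    rw [e3, e3, Real.log_mul (by positivity) hy0.ne']
    refine mul_le_mul_of_nonneg_right ?_ (Nat.cast_nonneg _)
    exact FinL_num1 _ _ _ _ _ _ hC₀.le (div_nonneg (Nat.cast_nonneg _) (Nat.cast_nonneg _))
      (sq_nonneg _) hlk hx0.le hf2
  · refine ⟨8, by norm_num, ?_⟩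
    intro n N o x y hxy S J hne hJS hS
    have hx : Function.Injective x := fun i j hij => Sum.inl_injective (hxy (by simpa using hij))
    have hcard := FinL_card a b n N o x hx S hS
    have hmJ : 1 ≤ J.card := hne.card_pos
    have hm : 1 ≤ S.card := hmJ.trans hJS
    obtain ⟨hf1, -⟩ := FinL_factor S.card N hm hcard
    obtain ⟨hg1, hf2⟩ := FinL_factor J.card N hmJ (hJS.trans hcard)
    obtain ⟨j, hj⟩ := hne
    have h1 := FinL_irr a b hab hα hpos h n N o x hx (y j) S hS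
    obtain ⟨P, hP, hle⟩ := FinL_line n
    refine ⟨P, hP, j, hj, ?_⟩
    have hm' : (0 : ℝ) < S.card := by exact_mod_cast hm
    have h2 : (S.card : ℝ) ≤ 4 * ((S.image (fun i => dist (x i) (y j))).card : ℝ) := by
      exact_mod_cast h1
    have h3 : ((P.offDiag.image (fun p => dist p.1 p.2)).card : ℝ) ≤ 2 * n := by
      exact_mod_cast hle
    exact FinL_num2 _ _ _ _ _ _ h3 hm' (Nat.cast_nonneg _) h2 hf1 hf2

end Pool.Agent.DL
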