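import Mathlib

/-! # Irrational points and irrational forms -/

set_option autoImplicit false
open scoped Classical

open Finset

namespace Pool.Agent.DL

/-- a positive definite form is positive off zero -/
theorem IrrD_pos {α β γ : ℝ} (hα : 0 < α) (hpos : 0 < 4 * α * γ - β ^ 2) {a b : ℝ}
    (h : ¬ (a = 0 ∧ b = 0)) : 0 < α * a ^ 2 + β * (a * b) + γ * b ^ 2 := by
  have key : 4 * α * (α * a ^ 2 + β * (a * b) + γ * b ^ 2) =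
      (2 * α * a + β * b) ^ 2 + (4 * α * γ - β ^ 2) * b ^ 2 := by ring
  have h4 : 0 < (2 * α * a + β * b) ^ 2 + (4 * α * γ - β ^ 2) * b ^ 2 := by
    by_cases hb : b = 0
    · have ha : a ≠ 0 := fun ha => h ⟨ha, hb⟩
      subst hb
      have : 0 < (2 * α * a) ^ 2 := by positivity
      simpa using this
    · have : 0 < (4 * α * γ - β ^ 2) * b ^ 2 := mul_pos hpos (by positivity)
      have h2 := sq_nonneg (2 * α * a + β * b)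
      linarith
  rw [← key] at h4
  exact (mul_pos_iff_of_pos_left (by positivity)).1 h4

/-- three distinct points on an ellipse are not on a line -/
theorem IrrD_det {α β γ l m : ℝ} (hα : 0 < α) (hpos : 0 < 4 * α * γ - β ^ 2) {a b c d : ℝ}
    (hu : ¬ (a = 0 ∧ b = 0)) (hv : ¬ (c = 0 ∧ d = 0)) (huv : ¬ (a = c ∧ b = d))
    (h1 : α * a ^ 2 + β * (a * b) + γ * b ^ 2 + (l * a + m * b) = 0)
    (h2 : α * c ^ 2 + β * (c * d) + γ * d ^ 2 + (l * c + m * d) = 0) :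
    a * d - b * c ≠ 0 := by
  intro hD
  have hU := IrrD_pos hα hpos hu
  have hV := IrrD_pos hα hpos hv
  set U := α * a ^ 2 + β * (a * b) + γ * b ^ 2 with hUdef
  set V := α * c ^ 2 + β * (c * d) + γ * d ^ 2 with hVdef
  have e1 : U * c = V * a := by
    linear_combination c * h1 - a * h2 + m * hD
  have e2 : U * d = V * b := by
    linear_combination d * h1 - b * h2 - l * hD
  have g : U = V := by
    have g1 : U * (U * V) = V * (U * V) := by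
      have g2 : U * U * V = V * V * U := by
        calc U * U * V = α * (U * c) ^ 2 + β * ((U * c) * (U * d)) + γ * (U * d) ^ 2 := by
              rw [hVdef]; ring
          _ = α * (V * a) ^ 2 + β * ((V * a) * (V * b)) + γ * (V * b) ^ 2 := by rw [e1, e2]
          _ = V * V * U := by rw [hUdef]; ring
      linear_combination g2
    exact mul_right_cancel₀ (mul_pos hU hV).ne' g1
  apply huv
  rw [← g] at e1 e2
  exact ⟨(mul_left_cancel₀ hU.ne' e1).symm, (mul_left_cancel₀ hU.ne' e2).symm⟩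

/-- from integer vectors to real vectors -/
theorem IrrD_cast {a b : ℤ × ℤ} (h : a ≠ b) : ¬ ((a.1 : ℝ) - b.1 = 0 ∧ (a.2 : ℝ) - b.2 = 0) := by
  rintro ⟨h1, h2⟩
  apply h
  refine Prod.ext ?_ ?_
  · exact_mod_cast sub_eq_zero.1 h1
  · exact_mod_cast sub_eq_zero.1 h2

/-- the distances to a point which is not rational are at most two to one on the lattice -/
theorem irr_fiberD (D : ℕ) (hD : 1 ≤ D) (y : ℝ × ℝ)
    (h : ¬ ∃ (q : ℤ) (a : ℤ × ℤ), 1 ≤ q ∧ y.1 = (a.1 : ℝ) / q ∧ y.2 = (a.2 : ℝ) / q)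
    (X : Finset (ℤ × ℤ)) :
    X.card ≤ 2 * (X.image (fun x => ((x.1 : ℝ) - y.1) ^ 2 + D * ((x.2 : ℝ) - y.2) ^ 2)).card := by
  refine Finset.card_le_mul_card_image X 2 fun d _ => ?_
  by_contra hc
  rw [not_le, Finset.two_lt_card] at hc
  obtain ⟨a, ha, b, hb, c, hcc, hab, hac, hbc⟩ := hc
  rw [Finset.mem_filter] at ha hb hcc
  have ea := ha.2
  have eb := hb.2
  have ec := hcc.2
  have hDR : (0 : ℝ) < D := by exact_mod_cast hD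
  have hu := IrrD_cast hab.symm
  have hv := IrrD_cast hac.symm
  have huv : ¬ ((b.1 : ℝ) - a.1 = (c.1 : ℝ) - a.1 ∧ (b.2 : ℝ) - a.2 = (c.2 : ℝ) - a.2) := by
    rintro ⟨g1, g2⟩
    exact IrrD_cast hbc ⟨by linarith, by linarith⟩
  have h1 : (1 : ℝ) * ((b.1 : ℝ) - a.1) ^ 2 + 0 * (((b.1 : ℝ) - a.1) * ((b.2 : ℝ) - a.2)) +
      (D : ℝ) * ((b.2 : ℝ) - a.2) ^ 2 + (2 * ((a.1 : ℝ) - y.1) * ((b.1 : ℝ) - a.1) +
        2 * D * ((a.2 : ℝ) - y.2) * ((b.2 : ℝ) - a.2)) = 0 := by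
    linear_combination eb - ea
  have h2 : (1 : ℝ) * ((c.1 : ℝ) - a.1) ^ 2 + 0 * (((c.1 : ℝ) - a.1) * ((c.2 : ℝ) - a.2)) +
      (D : ℝ) * ((c.2 : ℝ) - a.2) ^ 2 + (2 * ((a.1 : ℝ) - y.1) * ((c.1 : ℝ) - a.1) +
        2 * D * ((a.2 : ℝ) - y.2) * ((c.2 : ℝ) - a.2)) = 0 := by
    linear_combination ec - ea
  have hdet := IrrD_det (α := 1) (β := 0) (γ := D) one_pos (by nlinarith) hu hv huv h1 h2
  set u1 : ℤ := b.1 - a.1 with hu1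
  set u2 : ℤ := b.2 - a.2 with hu2
  set v1 : ℤ := c.1 - a.1 with hv1
  set v2 : ℤ := c.2 - a.2 with hv2
  have cu1 : (b.1 : ℝ) - a.1 = (u1 : ℝ) := by rw [hu1]; push_cast; ring
  have cu2 : (b.2 : ℝ) - a.2 = (u2 : ℝ) := by rw [hu2]; push_cast; ring
  have cv1 : (c.1 : ℝ) - a.1 = (v1 : ℝ) := by rw [hv1]; push_cast; ring
  have cv2 : (c.2 : ℝ) - a.2 = (v2 : ℝ) := by rw [hv2]; push_cast; ring
  rw [cu1, cu2, cv1, cv2] at hdet
  rw [cu1, cu2] at h1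
  rw [cv1, cv2] at h2
  have hE : (2 * D * (u1 * v2 - u2 * v1) : ℤ) ≠ 0 := by
    have e : ((2 * D * (u1 * v2 - u2 * v1) : ℤ) : ℝ) ≠ 0 := by
      push_cast
      exact mul_ne_zero (mul_ne_zero two_ne_zero hDR.ne') hdet
    exact_mod_cast e
  set E : ℤ := 2 * D * (u1 * v2 - u2 * v1) with hEdef
  have hER : (E : ℝ) ≠ 0 := by exact_mod_cast hE
  have k1 : (E : ℝ) * y.1 = ((E * a.1 + D * ((u1 ^ 2 + D * u2 ^ 2) * v2 -
      (v1 ^ 2 + D * v2 ^ 2) * u2) : ℤ) : ℝ) := by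
    rw [hEdef]
    push_cast
    linear_combination (-(D : ℝ) * (v2 : ℝ)) * h1 + (D : ℝ) * (u2 : ℝ) * h2
  have k2 : (E : ℝ) * y.2 = ((E * a.2 + ((v1 ^ 2 + D * v2 ^ 2) * u1 -
      (u1 ^ 2 + D * u2 ^ 2) * v1) : ℤ) : ℝ) := by
    rw [hEdef]
    push_cast
    linear_combination (v1 : ℝ) * h1 - (u1 : ℝ) * h2
  apply h
  refine ⟨E * E, (E * (E * a.1 + D * ((u1 ^ 2 + D * u2 ^ 2) * v2 -
      (v1 ^ 2 + D * v2 ^ 2) * u2)), E * (E * a.2 + ((v1 ^ 2 + D * v2 ^ 2) * u1 -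
      (u1 ^ 2 + D * u2 ^ 2) * v1))), ?_, ?_, ?_⟩
  · have := mul_self_pos.2 hE
    omega
  · rw [eq_div_iff (by push_cast; exact mul_ne_zero hER hER)]
    push_cast at k1 ⊢
    linear_combination (E : ℝ) * k1
  · rw [eq_div_iff (by push_cast; exact mul_ne_zero hER hER)]
    push_cast at k2 ⊢
    linear_combination (E : ℝ) * k2

/-- the equation of the conic in affine coordinates -/
theorem IrrD_lin {α β γ l m : ℝ} {u1 u2 v1 v2 w1 w2 : ℝ}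
    (hu : α * u1 ^ 2 + β * (u1 * u2) + γ * u2 ^ 2 + (l * u1 + m * u2) = 0)
    (hv : α * v1 ^ 2 + β * (v1 * v2) + γ * v2 ^ 2 + (l * v1 + m * v2) = 0)
    (hw : α * w1 ^ 2 + β * (w1 * w2) + γ * w2 ^ 2 + (l * w1 + m * w2) = 0) :
    ((w1 * v2 - w2 * v1) * ((w1 * v2 - w2 * v1) - (u1 * v2 - u2 * v1))) *
        (α * u1 ^ 2 + β * (u1 * u2) + γ * u2 ^ 2) +
      ((w1 * v2 - w2 * v1) * (u1 * w2 - u2 * w1)) *
        (2 * α * (u1 * v1) + β * (u1 * v2 + u2 * v1) + 2 * γ * (u2 * v2)) +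
      ((u1 * w2 - u2 * w1) * ((u1 * w2 - u2 * w1) - (u1 * v2 - u2 * v1))) *
        (α * v1 ^ 2 + β * (v1 * v2) + γ * v2 ^ 2) = 0 := by
  linear_combination (u1 * v2 - u2 * v1) ^ 2 * hw -
    (u1 * v2 - u2 * v1) * (w1 * v2 - w2 * v1) * hu -
    (u1 * v2 - u2 * v1) * (u1 * w2 - u2 * w1) * hv

/-- two integral equations determine the form -/
theorem IrrD_solve {α β γ : ℝ} (u1 u2 v1 v2 x1 x2 x3 z1 z2 z3 : ℤ)
    (hdet : u1 * v2 - u2 * v1 ≠ 0) (hm : x1 * z2 - x2 * z1 ≠ 0)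
    (hga : 0 < α * (v1 : ℝ) ^ 2 + β * ((v1 : ℝ) * v2) + γ * (v2 : ℝ) ^ 2)
    (e1 : (x1 : ℝ) * (α * (u1 : ℝ) ^ 2 + β * ((u1 : ℝ) * u2) + γ * (u2 : ℝ) ^ 2) +
      x2 * (2 * α * ((u1 : ℝ) * v1) + β * ((u1 : ℝ) * v2 + u2 * v1) + 2 * γ * ((u2 : ℝ) * v2)) +
      x3 * (α * (v1 : ℝ) ^ 2 + β * ((v1 : ℝ) * v2) + γ * (v2 : ℝ) ^ 2) = 0)
    (e2 : (z1 : ℝ) * (α * (u1 : ℝ) ^ 2 + β * ((u1 : ℝ) * u2) + γ * (u2 : ℝ) ^ 2) +
      z2 * (2 * α * ((u1 : ℝ) * v1) + β * ((u1 : ℝ) * v2 + u2 * v1) + 2 * γ * ((u2 : ℝ) * v2)) +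
      z3 * (α * (v1 : ℝ) ^ 2 + β * ((v1 : ℝ) * v2) + γ * (v2 : ℝ) ^ 2) = 0) :
    ∃ (ρ : ℝ) (A B C : ℤ), 0 < ρ ∧ α = ρ * A ∧ β = ρ * B ∧ γ = ρ * C := by
  have hdR : ((u1 : ℝ) * v2 - u2 * v1) ≠ 0 := by exact_mod_cast hdet
  have hmR : ((x1 : ℝ) * z2 - x2 * z1) ≠ 0 := by exact_mod_cast hm
  set al := α * (u1 : ℝ) ^ 2 + β * ((u1 : ℝ) * u2) + γ * (u2 : ℝ) ^ 2 with hal
  set be := 2 * α * ((u1 : ℝ) * v1) + β * ((u1 : ℝ) * v2 + u2 * v1) + 2 * γ * ((u2 : ℝ) * v2)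
    with hbe
  set ga := α * (v1 : ℝ) ^ 2 + β * ((v1 : ℝ) * v2) + γ * (v2 : ℝ) ^ 2 with hgad
  -- the cross product
  have c1 : al * ((x1 : ℝ) * z2 - x2 * z1) = ga * ((x2 : ℝ) * z3 - x3 * z2) := by
    linear_combination (z2 : ℝ) * e1 - (x2 : ℝ) * e2
  have c2 : be * ((x1 : ℝ) * z2 - x2 * z1) = ga * ((x3 : ℝ) * z1 - x1 * z3) := by
    linear_combination (-(z1 : ℝ)) * e1 + (x1 : ℝ) * e2
  have d1 : ((u1 : ℝ) * v2 - u2 * v1) ^ 2 * α = (v2 : ℝ) ^ 2 * al - (u2 : ℝ) * v2 * be +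
      (u2 : ℝ) ^ 2 * ga := by rw [hal, hbe, hgad]; ring
  have d2 : ((u1 : ℝ) * v2 - u2 * v1) ^ 2 * β = -(2 * (v1 : ℝ) * v2) * al +
      ((u1 : ℝ) * v2 + u2 * v1) * be - 2 * (u1 : ℝ) * u2 * ga := by rw [hal, hbe, hgad]; ring
  have d3 : ((u1 : ℝ) * v2 - u2 * v1) ^ 2 * γ = (v1 : ℝ) ^ 2 * al - (u1 : ℝ) * v1 * be +
      (u1 : ℝ) ^ 2 * ga := by rw [hal, hbe, hgad]; ring
  set E := (u1 : ℝ) * v2 - u2 * v1 with hE
  set M := (x1 : ℝ) * z2 - x2 * z1 with hM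
  have hEM : M ^ 2 * E ^ 2 ≠ 0 := mul_ne_zero (pow_ne_zero 2 hmR) (pow_ne_zero 2 hdR)
  refine ⟨ga / (M ^ 2 * E ^ 2),
    (x1 * z2 - x2 * z1) * (v2 ^ 2 * (x2 * z3 - x3 * z2) - u2 * v2 * (x3 * z1 - x1 * z3) +
      u2 ^ 2 * (x1 * z2 - x2 * z1)),
    (x1 * z2 - x2 * z1) * (-(2 * v1 * v2) * (x2 * z3 - x3 * z2) +
      (u1 * v2 + u2 * v1) * (x3 * z1 - x1 * z3) - 2 * u1 * u2 * (x1 * z2 - x2 * z1)),
    (x1 * z2 - x2 * z1) * (v1 ^ 2 * (x2 * z3 - x3 * z2) - u1 * v1 * (x3 * z1 - x1 * z3) +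
      u1 ^ 2 * (x1 * z2 - x2 * z1)), ?_, ?_, ?_, ?_⟩
  · exact div_pos hga (lt_of_le_of_ne (by positivity) hEM.symm)
  · rw [div_mul_eq_mul_div, eq_div_iff hEM]
    push_cast
    rw [← hM]
    linear_combination M ^ 2 * d1 + M * (v2 : ℝ) ^ 2 * c1 - M * (u2 : ℝ) * v2 * c2
  · rw [div_mul_eq_mul_div, eq_div_iff hEM]
    push_cast
    rw [← hM]
    linear_combination M ^ 2 * d2 - M * (2 * (v1 : ℝ) * v2) * c1 +
      M * ((u1 : ℝ) * v2 + u2 * v1) * c2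
  · rw [div_mul_eq_mul_div, eq_div_iff hEM]
    push_cast
    rw [← hM]
    linear_combination M ^ 2 * d3 + M * (v1 : ℝ) ^ 2 * c1 - M * (u1 : ℝ) * v1 * c2

/-- the values of a positive definite form which is not proportional to an integral form are at most
four to one on the lattice -/
theorem irr_form (α β γ : ℝ) (hα : 0 < α) (hpos : 0 < 4 * α * γ - β ^ 2)
    (h : ¬ ∃ (ρ : ℝ) (A B C : ℤ), 0 < ρ ∧ α = ρ * A ∧ β = ρ * B ∧ γ = ρ * C) (y : ℝ × ℝ)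
    (X : Finset (ℤ × ℤ)) :
    X.card ≤ 4 * (X.image (fun x => α * ((x.1 : ℝ) - y.1) ^ 2 +
      β * (((x.1 : ℝ) - y.1) * ((x.2 : ℝ) - y.2)) + γ * ((x.2 : ℝ) - y.2) ^ 2)).card := by
  refine Finset.card_le_mul_card_image X 4 fun d _ => ?_
  by_contra hc
  rw [not_le] at hc
  obtain ⟨t, ht, htc⟩ := Finset.exists_subset_card_eq (Nat.succ_le_of_lt hc)
  let e := t.equivFinOfCardEq htc
  let P : Fin 5 → ℤ × ℤ := fun i => (e.symm i : ℤ × ℤ)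
  have hPd : ∀ i, α * (((P i).1 : ℝ) - y.1) ^ 2 + β * ((((P i).1 : ℝ) - y.1) *
      (((P i).2 : ℝ) - y.2)) + γ * (((P i).2 : ℝ) - y.2) ^ 2 = d := fun i =>
    (Finset.mem_filter.1 (ht (e.symm i).2)).2
  have hPn : ∀ i j, i ≠ j → P i ≠ P j := fun i j hij hP =>
    hij (e.symm.injective (Subtype.ext hP))
  -- the value along differences
  have hdiff : ∀ i j, α * (((P j).1 : ℝ) - (P i).1) ^ 2 + β * ((((P j).1 : ℝ) - (P i).1) *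
      (((P j).2 : ℝ) - (P i).2)) + γ * (((P j).2 : ℝ) - (P i).2) ^ 2 +
      ((2 * α * (((P i).1 : ℝ) - y.1) + β * (((P i).2 : ℝ) - y.2)) * (((P j).1 : ℝ) - (P i).1) +
        (β * (((P i).1 : ℝ) - y.1) + 2 * γ * (((P i).2 : ℝ) - y.2)) *
          (((P j).2 : ℝ) - (P i).2)) = 0 := by
    intro i j
    linear_combination hPd j - hPd i
  have hcol : ∀ i j k, i ≠ j → i ≠ k → j ≠ k →
      (((P j).1 : ℝ) - (P i).1) * (((P k).2 : ℝ) - (P i).2) -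
        (((P j).2 : ℝ) - (P i).2) * (((P k).1 : ℝ) - (P i).1) ≠ 0 := by
    intro i j k hij hik hjk
    refine IrrD_det hα hpos (IrrD_cast (hPn j i hij.symm)) (IrrD_cast (hPn k i hik.symm)) ?_
      (hdiff i j) (hdiff i k)
    rintro ⟨g1, g2⟩
    exact IrrD_cast (hPn j k hjk) ⟨by linarith, by linarith⟩
  have h01 : (0 : Fin 5) ≠ 1 := by decide
  have h02 : (0 : Fin 5) ≠ 2 := by decide
  have h03 : (0 : Fin 5) ≠ 3 := by decide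
  have h04 : (0 : Fin 5) ≠ 4 := by decide
  have h12 : (1 : Fin 5) ≠ 2 := by decide
  have h13 : (1 : Fin 5) ≠ 3 := by decide
  have h14 : (1 : Fin 5) ≠ 4 := by decide
  have h23 : (2 : Fin 5) ≠ 3 := by decide
  have h24 : (2 : Fin 5) ≠ 4 := by decide
  have h34 : (3 : Fin 5) ≠ 4 := by decide
  have L3 := IrrD_lin (hdiff 0 1) (hdiff 0 2) (hdiff 0 3)
  have L4 := IrrD_lin (hdiff 0 1) (hdiff 0 2) (hdiff 0 4)
  have n12 := hcol 0 1 2 h01 h02 h12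
  have n32 := hcol 0 3 2 h03 h02 h23.symm
  have n42 := hcol 0 4 2 h04 h02 h24.symm
  have n134 := hcol 1 3 4 h13 h14 h34
  have hga := IrrD_pos hα hpos (IrrD_cast (hPn 2 0 h02.symm))
  set u1 : ℤ := (P 1).1 - (P 0).1 with hu1
  set u2 : ℤ := (P 1).2 - (P 0).2 with hu2
  set v1 : ℤ := (P 2).1 - (P 0).1 with hv1
  set v2 : ℤ := (P 2).2 - (P 0).2 with hv2
  set w1 : ℤ := (P 3).1 - (P 0).1 with hw1
  set w2 : ℤ := (P 3).2 - (P 0).2 with hw2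
  set z1 : ℤ := (P 4).1 - (P 0).1 with hz1
  set z2 : ℤ := (P 4).2 - (P 0).2 with hz2
  have cu1 : ((P 1).1 : ℝ) - (P 0).1 = (u1 : ℝ) := by rw [hu1]; push_cast; ring
  have cu2 : ((P 1).2 : ℝ) - (P 0).2 = (u2 : ℝ) := by rw [hu2]; push_cast; ring
  have cv1 : ((P 2).1 : ℝ) - (P 0).1 = (v1 : ℝ) := by rw [hv1]; push_cast; ring
  have cv2 : ((P 2).2 : ℝ) - (P 0).2 = (v2 : ℝ) := by rw [hv2]; push_cast; ring
  have cw1 : ((P 3).1 : ℝ) - (P 0).1 = (w1 : ℝ) := by rw [hw1]; push_cast; ring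
  have cw2 : ((P 3).2 : ℝ) - (P 0).2 = (w2 : ℝ) := by rw [hw2]; push_cast; ring
  have cz1 : ((P 4).1 : ℝ) - (P 0).1 = (z1 : ℝ) := by rw [hz1]; push_cast; ring
  have cz2 : ((P 4).2 : ℝ) - (P 0).2 = (z2 : ℝ) := by rw [hz2]; push_cast; ring
  have cw1' : ((P 3).1 : ℝ) - (P 1).1 = (w1 : ℝ) - u1 := by rw [← cw1, ← cu1]; ring
  have cw2' : ((P 3).2 : ℝ) - (P 1).2 = (w2 : ℝ) - u2 := by rw [← cw2, ← cu2]; ring
  have cz1' : ((P 4).1 : ℝ) - (P 1).1 = (z1 : ℝ) - u1 := by rw [← cz1, ← cu1]; ring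
  have cz2' : ((P 4).2 : ℝ) - (P 1).2 = (z2 : ℝ) - u2 := by rw [← cz2, ← cu2]; ring
  rw [cu1, cu2, cv1, cv2] at n12
  rw [cw1, cw2, cv1, cv2] at n32
  rw [cz1, cz2, cv1, cv2] at n42
  rw [cw1', cw2', cz1', cz2'] at n134
  rw [cv1, cv2] at hga
  rw [cu1, cu2, cv1, cv2, cw1, cw2] at L3
  rw [cu1, cu2, cv1, cv2, cz1, cz2] at L4
  have m12 : u1 * v2 - u2 * v1 ≠ 0 := by exact_mod_cast n12
  have m32 : w1 * v2 - w2 * v1 ≠ 0 := by exact_mod_cast n32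
  have m42 : z1 * v2 - z2 * v1 ≠ 0 := by exact_mod_cast n42
  have m134 : (w1 - u1) * (z2 - u2) - (w2 - u2) * (z1 - u1) ≠ 0 := by exact_mod_cast n134
  refine h (IrrD_solve u1 u2 v1 v2
    ((w1 * v2 - w2 * v1) * ((w1 * v2 - w2 * v1) - (u1 * v2 - u2 * v1)))
    ((w1 * v2 - w2 * v1) * (u1 * w2 - u2 * w1))
    ((u1 * w2 - u2 * w1) * ((u1 * w2 - u2 * w1) - (u1 * v2 - u2 * v1)))
    ((z1 * v2 - z2 * v1) * ((z1 * v2 - z2 * v1) - (u1 * v2 - u2 * v1)))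
    ((z1 * v2 - z2 * v1) * (u1 * z2 - u2 * z1))
    ((u1 * z2 - u2 * z1) * ((u1 * z2 - u2 * z1) - (u1 * v2 - u2 * v1)))
    m12 ?_ hga ?_ ?_)
  · have key : (w1 * v2 - w2 * v1) * ((w1 * v2 - w2 * v1) - (u1 * v2 - u2 * v1)) *
        ((z1 * v2 - z2 * v1) * (u1 * z2 - u2 * z1)) -
        (w1 * v2 - w2 * v1) * (u1 * w2 - u2 * w1) *
        ((z1 * v2 - z2 * v1) * ((z1 * v2 - z2 * v1) - (u1 * v2 - u2 * v1))) =
        (w1 * v2 - w2 * v1) * (z1 * v2 - z2 * v1) * ((u1 * v2 - u2 * v1) *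
          ((w1 - u1) * (z2 - u2) - (w2 - u2) * (z1 - u1))) := by ring
    rw [key]
    exact mul_ne_zero (mul_ne_zero m32 m42) (mul_ne_zero m12 m134)
  · push_cast
    exact L3
  · push_cast
    exact L4

end Pool.Agent.DL
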