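import Pool.Agent.helper41.DL.SCountD

/-! # The number of the isosceles pairs -/

set_option autoImplicit false
open scoped Classical

open Finset Pool.Agent.DG

namespace Pool.Agent.DL

theorem IsoBD_card_Pe {D N : ℕ} {q : ℤ} {a e : ℤ × ℤ} (hD : 1 ≤ D) (hq : 1 ≤ q)
    (he : IsCoprime e.1 e.2) (hs : 1 ≤ sn e) (hN : sn e ≤ N) :
    ((PeD D N q a e).card : ℝ) ≤ (2 * D + 1) * ((N : ℝ) / sn e) ^ 2 := by
  obtain ⟨d0, f, hinj, hf⟩ := Pe_paramD (N := N) (a := a) hD hq he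
  have h1 : (PeD D N q a e).card ≤ (Finset.Icc (1 : ℤ) ((N / sn e : ℕ) : ℤ) ×ˢ
      Finset.Icc (0 : ℤ) ((2 * D * N / sn e : ℕ) : ℤ)).card := by
    refine Finset.card_le_card_of_injOn f ?_ hinj
    intro t ht
    obtain ⟨h2, h3, h4, h5, _⟩ := hf t ht
    rw [Finset.mem_coe, Finset.mem_product, Finset.mem_Icc, Finset.mem_Icc]
    have hs' : (0 : ℤ) < sn e := by exact_mod_cast hs
    refine ⟨⟨h2, ?_⟩, ⟨h3, ?_⟩⟩
    · rw [Int.natCast_div]
      exact (Int.le_ediv_iff_mul_le hs').2 h4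
    · rw [Int.natCast_div]
      refine (Int.le_ediv_iff_mul_le hs').2 ?_
      push_cast
      exact h5
  rw [Finset.card_product, Int.card_Icc, Int.card_Icc] at h1
  have h2 : ((N / sn e : ℕ) : ℤ) + 1 - 1 = ((N / sn e : ℕ) : ℤ) := by ring
  have h3 : ((2 * D * N / sn e : ℕ) : ℤ) + 1 - 0 = ((2 * D * N / sn e + 1 : ℕ) : ℤ) := by
    push_cast
    ring
  rw [h2, h3, Int.toNat_natCast, Int.toNat_natCast] at h1
  have h4 : ((PeD D N q a e).card : ℝ) ≤
      ((N / sn e : ℕ) : ℝ) * (((2 * D * N / sn e : ℕ) : ℝ) + 1) := by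
    exact_mod_cast h1
  have h5 : ((N / sn e : ℕ) : ℝ) ≤ (N : ℝ) / sn e := Nat.cast_div_le
  have h6 : ((2 * D * N / sn e : ℕ) : ℝ) ≤ 2 * D * ((N : ℝ) / sn e) := by
    have h7 : ((2 * D * N / sn e : ℕ) : ℝ) ≤ ((2 * D * N : ℕ) : ℝ) / sn e := Nat.cast_div_le
    rw [Nat.cast_mul, Nat.cast_mul, Nat.cast_ofNat, mul_div_assoc] at h7
    exact h7
  have hs'' : (0 : ℝ) < sn e := by exact_mod_cast hs
  have h8 : 1 ≤ (N : ℝ) / sn e := by
    rw [le_div_iff₀ hs'', one_mul]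
    exact_mod_cast hN
  have h9 : ((N / sn e : ℕ) : ℝ) * (((2 * D * N / sn e : ℕ) : ℝ) + 1) ≤
      ((N : ℝ) / sn e) * (2 * D * ((N : ℝ) / sn e) + 1) := by
    refine mul_le_mul h5 (by linarith) (by positivity) (by positivity)
  nlinarith

theorem IsoBD_geom (n : ℕ) : ∑ i ∈ range n, ((1 : ℝ) / 4) ^ i ≤ 4 / 3 := by
  have h : ∀ n : ℕ, ∑ i ∈ range n, ((1 : ℝ) / 4) ^ i = 4 / 3 * (1 - (1 / 4) ^ n) := by
    intro n
    induction n with
    | zero => simp
    | succ n ih =>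
      rw [Finset.sum_range_succ, ih, pow_succ]
      ring
  rw [h]
  have : (0 : ℝ) ≤ (1 / 4) ^ n := by positivity
  linarith

theorem iso_leD (D : ℕ) (hD : 1 ≤ D) : ∃ C : ℝ, 0 < C ∧
    ∀ (N : ℕ) (q : ℤ) (a : ℤ × ℤ), 2 ≤ N → Low q a →
    ((IsoD D N q a).card : ℝ) ≤ C * (N : ℝ) ^ 2 * (1 + Real.log N / Aq N q a) := by
  obtain ⟨C, hC, hS⟩ := Sd_countD D hD
  have hk : (0 : ℝ) < 2 * (D : ℝ) + 1 := by positivity
  generalize hkk : 2 * (D : ℝ) + 1 = k at hk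
  refine ⟨1 + 3 * k * C, by positivity, ?_⟩
  intro N q a hN hlow
  have hq := hlow.1
  have hq' : (1 : ℝ) ≤ q := by exact_mod_cast hq
  have hA : 0 < Aq N q a := by
    unfold Aq
    positivity
  have hN1 : (2 : ℝ) ≤ N := by exact_mod_cast hN
  have hlog : 0 ≤ Real.log N := Real.log_nonneg (by linarith)
  -- the decomposition
  have h1 := energy_splitD D N q a (fun _ => (1 : ℝ)) (fun _ => zero_le_one)
  simp only [Finset.sum_const, nsmul_eq_mul, mul_one] at h1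
  have h2 : ((Bx N).card : ℝ) = (N : ℝ) ^ 2 := by
    unfold Bx
    rw [Finset.card_product, Int.card_Ico, sub_zero, Int.toNat_natCast]
    push_cast
    ring
  rw [h2] at h1
  -- only the directions in Sd count
  set DD : Finset (ℤ × ℤ) := (Dir N).filter (fun e => SdD D N q a e) with hDD
  have h3 : ∑ e ∈ Dir N, ((PeD D N q a e).card : ℝ) ≤ ∑ e ∈ DD, k * ((N : ℝ) / sn e) ^ 2 := by
    rw [hDD, Finset.sum_filter]
    refine Finset.sum_le_sum ?_
    intro e he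
    obtain ⟨he1, he2, he3⟩ := sn_pos_of_mem_Dir he
    split_ifs with h4
    · rw [← hkk]
      exact IsoBD_card_Pe hD hq he3 he1 he2
    · have h5 : PeD D N q a e = ∅ := by
        by_contra h6
        exact h4 (Pe_SdD hD hq he3 (Finset.nonempty_iff_ne_empty.2 h6))
      rw [h5, Finset.card_empty, Nat.cast_zero]
  -- dyadic decomposition
  set L := Nat.log 2 N with hL
  have h4 : ∑ e ∈ DD, k * ((N : ℝ) / sn e) ^ 2 =
      ∑ i ∈ range (L + 1), ∑ e ∈ DD.filter (fun e => Nat.log 2 (sn e) = i),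
        k * ((N : ℝ) / sn e) ^ 2 := by
    refine (Finset.sum_fiberwise_of_maps_to ?_ _).symm
    intro e he
    obtain ⟨he1, he2, he3⟩ := sn_pos_of_mem_Dir (Finset.mem_filter.1 he).1
    rw [Finset.mem_range]
    exact Nat.lt_succ_of_le (Nat.log_mono_right he2)
  have h5 : ∀ i ∈ range (L + 1), ∑ e ∈ DD.filter (fun e => Nat.log 2 (sn e) = i),
      k * ((N : ℝ) / sn e) ^ 2 ≤ k * C * (N : ℝ) ^ 2 * ((1 / 4) ^ i + 1 / Aq N q a) := by
    intro i _
    have hmem : ∀ e ∈ DD.filter (fun e => Nat.log 2 (sn e) = i),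
        IsCoprime e.1 e.2 ∧ SdD D N q a e ∧ 2 ^ i ≤ sn e ∧ sn e < 2 * 2 ^ i := by
      intro e he
      obtain ⟨he', hei⟩ := Finset.mem_filter.1 he
      obtain ⟨he0, heS⟩ := Finset.mem_filter.1 he'
      obtain ⟨he1, he2, he3⟩ := sn_pos_of_mem_Dir he0
      refine ⟨he3, heS, ?_, ?_⟩
      · rw [← hei]
        exact Nat.pow_log_le_self 2 (by omega)
      · rw [← hei, ← pow_succ']
        exact Nat.lt_pow_succ_log_self (by norm_num) _
    have hc := hS N q a (2 ^ i) _ (by omega) hlow Nat.one_le_two_pow hmem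
    have ht : ∀ e ∈ DD.filter (fun e => Nat.log 2 (sn e) = i),
        k * ((N : ℝ) / sn e) ^ 2 ≤ k * (N : ℝ) ^ 2 * (1 / 4) ^ i := by
      intro e he
      obtain ⟨_, _, h6, _⟩ := hmem e he
      have h7 : (2 : ℝ) ^ i ≤ sn e := by exact_mod_cast h6
      have h8 : (0 : ℝ) < 2 ^ i := by positivity
      have h9 : (N : ℝ) / sn e ≤ (N : ℝ) / 2 ^ i := div_le_div_of_nonneg_left (by positivity) h8 h7
      have h10 : ((N : ℝ) / sn e) ^ 2 ≤ ((N : ℝ) / 2 ^ i) ^ 2 :=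
        pow_le_pow_left₀ (by positivity) h9 2
      have h11 : ((N : ℝ) / 2 ^ i) ^ 2 = (N : ℝ) ^ 2 * (1 / 4) ^ i := by
        rw [div_pow, ← pow_mul, mul_comm i 2, pow_mul, one_div, inv_pow]
        norm_num
        rfl
      rw [h11] at h10
      have h12 := mul_le_mul_of_nonneg_left h10 hk.le
      rwa [← mul_assoc] at h12
    refine (Finset.sum_le_card_nsmul _ _ _ ht).trans ?_
    rw [nsmul_eq_mul]
    have h12 : (0 : ℝ) ≤ k * (N : ℝ) ^ 2 * (1 / 4) ^ i := by positivity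
    refine (mul_le_mul_of_nonneg_right hc h12).trans (le_of_eq ?_)
    have h13 : (((2 ^ i : ℕ) : ℝ)) ^ 2 * (1 / 4) ^ i = 1 := by
      push_cast
      rw [← pow_mul, mul_comm i 2, pow_mul, ← mul_pow]
      norm_num
    have h14 : C * (1 + ((2 ^ i : ℕ) : ℝ) ^ 2 / Aq N q a) * (k * (N : ℝ) ^ 2 * (1 / 4) ^ i) =
        k * C * (N : ℝ) ^ 2 * ((1 / 4) ^ i +
          (((2 ^ i : ℕ) : ℝ) ^ 2 * (1 / 4) ^ i) / Aq N q a) := by
      ring
    rw [h14, h13]
  have h6 := Finset.sum_le_sum h5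
  rw [← Finset.mul_sum, Finset.sum_add_distrib, Finset.sum_const, Finset.card_range,
    nsmul_eq_mul] at h6
  have h7 := IsoBD_geom (L + 1)
  have h8 : ((L + 1 : ℕ) : ℝ) ≤ 3 * Real.log N := by
    have h9 : (L : ℝ) * Real.log 2 ≤ Real.log N := by
      have h10 : (2 : ℝ) ^ L ≤ N := by
        exact_mod_cast Nat.pow_log_le_self 2 (show N ≠ 0 by omega)
      have h11 := Real.log_le_log (by positivity) h10
      rwa [Real.log_pow] at h11
    have h12 : Real.log 2 ≤ Real.log N := Real.log_le_log (by norm_num) hN1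
    have h13 : (0.6931471803 : ℝ) < Real.log 2 := Real.log_two_gt_d9
    push_cast
    have h14 : ((L : ℝ) + 1) * Real.log 2 ≤ 2 * Real.log N := by linarith
    have h15 : ((L : ℝ) + 1) * (2 / 3) ≤ ((L : ℝ) + 1) * Real.log 2 :=
      mul_le_mul_of_nonneg_left (by linarith) (by positivity)
    linarith
  have h9 : ((L + 1 : ℕ) : ℝ) * (1 / Aq N q a) ≤ 3 * (Real.log N / Aq N q a) := by
    rw [mul_one_div]
    have := div_le_div_of_nonneg_right h8 hA.le
    rwa [mul_div_assoc] at this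
  have h10 : 0 ≤ Real.log N / Aq N q a := div_nonneg hlog hA.le
  have h11 : k * C * (N : ℝ) ^ 2 * (∑ i ∈ range (L + 1), ((1 : ℝ) / 4) ^ i +
      ((L + 1 : ℕ) : ℝ) * (1 / Aq N q a)) ≤
      k * C * (N : ℝ) ^ 2 * (3 * (1 + Real.log N / Aq N q a)) :=
    mul_le_mul_of_nonneg_left (by linarith) (by positivity)
  have h12 : (N : ℝ) ^ 2 ≤ (N : ℝ) ^ 2 * (1 + Real.log N / Aq N q a) := by
    have := mul_nonneg (sq_nonneg (N : ℝ)) h10
    linarith
  calc ((IsoD D N q a).card : ℝ) ≤ (N : ℝ) ^ 2 + ∑ e ∈ Dir N, ((PeD D N q a e).card : ℝ) := h1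
    _ ≤ (N : ℝ) ^ 2 + k * C * (N : ℝ) ^ 2 * (3 * (1 + Real.log N / Aq N q a)) := by
        rw [h4] at h3
        linarith
    _ ≤ (N : ℝ) ^ 2 * (1 + Real.log N / Aq N q a) +
        k * C * (N : ℝ) ^ 2 * (3 * (1 + Real.log N / Aq N q a)) := by linarith
    _ = (1 + 3 * k * C) * (N : ℝ) ^ 2 * (1 + Real.log N / Aq N q a) := by
        ring

end Pool.Agent.DL
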