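import Mathlib
import Pool.Agent.helper41.DG.Mert

/-! # The nonvanishing of `L(1, χ)` for the real character `n ↦ (-D | n)` (Monsky's proof) -/

set_option autoImplicit false

open Finset

namespace Pool.Agent.DL

/-! ### Lambert series -/

/-- the geometric sum -/
noncomputable def MertL_G (x : ℝ) (n : ℕ) : ℝ := ∑ j ∈ range n, x ^ j

lemma MertL_G_succ (x : ℝ) (n : ℕ) : MertL_G x (n + 1) = 1 + x * MertL_G x n := by
  rw [MertL_G, MertL_G, Finset.sum_range_succ', Finset.mul_sum]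
  simp only [pow_succ, pow_zero]
  rw [add_comm]
  congr 1
  exact Finset.sum_congr rfl fun j _ => by ring

lemma MertL_G_eq (x : ℝ) (n : ℕ) : (1 - x) * MertL_G x n = 1 - x ^ n := by
  rw [MertL_G, mul_comm]
  exact geom_sum_mul_neg x n

lemma MertL_G_pos {x : ℝ} (hx : 0 < x) (n : ℕ) : 0 < MertL_G x (n + 1) := by
  rw [MertL_G_succ]
  have : 0 ≤ MertL_G x n := Finset.sum_nonneg fun j _ => by positivity
  positivity

lemma MertL_am {y : ℝ} (hy0 : 0 < y) (hy1 : y ≤ 1) (n : ℕ) :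
    (n + 1) * y ^ n ≤ 1 + n * y ^ (n + 1) := by
  have h1 : (n : ℝ) * y ^ n ≤ MertL_G y n := by
    rw [MertL_G]
    have : ∑ j ∈ range n, y ^ n ≤ ∑ j ∈ range n, y ^ j :=
      Finset.sum_le_sum fun j hj => pow_le_pow_of_le_one hy0.le hy1 (Finset.mem_range.mp hj).le
    simpa using this
  have h2 := MertL_G_eq y n
  have h3 := mul_le_mul_of_nonneg_left h1 (sub_nonneg.mpr hy1)
  have h4 : y ^ (n + 1) = y ^ n * y := pow_succ y n
  rw [h4]
  nlinarith

lemma MertL_G_ge {y : ℝ} (hy0 : 0 < y) (hy1 : y ≤ 1) (n : ℕ) :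
    (n + 1) * y ^ n ≤ MertL_G (y ^ 2) (n + 1) := by
  induction n with
  | zero => simp [MertL_G]
  | succ n ih =>
    rw [MertL_G_succ]
    have h1 := MertL_am hy0 hy1 (n + 1)
    have h2 := mul_le_mul_of_nonneg_left ih (by positivity : 0 ≤ y ^ 2)
    have h3 : y ^ 2 * ((n + 1 : ℝ) * y ^ n) = (n + 1) * y ^ (n + 1 + 1) := by ring
    push_cast at h1 ⊢
    linarith

lemma MertL_GG {x : ℝ} (hx0 : 0 < x) (hx1 : x < 1) (n : ℕ) :
    x ^ (n + 1) * ((n + 1) * (n + 2)) ≤ MertL_G x (n + 1) * MertL_G x (n + 2) := by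
  set y := Real.sqrt x with hy
  have hy0 : 0 < y := Real.sqrt_pos.mpr hx0
  have hxy : x = y ^ 2 := (Real.sq_sqrt hx0.le).symm
  have hy1 : y ≤ 1 := by
    rw [hy]
    exact Real.sqrt_le_one.mpr hx1.le
  have h1 := MertL_G_ge hy0 hy1 n
  have h2 := MertL_G_ge hy0 hy1 (n + 1)
  rw [← hxy] at h1 h2
  have h3 : y ^ (2 * n + 2) ≤ y ^ (2 * n + 1) := pow_le_pow_of_le_one hy0.le hy1 (by omega)
  calc x ^ (n + 1) * (((n:ℝ) + 1) * (n + 2)) = (n + 1) * (n + 2) * y ^ (2 * n + 2) := by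
        rw [hxy]
        ring
    _ ≤ (n + 1) * (n + 2) * y ^ (2 * n + 1) := mul_le_mul_of_nonneg_left h3 (by positivity)
    _ = ((n + 1) * y ^ n) * (((n:ℝ) + 1 + 1) * y ^ (n + 1)) := by ring
    _ ≤ _ := by
      push_cast at h2
      exact mul_le_mul h1 h2 (by positivity) (MertL_G_pos hx0 n).le

/-- the comparison function of Monsky -/
noncomputable def MertL_b (x : ℝ) (n : ℕ) : ℝ := 1 / (n * (1 - x)) - x ^ n / (1 - x ^ n)

lemma MertL_b_eq {x : ℝ} (hx0 : 0 < x) (hx1 : x < 1) (n : ℕ) :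
    (1 - x) * MertL_b x (n + 1) = 1 / ((n : ℝ) + 1) - x ^ (n + 1) / MertL_G x (n + 1) := by
  have h1 := MertL_G_eq x (n + 1)
  have h2 := (MertL_G_pos hx0 n).ne'
  have h3 : 1 - x ≠ 0 := by linarith
  rw [MertL_b, ← h1]
  push_cast
  field_simp

lemma MertL_b_anti {x : ℝ} (hx0 : 0 < x) (hx1 : x < 1) (n : ℕ) (hn : 0 < n) :
    MertL_b x (n + 1) ≤ MertL_b x n := by
  obtain ⟨k, rfl⟩ : ∃ k, n = k + 1 := ⟨n - 1, by omega⟩
  have h1 := MertL_b_eq hx0 hx1 k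
  have h2 := MertL_b_eq hx0 hx1 (k + 1)
  have h3 := MertL_GG hx0 hx1 k
  have g1 := MertL_G_pos hx0 k
  have g2 := MertL_G_pos hx0 (k + 1)
  have g3 : MertL_G x (k + 1 + 1) = 1 + x * MertL_G x (k + 1) := MertL_G_succ x (k + 1)
  have h4 : (1 - x) * (MertL_b x (k + 1) - MertL_b x (k + 1 + 1)) =
      1 / (((k:ℝ) + 1) * (k + 2)) - x ^ (k + 1) / (MertL_G x (k + 1) * MertL_G x (k + 1 + 1)) := by
    rw [mul_sub, h1, h2]
    have e1 : x ^ (k + 1) / MertL_G x (k + 1) - x ^ (k + 1 + 1) / MertL_G x (k + 1 + 1) =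
        x ^ (k + 1) / (MertL_G x (k + 1) * MertL_G x (k + 1 + 1)) := by
      rw [div_sub_div _ _ g1.ne' g2.ne']
      congr 1
      rw [g3]
      ring
    have e2 : 1 / ((k:ℝ) + 1) - 1 / (((k + 1 : ℕ) : ℝ) + 1) = 1 / (((k:ℝ) + 1) * (k + 2)) := by
      push_cast
      field_simp
      ring
    linarith
  have h5 : x ^ (k + 1) / (MertL_G x (k + 1) * MertL_G x (k + 1 + 1)) ≤
      1 / (((k:ℝ) + 1) * (k + 2)) := by
    rw [div_le_div_iff₀ (mul_pos g1 g2) (by positivity)]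
    linarith
  have h6 : 0 ≤ (1 - x) * (MertL_b x (k + 1) - MertL_b x (k + 1 + 1)) := by
    rw [h4]
    linarith
  have h7 : 0 < 1 - x := by linarith
  have := nonneg_of_mul_nonneg_right h6 h7
  linarith

lemma MertL_b_nonneg {x : ℝ} (hx0 : 0 < x) (hx1 : x < 1) (n : ℕ) (hn : 0 < n) :
    0 ≤ MertL_b x n := by
  obtain ⟨k, rfl⟩ : ∃ k, n = k + 1 := ⟨n - 1, by omega⟩
  have h1 := MertL_b_eq hx0 hx1 k
  have g1 := MertL_G_pos hx0 k
  have h2 : ((k:ℝ) + 1) * x ^ (k + 1) ≤ MertL_G x (k + 1) := by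
    have : ∑ j ∈ range (k + 1), x ^ (k + 1) ≤ ∑ j ∈ range (k + 1), x ^ j :=
      Finset.sum_le_sum fun j hj => pow_le_pow_of_le_one hx0.le hx1.le (Finset.mem_range.mp hj).le
    rw [MertL_G]
    simpa using this
  have h3 : x ^ (k + 1) / MertL_G x (k + 1) ≤ 1 / ((k:ℝ) + 1) := by
    rw [div_le_div_iff₀ g1 (by positivity)]
    linarith
  have h4 : 0 ≤ (1 - x) * MertL_b x (k + 1) := by
    rw [h1]
    linarith
  exact nonneg_of_mul_nonneg_right h4 (by linarith)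

lemma MertL_b_one {x : ℝ} (hx1 : x < 1) : MertL_b x 1 = 1 := by
  have : 1 - x ≠ 0 := by linarith
  rw [MertL_b]
  push_cast
  rw [pow_one]
  field_simp

/-! ### The divisor sums -/

section divisors

variable {f : ℕ → ℝ}

/-- the divisor sum -/
noncomputable def MertL_r (f : ℕ → ℝ) (n : ℕ) : ℝ := ∑ d ∈ n.divisors, f d

lemma MertL_geom_nonneg {t : ℝ} (ht : t = -1 ∨ t = 0 ∨ t = 1) (k : ℕ) :
    0 ≤ ∑ j ∈ range (k + 1), t ^ j := by
  rcases ht with rfl | rfl | rfl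
  · rw [neg_one_geom_sum]
    split_ifs <;> norm_num
  · refine Finset.sum_nonneg fun j _ => by positivity
  · refine Finset.sum_nonneg fun j _ => by positivity

lemma MertL_geom_even {t : ℝ} (ht : t = -1 ∨ t = 0 ∨ t = 1) (k : ℕ) (hk : Even k) :
    1 ≤ ∑ j ∈ range (k + 1), t ^ j := by
  rcases ht with rfl | rfl | rfl
  · rw [neg_one_geom_sum, if_neg]
    exact Nat.not_even_iff_odd.mpr hk.add_one
  · rw [Finset.sum_range_succ']
    simp
  · simp

variable (hf0 : f 0 = 0) (hf1 : f 1 = 1) (hmul : ∀ m n, f (m * n) = f m * f n)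
  (hf3 : ∀ n, f n = -1 ∨ f n = 0 ∨ f n = 1)

include hf1 hmul in
lemma MertL_pow (p j : ℕ) : f (p ^ j) = f p ^ j := by
  induction j with
  | zero => simp [hf1]
  | succ j ih => rw [pow_succ, hmul, ih, pow_succ]

include hf0 hf1 hmul in
lemma MertL_r_prod {n : ℕ} (hn : n ≠ 0) :
    MertL_r f n = n.factorization.prod fun p k => ∑ j ∈ range (k + 1), f p ^ j := by
  set fA : ArithmeticFunction ℝ := ⟨f, hf0⟩ with hfA
  have hfm : fA.IsMultiplicative := ⟨hf1, fun {m n} _ => hmul m n⟩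
  have h1 : (fA * (ArithmeticFunction.zeta : ArithmeticFunction ℝ)).IsMultiplicative :=
    hfm.mul ArithmeticFunction.isMultiplicative_zeta.natCast
  have h2 := ArithmeticFunction.IsMultiplicative.multiplicative_factorization _ h1 hn
  have h3 : ∀ m, (fA * (ArithmeticFunction.zeta : ArithmeticFunction ℝ)) m = MertL_r f m := by
    intro m
    rw [ArithmeticFunction.coe_mul_zeta_apply]
    rfl
  rw [h3] at h2
  rw [h2]
  refine Finsupp.prod_congr fun p hp => ?_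
  have hp' : p.Prime := Nat.prime_of_mem_primeFactors (by simpa using hp)
  rw [h3, MertL_r, Nat.sum_divisors_prime_pow hp']
  exact Finset.sum_congr rfl fun j _ => MertL_pow hf1 hmul p j

include hf0 hf1 hmul hf3 in
lemma MertL_r_nonneg (n : ℕ) : 0 ≤ MertL_r f n := by
  rcases eq_or_ne n 0 with rfl | hn
  · simp [MertL_r]
  rw [MertL_r_prod hf0 hf1 hmul hn]
  exact Finset.prod_nonneg fun p _ => MertL_geom_nonneg (hf3 p) _

include hf0 hf1 hmul hf3 in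
lemma MertL_r_sq {n : ℕ} (hn : n ≠ 0) : 1 ≤ MertL_r f (n ^ 2) := by
  rw [MertL_r_prod hf0 hf1 hmul (pow_ne_zero 2 hn), Finsupp.prod]
  calc (1:ℝ) = ∏ p ∈ (n ^ 2).factorization.support, (1:ℝ) := by simp
    _ ≤ _ := Finset.prod_le_prod (fun _ _ => zero_le_one) fun p _ => by
      refine MertL_geom_even (hf3 p) _ ?_
      rw [Nat.factorization_pow]
      simp

/-! ### The finite Lambert series -/

lemma MertL_filter_dvd (M d : ℕ) (hd : 0 < d) :
    (Ioc 0 M).filter (fun m => d ∣ m) = (Ioc 0 (M / d)).image (fun k => d * k) := by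
  ext m
  simp only [Finset.mem_filter, Finset.mem_Ioc, Finset.mem_image]
  constructor
  · rintro ⟨⟨h1, h2⟩, k, rfl⟩
    refine ⟨k, ⟨Nat.pos_of_mul_pos_left h1 |> fun _ => ?_, ?_⟩, rfl⟩
    · exact Nat.pos_of_ne_zero fun h => by simp [h] at h1
    · rw [Nat.le_div_iff_mul_le hd]
      linarith [mul_comm k d]
  · rintro ⟨k, ⟨h1, h2⟩, rfl⟩
    rw [Nat.le_div_iff_mul_le hd] at h2
    exact ⟨⟨Nat.mul_pos hd h1, by linarith [mul_comm k d]⟩, dvd_mul_right _ _⟩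

lemma MertL_inner {x : ℝ} (hx0 : 0 < x) (hx1 : x < 1) (M d : ℕ) (hd : 0 < d) :
    |∑ m ∈ (Ioc 0 M).filter (fun m => d ∣ m), x ^ m - x ^ d / (1 - x ^ d)| ≤
      x ^ M / (1 - x) := by
  rw [MertL_filter_dvd M d hd, Finset.sum_image (by
    intro a _ b _ h
    exact Nat.eq_of_mul_eq_mul_left hd h)]
  have hxd : x ^ d < 1 := pow_lt_one₀ hx0.le hx1 hd.ne'
  have h1 : ∀ K : ℕ, ∑ k ∈ Ioc 0 K, x ^ (d * k) = x ^ d / (1 - x ^ d) - x ^ (d * (K + 1)) / (1 - x ^ d) := by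
    intro K
    induction K with
    | zero => simp
    | succ K ih =>
      rw [Finset.sum_Ioc_succ_top (Nat.zero_le K), ih]
      have h2 : 1 - x ^ d ≠ 0 := by linarith
      field_simp
      ring
  rw [h1 (M / d)]
  have h2 : x ^ d / (1 - x ^ d) - x ^ (d * (M / d + 1)) / (1 - x ^ d) - x ^ d / (1 - x ^ d) =
      -(x ^ (d * (M / d + 1)) / (1 - x ^ d)) := by ring
  have h3 : 0 ≤ x ^ (d * (M / d + 1)) / (1 - x ^ d) :=
    div_nonneg (by positivity) (by linarith)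
  rw [h2, abs_neg, abs_of_nonneg h3]
  have h4 : x ^ (d * (M / d + 1)) ≤ x ^ M :=
    pow_le_pow_of_le_one hx0.le hx1.le (Nat.lt_mul_div_succ M hd).le
  have h5 : 1 - x ≤ 1 - x ^ d := by
    have := pow_le_of_le_one hx0.le hx1.le hd.ne'
    linarith
  exact div_le_div₀ (by positivity) h4 (by linarith) h5

lemma MertL_lambert {x : ℝ} (hx0 : 0 < x) (hx1 : x < 1) (hb : ∀ n, |f n| ≤ 1) (M : ℕ) :
    |∑ m ∈ Ioc 0 M, MertL_r f m * x ^ m - ∑ d ∈ Ioc 0 M, f d * (x ^ d / (1 - x ^ d))| ≤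
      M * (x ^ M / (1 - x)) := by
  have h1 : ∑ m ∈ Ioc 0 M, MertL_r f m * x ^ m =
      ∑ d ∈ Ioc 0 M, ∑ m ∈ (Ioc 0 M).filter (fun m => d ∣ m), f d * x ^ m := by
    have h2 : ∑ m ∈ Ioc 0 M, MertL_r f m * x ^ m =
        ∑ m ∈ Ioc 0 M, ∑ d ∈ m.divisors, f d * x ^ m :=
      Finset.sum_congr rfl fun m _ => by rw [MertL_r, Finset.sum_mul]
    rw [h2]
    refine Finset.sum_comm' fun m d => ?_
    simp only [Finset.mem_Ioc, Nat.mem_divisors, Finset.mem_filter]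
    constructor
    · rintro ⟨⟨h3, h4⟩, h5, h6⟩
      exact ⟨⟨⟨h3, h4⟩, h5⟩, Nat.pos_of_dvd_of_pos h5 h3, (Nat.le_of_dvd h3 h5).trans h4⟩
    · rintro ⟨⟨⟨h3, h4⟩, h5⟩, h6⟩
      exact ⟨⟨h3, h4⟩, h5, h3.ne'⟩
  rw [h1, ← Finset.sum_sub_distrib]
  refine (Finset.abs_sum_le_sum_abs _ _).trans ?_
  have h2 : ∀ d ∈ Ioc 0 M, |∑ m ∈ (Ioc 0 M).filter (fun m => d ∣ m), f d * x ^ m -
      f d * (x ^ d / (1 - x ^ d))| ≤ x ^ M / (1 - x) := by
    intro d hd
    rw [← Finset.mul_sum, ← mul_sub, abs_mul]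
    have h3 := MertL_inner hx0 hx1 M d (Finset.mem_Ioc.mp hd).1
    have h4 := mul_le_mul (hb d) h3 (abs_nonneg _) zero_le_one
    linarith
  refine (Finset.sum_le_sum h2).trans ?_
  simp

include hf0 hf1 hmul hf3 in
/-- the lower bound -/
lemma MertL_lower {x : ℝ} (hx0 : 0 < x) (hx1 : x < 1) (J M : ℕ) (hJ : J ^ 2 ≤ M) :
    J * x ^ (J ^ 2) ≤ ∑ m ∈ Ioc 0 M, MertL_r f m * x ^ m := by
  have h1 : ∑ m ∈ (Ioc 0 J).image (fun j => j ^ 2), MertL_r f m * x ^ m ≤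
      ∑ m ∈ Ioc 0 M, MertL_r f m * x ^ m := by
    refine Finset.sum_le_sum_of_subset_of_nonneg ?_ fun m _ _ =>
      mul_nonneg (MertL_r_nonneg hf0 hf1 hmul hf3 m) (by positivity)
    intro m hm
    obtain ⟨j, hj, rfl⟩ := Finset.mem_image.mp hm
    rw [Finset.mem_Ioc] at hj ⊢
    exact ⟨pow_pos hj.1 2, (Nat.pow_le_pow_left hj.2 2).trans hJ⟩
  refine le_trans ?_ h1
  rw [Finset.sum_image (by
    intro a _ b _ h
    exact Nat.pow_left_injective (by norm_num : (2:ℕ) ≠ 0) h)]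
  have h2 : ∀ j ∈ Ioc 0 J, x ^ (J ^ 2) ≤ MertL_r f (j ^ 2) * x ^ (j ^ 2) := by
    intro j hj
    rw [Finset.mem_Ioc] at hj
    have h3 := MertL_r_sq hf0 hf1 hmul hf3 (show j ≠ 0 by omega)
    have h4 : x ^ (J ^ 2) ≤ x ^ (j ^ 2) :=
      pow_le_pow_of_le_one hx0.le hx1.le (Nat.pow_le_pow_left hj.2 2)
    have h5 : 0 ≤ x ^ (j ^ 2) := by positivity
    nlinarith
  have h3 := Finset.sum_le_sum h2
  simpa using h3

include hf0 hf1 hmul hf3 in
/-- the nonvanishing -/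
theorem MertL_main {B : ℝ} (hS : ∀ k, |∑ i ∈ Ioc 0 k, f i| ≤ B) :
    ∃ c : ℝ, 0 < c ∧ ∃ N0 : ℕ, ∀ N, N0 ≤ N → c ≤ |∑ n ∈ Ioc 0 N, f n / n| := by
  have hb : ∀ n, |f n| ≤ 1 := by
    intro n
    rcases hf3 n with h | h | h <;> rw [h] <;> norm_num
  have hB : 0 ≤ B := (abs_nonneg _).trans (hS 0)
  obtain ⟨J, hJ⟩ := exists_nat_gt (2 * (B + 2))
  have hJ0 : 0 < J := by
    have : (0:ℝ) < J := by linarith
    exact_mod_cast this
  have hJ1 : (1:ℝ) ≤ J := by exact_mod_cast hJ0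
  set x : ℝ := 1 - 1 / (2 * (J:ℝ) ^ 2) with hx
  have he1 : 1 / (2 * (J:ℝ) ^ 2) ≤ 1 / 2 := by
    apply one_div_le_one_div_of_le (by norm_num)
    nlinarith
  have he0 : 0 < 1 / (2 * (J:ℝ) ^ 2) := by positivity
  have hx0 : 0 < x := by linarith
  have hx1 : x < 1 := by linarith
  have hxJ : 1 / 2 ≤ x ^ (J ^ 2) := by
    have h1 := one_add_mul_le_pow (a := -(1 / (2 * (J:ℝ) ^ 2))) (by linarith) (J ^ 2)
    have h2 : 1 + ((J ^ 2 : ℕ) : ℝ) * -(1 / (2 * (J:ℝ) ^ 2)) = 1 / 2 := by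
      push_cast
      field_simp
      ring
    rw [h2] at h1
    rw [hx, sub_eq_add_neg]
    exact h1
  have hlim := tendsto_self_mul_const_pow_of_lt_one hx0.le hx1
  have hev : ∀ᶠ n : ℕ in Filter.atTop, (n:ℝ) * x ^ n < 1 - x :=
    (tendsto_order.mp hlim).2 _ (by linarith)
  obtain ⟨N1, hN1⟩ := Filter.eventually_atTop.mp hev
  refine ⟨(1 - x) * ((J:ℝ) / 2 - B - 1), by
    apply mul_pos (by linarith)
    linarith, max N1 (J ^ 2), fun M hM => ?_⟩
  have hM1 := hN1 M ((le_max_left _ _).trans hM)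
  have hM2 : J ^ 2 ≤ M := (le_max_right _ _).trans hM
  have h1 := MertL_lower hf0 hf1 hmul hf3 hx0 hx1 J M hM2
  have h2 := (abs_le.mp (MertL_lambert (f := f) hx0 hx1 hb M)).2
  have h3 := DG.Mert.abel f (MertL_b x) B 0 (fun k _ => hS k) (fun n hn => MertL_b_anti hx0 hx1 n hn)
    (fun n hn => MertL_b_nonneg hx0 hx1 n hn) M (Nat.zero_le M)
  rw [zero_add, MertL_b_one hx1, mul_one] at h3
  have h4 : ∑ n ∈ Ioc 0 M, f n * MertL_b x n =
      (∑ n ∈ Ioc 0 M, f n / n) / (1 - x) - ∑ d ∈ Ioc 0 M, f d * (x ^ d / (1 - x ^ d)) := by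
    rw [Finset.sum_div, ← Finset.sum_sub_distrib]
    refine Finset.sum_congr rfl fun n hn => ?_
    rw [Finset.mem_Ioc] at hn
    have hn0 : (n:ℝ) ≠ 0 := by exact_mod_cast hn.1.ne'
    have hx2 : 1 - x ≠ 0 := by linarith
    rw [MertL_b, mul_sub]
    congr 1
    field_simp
  rw [h4] at h3
  have h5 : M * (x ^ M / (1 - x)) ≤ 1 := by
    rw [← mul_div_assoc, div_le_one (by linarith)]
    exact hM1.le
  have h6 := (abs_le.mp h3).1
  have h7 : (J:ℝ) / 2 ≤ J * x ^ (J ^ 2) := by nlinarith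
  have h8 : (J:ℝ) / 2 - B - 1 ≤ (∑ n ∈ Ioc 0 M, f n / n) / (1 - x) := by linarith
  rw [le_div_iff₀ (by linarith)] at h8
  calc (1 - x) * ((J:ℝ) / 2 - B - 1) = ((J:ℝ) / 2 - B - 1) * (1 - x) := by ring
    _ ≤ _ := h8
    _ ≤ _ := le_abs_self _

end divisors

/-! ### The character -/

/-- the real character `n ↦ (-D | n)` -/
noncomputable def chiD (D n : ℕ) : ℝ :=
  if Nat.Coprime n (2 * D) then ((jacobiSym (-(D : ℤ)) n : ℤ) : ℝ) else 0

theorem chiD_mul (D m n : ℕ) : chiD D (m * n) = chiD D m * chiD D n := by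
  unfold chiD
  by_cases hm : Nat.Coprime m (2 * D)
  · by_cases hn : Nat.Coprime n (2 * D)
    · rw [if_pos hm, if_pos hn, if_pos (Nat.Coprime.mul_left hm hn)]
      have h2 : ∀ k : ℕ, Nat.Coprime k (2 * D) → k ≠ 0 := by
        rintro k hk rfl
        rw [Nat.coprime_zero_left] at hk
        omega
      have : NeZero m := ⟨h2 m hm⟩
      have : NeZero n := ⟨h2 n hn⟩
      rw [jacobiSym.mul_right]
      push_cast
      ring
    · rw [if_neg hn, if_neg, mul_zero]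
      exact fun h => hn (Nat.coprime_mul_iff_left.mp h).2
  · rw [if_neg hm, if_neg, zero_mul]
    exact fun h => hm (Nat.coprime_mul_iff_left.mp h).1

theorem MertL_chi3 (D n : ℕ) : chiD D n = -1 ∨ chiD D n = 0 ∨ chiD D n = 1 := by
  unfold chiD
  split_ifs
  · rcases jacobiSym.trichotomy (-(D : ℤ)) n with h | h | h <;> rw [h] <;> simp
  · simp

theorem chiD_abs_le (D n : ℕ) : |chiD D n| ≤ 1 := by
  rcases MertL_chi3 D n with h | h | h <;> rw [h] <;> norm_num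

theorem MertL_chi0 (D : ℕ) : chiD D 0 = 0 := by
  rw [chiD, if_neg]
  rw [Nat.coprime_zero_left]
  omega

theorem MertL_chi1 (D : ℕ) : chiD D 1 = 1 := by
  rw [chiD, if_pos (Nat.coprime_one_left _), jacobiSym.one_right]
  norm_num

theorem MertL_odd {D n : ℕ} (h : Nat.Coprime n (2 * D)) : Odd n := by
  rw [← Nat.coprime_two_right]
  exact Nat.Coprime.coprime_mul_right_right h

theorem MertL_chi_add (D n : ℕ) : chiD D (n + 4 * D) = chiD D n := by
  have h1 : Nat.Coprime (n + 4 * D) (2 * D) ↔ Nat.Coprime n (2 * D) := by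
    have : n + 4 * D = n + 2 * D * 2 := by ring
    rw [this]
    exact Nat.coprime_add_mul_left_left n (2 * D) 2
  unfold chiD
  by_cases h : Nat.Coprime n (2 * D)
  · rw [if_pos h, if_pos (h1.mpr h), jacobiSym.mod_right _ (MertL_odd h),
      jacobiSym.mod_right _ (MertL_odd (h1.mpr h))]
    have h2 : (n + 4 * D) % (4 * (-(D:ℤ)).natAbs) = n % (4 * (-(D:ℤ)).natAbs) := by
      rw [Int.natAbs_neg, Int.natAbs_natCast]
      exact Nat.add_mod_right n (4 * D)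
    rw [h2]
  · rw [if_neg h, if_neg fun h3 => h (h1.mp h3)]

theorem MertL_chi_add_mul (D n q : ℕ) : chiD D (n + 4 * D * q) = chiD D n := by
  induction q with
  | zero => simp
  | succ q ih =>
    have : n + 4 * D * (q + 1) = (n + 4 * D * q) + 4 * D := by ring
    rw [this, MertL_chi_add, ih]

/-- the value at `4 D - 1` -/
theorem MertL_chi_neg {D : ℕ} (hD : 1 ≤ D) : chiD D (4 * D - 1) = -1 := by
  obtain ⟨k, hk⟩ : ∃ k, 4 * D = k + 1 := ⟨4 * D - 1, by omega⟩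
  have hk' : 4 * D - 1 = k := by omega
  rw [hk']
  have hcop : Nat.Coprime k (2 * D) := by
    have h1 : Nat.Coprime k (k + 1) := by simp
    rw [← hk] at h1
    have h2 : 4 * D = 2 * (2 * D) := by ring
    rw [h2] at h1
    exact Nat.Coprime.coprime_mul_left_right h1
  have hkodd : Odd k := MertL_odd hcop
  rw [chiD, if_pos hcop]
  have h3 : k % 4 = 3 := by omega
  have h4 : jacobiSym 4 k = 1 := by
    have : (4:ℤ) = 2 ^ 2 := by norm_num
    rw [this]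
    apply jacobiSym.sq_one'
    have h5 : Nat.Coprime 2 k := (Nat.coprime_two_left).mpr hkodd
    exact_mod_cast h5
  have h5 : jacobiSym (4 * -(D : ℤ)) k = jacobiSym (-1) k := by
    rw [jacobiSym.mod_left]
    conv_rhs => rw [jacobiSym.mod_left]
    congr 1
    have h6 : 4 * -(D : ℤ) = -1 + (k : ℤ) * (-1) := by
      have : (4:ℤ) * D = k + 1 := by exact_mod_cast hk
      linarith
    rw [h6]
    exact Int.add_mul_emod_self_left ..
  rw [jacobiSym.mul_left, h4, one_mul, jacobiSym.at_neg_one hkodd,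
    ZMod.χ₄_nat_three_mod_four h3] at h5
  rw [h5]
  norm_num

theorem MertL_reflect {D : ℕ} (hD : 1 ≤ D) {n : ℕ} (hn1 : 1 ≤ n) (hn : n ≤ 4 * D) :
    chiD D (4 * D - n) = -chiD D n := by
  have h1 : (4 * D - 1) * n = (4 * D - n) + 4 * D * (n - 1) := by
    zify [show 1 ≤ 4 * D by omega, hn1, hn]
    ring
  have h2 : chiD D ((4 * D - 1) * n) = chiD D (4 * D - n) := by
    rw [h1, MertL_chi_add_mul]
  rw [← h2, chiD_mul, MertL_chi_neg hD]
  ring

theorem MertL_period {D : ℕ} (hD : 1 ≤ D) : ∑ i ∈ Ioc 0 (4 * D), chiD D i = 0 := by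
  have h4D : chiD D (4 * D) = 0 := by
    have := MertL_chi_add D 0
    rw [zero_add] at this
    rw [this, MertL_chi0]
  obtain ⟨k, hk⟩ : ∃ k, 4 * D = k + 1 := ⟨4 * D - 1, by omega⟩
  have h1 : ∑ i ∈ Ioc 0 (4 * D), chiD D i = ∑ j ∈ range k, chiD D (j + 1) := by
    have e1 : ∑ i ∈ Ioc 0 (4 * D), chiD D i = ∑ i ∈ Ioc 0 k, chiD D i + chiD D (4 * D) := by
      rw [hk, Finset.sum_Ioc_succ_top (Nat.zero_le k)]
    rw [e1, h4D, add_zero]
    have e2 : ∀ K : ℕ, ∑ i ∈ Ioc 0 K, chiD D i = ∑ j ∈ range K, chiD D (j + 1) := by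
      intro K
      induction K with
      | zero => simp
      | succ K ih => rw [Finset.sum_Ioc_succ_top (Nat.zero_le K), Finset.sum_range_succ, ih]
    exact e2 k
  have h2 : ∑ j ∈ range k, chiD D (j + 1) = -∑ j ∈ range k, chiD D (j + 1) := by
    conv_lhs => rw [← Finset.sum_range_reflect]
    rw [← Finset.sum_neg_distrib]
    refine Finset.sum_congr rfl fun j hj => ?_
    rw [Finset.mem_range] at hj
    have e3 : k - 1 - j + 1 = 4 * D - (j + 1) := by omega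
    rw [e3, MertL_reflect hD (by omega) (by omega)]
  rw [h1]
  linarith

theorem MertL_A_add {D : ℕ} (hD : 1 ≤ D) (k : ℕ) :
    ∑ i ∈ Ioc 0 (k + 4 * D), chiD D i = ∑ i ∈ Ioc 0 k, chiD D i := by
  induction k with
  | zero => simpa using MertL_period hD
  | succ k ih =>
    have h1 : k + 1 + 4 * D = (k + 4 * D) + 1 := by ring
    rw [h1, Finset.sum_Ioc_succ_top (Nat.zero_le _), ih, Finset.sum_Ioc_succ_top (Nat.zero_le _)]
    have h2 : k + 4 * D + 1 = (k + 1) + 4 * D := by ring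
    rw [h2, MertL_chi_add]

theorem MertL_A_le {D : ℕ} (hD : 1 ≤ D) (k : ℕ) : |∑ i ∈ Ioc 0 k, chiD D i| ≤ 4 * D := by
  induction k using Nat.strong_induction_on with
  | _ k ih =>
    rcases Nat.lt_or_ge k (4 * D) with h | h
    · refine (Finset.abs_sum_le_sum_abs _ _).trans ?_
      refine (Finset.sum_le_sum fun i _ => chiD_abs_le D i).trans ?_
      simp only [Finset.sum_const, Nat.card_Ioc, nsmul_eq_mul, mul_one]
      have : (k:ℝ) ≤ 4 * D := by exact_mod_cast h.le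
      simpa using this
    · obtain ⟨l, rfl⟩ : ∃ l, k = l + 4 * D := ⟨k - 4 * D, by omega⟩
      rw [MertL_A_add hD]
      exact ih l (by omega)

theorem chiD_abs_sum {D : ℕ} (hD : 1 ≤ D) {m k : ℕ} (h : m ≤ k) :
    |∑ i ∈ Ioc m k, chiD D i| ≤ 8 * D := by
  have h1 : ∑ i ∈ Ioc 0 k, chiD D i = ∑ i ∈ Ioc 0 m, chiD D i + ∑ i ∈ Ioc m k, chiD D i :=
    (Finset.sum_Ioc_consecutive _ (Nat.zero_le m) h).symm
  have h2 := abs_le.mp (MertL_A_le hD k)
  have h3 := abs_le.mp (MertL_A_le hD m)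
  rw [abs_le]
  constructor <;> linarith [h2.1, h2.2, h3.1, h3.2]

theorem chiD_L {D : ℕ} (hD : 1 ≤ D) : ∃ c : ℝ, 0 < c ∧ ∃ N0 : ℕ, ∀ N, N0 ≤ N →
    c ≤ |∑ n ∈ Ioc 0 N, chiD D n / n| :=
  MertL_main (MertL_chi0 D) (MertL_chi1 D) (chiD_mul D) (MertL_chi3 D) (MertL_A_le hD)

end Pool.Agent.DL
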