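import Mathlib
import Pool.Agent.helper91.Mertens
import Pool.Agent.helper41.DG.Mert
import Pool.Agent.helper41.DL.MertL

/-! # Mertens' theorem for the primes modulo which `-D` is a square -/

set_option autoImplicit false
open scoped Classical

open Finset

namespace Pool.Agent.DL

/-- the primes `w < p ≤ z` prime to `2 D` modulo which `-D` is a square -/
noncomputable def ID (D : ℕ) (w z : ℝ) : Finset ℕ :=
  (Icc 1 ⌊z⌋₊).filter (fun p => p.Prime ∧ ¬ p ∣ 2 * D ∧ IsSquare (-(D : ZMod p)) ∧ w < (p : ℝ))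

open Pool.Agent.helper91
open Pool.Agent.DG.Mert (abel sum_Λ div_floor_bound sum_Λ_div M_eq log_ratio log_ratio' T T_le T_ge)

/-- the sum of `χ(n)/n` up to `N` -/
noncomputable def MertD_L (D N : ℕ) : ℝ := ∑ n ∈ Ioc 0 N, chiD D n / n

lemma MertD_L_sub {D : ℕ} (hD : 1 ≤ D) {m N : ℕ} (h : m ≤ N) :
    |MertD_L D N - MertD_L D m| ≤ 8 * D / ((m : ℝ) + 1) := by
  have h1 : MertD_L D N - MertD_L D m = ∑ n ∈ Ioc m N, chiD D n * (1 / (n : ℝ)) := by
    rw [MertD_L, MertD_L, ← Finset.sum_Ioc_consecutive _ (Nat.zero_le m) h]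
    simp [div_eq_mul_inv]
  rw [h1]
  have := abel (chiD D) (fun n => 1 / (n : ℝ)) (8 * D) m (fun k hk => chiD_abs_sum hD hk) ?_ ?_ N h
  · refine this.trans (le_of_eq ?_)
    push_cast
    ring
  · intro n hn
    have : (0:ℝ) < n := by exact_mod_cast (by omega : 0 < n)
    apply one_div_le_one_div_of_le this
    push_cast; linarith
  · intro n hn
    positivity

lemma MertD_sum_clog {D : ℕ} (hD : 1 ≤ D) (N : ℕ) :
    |∑ n ∈ Ioc 0 N, chiD D n * (Real.log n / n)| ≤ 1 + 8 * D := by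
  have hl2 : Real.log 2 ≤ 1 := by
    have := Real.log_le_sub_one_of_pos (show (0:ℝ) < 2 by norm_num)
    linarith
  have hl20 : 0 ≤ Real.log 2 := Real.log_nonneg (by norm_num)
  have h2 : ∀ K : ℕ, K ≤ 2 → |∑ n ∈ Ioc 0 K, chiD D n * (Real.log n / n)| ≤ 1 := by
    intro K hK
    interval_cases K
    · simp
    · simp
    · have e1 : ∑ n ∈ Ioc 0 2, chiD D n * (Real.log n / n) = chiD D 2 * (Real.log 2 / 2) := by
        rw [Finset.sum_Ioc_succ_top (by omega), Finset.sum_Ioc_succ_top (by omega)]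
        simp
      rw [e1, abs_mul, abs_of_nonneg (by positivity : 0 ≤ Real.log 2 / 2)]
      have h3 := mul_le_mul_of_nonneg_right (chiD_abs_le D 2) (by positivity : 0 ≤ Real.log 2 / 2)
      linarith
  have hD' : (0:ℝ) ≤ 8 * D := by positivity
  rcases Nat.lt_or_ge N 2 with h | h
  · have := h2 N h.le
    linarith
  · rw [← Finset.sum_Ioc_consecutive _ (Nat.zero_le 2) h]
    refine (abs_add_le _ _).trans (add_le_add (h2 2 le_rfl) ?_)
    have h3 := abel (chiD D) (fun n => Real.log n / (n : ℝ)) (8 * D) 2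
      (fun k hk => chiD_abs_sum hD hk) ?_ ?_ N h
    · refine h3.trans ?_
      have h4 : Real.log 3 ≤ 3 - 1 := Real.log_le_sub_one_of_pos (by norm_num)
      have h5 : Real.log ((2 + 1 : ℕ) : ℝ) / ((2 + 1 : ℕ) : ℝ) ≤ 1 := by
        push_cast
        rw [div_le_one (by norm_num)]
        linarith
      have := mul_le_mul_of_nonneg_left h5 hD'
      linarith
    · intro n hn
      have h4 : Real.exp 1 ≤ (n : ℝ) := Real.exp_one_lt_three.le.trans (by exact_mod_cast hn)
      exact Real.log_div_self_antitoneOn h4 (by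
        simp only [Set.mem_Ici]; push_cast; linarith) (by push_cast; linarith)
    · intro n hn
      have := Real.log_natCast_nonneg n
      positivity

/-- `χ(n) Λ(n) / n` as an arithmetic function -/
noncomputable def MertD_fA (D : ℕ) : ArithmeticFunction ℝ :=
  ⟨fun n => chiD D n * (ArithmeticFunction.vonMangoldt n / n), by simp⟩

/-- `χ(n) / n` as an arithmetic function -/
noncomputable def MertD_gA (D : ℕ) : ArithmeticFunction ℝ := ⟨fun n => chiD D n / n, by simp⟩

lemma MertD_fA_apply (D n : ℕ) :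
    MertD_fA D n = chiD D n * (ArithmeticFunction.vonMangoldt n / n) := rfl

lemma MertD_gA_apply (D n : ℕ) : MertD_gA D n = chiD D n / n := rfl

lemma MertD_fA_mul_gA (D n : ℕ) : (MertD_fA D * MertD_gA D) n = chiD D n * (Real.log n / n) := by
  rw [ArithmeticFunction.mul_apply]
  have h1 : ∀ x ∈ n.divisorsAntidiagonal, MertD_fA D x.1 * MertD_gA D x.2 =
      chiD D n / n * ArithmeticFunction.vonMangoldt x.1 := by
    intro x hx
    rw [Nat.mem_divisorsAntidiagonal] at hx
    rw [MertD_fA_apply, MertD_gA_apply, ← hx.1, chiD_mul]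
    push_cast
    have hx1 : (x.1 : ℝ) ≠ 0 := by
      have : x.1 ≠ 0 := by
        intro h
        exact hx.2 (by rw [← hx.1, h, zero_mul])
      exact_mod_cast this
    have hx2 : (x.2 : ℝ) ≠ 0 := by
      have : x.2 ≠ 0 := by
        intro h
        exact hx.2 (by rw [← hx.1, h, mul_zero])
      exact_mod_cast this
    field_simp
  rw [Finset.sum_congr rfl h1, ← Finset.mul_sum, Nat.sum_divisorsAntidiagonal
    (f := fun i _ => ArithmeticFunction.vonMangoldt i), ArithmeticFunction.vonMangoldt_sum]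
  ring

/-- the sum of `χ(n) Λ(n) / n` up to `N` -/
noncomputable def MertD_P (D N : ℕ) : ℝ :=
  ∑ n ∈ Ioc 0 N, chiD D n * (ArithmeticFunction.vonMangoldt n / n)

lemma MertD_L_mul_P {D : ℕ} (hD : 1 ≤ D) {N : ℕ} (hN : 1 ≤ N) :
    |MertD_L D N * MertD_P D N| ≤ 1 + 8 * D + 8 * D * (Real.log 4 + 4) := by
  have h1 : ∑ n ∈ Ioc 0 N, chiD D n * (Real.log n / n) =
      ∑ d ∈ Ioc 0 N, chiD D d * (ArithmeticFunction.vonMangoldt d / d) * MertD_L D (N / d) := by
    have := ArithmeticFunction.sum_Ioc_mul_eq_sum_sum (MertD_fA D) (MertD_gA D) N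
    simp only [MertD_fA_mul_gA, MertD_fA_apply, MertD_gA_apply] at this
    exact this
  have hN0 : (0:ℝ) < N := by exact_mod_cast hN
  have h2 : MertD_L D N * MertD_P D N = ∑ n ∈ Ioc 0 N, chiD D n * (Real.log n / n) +
      ∑ d ∈ Ioc 0 N, chiD D d * (ArithmeticFunction.vonMangoldt d / d) *
        (MertD_L D N - MertD_L D (N / d)) := by
    rw [h1, MertD_P, Finset.mul_sum, ← Finset.sum_add_distrib]
    exact Finset.sum_congr rfl fun d _ => by ring
  have h3 : |∑ d ∈ Ioc 0 N, chiD D d * (ArithmeticFunction.vonMangoldt d / d) *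
      (MertD_L D N - MertD_L D (N / d))| ≤ 8 * D * (Real.log 4 + 4) := by
    refine (Finset.abs_sum_le_sum_abs _ _).trans ?_
    have h4 : ∀ d ∈ Ioc 0 N, |chiD D d * (ArithmeticFunction.vonMangoldt d / d) *
        (MertD_L D N - MertD_L D (N / d))| ≤ 8 * D / N * ArithmeticFunction.vonMangoldt d := by
      intro d hd
      rw [Finset.mem_Ioc] at hd
      have hd0 : (0:ℝ) < d := by exact_mod_cast hd.1
      have hΛ : 0 ≤ ArithmeticFunction.vonMangoldt d := ArithmeticFunction.vonMangoldt_nonneg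
      rw [abs_mul, abs_mul, abs_of_nonneg (div_nonneg hΛ hd0.le)]
      have h5 : |MertD_L D N - MertD_L D (N / d)| ≤ 8 * D * ((d : ℝ) / N) := by
        refine (MertD_L_sub hD (Nat.div_le_self N d)).trans ?_
        have h6 := div_floor_bound hd.1 (show 0 < N by omega)
        calc 8 * (D:ℝ) / (((N / d : ℕ) : ℝ) + 1) = 8 * D * (1 / (((N / d : ℕ) : ℝ) + 1)) := by ring
          _ ≤ _ := mul_le_mul_of_nonneg_left h6 (by positivity)
      calc |chiD D d| * (ArithmeticFunction.vonMangoldt d / d) * |MertD_L D N - MertD_L D (N / d)|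
          ≤ 1 * (ArithmeticFunction.vonMangoldt d / d) * (8 * D * ((d : ℝ) / N)) := by
            gcongr
            exact chiD_abs_le D d
        _ = 8 * D / N * ArithmeticFunction.vonMangoldt d := by field_simp
    refine (Finset.sum_le_sum h4).trans ?_
    rw [← Finset.mul_sum]
    have h5 := sum_Λ N
    calc 8 * (D:ℝ) / N * ∑ i ∈ Ioc 0 N, ArithmeticFunction.vonMangoldt i
        ≤ 8 * D / N * ((Real.log 4 + 4) * N) := mul_le_mul_of_nonneg_left h5 (by positivity)
      _ = 8 * D * (Real.log 4 + 4) := by field_simp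
  rw [h2]
  exact (abs_add_le _ _).trans (add_le_add (MertD_sum_clog hD N) h3)

lemma MertD_abs_P_le {D : ℕ} (hD : 1 ≤ D) : ∃ C : ℝ, 0 ≤ C ∧ ∀ N, 1 ≤ N → |MertD_P D N| ≤ C := by
  obtain ⟨c, hc, N0, h0⟩ := chiD_L hD
  have hl4 : 0 ≤ Real.log 4 := Real.log_nonneg (by norm_num)
  set C1 := (1 + 8 * D + 8 * D * (Real.log 4 + 4)) / c with hC1
  set C2 := ∑ n ∈ Ioc 0 N0, ArithmeticFunction.vonMangoldt n / (n:ℝ) with hC2
  have hC1' : 0 ≤ C1 := by positivity
  have hnn : ∀ n : ℕ, 0 ≤ ArithmeticFunction.vonMangoldt n / (n:ℝ) := by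
    intro n
    have hΛ : 0 ≤ ArithmeticFunction.vonMangoldt n := ArithmeticFunction.vonMangoldt_nonneg
    positivity
  have hC2' : 0 ≤ C2 := Finset.sum_nonneg fun n _ => hnn n
  refine ⟨C1 + C2, by linarith, fun N hN => ?_⟩
  rcases le_total N0 N with h | h
  · have h1 := MertD_L_mul_P hD hN
    have h2 := h0 N h
    rw [abs_mul] at h1
    have h3 : c * |MertD_P D N| ≤ |MertD_L D N| * |MertD_P D N| :=
      mul_le_mul_of_nonneg_right h2 (abs_nonneg _)
    have h4 : |MertD_P D N| ≤ C1 := by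
      rw [hC1, le_div_iff₀ hc]
      linarith
    linarith
  · have h1 : |MertD_P D N| ≤ ∑ n ∈ Ioc 0 N, ArithmeticFunction.vonMangoldt n / (n:ℝ) := by
      rw [MertD_P]
      refine (Finset.abs_sum_le_sum_abs _ _).trans (Finset.sum_le_sum fun n _ => ?_)
      rw [abs_mul, abs_of_nonneg (hnn n)]
      have := mul_le_mul_of_nonneg_right (chiD_abs_le D n) (hnn n)
      linarith
    have h2 : ∑ n ∈ Ioc 0 N, ArithmeticFunction.vonMangoldt n / (n:ℝ) ≤ C2 :=
      Finset.sum_le_sum_of_subset_of_nonneg (Finset.Ioc_subset_Ioc le_rfl h) fun n _ _ => hnn n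
    linarith

/-- the sum of `χ(p) log p / p` over the primes up to `N` -/
noncomputable def MertD_Q (D N : ℕ) : ℝ :=
  ∑ n ∈ Ioc 0 N, chiD D n * (if n.Prime then Real.log n / n else 0)

lemma MertD_P_sub_Q (D : ℕ) {N : ℕ} (hN : 1 ≤ N) :
    |MertD_P D N - MertD_Q D N| ≤ Real.log 4 + 4 + (1 + Mertens.Cpp) := by
  have h1 : MertD_P D N - MertD_Q D N = ∑ n ∈ Ioc 0 N, chiD D n *
      (ArithmeticFunction.vonMangoldt n / n - (if n.Prime then Real.log n / n else 0)) := by
    rw [MertD_P, MertD_Q, ← Finset.sum_sub_distrib]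
    exact Finset.sum_congr rfl fun n _ => by ring
  have h2 : |MertD_P D N - MertD_Q D N| ≤ ∑ n ∈ Ioc 0 N,
      (ArithmeticFunction.vonMangoldt n / n - (if n.Prime then Real.log n / n else 0)) := by
    rw [h1]
    refine (Finset.abs_sum_le_sum_abs _ _).trans (Finset.sum_le_sum fun n hn => ?_)
    have h3 : 0 ≤ (ArithmeticFunction.vonMangoldt n / n -
        (if n.Prime then Real.log n / n else 0) : ℝ) := by
      split_ifs with h
      · rw [ArithmeticFunction.vonMangoldt_apply_prime h, sub_self]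
      · have hΛ : 0 ≤ ArithmeticFunction.vonMangoldt n := ArithmeticFunction.vonMangoldt_nonneg
        rw [sub_zero]
        positivity
    rw [abs_mul, abs_of_nonneg h3]
    have h4 := mul_le_mul_of_nonneg_right (chiD_abs_le D n) h3
    linarith
  rw [Finset.sum_sub_distrib, ← M_eq] at h2
  have h5 := sum_Λ_div hN
  have h6 := Mertens.lower hN
  linarith

/-- the summand -/
noncomputable def MertD_a (D n : ℕ) : ℝ :=
  if n.Prime ∧ ¬ n ∣ 2 * D ∧ IsSquare (-(D : ZMod n)) then Real.log n / n else 0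

/-- the sum of `log p / p` over the primes modulo which `-D` is a square -/
noncomputable def MertD_A (D N : ℕ) : ℝ := ∑ n ∈ Ioc 0 N, MertD_a D n

lemma MertD_chi_prime {D p : ℕ} (hp : p.Prime) (hpD : ¬ p ∣ 2 * D) :
    chiD D p = if IsSquare (-(D : ZMod p)) then 1 else -1 := by
  have : Fact p.Prime := ⟨hp⟩
  have hcop : Nat.Coprime p (2 * D) := (Nat.Prime.coprime_iff_not_dvd hp).mpr hpD
  rw [chiD, if_pos hcop, ← jacobiSym.legendreSym.to_jacobiSym]
  have hD0 : ((-(D : ℤ) : ℤ) : ZMod p) ≠ 0 := by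
    intro h
    rw [ZMod.intCast_zmod_eq_zero_iff_dvd] at h
    have h1 : (p : ℤ) ∣ (D : ℤ) := (dvd_neg).mp h
    exact hpD ((Int.natCast_dvd_natCast.mp h1).mul_left 2)
  have e1 : ((-(D : ℤ) : ℤ) : ZMod p) = -(D : ZMod p) := by push_cast; ring
  by_cases hs : IsSquare (-(D : ZMod p))
  · rw [if_pos hs]
    have h1 : legendreSym p (-(D : ℤ)) = 1 := by
      rw [legendreSym.eq_one_iff p hD0, e1]
      exact hs
    rw [h1]
    norm_num
  · rw [if_neg hs]
    have h1 : legendreSym p (-(D : ℤ)) = -1 := by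
      rw [legendreSym.eq_neg_one_iff p, e1]
      exact hs
    rw [h1]
    norm_num

lemma MertD_two_a (D n : ℕ) : 2 * MertD_a D n = (if n.Prime then Real.log n / n else 0) +
    chiD D n * (if n.Prime then Real.log n / n else 0) -
    (if n.Prime ∧ n ∣ 2 * D then Real.log n / n else 0) := by
  unfold MertD_a
  by_cases hp : n.Prime
  · by_cases hd : n ∣ 2 * D
    · have h0 : chiD D n = 0 := by
        rw [chiD, if_neg]
        intro hc
        have h1 := Nat.Coprime.eq_one_of_dvd hc hd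
        exact hp.one_lt.ne' h1
      simp only [hp, hd, h0, true_and, not_true_eq_false, false_and, if_true, if_false]
      ring
    · rw [MertD_chi_prime hp hd]
      by_cases hs : IsSquare (-(D : ZMod n))
      · simp only [hp, hd, hs, not_false_eq_true, and_self, if_true, and_false, if_false]
        ring
      · simp only [hp, hd, hs, and_false, if_true, if_false]
        ring
  · simp [hp]

lemma MertD_two_A {D : ℕ} (hD : 1 ≤ D) (N : ℕ) :
    |2 * MertD_A D N - (Mertens.M N + MertD_Q D N)| ≤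
      ∑ n ∈ Ioc 0 (2 * D), Real.log n / n := by
  have h1 : 2 * MertD_A D N = Mertens.M N + MertD_Q D N -
      ∑ n ∈ Ioc 0 N, (if n.Prime ∧ n ∣ 2 * D then Real.log n / n else 0) := by
    rw [MertD_A, Finset.mul_sum, M_eq, MertD_Q, ← Finset.sum_add_distrib, ← Finset.sum_sub_distrib]
    exact Finset.sum_congr rfl fun n _ => MertD_two_a D n
  have hnn : ∀ n : ℕ, 0 ≤ Real.log n / (n:ℝ) := fun n =>
    div_nonneg (Real.log_natCast_nonneg n) (Nat.cast_nonneg n)
  have h2 : 0 ≤ ∑ n ∈ Ioc 0 N, (if n.Prime ∧ n ∣ 2 * D then Real.log n / (n:ℝ) else 0) := by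
    refine Finset.sum_nonneg fun n _ => ?_
    split_ifs
    · exact hnn n
    · exact le_rfl
  have h3 : ∑ n ∈ Ioc 0 N, (if n.Prime ∧ n ∣ 2 * D then Real.log n / (n:ℝ) else 0) ≤
      ∑ n ∈ Ioc 0 (2 * D), Real.log n / n := by
    rw [← Finset.sum_filter]
    refine Finset.sum_le_sum_of_subset_of_nonneg ?_ fun n _ _ => hnn n
    intro n hn
    simp only [Finset.mem_filter, Finset.mem_Ioc] at hn ⊢
    exact ⟨hn.1.1, Nat.le_of_dvd (by omega) hn.2.2⟩
  rw [h1, abs_le]
  constructor <;> linarith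

lemma MertD_A_bound {D : ℕ} (hD : 1 ≤ D) :
    ∃ C : ℝ, 0 < C ∧ ∀ N : ℕ, 1 ≤ N → |MertD_A D N - 1 / 2 * Real.log N| ≤ C := by
  obtain ⟨CP, hCP, hP⟩ := MertD_abs_P_le hD
  have hs : 0 ≤ ∑ n ∈ Ioc 0 (2 * D), Real.log n / (n:ℝ) := Finset.sum_nonneg fun n _ =>
    div_nonneg (Real.log_natCast_nonneg n) (Nat.cast_nonneg n)
  refine ⟨((∑ n ∈ Ioc 0 (2 * D), Real.log n / (n:ℝ)) + (2 + Mertens.Cpp) + CP +
    (Real.log 4 + 4 + (1 + Mertens.Cpp))) / 2, ?_, fun N hN => ?_⟩
  · have h1 := Mertens.Cpp_nonneg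
    have h2 : 0 ≤ Real.log 4 := Real.log_nonneg (by norm_num)
    positivity
  · have h1 := MertD_two_A hD N
    have h2 := Mertens.abs_le hN
    have h3 := hP N hN
    have h4 := MertD_P_sub_Q D hN
    rw [abs_le] at *
    constructor <;> linarith [h1.1, h1.2, h2.1, h2.2, h3.1, h3.2, h4.1, h4.2]

/-- the sum of `1/p` over the primes in `(m, N]` modulo which `-D` is a square -/
noncomputable def MertD_R (D m N : ℕ) : ℝ := ∑ n ∈ Ioc m N, MertD_a D n * (1 / Real.log n)

lemma MertD_R_sub_T {D : ℕ} {C : ℝ}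
    (hC : ∀ N : ℕ, 1 ≤ N → |MertD_A D N - 1 / 2 * Real.log N| ≤ C)
    {m N : ℕ} (hm : 2 ≤ m) (hN : m ≤ N) :
    |MertD_R D m N - 1 / 2 * T m N| ≤ 2 * C * (1 / Real.log ((m : ℝ) + 1)) := by
  have h1 : MertD_R D m N - 1 / 2 * T m N = ∑ n ∈ Ioc m N,
      (MertD_a D n - 1 / 2 * (Real.log n - Real.log ((n : ℝ) - 1))) * (1 / Real.log n) := by
    rw [MertD_R, T, Finset.mul_sum, ← Finset.sum_sub_distrib]
    exact Finset.sum_congr rfl fun n _ => by ring
  have hS : ∀ k, m ≤ k →
      ∑ n ∈ Ioc m k, (MertD_a D n - 1 / 2 * (Real.log n - Real.log ((n : ℝ) - 1))) =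
      (MertD_A D k - 1 / 2 * Real.log k) - (MertD_A D m - 1 / 2 * Real.log m) := by
    intro k hk
    induction k, hk using Nat.le_induction with
    | base => simp
    | succ k hk ih =>
      have hA : MertD_A D (k + 1) = MertD_A D k + MertD_a D (k + 1) := by
        rw [MertD_A, MertD_A, Finset.sum_Ioc_succ_top (Nat.zero_le k)]
      rw [Finset.sum_Ioc_succ_top (by omega), ih, hA]
      push_cast
      rw [add_sub_cancel_right]
      ring
  rw [h1]
  have := abel (fun n => MertD_a D n - 1 / 2 * (Real.log n - Real.log ((n : ℝ) - 1)))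
    (fun n => 1 / Real.log n) (2 * C) m ?_ ?_ ?_ N hN
  · simpa using this
  · intro k hk
    rw [hS k hk]
    have h2 := hC k (by omega)
    have h3 := hC m (by omega)
    rw [abs_le] at *
    constructor <;> linarith [h2.1, h2.2, h3.1, h3.2]
  · intro n hn
    have h2 : (1:ℝ) < n := by exact_mod_cast (by omega : 1 < n)
    apply one_div_le_one_div_of_le (Real.log_pos h2)
    apply Real.log_le_log (by linarith)
    push_cast
    linarith
  · intro n hn
    have := Real.log_natCast_nonneg n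
    positivity

lemma MertD_sum (D : ℕ) (w z : ℝ) (hw : 2 ≤ w) :
    ∑ p ∈ ID D w z, 1 / (p : ℝ) = MertD_R D ⌊w⌋₊ ⌊z⌋₊ := by
  have h1 : ID D w z = (Ioc ⌊w⌋₊ ⌊z⌋₊).filter
      (fun p => p.Prime ∧ ¬ p ∣ 2 * D ∧ IsSquare (-(D : ZMod p))) := by
    ext p
    simp only [ID, Finset.mem_filter, Finset.mem_Icc, Finset.mem_Ioc]
    rw [Nat.floor_lt (by linarith)]
    constructor
    · rintro ⟨⟨_, h2⟩, h3, h4, h5, h6⟩
      exact ⟨⟨h6, h2⟩, h3, h4, h5⟩
    · rintro ⟨⟨h6, h2⟩, h3, h4, h5⟩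
      exact ⟨⟨h3.one_le, h2⟩, h3, h4, h5, h6⟩
  rw [h1, MertD_R, Finset.sum_filter]
  refine Finset.sum_congr rfl fun n _ => ?_
  rw [MertD_a]
  split_ifs with h
  · have h2 : (1:ℝ) < n := by exact_mod_cast h.1.one_lt
    have h3 := Real.log_pos h2
    field_simp
  · simp

theorem mertensD (D : ℕ) (hD : 1 ≤ D) : ∃ C : ℝ, 0 < C ∧ ∀ w z : ℝ, 2 ≤ w → w ≤ z →
    |∑ p ∈ ID D w z, 1 / (p : ℝ) - (1 / 2) * Real.log (Real.log z / Real.log w)| ≤
      C / Real.log w := by
  obtain ⟨C, hC0, hC⟩ := MertD_A_bound hD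
  refine ⟨2 * C + 2, by linarith, fun w z hw hwz => ?_⟩
  rw [MertD_sum D w z hw]
  set m := ⌊w⌋₊ with hm
  set N := ⌊z⌋₊ with hN
  have hm2 : 2 ≤ m := Nat.le_floor (by exact_mod_cast hw)
  have hmN : m ≤ N := Nat.floor_le_floor hwz
  have hmw : (m:ℝ) ≤ w := Nat.floor_le (by linarith)
  have hwm : w < (m:ℝ) + 1 := Nat.lt_floor_add_one w
  have hNz : (N:ℝ) ≤ z := Nat.floor_le (by linarith)
  have hzN : z < (N:ℝ) + 1 := Nat.lt_floor_add_one z
  have hm2' : (2:ℝ) ≤ m := by exact_mod_cast hm2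
  have hmN' : (m:ℝ) ≤ N := by exact_mod_cast hmN
  have hlw : 0 < Real.log w := Real.log_pos (by linarith)
  have hlz : 0 < Real.log z := Real.log_pos (by linarith)
  have hlm : 0 < Real.log m := Real.log_pos (by linarith)
  have hN2' : (2:ℝ) ≤ N := by exact_mod_cast hm2.trans hmN
  have hlN : 0 < Real.log N := Real.log_pos (by linarith)
  have hlmN : Real.log m ≤ Real.log N := Real.log_le_log (by linarith) hmN'
  have h1 := abs_le.mp (MertD_R_sub_T hC hm2 hmN)
  have h2 := T_le hm2 hmN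
  have h2' := T_ge hm2 hmN
  have h3 : 1 / Real.log ((m:ℝ) + 1) ≤ 1 / Real.log w :=
    one_div_le_one_div_of_le hlw (Real.log_le_log (by linarith) hwm.le)
  have h4 : Real.log (Real.log N) ≤ Real.log (Real.log z) :=
    Real.log_le_log hlN (Real.log_le_log (by linarith) hNz)
  have h4' : Real.log (Real.log m) ≤ Real.log (Real.log w) :=
    Real.log_le_log hlm (Real.log_le_log (by linarith) hmw)
  have h9 : Real.log w ≤ 2 * Real.log m := by
    have h10 : Real.log w ≤ Real.log ((m:ℝ) ^ 2) :=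
      Real.log_le_log (by linarith) (by nlinarith)
    rwa [Real.log_pow, Nat.cast_ofNat] at h10
  have h12 : 1 / Real.log m ≤ 2 / Real.log w := by
    rw [div_le_div_iff₀ hlm hlw]
    linarith
  have h5 : Real.log (Real.log w) - Real.log (Real.log m) ≤ 2 / Real.log w := by
    have h6 := log_ratio' hlm hlw
    have h7 := log_ratio' (show (0:ℝ) < m by linarith) (show (0:ℝ) < w by linarith)
    have h8 : (w - m) / m ≤ 1 := by
      rw [div_le_one (by linarith)]
      linarith
    have h11 : (Real.log w - Real.log m) / Real.log m ≤ 1 / Real.log m := by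
      gcongr
      linarith
    linarith
  have h5' : Real.log (Real.log z) - Real.log (Real.log N) ≤ 1 / Real.log N := by
    have h6 := log_ratio' hlN hlz
    have h7 := log_ratio' (show (0:ℝ) < N by linarith) (show (0:ℝ) < z by linarith)
    have h8 : (z - N) / N ≤ 1 := by
      rw [div_le_one (by linarith)]
      linarith
    have h11 : (Real.log z - Real.log N) / Real.log N ≤ 1 / Real.log N := by
      gcongr
      linarith
    linarith
  rw [Real.log_div hlz.ne' hlw.ne']
  have h13 : 2 * C * (1 / Real.log ((m:ℝ) + 1)) ≤ 2 * C * (1 / Real.log w) :=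
    mul_le_mul_of_nonneg_left h3 (by linarith)
  have h14 : (2 * C + 2) / Real.log w = 2 * C * (1 / Real.log w) + 2 / Real.log w := by
    ring
  have h15 : 0 < 2 / Real.log w := by positivity
  rw [h14, abs_le]
  constructor <;> linarith [h1.1, h1.2]

end Pool.Agent.DL
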