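import Pool.Agent.helper41.DL.GeoD

/-! # The isosceles pairs with large directions -/

set_option autoImplicit false
open scoped Classical

open Finset Pool.Agent.DG

namespace Pool.Agent.DL

/-- the isosceles pairs with given `h`, `d` and the size `E` of the direction -/
noncomputable def PhdD (D N : ℕ) (q : ℤ) (a : ℤ × ℤ) (E : ℕ) (h d : ℤ) :
    Finset ((ℤ × ℤ) × (ℤ × ℤ)) :=
  (IsoD D N q a).filter (fun t => ∃ e : ℤ × ℤ, IsCoprime e.1 e.2 ∧ E ≤ sn e ∧ sn e < 2 * E ∧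
    t.2.1 - t.1.1 = h * e.1 ∧ t.2.2 - t.1.2 = h * e.2 ∧
    q * (t.1.1 + t.2.1) - 2 * a.1 = -(d * e.2) ∧ D * (q * (t.1.2 + t.2.2) - 2 * a.2) = d * e.1)

/-- a common divisor of `q`, `2 a.1` and `2 D a.2` divides `2 D` when `a / q` is in lowest
terms -/
theorem PhdD_two {D : ℤ} {q : ℤ} {a : ℤ × ℤ} (hL : Low q a) (g : ℤ) (h0 : g ∣ q)
    (h1 : g ∣ 2 * a.1) (h2 : g ∣ 2 * (D * a.2)) : g ∣ 2 * D := by
  obtain ⟨c, hc⟩ : ∃ c : ℤ, c = (Int.gcd a.1 a.2 : ℤ) := ⟨_, rfl⟩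
  obtain ⟨G, hG⟩ : ∃ G : ℤ, G = (Int.gcd q c : ℤ) := ⟨_, rfl⟩
  have hGq : G ∣ q := hG ▸ Int.gcd_dvd_left ..
  have hGc : G ∣ c := hG ▸ Int.gcd_dvd_right ..
  have hc1 : c ∣ a.1 := hc ▸ Int.gcd_dvd_left ..
  have hc2 : c ∣ a.2 := hc ▸ Int.gcd_dvd_right ..
  have hu : IsUnit G := hL.2 G hGq (hGc.trans hc1) (hGc.trans hc2)
  have hG0 : 0 ≤ G := by rw [hG]; positivity
  have hG1 : G = 1 := by
    rcases Int.isUnit_iff.1 hu with h | h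
    · exact h
    · omega
  have e1 : G = q * Int.gcdA q c + c * Int.gcdB q c := hG.trans (Int.gcd_eq_gcd_ab q c)
  have e2 : c = a.1 * Int.gcdA a.1 a.2 + a.2 * Int.gcdB a.1 a.2 :=
    hc.trans (Int.gcd_eq_gcd_ab _ _)
  obtain ⟨x, hx⟩ := h0
  obtain ⟨y, hy⟩ := h1
  obtain ⟨z, hz⟩ := h2
  refine ⟨2 * D * x * Int.gcdA q c + D * y * Int.gcdA a.1 a.2 * Int.gcdB q c +
    z * Int.gcdB a.1 a.2 * Int.gcdB q c, ?_⟩
  linear_combination (-2 * D) * hG1 + 2 * D * e1 + 2 * D * Int.gcdA q c * hx +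
    2 * D * Int.gcdB q c * e2 + D * Int.gcdB q c * Int.gcdA a.1 a.2 * hy +
    Int.gcdB q c * Int.gcdB a.1 a.2 * hz

/-- the direction of a pair -/
def PhdD_ev (h : ℤ) (t : (ℤ × ℤ) × (ℤ × ℤ)) : ℤ × ℤ :=
  ((t.2.1 - t.1.1) / h, (t.2.2 - t.1.2) / h)

theorem PhdD_spec {D N : ℕ} {q : ℤ} {a : ℤ × ℤ} {E : ℕ} {h d : ℤ} (hh : 1 ≤ h)
    {t : (ℤ × ℤ) × (ℤ × ℤ)} (ht : t ∈ PhdD D N q a E h d) :
    sn (PhdD_ev h t) < 2 * E ∧
      t.2.1 - t.1.1 = h * (PhdD_ev h t).1 ∧ t.2.2 - t.1.2 = h * (PhdD_ev h t).2 ∧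
      q * (t.1.1 + t.2.1) - 2 * a.1 = -(d * (PhdD_ev h t).2) ∧
      (D : ℤ) * (q * (t.1.2 + t.2.2) - 2 * a.2) = d * (PhdD_ev h t).1 ∧
      0 ≤ t.1.1 + t.2.1 ∧ t.1.1 + t.2.1 ≤ 2 * N ∧ 0 ≤ t.1.2 + t.2.2 ∧ t.1.2 + t.2.2 ≤ 2 * N := by
  unfold PhdD at ht
  rw [Finset.mem_filter] at ht
  obtain ⟨hI, e, -, -, h2, h3, h4, h5, h6⟩ := ht
  have he : PhdD_ev h t = e := by
    unfold PhdD_ev
    rw [h3, h4, Int.mul_ediv_cancel_left _ (by omega), Int.mul_ediv_cancel_left _ (by omega)]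
  rw [he]
  unfold IsoD Bx at hI
  simp only [Finset.mem_filter, Finset.mem_product, Finset.mem_Ico] at hI
  obtain ⟨⟨⟨⟨a1, a2⟩, a3, a4⟩, ⟨a5, a6⟩, a7, a8⟩, -⟩ := hI
  exact ⟨h2, h3, h4, h5, h6, by omega, by omega, by omega, by omega⟩

theorem PhdD_natAbs (n : ℤ) : |(n : ℝ)| = ((n.natAbs : ℕ) : ℝ) := by
  rw [← Int.cast_abs, Nat.cast_natAbs]

theorem PhdD_sn_le (e : ℤ × ℤ) : |(e.1 : ℝ)| ≤ (sn e : ℝ) ∧ |(e.2 : ℝ)| ≤ (sn e : ℝ) := by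
  unfold sn
  constructor
  · rw [PhdD_natAbs]
    exact_mod_cast le_max_left _ _
  · rw [PhdD_natAbs]
    exact_mod_cast le_max_right _ _

theorem PhdD_sn_eq (e : ℤ × ℤ) : (sn e : ℝ) = |(e.1 : ℝ)| ∨ (sn e : ℝ) = |(e.2 : ℝ)| := by
  unfold sn
  rcases le_total e.1.natAbs e.2.natAbs with h | h
  · right
    rw [max_eq_right h, PhdD_natAbs]
  · left
    rw [max_eq_left h, PhdD_natAbs]

/-- the real inequality for one coordinate -/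
theorem PhdD_real {D N q A S E d x s e f : ℝ} (hD : 1 ≤ D) (hN : 0 < N) (hq : 1 ≤ q)
    (hA : A = q + S / N) (hS : 0 ≤ S) (hE : 0 ≤ E)
    (h1 : |d * x| ≤ 2 * D * q * N) (h2 : |x| ≤ 4 * E)
    (h3 : |f| ≤ 2 * E) (h4 : |q * s - 2 * e| ≤ |d| * |f|) (h5 : 0 ≤ s)
    (h6 : s ≤ 2 * N) (h7 : |e| = S) : |x| * A ≤ 12 * D * (q * E) := by
  rcases le_total (2 * q * N) S with h | h
  · have k1 : S ≤ |d| * (2 * E) := by
      have k2 : 2 * |e| ≤ |q * s - 2 * e| + q * s := by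
        have : 2 * |e| = |q * s - (q * s - 2 * e)| := by
          rw [show q * s - (q * s - 2 * e) = 2 * e by ring, abs_mul]; norm_num
        rw [this]
        refine (abs_sub _ _).trans ?_
        rw [abs_of_nonneg (by positivity : (0 : ℝ) ≤ q * s)]
        linarith
      have k3 : |d| * |f| ≤ |d| * (2 * E) := mul_le_mul_of_nonneg_left h3 (abs_nonneg _)
      have k4 : q * s ≤ q * (2 * N) := mul_le_mul_of_nonneg_left h6 (by linarith)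
      nlinarith
    have k5 : A * N ≤ 3 / 2 * S := by
      rw [hA, add_mul, div_mul_cancel₀ _ hN.ne']
      nlinarith
    have k6 : |x| * S ≤ 4 * D * q * N * E := by
      calc |x| * S ≤ |x| * (|d| * (2 * E)) := mul_le_mul_of_nonneg_left k1 (abs_nonneg _)
        _ = |d * x| * (2 * E) := by rw [abs_mul]; ring
        _ ≤ 2 * D * q * N * (2 * E) := mul_le_mul_of_nonneg_right h1 (by positivity)
        _ = 4 * D * q * N * E := by ring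
    have k7 : |x| * A * N ≤ 6 * D * (q * E) * N := by
      calc |x| * A * N = |x| * (A * N) := by ring
        _ ≤ |x| * (3 / 2 * S) := mul_le_mul_of_nonneg_left k5 (abs_nonneg _)
        _ = 3 / 2 * (|x| * S) := by ring
        _ ≤ 3 / 2 * (4 * D * q * N * E) := by linarith
        _ = 6 * D * (q * E) * N := by ring
    have k8 : |x| * A ≤ 6 * D * (q * E) := le_of_mul_le_mul_right k7 hN
    have : 0 ≤ D * (q * E) := by positivity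
    linarith
  · have k1 : A ≤ 3 * q := by
      rw [hA]
      have : S / N ≤ 2 * q := by rw [div_le_iff₀ hN]; linarith
      linarith
    have k2 : 0 ≤ A := by rw [hA]; positivity
    have k3 : 0 ≤ q * E := by positivity
    calc |x| * A ≤ (4 * E) * (3 * q) := mul_le_mul h2 k1 k2 (by positivity)
      _ = 1 * (12 * (q * E)) := by ring
      _ ≤ D * (12 * (q * E)) := mul_le_mul_of_nonneg_right hD (by positivity)
      _ = 12 * D * (q * E) := by ring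

theorem PhdD_diff {D N : ℕ} {q : ℤ} {a : ℤ × ℤ} {E : ℕ} {h d : ℤ} (hD : 1 ≤ D) (hN : 1 ≤ N)
    (hq : 1 ≤ q) (hh : 1 ≤ h) {t t' : (ℤ × ℤ) × (ℤ × ℤ)} (ht : t ∈ PhdD D N q a E h d)
    (ht' : t' ∈ PhdD D N q a E h d) :
    |(((PhdD_ev h t).1 - (PhdD_ev h t').1 : ℤ) : ℝ)| * Aq N q a ≤ 12 * D * (q * E) ∧
      |(((PhdD_ev h t).2 - (PhdD_ev h t').2 : ℤ) : ℝ)| * Aq N q a ≤ 12 * D * (q * E) := by
  obtain ⟨h2, -, -, h5, h6, b1, b2, b3, b4⟩ := PhdD_spec hh ht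
  obtain ⟨h2', -, -, h5', h6', b1', b2', b3', b4'⟩ := PhdD_spec hh ht'
  obtain ⟨e, he⟩ : ∃ e, e = PhdD_ev h t := ⟨_, rfl⟩
  obtain ⟨e', he'⟩ : ∃ e, e = PhdD_ev h t' := ⟨_, rfl⟩
  rw [← he] at h2 h5 h6 ⊢
  rw [← he'] at h2' h5' h6' ⊢
  have hD' : (1 : ℝ) ≤ (D : ℝ) := by exact_mod_cast hD
  have hN' : (0 : ℝ) < (N : ℝ) := by exact_mod_cast hN
  have hq' : (1 : ℝ) ≤ (q : ℝ) := by exact_mod_cast hq
  have s1 : (sn e : ℝ) ≤ 2 * E := by exact_mod_cast h2.le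
  have s2 : (sn e' : ℝ) ≤ 2 * E := by exact_mod_cast h2'.le
  have a1 := (PhdD_sn_le e).1.trans s1
  have a2 := (PhdD_sn_le e).2.trans s1
  have a3 := (PhdD_sn_le e').1.trans s2
  have a4 := (PhdD_sn_le e').2.trans s2
  have hE0 : (0 : ℝ) ≤ (E : ℝ) := Nat.cast_nonneg _
  have k1 : |(d : ℝ) * ((e.1 - e'.1 : ℤ) : ℝ)| ≤ 2 * D * q * N := by
    have e0 : d * (e.1 - e'.1) = D * q * ((t.1.2 + t.2.2) - (t'.1.2 + t'.2.2)) := by
      linear_combination h6' - h6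
    have : (d : ℝ) * ((e.1 - e'.1 : ℤ) : ℝ) =
        D * q * (((t.1.2 + t.2.2) - (t'.1.2 + t'.2.2) : ℤ) : ℝ) := by exact_mod_cast e0
    rw [this, abs_mul, abs_of_pos (by positivity : (0 : ℝ) < D * q)]
    have h3 : |(((t.1.2 + t.2.2) - (t'.1.2 + t'.2.2) : ℤ) : ℝ)| ≤ 2 * N := by
      rw [← Int.cast_abs]
      have : |(t.1.2 + t.2.2) - (t'.1.2 + t'.2.2)| ≤ 2 * (N : ℤ) := by
        rw [abs_le]; constructor <;> omega
      exact_mod_cast this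
    calc (D : ℝ) * q * _ ≤ D * q * (2 * N) := mul_le_mul_of_nonneg_left h3 (by positivity)
      _ = 2 * D * q * N := by ring
  have k2 : |(d : ℝ) * ((e.2 - e'.2 : ℤ) : ℝ)| ≤ 2 * D * q * N := by
    have e0 : d * (e.2 - e'.2) = -(q * ((t.1.1 + t.2.1) - (t'.1.1 + t'.2.1))) := by
      linear_combination h5 - h5'
    have : (d : ℝ) * ((e.2 - e'.2 : ℤ) : ℝ) =
        -(q * (((t.1.1 + t.2.1) - (t'.1.1 + t'.2.1) : ℤ) : ℝ)) := by exact_mod_cast e0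
    rw [this, abs_neg, abs_mul, abs_of_pos (by linarith : (0 : ℝ) < q)]
    have h3 : |(((t.1.1 + t.2.1) - (t'.1.1 + t'.2.1) : ℤ) : ℝ)| ≤ 2 * N := by
      rw [← Int.cast_abs]
      have : |(t.1.1 + t.2.1) - (t'.1.1 + t'.2.1)| ≤ 2 * (N : ℤ) := by
        rw [abs_le]; constructor <;> omega
      exact_mod_cast this
    calc (q : ℝ) * _ ≤ q * (2 * N) := mul_le_mul_of_nonneg_left h3 (by linarith)
      _ = 1 * (2 * q * N) := by ring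
      _ ≤ D * (2 * q * N) := mul_le_mul_of_nonneg_right hD' (by positivity)
      _ = 2 * D * q * N := by ring
  have k3 : |((e.1 - e'.1 : ℤ) : ℝ)| ≤ 4 * E := by
    push_cast
    exact (abs_sub _ _).trans (by linarith)
  have k4 : |((e.2 - e'.2 : ℤ) : ℝ)| ≤ 4 * E := by
    push_cast
    exact (abs_sub _ _).trans (by linarith)
  have hS0 : (0 : ℝ) ≤ (sn a : ℝ) := Nat.cast_nonneg _
  have r5 : |(q : ℝ) * ((t.1.1 + t.2.1 : ℤ) : ℝ) - 2 * (a.1 : ℝ)| ≤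
      |(d : ℝ)| * |(e.2 : ℝ)| := by
    have : (q : ℝ) * ((t.1.1 + t.2.1 : ℤ) : ℝ) - 2 * (a.1 : ℝ) = -((d : ℝ) * (e.2 : ℝ)) := by
      exact_mod_cast h5
    rw [this, abs_neg, abs_mul]
  have r6 : |(q : ℝ) * ((t.1.2 + t.2.2 : ℤ) : ℝ) - 2 * (a.2 : ℝ)| ≤
      |(d : ℝ)| * |(e.1 : ℝ)| := by
    have : (D : ℝ) * ((q : ℝ) * ((t.1.2 + t.2.2 : ℤ) : ℝ) - 2 * (a.2 : ℝ)) =
        (d : ℝ) * (e.1 : ℝ) := by exact_mod_cast h6
    rw [← abs_mul, ← this, abs_mul, abs_of_pos (by linarith : (0 : ℝ) < D)]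
    exact le_mul_of_one_le_left (abs_nonneg _) hD'
  have c1 : (0 : ℝ) ≤ ((t.1.1 + t.2.1 : ℤ) : ℝ) := by exact_mod_cast b1
  have c2 : ((t.1.1 + t.2.1 : ℤ) : ℝ) ≤ 2 * N := by exact_mod_cast b2
  have c3 : (0 : ℝ) ≤ ((t.1.2 + t.2.2 : ℤ) : ℝ) := by exact_mod_cast b3
  have c4 : ((t.1.2 + t.2.2 : ℤ) : ℝ) ≤ 2 * N := by exact_mod_cast b4
  rcases PhdD_sn_eq a with hs | hs
  · exact ⟨PhdD_real hD' hN' hq' rfl hS0 hE0 k1 k3 a2 r5 c1 c2 hs.symm,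
      PhdD_real hD' hN' hq' rfl hS0 hE0 k2 k4 a2 r5 c1 c2 hs.symm⟩
  · exact ⟨PhdD_real hD' hN' hq' rfl hS0 hE0 k1 k3 a1 r6 c3 c4 hs.symm,
      PhdD_real hD' hN' hq' rfl hS0 hE0 k2 k4 a1 r6 c3 c4 hs.symm⟩

theorem PhdD_dvd {D N : ℕ} {q : ℤ} {a : ℤ × ℤ} {E : ℕ} {h d q1 g : ℤ}
    (hh : 1 ≤ h) (hg : 1 ≤ g) (hq1 : q = g * q1) {d1 : ℤ} (hd1 : d = g * d1)
    (hc : IsCoprime q1 d1) {t t' : (ℤ × ℤ) × (ℤ × ℤ)} (ht : t ∈ PhdD D N q a E h d)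
    (ht' : t' ∈ PhdD D N q a E h d) :
    q1 ∣ (PhdD_ev h t).1 - (PhdD_ev h t').1 ∧ q1 ∣ (PhdD_ev h t).2 - (PhdD_ev h t').2 := by
  obtain ⟨-, -, -, h5, h6, -, -, -, -⟩ := PhdD_spec hh ht
  obtain ⟨-, -, -, h5', h6', -, -, -, -⟩ := PhdD_spec hh ht'
  obtain ⟨e, he⟩ : ∃ e, e = PhdD_ev h t := ⟨_, rfl⟩
  obtain ⟨e', he'⟩ : ∃ e, e = PhdD_ev h t' := ⟨_, rfl⟩
  rw [← he] at h5 h6 ⊢
  rw [← he'] at h5' h6' ⊢
  have e0 : d * (e.1 - e'.1) = D * q * ((t.1.2 + t.2.2) - (t'.1.2 + t'.2.2)) := by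
    linear_combination h6' - h6
  have e1 : d * (e.2 - e'.2) = -(q * ((t.1.1 + t.2.1) - (t'.1.1 + t'.2.1))) := by
    linear_combination h5 - h5'
  have hg0 : g ≠ 0 := by omega
  rw [hq1, hd1] at e0 e1
  have f0 : d1 * (e.1 - e'.1) = q1 * (D * ((t.1.2 + t.2.2) - (t'.1.2 + t'.2.2))) := by
    apply mul_left_cancel₀ hg0
    linear_combination e0
  have f1 : d1 * (e.2 - e'.2) = q1 * (-((t.1.1 + t.2.1) - (t'.1.1 + t'.2.1))) := by
    apply mul_left_cancel₀ hg0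
    linear_combination e1
  exact ⟨hc.dvd_of_dvd_mul_left (Dvd.intro _ f0.symm),
    hc.dvd_of_dvd_mul_left (Dvd.intro _ f1.symm)⟩

theorem PhdD_size {D q q1 A E x y : ℝ} (hD : 1 ≤ D) (hA : 0 < A) (hq : 0 < q1)
    (h2 : q ≤ 2 * D * q1) (hE : 0 ≤ E) (hx : |x| * A ≤ 12 * D * (q * E)) (hy : q1 * y = x) :
    y ≤ 24 * D ^ 2 * (E / A) := by
  have h1 : q1 * y * A ≤ q1 * (24 * D ^ 2 * E) := by
    rw [hy]
    calc x * A ≤ |x| * A := mul_le_mul_of_nonneg_right (le_abs_self _) hA.le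
      _ ≤ 12 * D * (q * E) := hx
      _ ≤ 12 * D * (2 * D * q1 * E) :=
        mul_le_mul_of_nonneg_left (mul_le_mul_of_nonneg_right h2 hE) (by positivity)
      _ = q1 * (24 * D ^ 2 * E) := by ring
  have h3 : y * A ≤ 24 * D ^ 2 * E := le_of_mul_le_mul_left (by linarith) hq
  rw [← mul_div_assoc, le_div_iff₀ hA]
  exact h3

/-- the directions of the pairs with given `h`, `d` lie in a residue class and in a small box -/
theorem Phd_paramD (D N : ℕ) (q : ℤ) (a : ℤ × ℤ) (E : ℕ) (h d : ℤ) (hD : 1 ≤ D) (hN : 1 ≤ N)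
    (hL : Low q a) (hE : 1 ≤ E) (hh : 1 ≤ h) (hd : d ≠ 0) :
    ∃ (q1 : ℤ) (r u : ℤ × ℤ) (f : (ℤ × ℤ) × (ℤ × ℤ) → ℤ × ℤ), 1 ≤ q1 ∧ q1 ∣ q ∧
      Set.InjOn f (PhdD D N q a E h d) ∧
      ∀ t ∈ PhdD D N q a E h d, u.1 ≤ (f t).1 ∧ u.2 ≤ (f t).2 ∧
        (((f t).1 - u.1 : ℤ) : ℝ) ≤ 24 * D ^ 2 * (E / Aq N q a) ∧
        (((f t).2 - u.2 : ℤ) : ℝ) ≤ 24 * D ^ 2 * (E / Aq N q a) ∧
        4 * (D : ℤ) * (nsqD D (qv q a t.1) : ℤ) =
          ((D * (q * h) ^ 2 + d ^ 2).natAbs : ℤ) *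
            ((q1 * (f t).1 + r.1) ^ 2 + D * (q1 * (f t).2 + r.2) ^ 2) := by
  rcases (PhdD D N q a E h d).eq_empty_or_nonempty with hP | ⟨t0, ht0⟩
  · refine ⟨1, 0, 0, fun _ => 0, le_rfl, one_dvd _, ?_, ?_⟩
    · rw [hP]; simp
    · rw [hP]; simp
  have hq : 1 ≤ q := hL.1
  have hDz : (1 : ℤ) ≤ (D : ℤ) := by exact_mod_cast hD
  obtain ⟨g, hgd⟩ : ∃ g : ℤ, g = (Int.gcd q d : ℤ) := ⟨_, rfl⟩
  have hgq : g ∣ q := hgd ▸ Int.gcd_dvd_left ..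
  have hgd' : g ∣ d := hgd ▸ Int.gcd_dvd_right ..
  have hg1 : 1 ≤ g := by
    have : 0 < Int.gcd q d := Int.gcd_pos_of_ne_zero_left _ (by omega)
    rw [hgd]; exact_mod_cast this
  obtain ⟨q1, hq1⟩ := hgq
  obtain ⟨d1, hd1⟩ := hgd'
  have hc : IsCoprime q1 d1 := by
    have e1 : (Int.gcd q d : ℤ) = q * Int.gcdA q d + d * Int.gcdB q d := Int.gcd_eq_gcd_ab q d
    refine ⟨Int.gcdA q d, Int.gcdB q d, ?_⟩
    apply mul_left_cancel₀ (show g ≠ 0 by omega)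
    rw [← hgd] at e1
    linear_combination -e1 + Int.gcdA q d * (-hq1) + Int.gcdB q d * (-hd1)
  have hg2 : g ∣ 2 * (D : ℤ) := by
    obtain ⟨-, -, -, h5, h6, -, -, -, -⟩ := PhdD_spec hh ht0
    refine PhdD_two hL g ⟨q1, hq1⟩ ?_ ?_
    · have : 2 * a.1 = q * (t0.1.1 + t0.2.1) + d * (PhdD_ev h t0).2 := by
        linear_combination -h5
      rw [this]
      exact dvd_add (Dvd.dvd.mul_right ⟨q1, hq1⟩ _) (Dvd.dvd.mul_right ⟨d1, hd1⟩ _)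
    · have : 2 * ((D : ℤ) * a.2) = q * (D * (t0.1.2 + t0.2.2)) - d * (PhdD_ev h t0).1 := by
        linear_combination -h6
      rw [this]
      exact dvd_sub (Dvd.dvd.mul_right ⟨q1, hq1⟩ _) (Dvd.dvd.mul_right ⟨d1, hd1⟩ _)
  have hgle : g ≤ 2 * (D : ℤ) := Int.le_of_dvd (by omega) hg2
  have hq1pos : 1 ≤ q1 := by
    by_contra hcon
    have : g * q1 ≤ 0 := mul_nonpos_of_nonneg_of_nonpos (by omega) (by omega)
    omega
  have hq2 : q ≤ 2 * D * q1 := by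
    rw [hq1]
    exact mul_le_mul_of_nonneg_right hgle (by omega)
  obtain ⟨f, hf⟩ : ∃ f : (ℤ × ℤ) × (ℤ × ℤ) → ℤ × ℤ, f = fun t =>
    (((PhdD_ev h t).1 - (PhdD_ev h t0).1) / q1, ((PhdD_ev h t).2 - (PhdD_ev h t0).2) / q1) :=
    ⟨_, rfl⟩
  have hfs : ∀ t ∈ PhdD D N q a E h d, q1 * (f t).1 + (PhdD_ev h t0).1 = (PhdD_ev h t).1 ∧
      q1 * (f t).2 + (PhdD_ev h t0).2 = (PhdD_ev h t).2 := by
    intro t ht
    obtain ⟨k1, k2⟩ := PhdD_dvd hh hg1 hq1 hd1 hc ht ht0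
    rw [hf]
    dsimp only
    rw [Int.mul_ediv_cancel' k1, Int.mul_ediv_cancel' k2]
    constructor <;> ring
  obtain ⟨t1, ht1, hm1⟩ :=
    Finset.exists_min_image (PhdD D N q a E h d) (fun t => (f t).1) ⟨t0, ht0⟩
  obtain ⟨t2, ht2, hm2⟩ :=
    Finset.exists_min_image (PhdD D N q a E h d) (fun t => (f t).2) ⟨t0, ht0⟩
  have hD' : (1 : ℝ) ≤ (D : ℝ) := by exact_mod_cast hD
  have hN' : (0 : ℝ) < (N : ℝ) := by exact_mod_cast hN
  have hq' : (1 : ℝ) ≤ (q : ℝ) := by exact_mod_cast hq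
  have hA : 0 < Aq N q a := by
    unfold Aq
    have : (0 : ℝ) ≤ (sn a : ℝ) / (N : ℝ) := by positivity
    linarith
  have hq1' : (0 : ℝ) < (q1 : ℝ) := by exact_mod_cast hq1pos
  have hq2' : (q : ℝ) ≤ 2 * D * (q1 : ℝ) := by exact_mod_cast hq2
  refine ⟨q1, PhdD_ev h t0, ((f t1).1, (f t2).2), f, hq1pos, ⟨g, by rw [hq1]; ring⟩, ?_, ?_⟩
  · intro t ht t' ht' hff
    have ht : t ∈ PhdD D N q a E h d := ht
    have ht' : t' ∈ PhdD D N q a E h d := ht'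
    have e1 : (PhdD_ev h t).1 = (PhdD_ev h t').1 := by
      rw [← (hfs t ht).1, ← (hfs t' ht').1, hff]
    have e2 : (PhdD_ev h t).2 = (PhdD_ev h t').2 := by
      rw [← (hfs t ht).2, ← (hfs t' ht').2, hff]
    obtain ⟨-, h3, h4, h5, h6, -, -, -, -⟩ := PhdD_spec hh ht
    obtain ⟨-, h3', h4', h5', h6', -, -, -, -⟩ := PhdD_spec hh ht'
    rw [e1] at h3 h6
    rw [e2] at h4 h5
    have s1 : t.1.1 + t.2.1 = t'.1.1 + t'.2.1 := by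
      apply mul_left_cancel₀ (show q ≠ 0 by omega)
      linear_combination h5 - h5'
    have s2 : t.1.2 + t.2.2 = t'.1.2 + t'.2.2 := by
      apply mul_left_cancel₀ (mul_ne_zero (show (D : ℤ) ≠ 0 by omega) (show q ≠ 0 by omega))
      linear_combination h6 - h6'
    have w1 : t.2.1 - t.1.1 = t'.2.1 - t'.1.1 := h3.trans h3'.symm
    have w2 : t.2.2 - t.1.2 = t'.2.2 - t'.1.2 := h4.trans h4'.symm
    refine Prod.ext (Prod.ext ?_ ?_) (Prod.ext ?_ ?_) <;> omega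
  · intro t ht
    refine ⟨hm1 t ht, hm2 t ht, ?_, ?_, ?_⟩
    · refine PhdD_size hD' hA hq1' hq2' (Nat.cast_nonneg _)
        (PhdD_diff hD hN hq hh ht ht1).1 ?_
      have e1 := (hfs t ht).1
      have e2 := (hfs t1 ht1).1
      have : q1 * ((f t).1 - (f t1).1) = (PhdD_ev h t).1 - (PhdD_ev h t1).1 := by
        linear_combination e1 - e2
      exact_mod_cast this
    · refine PhdD_size hD' hA hq1' hq2' (Nat.cast_nonneg _)
        (PhdD_diff hD hN hq hh ht ht2).2 ?_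
      have e1 := (hfs t ht).2
      have e2 := (hfs t2 ht2).2
      have : q1 * ((f t).2 - (f t2).2) = (PhdD_ev h t).2 - (PhdD_ev h t2).2 := by
        linear_combination e1 - e2
      exact_mod_cast this
    · rw [(hfs t ht).1, (hfs t ht).2]
      obtain ⟨-, h3, h4, h5, h6, -, -, -, -⟩ := PhdD_spec hh ht
      have n1 : (nsqD D (qv q a t.1) : ℤ) =
          (q * t.1.1 - a.1) ^ 2 + D * (q * t.1.2 - a.2) ^ 2 := by
        unfold nsqD qv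
        exact Int.natAbs_of_nonneg (by positivity)
      have n2 : (((D : ℤ) * (q * h) ^ 2 + d ^ 2).natAbs : ℤ) = D * (q * h) ^ 2 + d ^ 2 :=
        Int.natAbs_of_nonneg (by positivity)
      rw [n1, n2]
      obtain ⟨e, he⟩ : ∃ e, e = PhdD_ev h t := ⟨_, rfl⟩
      rw [← he] at h3 h4 h5 h6 ⊢
      have v1 : 2 * (q * t.1.1 - a.1) = -(d * e.2) - q * (h * e.1) := by
        linear_combination h5 - q * h3
      have v2 : 2 * ((D : ℤ) * (q * t.1.2 - a.2)) = d * e.1 - D * (q * (h * e.2)) := by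
        linear_combination h6 - D * q * h4
      calc 4 * (D : ℤ) * ((q * t.1.1 - a.1) ^ 2 + D * (q * t.1.2 - a.2) ^ 2)
          = D * (2 * (q * t.1.1 - a.1)) ^ 2 + (2 * ((D : ℤ) * (q * t.1.2 - a.2))) ^ 2 := by
            ring
        _ = (D * (q * h) ^ 2 + d ^ 2) * (e.1 ^ 2 + D * e.2 ^ 2) := by rw [v1, v2]; ring

end Pool.Agent.DL
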