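import Pool.Agent.helper41.DL.GeoD

/-! # Covering the directions by small boxes -/

set_option autoImplicit false
open scoped Classical

open Finset Pool.Agent.DG

namespace Pool.Agent.DL

theorem SCoverD_bezout {q : ℤ} {a : ℤ × ℤ} (hL : Low q a) :
    ∃ c1 c2 k : ℤ, c1 * a.1 + c2 * a.2 + k * q = 1 := by
  obtain ⟨hq, hu⟩ := hL
  have h1 : ((Int.gcd (Int.gcd a.1 a.2 : ℤ) q : ℕ) : ℤ) ∣ (Int.gcd a.1 a.2 : ℤ) :=
    Int.gcd_dvd_left ..
  have h2 := hu (Int.gcd (Int.gcd a.1 a.2 : ℤ) q) (Int.gcd_dvd_right ..)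
    (h1.trans (Int.gcd_dvd_left ..)) (h1.trans (Int.gcd_dvd_right ..))
  have h3 : Int.gcd (Int.gcd a.1 a.2 : ℤ) q = 1 := by
    rcases Int.isUnit_iff.1 h2 with h | h
    · exact_mod_cast h
    · have : (0 : ℤ) ≤ ((Int.gcd (Int.gcd a.1 a.2 : ℤ) q : ℕ) : ℤ) := Int.natCast_nonneg _
      omega
  have h4 := Int.gcd_eq_gcd_ab (Int.gcd a.1 a.2 : ℤ) q
  have h5 := Int.gcd_eq_gcd_ab a.1 a.2
  rw [h3] at h4
  refine ⟨Int.gcdA a.1 a.2 * Int.gcdA (Int.gcd a.1 a.2 : ℤ) q,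
    Int.gcdB a.1 a.2 * Int.gcdA (Int.gcd a.1 a.2 : ℤ) q,
    Int.gcdB (Int.gcd a.1 a.2 : ℤ) q, ?_⟩
  have h6 : (1 : ℤ) = (a.1 * Int.gcdA a.1 a.2 + a.2 * Int.gcdB a.1 a.2) *
      Int.gcdA (Int.gcd a.1 a.2 : ℤ) q + q * Int.gcdB (Int.gcd a.1 a.2 : ℤ) q := by
    rw [← h5]; exact_mod_cast h4
  linarith [h6]

theorem SCoverD_toNat {q x y : ℤ} (hq : 1 ≤ q) (h : (x % q).toNat = (y % q).toNat) : q ∣ x - y := by
  have hx := Int.emod_nonneg x (by omega : q ≠ 0)
  have hy := Int.emod_nonneg y (by omega : q ≠ 0)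
  have h1 : y ≡ x [ZMOD q] := by
    show y % q = x % q
    omega
  exact h1.dvd

/-- the number of the residue classes of the directions -/
theorem class_countD (D : ℕ) (hD : 1 ≤ D) (q : ℕ) (a : ℤ × ℤ) (hL : Low q a) :
    (((range q) ×ˢ (range q)).filter
      (fun e => (q : ℤ) ∣ 2 * (a.1 * (e.1 : ℤ) + D * a.2 * (e.2 : ℤ)))).card ≤ 2 * D * q := by
  obtain ⟨c1, c2, k, hb⟩ := SCoverD_bezout hL
  have hq : (1 : ℤ) ≤ q := hL.1
  have hq' : 1 ≤ q := by exact_mod_cast hq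
  set S := ((range q) ×ˢ (range q)).filter
      (fun e => (q : ℤ) ∣ 2 * (a.1 * (e.1 : ℤ) + D * a.2 * (e.2 : ℤ))) with hS
  have hDz : (1 : ℤ) ≤ D := by exact_mod_cast hD
  obtain ⟨T, hT⟩ : ∃ T : ℕ, T = (q - 1) / (2 * D) + 1 := ⟨_, rfl⟩
  have hT1 : q ≤ 2 * D * T := by
    have h1 : q - 1 < 2 * D * ((q - 1) / (2 * D)) + 2 * D :=
      Nat.lt_mul_div_succ (q - 1) (by omega)
    rw [hT]
    have h2 : 2 * D * ((q - 1) / (2 * D) + 1) = 2 * D * ((q - 1) / (2 * D)) + 2 * D := by ring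
    omega
  have hT2 : ∀ t : ℕ, t < T → 2 * D * t < q := by
    intro t ht
    have h1 : t ≤ (q - 1) / (2 * D) := by omega
    have h2 : 2 * D * t ≤ 2 * D * ((q - 1) / (2 * D)) := Nat.mul_le_mul_left _ h1
    have h3 : 2 * D * ((q - 1) / (2 * D)) ≤ q - 1 := Nat.mul_div_le _ _
    omega
  have hcard : (S ×ˢ range T).card ≤ ((range q) ×ˢ (range q)).card := by
    refine Finset.card_le_card_of_injOn
      (fun x => ((((x.1.1 : ℤ) + (x.2 : ℤ) * (D * c1)) % q).toNat,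
        (((x.1.2 : ℤ) + (x.2 : ℤ) * c2) % q).toNat)) ?_ ?_
    · intro x _
      have h1 := Int.emod_nonneg ((x.1.1 : ℤ) + (x.2 : ℤ) * (D * c1)) (by omega : (q : ℤ) ≠ 0)
      have h2 := Int.emod_lt_of_pos ((x.1.1 : ℤ) + (x.2 : ℤ) * (D * c1)) (by omega : (0 : ℤ) < q)
      have h3 := Int.emod_nonneg ((x.1.2 : ℤ) + (x.2 : ℤ) * c2) (by omega : (q : ℤ) ≠ 0)
      have h4 := Int.emod_lt_of_pos ((x.1.2 : ℤ) + (x.2 : ℤ) * c2) (by omega : (0 : ℤ) < q)
      simp only [coe_product, coe_range, Set.mem_prod, Set.mem_Iio]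
      constructor <;> omega
    · rintro ⟨⟨e1, e2⟩, t⟩ hx ⟨⟨f1, f2⟩, s⟩ hy hxy
      simp only [hS, coe_product, coe_range, Set.mem_prod, Set.mem_Iio, mem_coe, mem_filter,
        mem_product, mem_range] at hx hy
      obtain ⟨⟨⟨he1, he2⟩, hed⟩, ht⟩ := hx
      obtain ⟨⟨⟨hf1, hf2⟩, hfd⟩, hs⟩ := hy
      simp only [Prod.mk.injEq] at hxy
      obtain ⟨u, hu⟩ := SCoverD_toNat hq hxy.1
      obtain ⟨v, hv⟩ := SCoverD_toNat hq hxy.2
      obtain ⟨g, hg⟩ := hed
      obtain ⟨g', hg'⟩ := hfd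
      have hd : (q : ℤ) ∣ 2 * D * ((t : ℤ) - s) := by
        refine ⟨2 * (a.1 * u + D * a.2 * v) - g + g' + 2 * D * ((t : ℤ) - s) * k, ?_⟩
        have h1 : 2 * (a.1 * ((e1 : ℤ) - f1 + ((t : ℤ) - s) * (D * c1)) +
            D * a.2 * ((e2 : ℤ) - f2 + ((t : ℤ) - s) * c2)) =
            q * (2 * (a.1 * u + D * a.2 * v)) := by
          linear_combination 2 * a.1 * hu + 2 * D * a.2 * hv
        linear_combination h1 - hg + hg' - 2 * D * ((t : ℤ) - s) * hb
      have hts : t = s := by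
        obtain ⟨w, hw⟩ := hd
        have hw0 : w = 0 := by
          by_contra hne
          have h5 : (q : ℤ) ≤ |(q : ℤ) * w| := by
            rw [abs_mul, abs_of_nonneg (by omega : (0 : ℤ) ≤ q)]
            have := Int.one_le_abs hne
            nlinarith
          rw [← hw] at h5
          have h6 : |2 * (D : ℤ) * ((t : ℤ) - s)| < q := by
            have g1 : 2 * (D : ℤ) * t < q := by exact_mod_cast hT2 t ht
            have g2 : 2 * (D : ℤ) * s < q := by exact_mod_cast hT2 s hs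
            have g3 : 0 ≤ 2 * (D : ℤ) * t := by positivity
            have g4 : 0 ≤ 2 * (D : ℤ) * s := by positivity
            rw [abs_lt]
            constructor <;> linarith
          omega
        rw [hw0, mul_zero] at hw
        have h7 : (t : ℤ) - s = 0 := by
          rcases mul_eq_zero.1 hw with h | h
          · omega
          · exact h
        omega
      subst hts
      have h7 : (e1 : ℤ) - f1 = q * u := by linear_combination hu
      have h8 : (e2 : ℤ) - f2 = q * v := by linear_combination hv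
      have h9 : ∀ (x y : ℕ) (w : ℤ), x < q → y < q → (x : ℤ) - y = q * w → x = y := by
        intro x y w hx hy hw
        have hw0 : w = 0 := by
          by_contra hne
          have h5 : (q : ℤ) ≤ |(q : ℤ) * w| := by
            rw [abs_mul, abs_of_nonneg (by omega : (0 : ℤ) ≤ q)]
            have := Int.one_le_abs hne
            nlinarith
          rw [← hw] at h5
          have h6 : |(x : ℤ) - y| < q := by
            rw [abs_lt]
            constructor <;> omega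
          omega
        rw [hw0] at hw
        omega
      rw [h9 e1 f1 u he1 hf1 h7, h9 e2 f2 v he2 hf2 h8]
  rw [card_product, card_product, card_range, card_range] at hcard
  have hTpos : 0 < T := by
    rw [hT]
    exact Nat.succ_pos _
  have h10 : S.card * T ≤ 2 * D * q * T := by
    calc S.card * T ≤ q * q := hcard
      _ ≤ (2 * D * T) * q := Nat.mul_le_mul_right _ hT1
      _ = 2 * D * q * T := by ring
  exact Nat.le_of_mul_le_mul_right h10 hTpos

theorem SCoverD_blocks {K : ℝ} {l E : ℕ} (hl : 1 ≤ l) (hEl : (E : ℝ) ≤ l * K) {x : ℤ}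
    (hx : |x| < 2 * E) : x / l ∈ Finset.Icc (-((⌊2 * K⌋₊ : ℤ) + 1)) ((⌊2 * K⌋₊ : ℤ) + 1) := by
  have hl' : (0 : ℤ) < l := by exact_mod_cast hl
  have hlr : (0 : ℝ) < l := by exact_mod_cast hl
  obtain ⟨h1, h2⟩ := abs_lt.1 hx
  have h3 : (x : ℝ) < 2 * E := by exact_mod_cast h2
  have h4 : -(2 * (E : ℝ)) < x := by exact_mod_cast h1
  have h5 : (l : ℤ) * (x / l) ≤ x := Int.mul_ediv_self_le (by omega)
  have h6 : x < (l : ℤ) * (x / l) + l := Int.lt_mul_ediv_self_add hl'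
  have h7 : (l : ℝ) * ((x / l : ℤ) : ℝ) ≤ x := by exact_mod_cast h5
  have h8 : (x : ℝ) < (l : ℝ) * ((x / l : ℤ) : ℝ) + l := by exact_mod_cast h6
  have h9 : ((x / l : ℤ) : ℝ) < 2 * K := by
    by_contra hc
    have := mul_le_mul_of_nonneg_left (not_lt.1 hc) hlr.le
    nlinarith
  have h10 : -(((x / l : ℤ) : ℝ)) < 2 * K + 1 := by
    by_contra hc
    have := mul_le_mul_of_nonneg_left (not_lt.1 hc) hlr.le
    nlinarith
  have h11 : (2 : ℝ) * K < (⌊2 * K⌋₊ : ℝ) + 1 := Nat.lt_floor_add_one _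
  have h12 : (((x / l : ℤ)) : ℝ) < (⌊2 * K⌋₊ : ℝ) + 1 := h9.trans h11
  have h13 : -(((x / l : ℤ)) : ℝ) < (⌊2 * K⌋₊ : ℝ) + 2 := by linarith
  have h14 : (x / l : ℤ) < (⌊2 * K⌋₊ : ℤ) + 1 := by exact_mod_cast h12
  have h15 : -(x / l : ℤ) < (⌊2 * K⌋₊ : ℤ) + 2 := by exact_mod_cast h13
  rw [Finset.mem_Icc]
  constructor <;> omega

theorem SCoverD_card {K : ℝ} (hK : 1 ≤ K) :
    ((Finset.Icc (-((⌊2 * K⌋₊ : ℤ) + 1)) ((⌊2 * K⌋₊ : ℤ) + 1)).card : ℝ) ≤ 7 * K := by
  rw [Int.card_Icc]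
  have h1 : ((⌊2 * K⌋₊ : ℤ) + 1 + 1 - (-((⌊2 * K⌋₊ : ℤ) + 1))).toNat = 2 * ⌊2 * K⌋₊ + 3 := by omega
  rw [h1]
  have h2 : (⌊2 * K⌋₊ : ℝ) ≤ 2 * K := Nat.floor_le (by linarith)
  push_cast
  linarith

/-- the covering when the first coordinate of `a` dominates -/
theorem SCoverD_strip {b c M : ℝ} {K : ℝ} {l E R : ℕ} (hK : 1 ≤ K) (hl : 1 ≤ l)
    (hEl : (E : ℝ) ≤ l * K) (hb : 0 < |b|) (hcb : |c| ≤ |b|) (hM : M ≤ R * l * |b|) :
    ∃ U : Finset (ℤ × ℤ), (U.card : ℝ) ≤ 7 * (2 * R + 3) * K ∧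
      ∀ e : ℤ × ℤ, |e.2| < 2 * E → |b * e.1 + c * e.2| ≤ M →
        ∃ u ∈ U, u.1 ≤ e.1 ∧ e.1 < u.1 + l ∧ u.2 ≤ e.2 ∧ e.2 < u.2 + l := by
  have hl' : (0 : ℤ) < l := by exact_mod_cast hl
  have hlr : (0 : ℝ) < l := by exact_mod_cast hl
  have hb0 : b ≠ 0 := by
    intro h
    rw [h, abs_zero] at hb
    exact lt_irrefl _ hb
  set J := Finset.Icc (-((⌊2 * K⌋₊ : ℤ) + 1)) ((⌊2 * K⌋₊ : ℤ) + 1) with hJ
  set U : Finset (ℤ × ℤ) := (J ×ˢ Finset.range (2 * R + 3)).image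
    (fun p => (⌊-(c / b) * ((p.1 : ℝ) * l)⌋ - (R + 1) * l + p.2 * l, p.1 * l)) with hU
  refine ⟨U, ?_, ?_⟩
  · have h1 : U.card ≤ J.card * (2 * R + 3) := by
      refine Finset.card_image_le.trans ?_
      rw [card_product, card_range]
    have h2 : (U.card : ℝ) ≤ J.card * (2 * R + 3) := by exact_mod_cast h1
    have h3 := SCoverD_card hK
    rw [← hJ] at h3
    have h4 : (J.card : ℝ) * (2 * R + 3) ≤ 7 * K * (2 * R + 3) :=
      mul_le_mul_of_nonneg_right h3 (by positivity)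
    linarith
  · rintro ⟨x, y⟩ hy hxy
    simp only at hy hxy
    have hj := SCoverD_blocks hl hEl hy
    rw [← hJ] at hj
    set j := y / (l : ℤ) with hjdef
    have h5 : (l : ℤ) * j ≤ y := Int.mul_ediv_self_le (by omega)
    have h6 : y < (l : ℤ) * j + l := Int.lt_mul_ediv_self_add hl'
    have h7 : (l : ℝ) * (j : ℝ) ≤ y := by exact_mod_cast h5
    have h8 : (y : ℝ) < (l : ℝ) * (j : ℝ) + l := by exact_mod_cast h6
    set r := -(c / b) * ((j : ℝ) * l) with hr
    have hcb1 : |c / b| ≤ 1 := by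
      rw [abs_div]
      exact (div_le_one hb).2 hcb
    have hxr : |(x : ℝ) - r| ≤ (R + 1) * l := by
      have e1 : (x : ℝ) - r = (b * x + c * y) / b - (c / b) * ((y : ℝ) - l * j) := by
        rw [hr]
        field_simp
        ring
      rw [e1]
      have e2 : |(b * x + c * y) / b| ≤ R * l := by
        rw [abs_div, div_le_iff₀ hb]
        exact hxy.trans hM
      have e3 : |(c / b) * ((y : ℝ) - l * j)| ≤ l := by
        rw [abs_mul]
        have e4 : |(y : ℝ) - l * j| ≤ l := by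
          rw [abs_le]
          constructor <;> linarith
        calc |c / b| * |(y : ℝ) - l * j| ≤ 1 * l :=
              mul_le_mul hcb1 e4 (abs_nonneg _) zero_le_one
          _ = l := one_mul _
      calc |(b * x + c * y) / b - (c / b) * ((y : ℝ) - l * j)|
          ≤ |(b * x + c * y) / b| + |(c / b) * ((y : ℝ) - l * j)| := abs_sub _ _
        _ ≤ (R + 1) * l := by linarith
    obtain ⟨hx1, hx2⟩ := abs_le.1 hxr
    have hf1 : (⌊r⌋ : ℝ) ≤ r := Int.floor_le r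
    have hf2 : r < (⌊r⌋ : ℝ) + 1 := Int.lt_floor_add_one r
    have hlo : (⌊r⌋ : ℤ) - (R + 1) * l ≤ x := by
      have : ((⌊r⌋ - (R + 1) * l : ℤ) : ℝ) ≤ x := by push_cast; linarith
      exact_mod_cast this
    have hhi : x < (⌊r⌋ : ℤ) + 1 + (R + 1) * l := by
      have : (x : ℝ) < ((⌊r⌋ + 1 + (R + 1) * l : ℤ) : ℝ) := by push_cast; linarith
      exact_mod_cast this
    set w : ℤ := (⌊r⌋ : ℤ) - (R + 1) * l with hw
    set i : ℤ := (x - w) / l with hi
    have i1 : (l : ℤ) * i ≤ x - w := Int.mul_ediv_self_le (by omega)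
    have i2 : x - w < (l : ℤ) * i + l := Int.lt_mul_ediv_self_add hl'
    have i3 : 0 ≤ i := Int.ediv_nonneg (by linarith) hl'.le
    have i4 : i < 2 * R + 3 := by
      by_contra hc
      have : (l : ℤ) * (2 * R + 3) ≤ l * i := mul_le_mul_of_nonneg_left (not_lt.1 hc) hl'.le
      nlinarith
    refine ⟨(w + i.toNat * l, j * l), ?_, ?_⟩
    · rw [hU, mem_image]
      refine ⟨(j, i.toNat), ?_, ?_⟩
      · rw [mem_product, mem_range]
        refine ⟨hj, ?_⟩
        show i.toNat < 2 * R + 3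
        omega
      · rfl
    · have i5 : ((i.toNat : ℕ) : ℤ) = i := Int.toNat_of_nonneg i3
      simp only
      rw [i5]
      refine ⟨by linarith, by linarith, by linarith, by linarith⟩

/-- the directions of size `E` are covered by few squares of side `E / K`,
where `K = A / q` (up to constants) -/
theorem strip_coverD (D : ℕ) (hD : 1 ≤ D) : ∃ C : ℕ, ∀ (N : ℕ) (q : ℤ) (a : ℤ × ℤ) (E : ℕ),
    1 ≤ N → 1 ≤ q → 1 ≤ E → ∀ l : ℕ, 1 ≤ l → (q : ℝ) * E ≤ l * Aq N q a →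
    ∃ U : Finset (ℤ × ℤ), (U.card : ℝ) ≤ C * (Aq N q a / q) ∧
      ∀ e : ℤ × ℤ, SdD D N q a e → E ≤ sn e → sn e < 2 * E →
        ∃ u ∈ U, u.1 ≤ e.1 ∧ e.1 < u.1 + l ∧ u.2 ≤ e.2 ∧ e.2 < u.2 + l := by
  refine ⟨245 * D, ?_⟩
  intro N q a E hN hq hE l hl h1
  have hDr : (1 : ℝ) ≤ D := by exact_mod_cast hD
  have hD0 : (0 : ℝ) < D := by linarith
  have hNr : (0 : ℝ) < N := by exact_mod_cast hN
  have hqr : (0 : ℝ) < q := by exact_mod_cast (by omega : (0 : ℤ) < q)
  have hEr : (0 : ℝ) < E := by exact_mod_cast hE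
  have hlr : (0 : ℝ) < l := by exact_mod_cast hl
  have hl' : (0 : ℤ) < l := by exact_mod_cast hl
  have hA : Aq N q a = q + (sn a : ℝ) / N := rfl
  set A := Aq N q a with hAdef
  have hs0 : (0 : ℝ) ≤ (sn a : ℝ) / N := by positivity
  have hK : 1 ≤ A / q := by
    rw [one_le_div hqr]
    linarith
  have hEl : (E : ℝ) ≤ l * (A / q) := by
    rw [← mul_div_assoc, le_div_iff₀ hqr]
    linarith
  have hK0 : (0 : ℝ) ≤ A / q := by linarith
  have hcoord : ∀ e : ℤ × ℤ, sn e < 2 * E → |e.1| < 2 * (E : ℤ) ∧ |e.2| < 2 * (E : ℤ) := by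
    intro e he
    unfold sn at he
    rw [max_lt_iff] at he
    constructor
    · rw [Int.abs_eq_natAbs]
      exact_mod_cast he.1
    · rw [Int.abs_eq_natAbs]
      exact_mod_cast he.2
  by_cases hcase : (sn a : ℝ) ≤ 4 * D * (q * N)
  · -- few squares
    have hA5 : A / q ≤ 4 * D + 1 := by
      rw [div_le_iff₀ hqr, hA]
      have : (sn a : ℝ) / N ≤ 4 * D * q := by
        rw [div_le_iff₀ hNr]
        linarith
      linarith
    set J := Finset.Icc (-((⌊2 * (A / q)⌋₊ : ℤ) + 1)) ((⌊2 * (A / q)⌋₊ : ℤ) + 1) with hJ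
    refine ⟨(J ×ˢ J).image (fun p => (p.1 * l, p.2 * l)), ?_, ?_⟩
    · have h3 : ((J ×ˢ J).image (fun p : ℤ × ℤ => (p.1 * (l : ℤ), p.2 * (l : ℤ)))).card ≤
          J.card * J.card := by
        refine Finset.card_image_le.trans ?_
        rw [card_product]
      have h4 : (((J ×ˢ J).image (fun p : ℤ × ℤ => (p.1 * (l : ℤ), p.2 * (l : ℤ)))).card : ℝ) ≤
          J.card * J.card := by exact_mod_cast h3
      have h5 := SCoverD_card hK
      rw [← hJ] at h5
      have h6 : (J.card : ℝ) * J.card ≤ (7 * (4 * D + 1)) * (7 * (A / q)) := by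
        refine mul_le_mul ?_ h5 (by positivity) (by positivity)
        linarith
      have h7 : (7 * (4 * (D : ℝ) + 1)) * (7 * (A / q)) ≤ (245 * D) * (A / q) := by
        rw [← mul_assoc]
        refine mul_le_mul_of_nonneg_right ?_ hK0
        linarith
      push_cast
      linarith
    · intro e _ _ he
      obtain ⟨hx, hy⟩ := hcoord e he
      have hj1 := SCoverD_blocks hl hEl hx
      have hj2 := SCoverD_blocks hl hEl hy
      refine ⟨(e.1 / l * l, e.2 / l * l), ?_, ?_⟩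
      · rw [mem_image]
        exact ⟨(e.1 / l, e.2 / l), by rw [mem_product]; exact ⟨hj1, hj2⟩, rfl⟩
      · have a1 : (l : ℤ) * (e.1 / l) ≤ e.1 := Int.mul_ediv_self_le (by omega)
        have a2 : e.1 < (l : ℤ) * (e.1 / l) + l := Int.lt_mul_ediv_self_add hl'
        have a3 : (l : ℤ) * (e.2 / l) ≤ e.2 := Int.mul_ediv_self_le (by omega)
        have a4 : e.2 < (l : ℤ) * (e.2 / l) + l := Int.lt_mul_ediv_self_add hl'
        refine ⟨by linarith, by linarith, by linarith, by linarith⟩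
  · rw [not_le] at hcase
    have hsn : (0 : ℝ) < sn a := lt_of_le_of_lt (by positivity) hcase
    -- the strip condition
    have hM : 4 * D * (q * N) * (E : ℝ) ≤ 5 * D * l * (sn a : ℝ) := by
      -- `A ≤ 5 / 4 * sn a / N`
      have h3 : A * N ≤ 5 / 4 * sn a := by
        rw [hA, add_mul, div_mul_cancel₀ _ hNr.ne']
        have h30 : (q : ℝ) * N ≤ D * (q * N) := le_mul_of_one_le_left (by positivity) hDr
        linarith
      have h4 : (q : ℝ) * E * N ≤ l * A * N := mul_le_mul_of_nonneg_right h1 hNr.le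
      have h5 : (l : ℝ) * A * N ≤ l * (5 / 4 * sn a) := by
        rw [mul_assoc]
        exact mul_le_mul_of_nonneg_left h3 hlr.le
      have h6 : (4 * D : ℝ) * (q * E * N) ≤ (4 * D) * (l * (5 / 4 * sn a)) :=
        mul_le_mul_of_nonneg_left (h4.trans h5) (by positivity)
      calc 4 * D * (q * N) * (E : ℝ) = (4 * D : ℝ) * (q * E * N) := by ring
        _ ≤ (4 * D) * (l * (5 / 4 * sn a)) := h6
        _ = 5 * D * l * (sn a : ℝ) := by ring
    have hdot : ∀ e : ℤ × ℤ, SdD D N q a e → sn e < 2 * E →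
        |(a.1 : ℝ) * e.1 + (D * a.2 : ℝ) * e.2| ≤ 4 * D * (q * N) * (E : ℝ) := by
      intro e he hs
      have h3 := he.2
      have h4 : |(a.1 : ℝ) * e.1 + (D * a.2 : ℝ) * e.2| ≤ 2 * D * (q : ℝ) * N * sn e := by
        exact_mod_cast h3
      have h5 : (sn e : ℝ) ≤ 2 * E := by exact_mod_cast hs.le
      have h6 : 2 * D * (q : ℝ) * N * sn e ≤ 2 * D * (q : ℝ) * N * (2 * E) :=
        mul_le_mul_of_nonneg_left h5 (by positivity)
      linarith
    have hc91 : (7 * (2 * ((5 * D : ℕ) : ℝ) + 3)) * (A / q) ≤ ((245 * D : ℕ) : ℝ) * (A / q) := by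
      refine mul_le_mul_of_nonneg_right ?_ hK0
      push_cast
      linarith
    have hsa : (sn a : ℝ) ≤ max |(a.1 : ℝ)| |(D * a.2 : ℝ)| := by
      unfold sn
      rw [Nat.cast_max, Nat.cast_natAbs, Nat.cast_natAbs, Int.cast_abs, Int.cast_abs]
      refine max_le_max le_rfl ?_
      rw [abs_mul, abs_of_pos hD0]
      exact le_mul_of_one_le_left (abs_nonneg _) hDr
    rcases le_total |(D * a.2 : ℝ)| |(a.1 : ℝ)| with hle | hle
    · rw [max_eq_left hle] at hsa
      have hM' : 4 * D * (q * N) * (E : ℝ) ≤ ((5 * D : ℕ) : ℝ) * l * |(a.1 : ℝ)| := by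
        push_cast
        exact hM.trans (mul_le_mul_of_nonneg_left hsa (by positivity))
      obtain ⟨U, hU1, hU2⟩ := SCoverD_strip (b := (a.1 : ℝ)) (c := (D * a.2 : ℝ))
        (M := 4 * D * (q * N) * (E : ℝ)) (R := 5 * D) hK hl hEl (hsn.trans_le hsa) hle hM'
      refine ⟨U, hU1.trans hc91, ?_⟩
      intro e he _ hs
      exact hU2 e (hcoord e hs).2 (hdot e he hs)
    · rw [max_eq_right hle] at hsa
      have hM' : 4 * D * (q * N) * (E : ℝ) ≤ ((5 * D : ℕ) : ℝ) * l * |(D * a.2 : ℝ)| := by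
        push_cast
        exact hM.trans (mul_le_mul_of_nonneg_left hsa (by positivity))
      obtain ⟨U, hU1, hU2⟩ := SCoverD_strip (b := (D * a.2 : ℝ)) (c := (a.1 : ℝ))
        (M := 4 * D * (q * N) * (E : ℝ)) (R := 5 * D) hK hl hEl (hsn.trans_le hsa) hle hM'
      refine ⟨U.image Prod.swap, ?_, ?_⟩
      · have h3 : ((U.image Prod.swap).card : ℝ) ≤ U.card := by
          exact_mod_cast Finset.card_image_le
        exact h3.trans (hU1.trans hc91)
      · intro e he _ hs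
        obtain ⟨u, hu, u1, u2, u3, u4⟩ := hU2 (e.2, e.1) (hcoord e hs).1
          (by have := hdot e he hs; rw [add_comm] at this; exact this)
        exact ⟨(u.2, u.1), mem_image.2 ⟨u, hu, rfl⟩, u3, u4, u1, u2⟩

end Pool.Agent.DL
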