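import Pool.Agent.helper41.DL.EnergyD
import Pool.Agent.helper41.DL.IsoBD
import Pool.Agent.helper41.DL.CellLD
import Pool.Agent.helper41.DL.IrrD

/-! # The lower bound for the distances between a dense set of lattice points and an arbitrary set -/

set_option autoImplicit false
open scoped Classical

open Finset Pool.Agent.DG

namespace Pool.Agent.DL

/-- the number of the distances between `X` and `Y` -/
noncomputable def TrD (D : ℕ) (X : Finset (ℤ × ℤ)) (Y : Finset (ℝ × ℝ)) : ℕ :=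
  ((X ×ˢ Y).image (fun t => ((t.1.1 : ℝ) - t.2.1) ^ 2 + D * ((t.1.2 : ℝ) - t.2.2) ^ 2)).card

/-- the Cauchy-Schwarz inequality over the values of a function -/
theorem TBD_cs {X : Finset (ℤ × ℤ)} (f : ℤ × ℤ → ℕ) (g : ℕ → ℝ) :
    (∑ x ∈ X, g (f x)) ^ 2 ≤ ((X.image f).card : ℝ) *
      ∑ t ∈ (X ×ˢ X).filter (fun t => f t.1 = f t.2), g (f t.1) ^ 2 := by
  set r : ℕ → ℝ := fun m => ((X.filter (fun x => f x = m)).card : ℝ) with hr
  have h1 : ∑ x ∈ X, g (f x) = ∑ m ∈ X.image f, r m * g m := by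
    rw [Finset.sum_comp g f]
    refine Finset.sum_congr rfl fun m _ => ?_
    rw [nsmul_eq_mul]
  have h2 : ∑ x ∈ X, r (f x) * g (f x) ^ 2 = ∑ m ∈ X.image f, (r m * g m) ^ 2 := by
    rw [Finset.sum_comp (fun m => r m * g m ^ 2) f]
    refine Finset.sum_congr rfl fun m _ => ?_
    rw [nsmul_eq_mul]
    simp only [hr]
    ring
  have h3 : ∑ t ∈ (X ×ˢ X).filter (fun t => f t.1 = f t.2), g (f t.1) ^ 2 =
      ∑ x ∈ X, r (f x) * g (f x) ^ 2 := by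
    rw [Finset.sum_filter, Finset.sum_product]
    refine Finset.sum_congr rfl fun x _ => ?_
    rw [← Finset.sum_filter]
    have e : X.filter (fun y => f x = f y) = X.filter (fun y => f y = f x) :=
      Finset.filter_congr fun y _ => ⟨fun h => h.symm, fun h => h.symm⟩
    show ∑ y ∈ X.filter (fun y => f x = f y), g (f x) ^ 2 = _
    rw [e, Finset.sum_const, nsmul_eq_mul]
  rw [h1, h3, h2]
  exact sq_sum_le_card_mul_sum_sq

/-- the Cauchy-Schwarz inequality for one point -/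
theorem TBD_point (D : ℕ) (g : ℕ → ℝ) (N : ℕ) (q : ℤ) (a : ℤ × ℤ) (hq : 1 ≤ q)
    (X : Finset (ℤ × ℤ)) (hX : X ⊆ Bx N) (Y : Finset (ℝ × ℝ))
    (hy : ((a.1 : ℝ) / q, (a.2 : ℝ) / q) ∈ Y) :
    (∑ x ∈ X, g (nsqD D (qv q a x))) ^ 2 ≤ TrD D X Y *
      ∑ t ∈ IsoD D N q a, g (nsqD D (qv q a t.1)) ^ 2 := by
  have hq0 : (q : ℝ) ≠ 0 := by
    have : (q : ℤ) ≠ 0 := by omega
    exact_mod_cast this
  refine (TBD_cs (fun x => nsqD D (qv q a x)) g).trans ?_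
  have hS : 0 ≤ ∑ t ∈ (X ×ˢ X).filter (fun t => nsqD D (qv q a t.1) = nsqD D (qv q a t.2)),
      g (nsqD D (qv q a t.1)) ^ 2 := Finset.sum_nonneg fun _ _ => sq_nonneg _
  refine mul_le_mul ?_ ?_ hS (Nat.cast_nonneg _)
  · unfold TrD
    rw [Nat.cast_le]
    have e : ((X.image (fun x => nsqD D (qv q a x))).image (fun m : ℕ => (m : ℝ) / (q : ℝ) ^ 2)) ⊆
        (X ×ˢ Y).image (fun t => ((t.1.1 : ℝ) - t.2.1) ^ 2 + D * ((t.1.2 : ℝ) - t.2.2) ^ 2) := by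
      intro v hv
      rw [Finset.mem_image] at hv
      obtain ⟨m, hm, rfl⟩ := hv
      rw [Finset.mem_image] at hm
      obtain ⟨x, hx, rfl⟩ := hm
      rw [Finset.mem_image]
      refine ⟨(x, ((a.1 : ℝ) / q, (a.2 : ℝ) / q)), Finset.mem_product.2 ⟨hx, hy⟩, ?_⟩
      have h1 : ((nsqD D (qv q a x) : ℕ) : ℤ) = (q * x.1 - a.1) ^ 2 + D * (q * x.2 - a.2) ^ 2 := by
        unfold nsqD qv
        rw [Int.natCast_natAbs, abs_of_nonneg (by positivity)]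
      have h2 : ((nsqD D (qv q a x) : ℕ) : ℝ) =
          ((q : ℝ) * x.1 - a.1) ^ 2 + D * ((q : ℝ) * x.2 - a.2) ^ 2 := by
        exact_mod_cast h1
      show ((x.1 : ℝ) - (a.1 : ℝ) / q) ^ 2 + D * ((x.2 : ℝ) - (a.2 : ℝ) / q) ^ 2 =
        ((nsqD D (qv q a x) : ℕ) : ℝ) / (q : ℝ) ^ 2
      rw [h2]
      field_simp
    refine le_trans (le_of_eq ?_) (Finset.card_le_card e)
    refine (Finset.card_image_of_injective _ ?_).symm
    intro m m' hmm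
    have hmm' : (m : ℝ) / (q : ℝ) ^ 2 = (m' : ℝ) / (q : ℝ) ^ 2 := hmm
    have h3 : (m : ℝ) = m' := by
      have hq2 : (q : ℝ) ^ 2 ≠ 0 := pow_ne_zero _ hq0
      rwa [div_left_inj' hq2] at hmm'
    exact_mod_cast h3
  · refine Finset.sum_le_sum_of_subset_of_nonneg ?_ fun _ _ _ => sq_nonneg _
    unfold IsoD
    intro t ht
    rw [Finset.mem_filter, Finset.mem_product] at ht ⊢
    exact ⟨⟨hX ht.1.1, hX ht.1.2⟩, ht.2⟩

/-- lowest terms -/
theorem TBD_low (q : ℤ) (a : ℤ × ℤ) (hq : 1 ≤ q) : ∃ k : ℤ × (ℤ × ℤ), Low k.1 k.2 ∧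
    (a.1 : ℝ) / q = (k.2.1 : ℝ) / k.1 ∧ (a.2 : ℝ) / q = (k.2.2 : ℝ) / k.1 := by
  set g : ℤ := gcd q (gcd a.1 a.2) with hg
  have hg1 : g ∣ q := gcd_dvd_left _ _
  have hg2 : g ∣ a.1 := (gcd_dvd_right _ _).trans (gcd_dvd_left _ _)
  have hg3 : g ∣ a.2 := (gcd_dvd_right _ _).trans (gcd_dvd_right _ _)
  have hg0 : 0 ≤ g := by
    rw [hg, ← Int.coe_gcd]
    exact Int.natCast_nonneg _
  have hgne : g ≠ 0 := by
    intro h
    rw [h] at hg1
    have := zero_dvd_iff.1 hg1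
    omega
  have hgpos : 0 < g := lt_of_le_of_ne hg0 (Ne.symm hgne)
  obtain ⟨q', hq'⟩ := hg1
  obtain ⟨a1, ha1⟩ := hg2
  obtain ⟨a2, ha2⟩ := hg3
  have hq'1 : 1 ≤ q' := by
    by_contra hcon
    have : q' ≤ 0 := by omega
    have : g * q' ≤ 0 := mul_nonpos_of_nonneg_of_nonpos hg0 this
    omega
  refine ⟨(q', (a1, a2)), ⟨hq'1, ?_⟩, ?_, ?_⟩
  · intro d h1 h2 h3
    have e1 : g * d ∣ q := by rw [hq']; exact mul_dvd_mul_left _ h1
    have e2 : g * d ∣ a.1 := by rw [ha1]; exact mul_dvd_mul_left _ h2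
    have e3 : g * d ∣ a.2 := by rw [ha2]; exact mul_dvd_mul_left _ h3
    have e4 : g * d ∣ g := dvd_gcd e1 (dvd_gcd e2 e3)
    have e5 : d ∣ 1 := by
      have : g * d ∣ g * 1 := by rwa [mul_one]
      exact (mul_dvd_mul_iff_left hgne).1 this
    exact isUnit_of_dvd_one e5
  · have h1 : (g : ℝ) ≠ 0 := by exact_mod_cast hgne
    have h2 : (q' : ℝ) ≠ 0 := by
      have : q' ≠ 0 := by omega
      exact_mod_cast this
    show (a.1 : ℝ) / q = (a1 : ℝ) / q'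
    rw [hq', ha1]
    push_cast
    field_simp
  · have h1 : (g : ℝ) ≠ 0 := by exact_mod_cast hgne
    have h2 : (q' : ℝ) ≠ 0 := by
      have : q' ≠ 0 := by omega
      exact_mod_cast this
    show (a.2 : ℝ) / q = (a2 : ℝ) / q'
    rw [hq', ha2]
    push_cast
    field_simp

theorem TBD_wt_sq (I : Finset ℕ) (m : ℕ) : wt I (1 / 2) m ^ 2 = wt I (1 / 4) m := by
  unfold wt
  rw [← Finset.prod_pow]
  refine Finset.prod_congr rfl fun p _ => ?_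
  split_ifs <;> norm_num

/-- the bounds of cases 1 and 2 -/
theorem TBD_iso {T P Ci L R A : ℝ} (hT : 0 ≤ T) (hCi : 0 ≤ Ci) {κ : ℝ}
    (h1 : P ≤ T * (Ci * (1 + L / A))) (hR : 1 / 2 ≤ R) (h2 : L / A ≤ κ * R) :
    P ≤ (2 + κ) * Ci * T * R := by
  have h3 : 1 + L / A ≤ (2 + κ) * R := by nlinarith
  have h4 : T * (Ci * (1 + L / A)) ≤ T * (Ci * ((2 + κ) * R)) :=
    mul_le_mul_of_nonneg_left (mul_le_mul_of_nonneg_left h3 hCi) hT
  calc P ≤ T * (Ci * (1 + L / A)) := h1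
    _ ≤ T * (Ci * ((2 + κ) * R)) := h4
    _ = (2 + κ) * Ci * T * R := by ring

/-- the energy of a rational point in case 3 -/
theorem TBD_energy {lw L l A Q : ℝ} (hlw : 1 ≤ lw) (hL : lw ≤ L) (hl : 1 ≤ l) (hA : 1 ≤ A)
    (hQ : 0 ≤ Q) (h : lw ≤ Q * (l * A ^ 2)) :
    (lw / L) ^ (3 / 4 : ℝ) + lw ^ (3 / 2 : ℝ) / L ^ (1 / 2 : ℝ) / A ≤
      (lw / L) * ((1 + Real.sqrt Q) * Real.sqrt (L * l)) := by
  have hL0 : 0 < L := by linarith
  have hlw0 : 0 < lw := by linarith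
  have hs0 : 0 < lw / L := by positivity
  have hs1 : lw / L ≤ 1 := by rw [div_le_one hL0]; exact hL
  have hR : Real.sqrt L ≤ Real.sqrt (L * l) := Real.sqrt_le_sqrt (by nlinarith)
  have e1 : (lw / L) ^ (3 / 4 : ℝ) ≤ (lw / L) * Real.sqrt (L * l) := by
    have h1 : (lw / L) ^ (3 / 4 : ℝ) ≤ (lw / L) ^ (1 / 2 : ℝ) :=
      Real.rpow_le_rpow_of_exponent_ge hs0 hs1 (by norm_num)
    have h2 : (lw / L) ^ (1 / 2 : ℝ) ≤ (lw / L) * Real.sqrt L := by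
      rw [← Real.sqrt_eq_rpow]
      apply Real.sqrt_le_iff.2
      refine ⟨by positivity, ?_⟩
      rw [mul_pow, Real.sq_sqrt hL0.le]
      have : (lw / L) ^ 2 * L = lw / L * lw := by field_simp
      rw [this]
      nlinarith
    exact h1.trans (h2.trans (mul_le_mul_of_nonneg_left hR hs0.le))
  have e2 : lw ^ (3 / 2 : ℝ) / L ^ (1 / 2 : ℝ) / A ≤
      (lw / L) * (Real.sqrt Q * Real.sqrt (L * l)) := by
    have h1 : lw ^ (3 / 2 : ℝ) = lw * Real.sqrt lw := by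
      rw [Real.sqrt_eq_rpow, show (3 / 2 : ℝ) = 1 + 1 / 2 by norm_num, Real.rpow_add hlw0,
        Real.rpow_one]
    have h2 : L ^ (1 / 2 : ℝ) = Real.sqrt L := by rw [Real.sqrt_eq_rpow]
    have h3 : Real.sqrt lw ≤ Real.sqrt Q * Real.sqrt l * A := by
      apply Real.sqrt_le_iff.2
      refine ⟨by positivity, ?_⟩
      rw [mul_pow, mul_pow, Real.sq_sqrt hQ, Real.sq_sqrt (by linarith)]
      linarith
    have hsL : 0 < Real.sqrt L := Real.sqrt_pos.2 hL0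
    have hA0 : 0 < A := by linarith
    have hLL : Real.sqrt L * Real.sqrt L = L := Real.mul_self_sqrt hL0.le
    rw [h1, h2, Real.sqrt_mul hL0.le]
    have h4 : lw * Real.sqrt lw / Real.sqrt L / A = (lw / L) * (Real.sqrt L * (Real.sqrt lw / A)) := by
      field_simp
      rw [sq, hLL]
    rw [h4]
    refine mul_le_mul_of_nonneg_left ?_ hs0.le
    have h5 : Real.sqrt lw / A ≤ Real.sqrt Q * Real.sqrt l := by
      rw [div_le_iff₀ hA0]
      exact h3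
    calc Real.sqrt L * (Real.sqrt lw / A) ≤ Real.sqrt L * (Real.sqrt Q * Real.sqrt l) :=
          mul_le_mul_of_nonneg_left h5 hsL.le
      _ = Real.sqrt Q * (Real.sqrt L * Real.sqrt l) := by ring
  calc _ ≤ (lw / L) * Real.sqrt (L * l) + (lw / L) * (Real.sqrt Q * Real.sqrt (L * l)) :=
        add_le_add e1 e2
    _ = _ := by ring

/-- the choice of the lower end of the sieve -/
theorem TBD_w {N C1 C4 Lq K A : ℝ} (hN : 1 ≤ N) (hC1 : 10 ≤ C1) (hC4 : 4 ≤ C4)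
    (hL1 : 1 ≤ Lq) (hL : Lq ≤ N ^ (1 / 200 : ℝ)) (hK1 : 1 ≤ K) (hK : K ≤ 4 * A)
    (hAK : A ≤ 4 * K) (hA : A ^ 2 ≤ Real.log N) (hA1 : 1 ≤ A)
    (hNB : C1 + 10240000 * C4 ≤ N ^ (1 / 60 : ℝ)) :
    max C1 (C4 * Lq * K ^ 3) ≤ N ^ (1 / 30 : ℝ) ∧ A ≤ max C1 (C4 * Lq * K ^ 3) ∧
    K ≤ max C1 (C4 * Lq * K ^ 3) ∧ A ^ 4 ≤ N ∧
    Real.log (max C1 (C4 * Lq * K ^ 3)) ≤
      (Real.log C1 + Real.log C4 + 13) * ((1 + Real.log Lq) * A ^ 2) := by
  set y : ℝ := N ^ (1 / 200 : ℝ) with hy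
  have hN0 : 0 ≤ N := by linarith
  have hy1 : 1 ≤ y := Real.one_le_rpow hN (by norm_num)
  have hlog : Real.log N ≤ 200 * y := by
    have := Real.log_le_rpow_div hN0 (show (0 : ℝ) < 1 / 200 by norm_num)
    rw [← hy] at this
    linarith
  have hlog0 : 0 ≤ Real.log N := Real.log_nonneg hN
  have hK3 : K ≤ K ^ 3 := by
    calc K = K ^ 1 := (pow_one K).symm
      _ ≤ K ^ 3 := pow_le_pow_right₀ hK1 (by norm_num)
  have hK34 : K ^ 3 ≤ K ^ 4 := pow_le_pow_right₀ hK1 (by norm_num)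
  have hK4 : K ^ 4 ≤ 256 * A ^ 4 := by
    calc K ^ 4 ≤ (4 * A) ^ 4 := pow_le_pow_left₀ (by linarith) hK 4
      _ = 256 * A ^ 4 := by ring
  have hA4 : A ^ 4 ≤ Real.log N ^ 2 := by
    have := pow_le_pow_left₀ (by positivity) hA 2
    calc A ^ 4 = (A ^ 2) ^ 2 := by ring
      _ ≤ _ := this
  have hl2 : Real.log N ^ 2 ≤ 40000 * y ^ 2 := by
    have := pow_le_pow_left₀ hlog0 hlog 2
    calc Real.log N ^ 2 ≤ (200 * y) ^ 2 := this
      _ = _ := by ring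
  have hK5 : K ^ 3 ≤ 10240000 * y ^ 2 := by linarith
  have h1 : C4 * Lq * K ^ 3 ≤ 10240000 * C4 * y ^ 3 := by
    have h2 : C4 * Lq ≤ C4 * y := mul_le_mul_of_nonneg_left hL (by linarith)
    calc C4 * Lq * K ^ 3 ≤ (C4 * y) * (10240000 * y ^ 2) :=
          mul_le_mul h2 hK5 (by positivity) (by positivity)
      _ = _ := by ring
  have hy3 : y ^ 3 ≤ N ^ (1 / 60 : ℝ) := by
    rw [hy, ← Real.rpow_natCast, ← Real.rpow_mul hN0]
    exact Real.rpow_le_rpow_of_exponent_le hN (by norm_num)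
  have hy31 : 1 ≤ y ^ 3 := one_le_pow₀ hy1
  have h30 : N ^ (1 / 60 : ℝ) * N ^ (1 / 60 : ℝ) = N ^ (1 / 30 : ℝ) := by
    rw [← Real.rpow_add (by linarith)]
    norm_num
  have hz0 : 0 ≤ N ^ (1 / 60 : ℝ) := Real.rpow_nonneg hN0 _
  have hw : max C1 (C4 * Lq * K ^ 3) ≤ N ^ (1 / 30 : ℝ) := by
    have h2 : (C1 + 10240000 * C4) * y ^ 3 ≤ N ^ (1 / 30 : ℝ) := by
      rw [← h30]
      exact mul_le_mul hNB hy3 (by positivity) hz0
    have h3 : 0 ≤ C4 * y ^ 3 := mul_nonneg (by linarith) (by linarith)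
    have h4 : 0 ≤ C1 * y ^ 3 := mul_nonneg (by linarith) (by linarith)
    have h5 : C1 * 1 ≤ C1 * y ^ 3 := mul_le_mul_of_nonneg_left hy31 (by linarith)
    refine max_le ?_ ?_
    · linarith
    · linarith
  have hCL : 4 ≤ C4 * Lq := by
    calc (4 : ℝ) = 4 * 1 := by norm_num
      _ ≤ C4 * Lq := mul_le_mul hC4 hL1 (by norm_num) (by linarith)
  have hCLK : 4 * K ≤ C4 * Lq * K ^ 3 := mul_le_mul hCL hK3 (by linarith) (by linarith)
  refine ⟨hw, ?_, ?_, ?_, ?_⟩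
  · exact le_trans (by linarith) (le_max_right _ _)
  · exact le_trans (by linarith) (le_max_right _ _)
  · -- `log N ^ 2 ≤ N`
    have h2 : y ^ 2 * y ≤ N ^ (1 / 60 : ℝ) := by
      calc y ^ 2 * y = y ^ 3 := by ring
        _ ≤ _ := hy3
    have h3 : 40000 * y ^ 2 ≤ N ^ (1 / 60 : ℝ) * N ^ (1 / 60 : ℝ) := by
      have h4 : (40000 : ℝ) ≤ N ^ (1 / 60 : ℝ) := by linarith
      have h5 : y ^ 2 ≤ N ^ (1 / 60 : ℝ) :=
        (le_mul_of_one_le_right (by positivity) hy1).trans h2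
      exact mul_le_mul h4 h5 (by positivity) hz0
    have h6 : N ^ (1 / 30 : ℝ) ≤ N := by
      calc N ^ (1 / 30 : ℝ) ≤ N ^ (1 : ℝ) := Real.rpow_le_rpow_of_exponent_le hN (by norm_num)
        _ = N := Real.rpow_one N
    linarith
  · have hA2 : 1 ≤ A ^ 2 := one_le_pow₀ hA1
    have hlC1 : 0 ≤ Real.log C1 := Real.log_nonneg (by linarith)
    have hlC4 : 0 ≤ Real.log C4 := Real.log_nonneg (by linarith)
    have hlL : 0 ≤ Real.log Lq := Real.log_nonneg hL1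
    have hlK : 0 ≤ Real.log K := Real.log_nonneg hK1
    have hlK2 : Real.log K ≤ 4 * A ^ 2 := by
      have h1 := Real.log_le_sub_one_of_pos (show 0 < K by linarith)
      have h2 : A ≤ A ^ 2 := by
        rw [sq]
        exact le_mul_of_one_le_left (by linarith) hA1
      linarith
    have e1 : Real.log (C4 * Lq * K ^ 3) = Real.log C4 + Real.log Lq + 3 * Real.log K := by
      rw [Real.log_mul (by positivity) (by positivity), Real.log_mul (by linarith) (by linarith),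
        Real.log_pow]
      push_cast
      ring
    have e2 : Real.log (max C1 (C4 * Lq * K ^ 3)) ≤
        Real.log C1 + (Real.log C4 + Real.log Lq + 3 * Real.log K) := by
      rcases max_choice C1 (C4 * Lq * K ^ 3) with h | h
      · rw [h]; linarith
      · rw [h, e1]; linarith
    refine e2.trans ?_
    have h1 : A ^ 2 ≤ (1 + Real.log Lq) * A ^ 2 :=
      le_mul_of_one_le_left (by positivity) (by linarith)
    have h2 : 1 + Real.log Lq ≤ (1 + Real.log Lq) * A ^ 2 :=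
      le_mul_of_one_le_right (by linarith) hA2
    have h3 : 1 ≤ (1 + Real.log Lq) * A ^ 2 := by linarith
    have h4 : (Real.log C1 + Real.log C4) * 1 ≤
        (Real.log C1 + Real.log C4) * ((1 + Real.log Lq) * A ^ 2) :=
      mul_le_mul_of_nonneg_left h3 (by linarith)
    linarith

/-- case 3: the sieve in a cell -/
theorem TBD_cell (D : ℕ) (hD : 1 ≤ D) : ∃ K3 : ℝ, 0 ≤ K3 ∧ ∃ B0 : ℝ, 1 ≤ B0 ∧
    ∀ (N : ℕ) (X : Finset (ℤ × ℤ)) (Y : Finset (ℝ × ℝ)) (ρ : ℝ × ℝ → ℤ × (ℤ × ℤ)),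
    2 ≤ N → X ⊆ Bx N → Y.Nonempty → Y.card ≤ X.card →
    (∀ y ∈ Y, Low (ρ y).1 (ρ y).2 ∧
      y = (((ρ y).2.1 : ℝ) / (ρ y).1, ((ρ y).2.2 : ℝ) / (ρ y).1)) →
    (∀ y ∈ Y, Aq N (ρ y).1 (ρ y).2 ^ 2 ≤ Real.log N) →
    B0 ≤ (N : ℝ) ^ (1 / 60 : ℝ) →
    (N : ℝ) ^ 2 / Y.card ≤ (N : ℝ) ^ (1 / 200 : ℝ) →
    1 ≤ (N : ℝ) ^ 2 / Y.card →
    ∃ y ∈ Y, (X.card : ℝ) ^ 2 / (N : ℝ) ^ 2 ≤ K3 * TrD D X {y} *
      Real.sqrt (Real.log N * (1 + Real.log ((N : ℝ) ^ 2 / Y.card))) := by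
  obtain ⟨c0, hc0, hpig⟩ := pigeon
  obtain ⟨Ce, C1e, hCe, hC1e, hen⟩ := energy_leD D hD
  obtain ⟨C1c, hC1c, hcell⟩ := cell_lowerD D hD
  obtain ⟨cV, hcV, hV⟩ := V_geD D hD
  set C1 : ℝ := max C1e C1c with hC1
  have hC110 : 10 ≤ C1 := hC1e.trans (le_max_left _ _)
  set C4 : ℝ := 40 / Real.sqrt c0 + 4 with hC4
  have hsc0 : 0 < Real.sqrt c0 := Real.sqrt_pos.2 hc0
  have hC44 : 4 ≤ C4 := by
    have : 0 < 40 / Real.sqrt c0 := by positivity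
    linarith
  set Q : ℝ := Real.log C1 + Real.log C4 + 13 with hQ
  have hQ0 : 0 ≤ Q := by
    have h1 : 0 ≤ Real.log C1 := Real.log_nonneg (by linarith)
    have h2 : 0 ≤ Real.log C4 := Real.log_nonneg (by linarith)
    linarith
  refine ⟨16 * Ce * (1 + Real.sqrt Q) / (30 * cV ^ 2), by positivity, C1 + 10240000 * C4,
    by linarith, ?_⟩
  intro N X Y ρ hN hX hYne hYX hρ hA hNB hL hL1
  have hN2 : (2 : ℝ) ≤ N := by exact_mod_cast hN
  have hN0 : (0 : ℝ) < N := by linarith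
  have hk0 : 0 < (Y.card : ℝ) := by exact_mod_cast hYne.card_pos
  have hkn : (Y.card : ℝ) ≤ (X.card : ℝ) := by exact_mod_cast hYX
  set n : ℝ := (X.card : ℝ) with hn
  set k : ℝ := (Y.card : ℝ) with hk
  have hn0 : 0 < n := lt_of_lt_of_le hk0 hkn
  -- the points as fractions
  have hinj : Set.InjOn ρ (Y : Set (ℝ × ℝ)) := by
    intro y hy y' hy' h
    rw [(hρ y hy).2, (hρ y' hy').2, h]
  set Y' : Finset (ℤ × (ℤ × ℤ)) := Y.image ρ with hY'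
  have hY'card : (Y'.card : ℝ) = k := by
    rw [hY', Finset.card_image_of_injOn hinj]
  have hY'ne : Y'.Nonempty := hYne.image ρ
  have hY'low : ∀ k ∈ Y', Low k.1 k.2 ∧ ((k.2.1 : ℝ) / k.1, (k.2.2 : ℝ) / k.1) ∈ Y ∧
      Aq N k.1 k.2 ^ 2 ≤ Real.log N := by
    intro k hk
    rw [hY', Finset.mem_image] at hk
    obtain ⟨y, hy, rfl⟩ := hk
    refine ⟨(hρ y hy).1, ?_, hA y hy⟩
    rw [← (hρ y hy).2]
    exact hy
  obtain ⟨q, r, u, hq, hcard⟩ := hpig N Y' (by omega) hY'ne (fun k hk => (hY'low k hk).1.1)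
  set Yc : Finset (ℤ × (ℤ × ℤ)) := Y'.filter (fun y => Cell N q r u y) with hYc
  set K : ℝ := (q : ℝ) * (1 + sn u) with hK
  have hq1 : (1 : ℝ) ≤ q := by exact_mod_cast hq
  have hsn0 : (0 : ℝ) ≤ sn u := Nat.cast_nonneg _
  have hK1 : 1 ≤ K := by
    rw [hK]
    nlinarith
  have hqK : (q : ℝ) ≤ K := by
    rw [hK]
    nlinarith
  have hK0 : 0 < K := by linarith
  have hYc0 : 0 < (Yc.card : ℝ) := by
    refine lt_of_lt_of_le ?_ hcard
    rw [hY'card]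
    exact mul_pos hc0 (div_pos hk0 (pow_pos hK0 6))
  have hYcne : Yc.Nonempty := by
    rw [← Finset.card_pos]
    exact_mod_cast hYc0
  have hYcmem : ∀ y ∈ Yc, y ∈ Y' ∧ Cell N q r u y := fun y hy => Finset.mem_filter.1 hy
  -- the size of the points
  have hsize : ∀ y ∈ Yc, 1 ≤ Aq N q y.2 ∧ K ≤ 4 * Aq N q y.2 ∧ Aq N q y.2 ≤ 4 * K ∧
      Aq N q y.2 ^ 2 ≤ Real.log N ∧ Low q y.2 ∧
      ((y.2.1 : ℝ) / q, (y.2.2 : ℝ) / q) ∈ Y := by
    intro y hy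
    obtain ⟨h1, h2⟩ := hYcmem y hy
    obtain ⟨h3, h4⟩ := Aq_cell (by omega) hq h2
    obtain ⟨h5, h6, h7⟩ := hY'low y h1
    have h8 : y.1 = q := h2.1
    rw [h8] at h5 h6 h7
    refine ⟨?_, h3, h4, h7, h5, h6⟩
    unfold Aq
    have : (0 : ℝ) ≤ (sn y.2 : ℝ) / N := by positivity
    linarith
  set Lq : ℝ := (N : ℝ) ^ 2 / k with hLq
  set w : ℝ := max C1 (C4 * Lq * K ^ 3) with hw
  obtain ⟨y0, hy0⟩ := hYcne
  obtain ⟨a1, a2, a3, a4, -, -⟩ := hsize y0 hy0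
  obtain ⟨w1, -, w3, -, -⟩ := TBD_w (N := (N : ℝ)) (by linarith) hC110 hC44 hL1 hL hK1 a2 a3 a4 a1 hNB
  have hwC1 : C1 ≤ w := le_max_left _ _
  have hw10 : 10 ≤ w := hC110.trans hwC1
  have hw30 : w ^ 30 ≤ N := by
    have h1 := pow_le_pow_left₀ (by linarith) w1 30
    refine h1.trans (le_of_eq ?_)
    rw [← Real.rpow_natCast, ← Real.rpow_mul hN0.le]
    norm_num
  have hwN : w ≤ N := by
    refine le_trans ?_ hw30
    calc w = w ^ 1 := (pow_one w).symm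
      _ ≤ w ^ 30 := pow_le_pow_right₀ (by linarith) (by norm_num)
  have hcond : 40 * (N : ℝ) ^ 2 ≤ w * Real.sqrt ((X.card : ℝ) * Yc.card) := by
    have h1 : k * (Real.sqrt c0 / K ^ 3) ≤ Real.sqrt ((X.card : ℝ) * Yc.card) := by
      apply Real.le_sqrt_of_sq_le
      rw [hY'card] at hcard
      calc (k * (Real.sqrt c0 / K ^ 3)) ^ 2 = k * (Real.sqrt c0 ^ 2 * (k / K ^ 6)) := by
            field_simp
        _ = k * (c0 * (k / K ^ 6)) := by rw [Real.sq_sqrt hc0.le]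
        _ ≤ k * Yc.card := mul_le_mul_of_nonneg_left hcard hk0.le
        _ ≤ n * Yc.card := mul_le_mul_of_nonneg_right hkn hYc0.le
    have h2 : C4 * Lq * K ^ 3 ≤ w := le_max_right _ _
    have hK3 : 0 < K ^ 3 := pow_pos hK0 3
    have h3 : C4 * Lq * K ^ 3 * (k * (Real.sqrt c0 / K ^ 3)) ≤
        w * Real.sqrt ((X.card : ℝ) * Yc.card) :=
      mul_le_mul h2 h1 (mul_pos hk0 (div_pos hsc0 hK3)).le (by linarith)
    have h4 : C4 * Lq * K ^ 3 * (k * (Real.sqrt c0 / K ^ 3)) = (C4 * Real.sqrt c0) * (N : ℝ) ^ 2 := by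
      rw [hLq]
      field_simp
    have h5 : 40 ≤ C4 * Real.sqrt c0 := by
      rw [hC4, add_mul, div_mul_cancel₀ _ hsc0.ne']
      linarith
    rw [h4] at h3
    exact le_trans (mul_le_mul_of_nonneg_right h5 (by positivity)) h3
  have hsum := hcell N w q r u X Yc hN (le_trans (le_max_right _ _) hwC1) hw30 hq (hqK.trans w3) hX
    (fun y hy => (hYcmem y hy).2) hcond
  set V : ℝ := ∏ p ∈ IND D N w, (1 - 1 / (p : ℝ)) with hVdef
  rw [Finset.sum_comm] at hsum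
  obtain ⟨y, hy, hyS⟩ : ∃ y ∈ Yc, (1 / 4) * n * V ≤
      ∑ x ∈ X, wt (IND D N w) (1 / 2) (nsqD D (qv q y.2 x)) := by
    by_contra hcon
    push Not at hcon
    have h1 := Finset.sum_lt_sum_of_nonempty ⟨y0, hy0⟩ hcon
    rw [Finset.sum_const, nsmul_eq_mul] at h1
    have h2 : (Yc.card : ℝ) * (1 / 4 * n * V) = 1 / 4 * (n * Yc.card) * V := by ring
    linarith
  obtain ⟨b1, b2, b3, b4, b5, b6⟩ := hsize y hy
  refine ⟨_, b6, ?_⟩
  obtain ⟨-, v2, -, v4, v5⟩ := TBD_w (N := (N : ℝ)) (by linarith) hC110 hC44 hL1 hL hK1 b2 b3 b4 b1 hNB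
  have hE := hen N w q y.2 hN (le_trans (le_max_left _ _) hwC1) hwN b5 v2 v4
  have hpt := TBD_point D (fun m => wt (IND D N w) (1 / 2) m) N q y.2 hq X hX
    {((y.2.1 : ℝ) / q, (y.2.2 : ℝ) / q)} (Finset.mem_singleton_self _)
  simp only [TBD_wt_sq] at hpt
  set T : ℝ := (TrD D X {((y.2.1 : ℝ) / q, (y.2.2 : ℝ) / q)} : ℝ) with hT
  have hT0 : 0 ≤ T := Nat.cast_nonneg _
  set lw : ℝ := Real.log w with hlw
  set ℓ : ℝ := Real.log N with hℓ
  set A : ℝ := Aq N q y.2 with hAdef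
  have hlw1 : 1 ≤ lw := by
    rw [hlw, Real.le_log_iff_exp_le (by linarith)]
    exact Real.exp_one_lt_d9.le.trans (by linarith)
  have hlwl : lw ≤ ℓ := Real.log_le_log (by linarith) hwN
  have hℓ0 : 0 < ℓ := by linarith
  have hl1 : 1 ≤ 1 + Real.log Lq := by
    have := Real.log_nonneg hL1
    linarith
  have hen2 := TBD_energy hlw1 hlwl hl1 b1 hQ0 v5
  set R : ℝ := Real.sqrt (ℓ * (1 + Real.log Lq)) with hR
  have hV1 := hV w ((N : ℝ) ^ (1 / 30 : ℝ)) (by linarith) w1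
  have hVV : V = ∏ p ∈ ID D w ((N : ℝ) ^ (1 / 30 : ℝ)), (1 - 1 / (p : ℝ)) := rfl
  rw [← hVV] at hV1
  have hs0 : 0 < lw / ℓ := by positivity
  have hV2 : 30 * cV ^ 2 * (lw / ℓ) ≤ V ^ 2 := by
    have h1 := pow_le_pow_left₀ (by positivity) hV1 2
    rw [mul_pow, Real.log_rpow hN0, Real.sq_sqrt (by positivity)] at h1
    refine le_trans (le_of_eq ?_) h1
    rw [← hℓ, ← hlw]
    field_simp
  -- conclusion
  have hV0 : 0 ≤ V := le_trans (by positivity) hV1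
  have g1 : (1 / 4 * n * V) ^ 2 ≤ T * (Ce * (N : ℝ) ^ 2 *
      ((lw / ℓ) * ((1 + Real.sqrt Q) * R))) := by
    refine (pow_le_pow_left₀ (mul_nonneg (by linarith) hV0) hyS 2).trans (hpt.trans ?_)
    refine mul_le_mul_of_nonneg_left ?_ hT0
    refine hE.trans ?_
    exact mul_le_mul_of_nonneg_left hen2 (by positivity)
  have g2 : (1 / 16) * n ^ 2 * (30 * cV ^ 2 * (lw / ℓ)) ≤ T * (Ce * (N : ℝ) ^ 2 *
      ((lw / ℓ) * ((1 + Real.sqrt Q) * R))) := by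
    refine le_trans ?_ g1
    have : (1 / 4 * n * V) ^ 2 = (1 / 16) * n ^ 2 * V ^ 2 := by ring
    rw [this]
    exact mul_le_mul_of_nonneg_left hV2 (mul_nonneg (by norm_num) (sq_nonneg n))
  have g3 : (1 / 16) * n ^ 2 * (30 * cV ^ 2) ≤ T * (Ce * (N : ℝ) ^ 2 *
      ((1 + Real.sqrt Q) * R)) := by
    refine le_of_mul_le_mul_right ?_ hs0
    calc (1 / 16) * n ^ 2 * (30 * cV ^ 2) * (lw / ℓ) =
          (1 / 16) * n ^ 2 * (30 * cV ^ 2 * (lw / ℓ)) := by ring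
      _ ≤ _ := g2
      _ = _ := by ring
  rw [div_le_iff₀ (by positivity)]
  have g4 : 16 * Ce * (1 + Real.sqrt Q) / (30 * cV ^ 2) * T * R * (N : ℝ) ^ 2 =
      (T * (Ce * (N : ℝ) ^ 2 * ((1 + Real.sqrt Q) * R))) * (16 / (30 * cV ^ 2)) := by
    field_simp
  rw [g4]
  have g5 : n ^ 2 = ((1 / 16) * n ^ 2 * (30 * cV ^ 2)) * (16 / (30 * cV ^ 2)) := by
    field_simp
  rw [g5]
  exact mul_le_mul_of_nonneg_right g3 (by positivity)

theorem TBD_card_Bx (N : ℕ) : (Bx N).card = N ^ 2 := by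
  unfold Bx
  rw [Finset.card_product, Int.card_Ico]
  simp [sq]

theorem TBD_main (D : ℕ) (hD : 1 ≤ D) : ∃ Kt : ℝ, 0 < Kt ∧
    ∀ (N : ℕ) (X : Finset (ℤ × ℤ)) (Y : Finset (ℝ × ℝ)),
    2 ≤ N → X ⊆ Bx N → Y.Nonempty → Y.card ≤ X.card →
    ∃ y ∈ Y, (X.card : ℝ) ^ 2 / (N : ℝ) ^ 2 ≤ Kt * TrD D X {y} *
      Real.sqrt (Real.log N * (1 + Real.log ((N : ℝ) ^ 2 / Y.card))) := by
  obtain ⟨Ci, hCi, hiso⟩ := iso_leD D hD
  obtain ⟨K3, hK3, B0, hB0, hcell⟩ := TBD_cell D hD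
  set κ : ℝ := 15 + 120 * Real.log B0 with hκ
  have hlB0 : 0 ≤ Real.log B0 := Real.log_nonneg hB0
  refine ⟨4 + (2 + κ) * Ci + K3, by positivity, ?_⟩
  intro N X Y hN hX hYne hYX
  have hN2 : (2 : ℝ) ≤ N := by exact_mod_cast hN
  have hN0 : (0 : ℝ) < N := by linarith
  have hk0 : 0 < (Y.card : ℝ) := by exact_mod_cast hYne.card_pos
  have hkn : (Y.card : ℝ) ≤ (X.card : ℝ) := by exact_mod_cast hYX
  have hnN : (X.card : ℝ) ≤ (N : ℝ) ^ 2 := by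
    have := Finset.card_le_card hX
    rw [TBD_card_Bx] at this
    exact_mod_cast this
  have hℓ : 1 / 4 ≤ Real.log N := by
    have h1 : Real.log 2 ≤ Real.log N := Real.log_le_log (by norm_num) hN2
    have h2 := Real.log_two_gt_d9
    linarith
  have hL1 : 1 ≤ (N : ℝ) ^ 2 / Y.card := by
    rw [le_div_iff₀ hk0, one_mul]
    exact hkn.trans hnN
  have hn0 : 0 < (X.card : ℝ) := lt_of_lt_of_le hk0 hkn
  set n : ℝ := (X.card : ℝ) with hn
  set Lq : ℝ := (N : ℝ) ^ 2 / Y.card with hLq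
  set ℓ : ℝ := Real.log N with hldef
  have hlogL : 0 ≤ Real.log Lq := Real.log_nonneg hL1
  set R : ℝ := Real.sqrt (ℓ * (1 + Real.log Lq)) with hR
  have hR1 : Real.sqrt ℓ ≤ R := Real.sqrt_le_sqrt (le_mul_of_one_le_right (by linarith) (by linarith))
  have hR2 : 1 / 2 ≤ R := by
    refine le_trans ?_ hR1
    apply Real.le_sqrt_of_sq_le
    norm_num
    linarith
  have hR0 : 0 ≤ R := by linarith
  have hc2 : 0 ≤ (2 + κ) * Ci := by positivity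
  -- it is enough to bound by one of the constants
  have hfin : ∀ (y : ℝ × ℝ) (k : ℝ), k ≤ 4 + (2 + κ) * Ci + K3 →
      n ^ 2 / (N : ℝ) ^ 2 ≤ k * TrD D X {y} * R →
      n ^ 2 / (N : ℝ) ^ 2 ≤ (4 + (2 + κ) * Ci + K3) * TrD D X {y} * R := by
    intro y k hk h
    refine h.trans ?_
    rw [mul_assoc, mul_assoc]
    exact mul_le_mul_of_nonneg_right hk (mul_nonneg (Nat.cast_nonneg _) hR0)
  by_cases h0 : ∃ y ∈ Y, ¬ ∃ (q : ℤ) (a : ℤ × ℤ), 1 ≤ q ∧ y.1 = (a.1 : ℝ) / q ∧ y.2 = (a.2 : ℝ) / q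
  · obtain ⟨y, hy, hirr⟩ := h0
    refine ⟨y, hy, ?_⟩
    have h1 := irr_fiberD D hD y hirr X
    have h2 : (X.image (fun x => ((x.1 : ℝ) - y.1) ^ 2 + D * ((x.2 : ℝ) - y.2) ^ 2)).card ≤
        TrD D X {y} := by
      unfold TrD
      refine Finset.card_le_card ?_
      intro v hv
      rw [Finset.mem_image] at hv ⊢
      obtain ⟨x, hx, rfl⟩ := hv
      exact ⟨(x, y), Finset.mem_product.2 ⟨hx, Finset.mem_singleton_self _⟩, rfl⟩
    have h3 : n ≤ 2 * (TrD D X {y} : ℝ) := by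
      have h4 : X.card ≤ 2 * TrD D X {y} := h1.trans (Nat.mul_le_mul_left 2 h2)
      have h5 : ((X.card : ℕ) : ℝ) ≤ ((2 * TrD D X {y} : ℕ) : ℝ) := Nat.cast_le.2 h4
      push_cast at h5
      exact h5
    refine hfin y 4 (by linarith) ?_
    have h5 : n ^ 2 / (N : ℝ) ^ 2 ≤ n := by
      rw [div_le_iff₀ (by positivity), sq]
      exact mul_le_mul_of_nonneg_left hnN hn0.le
    have h6 : (TrD D X {y} : ℝ) * (1 / 2) ≤ (TrD D X {y} : ℝ) * R :=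
      mul_le_mul_of_nonneg_left hR2 (Nat.cast_nonneg _)
    linarith
  push Not at h0
  have hex : ∀ y : ℝ × ℝ, ∃ k : ℤ × (ℤ × ℤ), y ∈ Y → Low k.1 k.2 ∧
      y = ((k.2.1 : ℝ) / k.1, (k.2.2 : ℝ) / k.1) := by
    intro y
    by_cases hy : y ∈ Y
    · obtain ⟨q, a, hq, e1, e2⟩ := h0 y hy
      obtain ⟨k, hk, f1, f2⟩ := TBD_low q a hq
      refine ⟨k, fun _ => ⟨hk, ?_⟩⟩
      rw [← f1, ← f2, ← e1, ← e2]
    · exact ⟨(0, (0, 0)), fun h => absurd h hy⟩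
  choose ρ hρ using hex
  have hA1 : ∀ y ∈ Y, 1 ≤ Aq N (ρ y).1 (ρ y).2 := by
    intro y hy
    have h1 : (1 : ℝ) ≤ (ρ y).1 := by exact_mod_cast (hρ y hy).1.1
    have h2 : (0 : ℝ) ≤ (sn (ρ y).2 : ℝ) / N := by positivity
    unfold Aq
    linarith
  have hP : ∀ y ∈ Y, n ^ 2 / (N : ℝ) ^ 2 ≤
      (TrD D X {y} : ℝ) * (Ci * (1 + ℓ / Aq N (ρ y).1 (ρ y).2)) := by
    intro y hy
    obtain ⟨h1, h2⟩ := hρ y hy
    have h3 := TBD_point D (fun _ => 1) N (ρ y).1 (ρ y).2 h1.1 X hX {y}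
      (by rw [← h2]; exact Finset.mem_singleton_self _)
    simp only [one_pow, Finset.sum_const, nsmul_eq_mul, mul_one] at h3
    have h4 := hiso N (ρ y).1 (ρ y).2 hN h1
    rw [div_le_iff₀ (by positivity)]
    calc n ^ 2 ≤ (TrD D X {y} : ℝ) * (IsoD D N (ρ y).1 (ρ y).2).card := h3
      _ ≤ (TrD D X {y} : ℝ) * (Ci * (N : ℝ) ^ 2 * (1 + ℓ / Aq N (ρ y).1 (ρ y).2)) :=
          mul_le_mul_of_nonneg_left h4 (Nat.cast_nonneg _)
      _ = _ := by ring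
  by_cases h1 : ∃ y ∈ Y, Real.sqrt ℓ ≤ Aq N (ρ y).1 (ρ y).2
  · obtain ⟨y, hy, hA⟩ := h1
    have h2 := TBD_iso (κ := κ) (Nat.cast_nonneg _) hCi.le (hP y hy) hR2 (by
      have h3 : ℓ / Aq N (ρ y).1 (ρ y).2 ≤ Real.sqrt ℓ := by
        have h4 := hA1 y hy
        rw [div_le_iff₀ (by linarith)]
        calc ℓ = Real.sqrt ℓ * Real.sqrt ℓ := (Real.mul_self_sqrt (by linarith)).symm
          _ ≤ _ := mul_le_mul_of_nonneg_left hA (Real.sqrt_nonneg _)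
      have h5 : 1 * R ≤ κ * R := mul_le_mul_of_nonneg_right (by linarith) hR0
      linarith)
    exact ⟨y, hy, hfin y _ (by linarith) h2⟩
  push Not at h1
  obtain ⟨y0, hy0⟩ := hYne
  have hbig : ℓ ≤ κ * R → ∃ y ∈ Y,
      n ^ 2 / (N : ℝ) ^ 2 ≤ (4 + (2 + κ) * Ci + K3) * TrD D X {y} * R := by
    intro h2
    refine ⟨y0, hy0, hfin y0 _ ?_ (TBD_iso (κ := κ) (Nat.cast_nonneg _) hCi.le (hP y0 hy0) hR2 ?_)⟩
    · linarith
    · have h4 := hA1 y0 hy0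
      exact (div_le_self (by linarith) h4).trans h2
  by_cases h2 : (N : ℝ) ^ (1 / 200 : ℝ) < Lq
  · apply hbig
    have h3 : ℓ / 200 ≤ Real.log Lq := by
      have := Real.log_le_log (Real.rpow_pos_of_pos hN0 _) h2.le
      rw [Real.log_rpow hN0] at this
      linarith
    have h4 : ℓ / 15 ≤ R := by
      apply Real.le_sqrt_of_sq_le
      have h5 : ℓ * (ℓ / 200) ≤ ℓ * (1 + Real.log Lq) :=
        mul_le_mul_of_nonneg_left (by linarith) (by linarith)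
      have h6 : (ℓ / 15) ^ 2 ≤ ℓ * (ℓ / 200) := by
        have : 0 ≤ ℓ ^ 2 := sq_nonneg _
        linarith [show (ℓ / 15) ^ 2 = ℓ ^ 2 / 225 by ring, show ℓ * (ℓ / 200) = ℓ ^ 2 / 200 by ring]
      exact h6.trans h5
    have h7 : 15 * R ≤ κ * R := mul_le_mul_of_nonneg_right (by linarith) hR0
    linarith
  by_cases h3 : B0 ≤ (N : ℝ) ^ (1 / 60 : ℝ)
  · obtain ⟨y, hy, hyy⟩ := hcell N X Y ρ hN hX ⟨y0, hy0⟩ hYX hρ (fun y hy => by
      have h4 := (h1 y hy).le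
      have h5 := hA1 y hy
      calc Aq N (ρ y).1 (ρ y).2 ^ 2 ≤ Real.sqrt ℓ ^ 2 := pow_le_pow_left₀ (by linarith) h4 2
        _ = ℓ := Real.sq_sqrt (by linarith)) h3 (not_lt.1 h2) hL1
    exact ⟨y, hy, hfin y K3 (by linarith) hyy⟩
  · apply hbig
    have h4 : ℓ / 60 ≤ Real.log B0 := by
      have := Real.log_le_log (Real.rpow_pos_of_pos hN0 _) (not_le.1 h3).le
      rw [Real.log_rpow hN0] at this
      linarith
    have h5 : 120 * Real.log B0 * (1 / 2) ≤ 120 * Real.log B0 * R :=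
      mul_le_mul_of_nonneg_left hR2 (by positivity)
    have h6 : κ * R = 15 * R + 120 * Real.log B0 * R := by rw [hκ]; ring
    linarith

/-- pinned version: one point of `Y` has many distances to `X` -/
theorem T_pinD (D : ℕ) (hD : 1 ≤ D) : ∃ c : ℝ, 0 < c ∧
    ∀ (N : ℕ) (X : Finset (ℤ × ℤ)) (Y : Finset (ℝ × ℝ)),
    2 ≤ N → X ⊆ Bx N → X.Nonempty → Y.Nonempty → Y.card ≤ X.card →
    ∃ y ∈ Y, c * (((X.card : ℝ) ^ 2 / (N : ℝ) ^ 2) /
      Real.sqrt (Real.log N * (1 + Real.log ((N : ℝ) ^ 2 / Y.card)))) ≤ TrD D X {y} := by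
  obtain ⟨Kt, hKt, h⟩ := TBD_main D hD
  refine ⟨1 / Kt, by positivity, fun N X Y hN hX _ hYne hYX => ?_⟩
  obtain ⟨y, hy, h1⟩ := h N X Y hN hX hYne hYX
  refine ⟨y, hy, ?_⟩
  rw [one_div, inv_mul_le_iff₀ hKt]
  exact div_le_of_le_mul₀ (Real.sqrt_nonneg _) (by positivity) h1

theorem T_lowerD (D : ℕ) (hD : 1 ≤ D) : ∃ c : ℝ, 0 < c ∧
    ∀ (N : ℕ) (X : Finset (ℤ × ℤ)) (Y : Finset (ℝ × ℝ)),
    2 ≤ N → X ⊆ Bx N → X.Nonempty → X.card = Y.card →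
    c * (((X.card : ℝ) ^ 2 / (N : ℝ) ^ 2) /
      Real.sqrt (Real.log N * (1 + Real.log ((N : ℝ) ^ 2 / X.card)))) ≤ TrD D X Y := by
  obtain ⟨c, hc, h⟩ := T_pinD D hD
  refine ⟨c, hc, ?_⟩
  intro N X Y hN hX hX0 hXY
  have hY0 : Y.Nonempty := by
    rw [← Finset.card_pos, ← hXY, Finset.card_pos]
    exact hX0
  obtain ⟨y, hy, h1⟩ := h N X Y hN hX hX0 hY0 hXY.ge
  rw [hXY] at *
  refine h1.trans ?_
  have : TrD D X {y} ≤ TrD D X Y := by
    unfold TrD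
    apply Finset.card_le_card
    apply Finset.image_subset_image
    apply Finset.product_subset_product_right
    exact Finset.singleton_subset_iff.mpr hy
  exact_mod_cast this

end Pool.Agent.DL
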