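import Pool.Agent.helper41.DL.GeoD

/-! # The isosceles pairs of a fixed small direction -/

set_option autoImplicit false
open scoped Classical

open Finset Pool.Agent.DG

namespace Pool.Agent.DL

theorem TypeID_sum_Ico (M : ℕ) (F : ℤ → ℝ) :
    ∑ x ∈ Finset.Ico (0 : ℤ) M, F x = ∑ i ∈ range M, F i := by
  have h : Finset.Ico (0 : ℤ) M = (range M).map ⟨(Nat.cast : ℕ → ℤ), Nat.cast_injective⟩ := by
    ext x
    simp only [Finset.mem_Ico, Finset.mem_map, Finset.mem_range, Function.Embedding.coeFn_mk]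
    constructor
    · rintro ⟨h1, h2⟩
      exact ⟨x.toNat, by omega, by omega⟩
    · rintro ⟨i, h1, rfl⟩
      exact ⟨by omega, by exact_mod_cast h1⟩
  rw [h, Finset.sum_map]
  rfl

theorem TypeID_sum_box (M : ℕ) (F : ℤ × ℤ → ℝ) :
    ∑ x ∈ Bx M, F x =
      ∑ i ∈ range M, ∑ j ∈ range M, F (((0 : ℤ × ℤ).1 + i : ℤ), ((0 : ℤ × ℤ).2 + j : ℤ)) := by
  unfold Bx
  rw [Finset.sum_product, TypeID_sum_Ico M fun x => ∑ y ∈ Finset.Ico (0 : ℤ) M, F (x, y)]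
  refine Finset.sum_congr rfl fun i _ => ?_
  rw [TypeID_sum_Ico M fun y => F ((i : ℤ), y)]
  refine Finset.sum_congr rfl fun j _ => ?_
  simp

theorem TypeID_mem {D N : ℕ} {w : ℝ} {p : ℕ} (hp : p ∈ IND D N w) :
    p.Prime ∧ ¬ p ∣ 2 * D ∧ w < (p : ℝ) := by
  obtain ⟨h1, h2, -, h3, -⟩ := mem_ID.1 hp
  exact ⟨h1, h2, h3⟩

theorem TypeID_ndvd {D N : ℕ} {w : ℝ} {q : ℤ} (hq : 1 ≤ q) (hqw : (q : ℝ) ≤ w) {p : ℕ}
    (hp : p ∈ IND D N w) : ¬ (p : ℤ) ∣ q := by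
  intro h
  have h1 := Int.le_of_dvd (by omega) h
  have h2 : (p : ℝ) ≤ (q : ℝ) := by exact_mod_cast h1
  have h3 := (TypeID_mem hp).2.2
  linarith

theorem TypeID_nbD_le (D : ℕ) (q r : ℤ × ℤ) (p : ℕ) (v : ℤ × ℤ) :
    0 ≤ nbD D q r p v ∧ nbD D q r p v ≤ 1 := by
  unfold nbD
  split_ifs <;> norm_num

theorem TypeID_prod_nonneg (D : ℕ) (I : Finset ℕ) (q r v : ℤ × ℤ) :
    0 ≤ ∏ p ∈ I, (1 - 3 / 4 * nbD D q r p v) := by
  refine Finset.prod_nonneg fun p _ => ?_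
  have := TypeID_nbD_le D q r p v
  linarith [this.2]

/-- the factors with the logarithms -/
theorem TypeID_log {a b c : ℝ} (ha : 0 ≤ a) (hc : 0 < c) (hcb : (1 / 2) * c ≤ b) :
    (a / (1 + b)) ^ (3 / 4 : ℝ) ≤ 2 * (a / c) ^ (3 / 4 : ℝ) := by
  have hb : 0 < 1 + b := by linarith
  have h1 : a / (1 + b) ≤ 2 * (a / c) := by
    rw [div_le_iff₀ hb]
    have h2 : 2 * (a / c) * (1 + b) = a * ((2 * (1 + b)) / c) := by ring
    rw [h2]
    have h3 : 1 ≤ (2 * (1 + b)) / c := by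
      rw [one_le_div hc]
      linarith
    nlinarith
  have h4 : 0 ≤ a / c := div_nonneg ha hc.le
  calc (a / (1 + b)) ^ (3 / 4 : ℝ) ≤ (2 * (a / c)) ^ (3 / 4 : ℝ) :=
        Real.rpow_le_rpow (div_nonneg ha hb.le) h1 (by norm_num)
    _ = 2 ^ (3 / 4 : ℝ) * (a / c) ^ (3 / 4 : ℝ) := Real.mul_rpow (by norm_num) h4
    _ ≤ 2 * (a / c) ^ (3 / 4 : ℝ) := by
        refine mul_le_mul_of_nonneg_right ?_ (Real.rpow_nonneg h4 _)
        calc (2 : ℝ) ^ (3 / 4 : ℝ) ≤ 2 ^ (1 : ℝ) :=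
              Real.rpow_le_rpow_of_exponent_le (by norm_num) (by norm_num)
          _ = 2 := Real.rpow_one 2

theorem TypeID_Gw_nonneg (I : Finset ℕ) (hI : ∀ p ∈ I, p.Prime) (m : ℕ) : 0 ≤ Gw I m := by
  unfold Gw
  refine Finset.prod_nonneg fun p hp => ?_
  split_ifs
  · unfold kp
    have h1 : (0 : ℝ) < p := by exact_mod_cast (hI p hp).pos
    have h2 : 0 < 1 / (2 * (p : ℝ)) := by positivity
    linarith
  · exact zero_le_one

theorem typeI_fixedD (D : ℕ) (hD : 1 ≤ D) : ∃ C C1 : ℝ, 0 < C ∧ 10 ≤ C1 ∧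
    ∀ (N : ℕ) (w : ℝ) (q : ℤ) (a e : ℤ × ℤ),
    2 ≤ N → C1 ≤ w → w ≤ N → 1 ≤ q → (q : ℝ) ≤ w → IsCoprime e.1 e.2 → sn e ^ 2 ≤ N →
    ∑ t ∈ PeD D N q a e, wt (IND D N w) (1 / 4) (nsqD D (qv q a t.1)) ≤
      C * ((N : ℝ) / sn e) ^ 2 * (Real.log w / Real.log N) ^ (3 / 4 : ℝ) *
        Gw (IND D N w) (nsqD D e) := by
  obtain ⟨C, C1, hC, hC1, H⟩ := sieve_innerD D hD
  refine ⟨2 * (2 * (D : ℝ) + 1) ^ 2 * C, C1 + (2 * (D : ℝ) + 1), by positivity,
    by linarith [(Nat.cast_nonneg D : (0 : ℝ) ≤ D)], ?_⟩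
  intro N w q a e hN hw0 hwN hq hqw he hsn
  have hD0 : (0 : ℝ) ≤ D := Nat.cast_nonneg D
  have hD1 : (1 : ℝ) ≤ D := by exact_mod_cast hD
  have hw : C1 ≤ w := by linarith
  have hI : ∀ p ∈ IND D N w, p.Prime := fun p hp => (TypeID_mem hp).1
  have hs1 : 1 ≤ sn e := by
    by_contra hcon
    have h0 : sn e = 0 := by omega
    unfold sn at h0
    have h1 : e.1 = 0 := by omega
    have h2 : e.2 = 0 := by omega
    rw [h1, h2, isCoprime_zero_left] at he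
    exact not_isUnit_zero he
  have hsN : sn e ≤ N := le_trans (Nat.le_self_pow (by norm_num) _) hsn
  have hs0 : (0 : ℝ) < sn e := by exact_mod_cast hs1
  have hN0 : (0 : ℝ) < N := by positivity
  have hN10 : 2 * (D : ℝ) + 1 ≤ N := by linarith
  have hN10' : 2 * D + 1 ≤ N := by exact_mod_cast hN10
  obtain ⟨d0, f, hf, hft⟩ := Pe_paramD (N := N) (a := a) hD hq he
  set M : ℕ := 2 * D * N / sn e + 1 with hM
  have hMle : (M : ℝ) ≤ (2 * (D : ℝ) + 1) * ((N : ℝ) / sn e) := by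
    have h1 : ((2 * D * N / sn e : ℕ) : ℝ) ≤ ((2 * D * N : ℕ) : ℝ) / sn e := Nat.cast_div_le
    have h2 : (1 : ℝ) ≤ (N : ℝ) / sn e := by
      rw [one_le_div hs0]
      exact_mod_cast hsN
    rw [hM]
    push_cast at h1 ⊢
    have h3 : 2 * (D : ℝ) * (N : ℝ) / sn e = 2 * (D : ℝ) * ((N : ℝ) / sn e) := by ring
    rw [h3] at h1
    linarith
  have hMge : (N : ℝ) / sn e ≤ M := by
    have h1 : 2 * D * N < sn e * (2 * D * N / sn e + 1) := by
      have := Nat.lt_mul_div_succ (2 * D * N) (show 0 < sn e by omega)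
      exact this
    rw [div_le_iff₀ hs0]
    have h2 : ((2 * D * N : ℕ) : ℝ) < ((sn e * M : ℕ) : ℝ) := by exact_mod_cast h1
    push_cast at h2
    nlinarith
  have hMN : M ≤ N ^ 2 := by
    have h1 : 2 * D * N / sn e ≤ 2 * D * N := Nat.div_le_self _ _
    have h2 : 2 * D * N + 1 ≤ N ^ 2 := by nlinarith
    omega
  -- the weights
  set g : ℤ × ℤ → ℝ := fun v => ∏ p ∈ (IND D N w).filter (fun p => ¬ p ∣ nsqD D e),
    (1 - 3 / 4 * nbD D (q, q) (d0, 0) p v) with hg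
  have hwt : ∀ t ∈ PeD D N q a e, wt (IND D N w) (1 / 4) (nsqD D (qv q a t.1)) =
      (∏ p ∈ (IND D N w).filter (fun p => p ∣ nsqD D e), (1 / 4 : ℝ)) * g (f t).swap := by
    intro t ht
    obtain ⟨-, -, -, -, h5⟩ := hft t ht
    rw [wt_splitD D (IND D N w) (fun p hp => ⟨(TypeID_mem hp).1, (TypeID_mem hp).2.1⟩) _ _ _ h5]
    congr 1
    refine Finset.prod_congr rfl fun p _ => ?_
    unfold nbD
    simp only [add_zero, Prod.fst_swap, Prod.snd_swap]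
    rw [add_comm ((q * (f t).2 + d0) ^ 2)]
  have hf' : Set.InjOn (fun t => (f t).swap) (PeD D N q a e) := by
    intro s hs t ht hst
    exact hf hs ht (Prod.swap_injective hst)
  have hsum : ∑ t ∈ PeD D N q a e, g (f t).swap ≤ ∑ i ∈ range M, ∑ j ∈ range M,
      g ((0 : ℤ × ℤ).1 + i, (0 : ℤ × ℤ).2 + j) := by
    rw [← TypeID_sum_box M g, ← Finset.sum_image (f := g) (g := fun t => (f t).swap) hf']
    refine Finset.sum_le_sum_of_subset_of_nonneg ?_ fun v _ _ => TypeID_prod_nonneg _ _ _ _ _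
    intro v hv
    obtain ⟨t, ht, rfl⟩ := Finset.mem_image.1 hv
    obtain ⟨h1, h2, h3, h4, -⟩ := hft t ht
    have hlt : ∀ z : ℤ, 0 ≤ z → z * (sn e : ℤ) ≤ 2 * D * N → z < M := by
      intro z hz0 hz
      obtain ⟨n, rfl⟩ := Int.eq_ofNat_of_zero_le hz0
      have h6 : n * sn e ≤ 2 * D * N := by exact_mod_cast hz
      have h7 : n ≤ 2 * D * N / sn e := (Nat.le_div_iff_mul_le (by omega)).2 h6
      rw [hM]
      exact Int.ofNat_lt.2 (Nat.lt_succ_of_le h7)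
    have h8 : (N : ℤ) ≤ 2 * D * N := by
      have : (1 : ℤ) ≤ D := by exact_mod_cast hD
      have hN0' : (0 : ℤ) ≤ N := Int.natCast_nonneg N
      nlinarith
    unfold Bx
    rw [Finset.mem_product, Finset.mem_Ico, Finset.mem_Ico]
    have h9 : (0 : ℤ) ≤ (f t).1 := by linarith
    exact ⟨⟨h2, hlt (f t).2 h2 h4⟩, ⟨h9, hlt (f t).1 h9 (by linarith)⟩⟩
  have hA0 : 0 ≤ ∏ p ∈ (IND D N w).filter (fun p => p ∣ nsqD D e), (1 / 4 : ℝ) :=
    Finset.prod_nonneg fun p _ => by norm_num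
  have hkey := H N M (nsqD D e) w (q, q) (d0, 0) 0 hN hw hwN
    (by rw [hM]; exact Nat.le_add_left 1 _) hMN
    (fun p hp => ⟨TypeID_ndvd hq hqw hp, TypeID_ndvd hq hqw hp⟩)
  -- logarithms
  have hlw : 0 ≤ Real.log w := Real.log_nonneg (by linarith)
  have hlN : 0 < Real.log N := Real.log_pos (by linarith)
  have hM0 : (0 : ℝ) < M := by
    have : 0 < (N : ℝ) / sn e := by positivity
    linarith
  have hlM : (1 / 2) * Real.log N ≤ Real.log M := by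
    have h1 : Real.log ((N : ℝ) / sn e) ≤ Real.log M := Real.log_le_log (by positivity) hMge
    rw [Real.log_div hN0.ne' hs0.ne'] at h1
    have h2 : Real.log ((sn e : ℝ) ^ 2) ≤ Real.log N :=
      Real.log_le_log (by positivity) (by exact_mod_cast hsn)
    rw [Real.log_pow] at h2
    push_cast at h2
    linarith
  have hL := TypeID_log hlw hlN hlM
  have hG0 := TypeID_Gw_nonneg (IND D N w) hI (nsqD D e)
  have hLp : 0 ≤ (Real.log w / Real.log N) ^ (3 / 4 : ℝ) :=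
    Real.rpow_nonneg (div_nonneg hlw hlN.le) _
  calc ∑ t ∈ PeD D N q a e, wt (IND D N w) (1 / 4) (nsqD D (qv q a t.1))
      = (∏ p ∈ (IND D N w).filter (fun p => p ∣ nsqD D e), (1 / 4 : ℝ)) *
          ∑ t ∈ PeD D N q a e, g (f t).swap := by
        rw [Finset.mul_sum]
        exact Finset.sum_congr rfl hwt
    _ ≤ (∏ p ∈ (IND D N w).filter (fun p => p ∣ nsqD D e), (1 / 4 : ℝ)) *
          (C * (M : ℝ) ^ 2 * (Real.log w / (1 + Real.log M)) ^ (3 / 4 : ℝ) *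
            ∏ p ∈ (IND D N w).filter (fun p => p ∣ nsqD D e), (1 + 2 / (p : ℝ))) :=
        mul_le_mul_of_nonneg_left (hsum.trans hkey) hA0
    _ = C * (M : ℝ) ^ 2 * (Real.log w / (1 + Real.log M)) ^ (3 / 4 : ℝ) *
          Gw (IND D N w) (nsqD D e) := by
        rw [← Gw_eq (IND D N w) hI (nsqD D e)]
        ring
    _ ≤ C * ((2 * (D : ℝ) + 1) * ((N : ℝ) / sn e)) ^ 2 *
          (2 * (Real.log w / Real.log N) ^ (3 / 4 : ℝ)) *
          Gw (IND D N w) (nsqD D e) := by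
        refine mul_le_mul_of_nonneg_right ?_ hG0
        refine mul_le_mul ?_ hL (Real.rpow_nonneg (div_nonneg hlw (by linarith)) _) (by positivity)
        refine mul_le_mul_of_nonneg_left ?_ hC.le
        exact pow_le_pow_left₀ hM0.le hMle 2
    _ = 2 * (2 * (D : ℝ) + 1) ^ 2 * C * ((N : ℝ) / sn e) ^ 2 *
          (Real.log w / Real.log N) ^ (3 / 4 : ℝ) * Gw (IND D N w) (nsqD D e) := by ring

/-- the diagonal -/
theorem diag_leD (D : ℕ) (hD : 1 ≤ D) : ∃ C C1 : ℝ, 0 < C ∧ 10 ≤ C1 ∧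
    ∀ (N : ℕ) (w : ℝ) (q : ℤ) (a : ℤ × ℤ),
    2 ≤ N → C1 ≤ w → w ≤ N → 1 ≤ q → (q : ℝ) ≤ w →
    ∑ x ∈ Bx N, wt (IND D N w) (1 / 4) (nsqD D (qv q a x)) ≤
      C * (N : ℝ) ^ 2 * (Real.log w / Real.log N) ^ (3 / 4 : ℝ) := by
  obtain ⟨C, C1, hC, hC1, H⟩ := sieve_innerD D hD
  refine ⟨2 * C, C1, by positivity, hC1, ?_⟩
  intro N w q a hN hw hwN hq hqw
  have hN10 : (10 : ℝ) ≤ N := by linarith
  have hkey := H N N 1 w (q, q) (-a.1, -a.2) 0 hN hw hwN (by omega)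
    (Nat.le_self_pow (by norm_num) _)
    (fun p hp => ⟨TypeID_ndvd hq hqw hp, TypeID_ndvd hq hqw hp⟩)
  have hf1 : (IND D N w).filter (fun p => ¬ p ∣ 1) = IND D N w := by
    refine Finset.filter_true_of_mem fun p hp h => ?_
    exact (TypeID_mem hp).1.one_lt.ne' (Nat.dvd_one.1 h)
  have hf2 : (IND D N w).filter (fun p => p ∣ 1) = ∅ := by
    refine Finset.filter_false_of_mem fun p hp h => ?_
    exact (TypeID_mem hp).1.one_lt.ne' (Nat.dvd_one.1 h)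
  rw [hf1, hf2, Finset.prod_empty, mul_one] at hkey
  have hwt : ∀ x : ℤ × ℤ, wt (IND D N w) (1 / 4) (nsqD D (qv q a x)) =
      ∏ p ∈ IND D N w, (1 - 3 / 4 * nbD D (q, q) (-a.1, -a.2) p x) := by
    intro x
    unfold wt
    refine Finset.prod_congr rfl fun p _ => ?_
    have h1 : p ∣ nsqD D (qv q a x) ↔
        (p : ℤ) ∣ (q * x.1 + -a.1) ^ 2 + D * (q * x.2 + -a.2) ^ 2 := by
      unfold nsqD qv
      rw [← Int.natCast_dvd]
      simp only [sub_eq_add_neg]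
    unfold nbD
    by_cases h : p ∣ nsqD D (qv q a x)
    · rw [if_pos h, if_pos (h1.1 h)]
      norm_num
    · rw [if_neg h, if_neg fun h2 => h (h1.2 h2)]
      norm_num
  rw [Finset.sum_congr rfl fun x _ => hwt x,
    TypeID_sum_box N fun x => ∏ p ∈ IND D N w, (1 - 3 / 4 * nbD D (q, q) (-a.1, -a.2) p x)]
  have hlw : 0 ≤ Real.log w := Real.log_nonneg (by linarith)
  have hlN : 0 < Real.log N := Real.log_pos (by linarith)
  have hL := TypeID_log hlw hlN (show (1 / 2) * Real.log N ≤ Real.log N by linarith)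
  refine hkey.trans ?_
  calc C * (N : ℝ) ^ 2 * (Real.log w / (1 + Real.log N)) ^ (3 / 4 : ℝ)
      ≤ C * (N : ℝ) ^ 2 * (2 * (Real.log w / Real.log N) ^ (3 / 4 : ℝ)) :=
        mul_le_mul_of_nonneg_left hL (by positivity)
    _ = 2 * C * (N : ℝ) ^ 2 * (Real.log w / Real.log N) ^ (3 / 4 : ℝ) := by ring

end Pool.Agent.DL
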