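import Pool.Agent.helper41.DL.FinL

/-! # The theorem for arbitrary lattices, similar copies -/

set_option autoImplicit false
open scoped Classical

open Finset Pool.Agent.DG

namespace Pool.Agent.DL

/-- similarities of the plane are bijective -/
theorem Wrap_surj (φ : EuclideanSpace ℝ (Fin 2) → EuclideanSpace ℝ (Fin 2)) (r : ℝ) (hr : 0 < r)
    (h : ∀ p q, dist (φ p) (φ q) = r * dist p q) : Function.Surjective φ := by
  have hiso : Isometry (fun p => φ (r⁻¹ • p)) := by
    refine Isometry.of_dist_eq ?_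
    intro p q
    rw [h, dist_smul₀, Real.norm_eq_abs, abs_of_pos (inv_pos.mpr hr), ← mul_assoc,
      mul_inv_cancel₀ hr.ne', one_mul]
  have hsurj : Function.Surjective (fun p => φ (r⁻¹ • p)) := by
    have h1 := hiso.affineIsometryOfStrictConvexSpace.toAffineMap
    have h2 : Function.Injective
        hiso.affineIsometryOfStrictConvexSpace.toAffineMap.linear := by
      exact hiso.affineIsometryOfStrictConvexSpace.linearIsometry.injective
    have h3 : Function.Surjective
        hiso.affineIsometryOfStrictConvexSpace.toAffineMap.linear :=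
      LinearMap.injective_iff_surjective.mp h2
    have h4 : Function.Surjective hiso.affineIsometryOfStrictConvexSpace.toAffineMap :=
      (AffineMap.linear_surjective_iff _).mp h3
    intro y
    obtain ⟨x, hx⟩ := h4 y
    exact ⟨x, hx⟩
  intro y
  obtain ⟨x, hx⟩ := hsurj y
  exact ⟨_, hx⟩

theorem pin_similar (a b : EuclideanSpace ℝ (Fin 2)) (hab : LinearIndependent ℝ ![a, b]) :
    ∃ C : ℝ, 0 < C ∧ ∀ (φ : EuclideanSpace ℝ (Fin 2) → EuclideanSpace ℝ (Fin 2)) (r : ℝ), 0 < r →
      (∀ p q, dist (φ p) (φ q) = r * dist p q) →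
      ∀ n N : ℕ, ∀ x y : Fin n → EuclideanSpace ℝ (Fin 2), Function.Injective (Sum.elim x y) →
      ∀ S J : Finset (Fin n), J.Nonempty → J.card ≤ S.card →
        (∀ i ∈ S, ∃ s t : ℕ, s < N ∧ t < N ∧ x i = φ ((s : ℝ) • a + (t : ℝ) • b)) →
        ∃ P : Finset (EuclideanSpace ℝ (Fin 2)), P.card = 2 * n ∧ ∃ j ∈ J,
          ((P.offDiag.image (fun p => dist p.1 p.2)).card : ℝ) ≤
            C * (((n : ℝ) / S.card) * ((N : ℝ) ^ 2 / S.card) *
              (1 + Real.log ((N : ℝ) ^ 2 / J.card))) *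
              ((S.image (fun i => dist (x i) (y j))).card : ℝ) := by
  obtain ⟨C, hC, H⟩ := dense_pinL a b hab
  refine ⟨C, hC, ?_⟩
  intro φ r hr h n N x y hxy S J hJ hJS hx
  have hinj : Function.Injective φ := by
    intro p q hpq
    have h1 := h p q
    rw [hpq, dist_self] at h1
    have h2 : dist p q = 0 := by
      rcases mul_eq_zero.mp h1.symm with h3 | h3
      · exact absurd h3 hr.ne'
      · exact h3
    exact dist_eq_zero.mp h2
  obtain ⟨ψ, hψ⟩ := (Wrap_surj φ r hr h).hasRightInverse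
  have hd : ∀ p q, dist (ψ p) (ψ q) = r⁻¹ * dist p q := by
    intro p q
    have h1 := h (ψ p) (ψ q)
    rw [hψ p, hψ q] at h1
    rw [h1, ← mul_assoc, inv_mul_cancel₀ hr.ne', one_mul]
  have hψi : Function.Injective ψ := by
    intro p q hpq
    rw [← hψ p, ← hψ q, hpq]
  have hxy' : Function.Injective (Sum.elim (ψ ∘ x) (ψ ∘ y)) := by
    rw [← Sum.comp_elim]
    exact hψi.comp hxy
  obtain ⟨P, hP, j, hj, hb⟩ := H n N 0 (ψ ∘ x) (ψ ∘ y) hxy' S J hJ hJS (by
    intro i hi
    obtain ⟨s, t, hs, ht, e⟩ := hx i hi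
    refine ⟨s, t, hs, ht, ?_⟩
    rw [zero_add]
    apply hinj
    show φ (ψ (x i)) = _
    rw [hψ, e])
  refine ⟨P, hP, j, hj, ?_⟩
  have hc : (S.image (fun i => dist ((ψ ∘ x) i) ((ψ ∘ y) j))).card =
      (S.image (fun i => dist (x i) (y j))).card := by
    have e : (fun i => dist ((ψ ∘ x) i) ((ψ ∘ y) j)) =
        (fun t : ℝ => r⁻¹ * t) ∘ (fun i => dist (x i) (y j)) := by
      funext i
      exact hd _ _
    rw [e, ← Finset.image_image, Finset.card_image_of_injective]
    intro s t hst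
    exact mul_left_cancel₀ (inv_pos.mpr hr).ne' hst
  rw [hc] at hb
  exact hb

end Pool.Agent.DL
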